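import Mathlib
import Pool.Agent.Helper10.Weil
import Pool.Agent.Helper10.Retract

/-!
# The point as a smooth projective variety
-/

universe u v w

open CategoryTheory Limits AlgebraicGeometry HomogeneousLocalization

namespace Pool.Agent.Helper11

open Pool.Agent.Helper10

attribute [local instance] MvPolynomial.gradedAlgebra

variable (k : Type u) [Field k]

/-- evaluation of degree zero fractions at `x_0 = 1` -/
noncomputable def evalOne : Away (MvPolynomial.homogeneousSubmodule (Fin (0 + 1)) k)
    (MvPolynomial.X 0 : MvPolynomial (Fin (0 + 1)) k) →+* k :=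
  (IsLocalization.lift (M := Submonoid.powers (MvPolynomial.X 0 : MvPolynomial (Fin (0 + 1)) k))
    (S := Localization (Submonoid.powers (MvPolynomial.X 0 : MvPolynomial (Fin (0 + 1)) k)))
    (g := (MvPolynomial.eval fun _ => (1 : k))) (by
      rintro ⟨_, j, rfl⟩
      simp)).comp (algebraMap _ _)

lemma evalOne_fromZero (a : k) : evalOne k (fromZeroRingHom _ _
    (algebraMap k (MvPolynomial.homogeneousSubmodule (Fin (0 + 1)) k 0) a)) = a := by
  have h1 : (algebraMap (Away (MvPolynomial.homogeneousSubmodule (Fin (0 + 1)) k)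
      (MvPolynomial.X 0 : MvPolynomial (Fin (0 + 1)) k))
      (Localization (Submonoid.powers (MvPolynomial.X 0 : MvPolynomial (Fin (0 + 1)) k))))
      (fromZeroRingHom _ _
        (algebraMap k (MvPolynomial.homogeneousSubmodule (Fin (0 + 1)) k 0) a)) =
      algebraMap _ _ (MvPolynomial.C a : MvPolynomial (Fin (0 + 1)) k) := rfl
  rw [evalOne, RingHom.comp_apply, h1, IsLocalization.lift_eq, MvPolynomial.eval_C]

/-- the section `Spec k ⟶ ℙ⁰` -/
noncomputable def ptSection : Over.mk (𝟙 (Spec (CommRingCat.of k))) ⟶ projSpace k 0 :=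
  Over.homMk (Spec.map (CommRingCat.ofHom (evalOne k)) ≫
    Proj.awayι (MvPolynomial.homogeneousSubmodule (Fin (0 + 1)) k)
      (MvPolynomial.X 0 : MvPolynomial (Fin (0 + 1)) k) (m := 1)
      (MvPolynomial.isHomogeneous_X _ _) one_pos) (by
    unfold projSpace
    simp only [Over.mk_hom, Over.mk_left]
    rw [Category.assoc, Proj.awayι_toSpecZero_assoc, ← Spec.map_comp, ← Spec.map_comp]
    rw [← Spec.map_id]
    congr 1
    ext a
    exact evalOne_fromZero k a)

instance : IsClosedImmersion (ptSection k).left := by
  have h1 : IsClosedImmersion ((ptSection k).left ≫ (projSpace k 0).hom) := by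
    rw [Over.w]
    dsimp
    infer_instance
  exact IsClosedImmersion.of_comp (ptSection k).left (projSpace k 0).hom

/-- The point `Spec k`. -/
noncomputable def pt : SmProjVar k where
  toOver := Over.mk (𝟙 (Spec (CommRingCat.of k)))
  dim := 0
  smooth := by dsimp; infer_instance
  geomIntegral := by
    dsimp
    refine ⟨fun K _ x W a b h ↦ ?_⟩
    have h1 : IsIso b := (MorphismProperty.isomorphisms _).of_isPullback h (.infer_property _)
    have : Nonempty W := ⟨(inv b) (Nonempty.some inferInstance)⟩
    exact isIntegral_of_isOpenImmersion b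
  projective := .closed (ptSection k) inferInstance (.projSpace 0)

@[simp] lemma pt_dim : (pt k).dim = 0 := rfl

/-- the morphism to the point -/
noncomputable def toPt (X : SmProjVar k) : X.toOver ⟶ (pt k).toOver :=
  Over.homMk X.toOver.hom (by dsimp [pt]; exact Category.comp_id _)

variable {k} {K : Type v} [Field K] [CharZero K] (W : WeilCohomology.{u, v, w} k K)

/-- Standard conjecture D holds for zero-dimensional varieties. -/
theorem standardD_of_dim_eq_zero (X : SmProjVar k) (hX : X.dim = 0) : W.StandardD X := by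
  intro j a b hab
  change W.cy X j a = W.cy X j b
  rcases Nat.eq_zero_or_pos j with rfl | hj
  · obtain ⟨c, -, hc⟩ := W.cycleClasses.cy_fundamental X
    have h1 := hab 0 (by omega) c
    have h2 : W.tr X (W.cy X 0 a) = W.tr X (W.cy X 0 b) := by
      have h3 := W.cycleClasses.tr_cy_mul X 0 0 a c (by omega)
      have h4 := W.cycleClasses.tr_cy_mul X 0 0 b c (by omega)
      rw [hc, mul_one] at h3 h4
      rw [h3, h4, h1]
    obtain ⟨x, -, hx⟩ := (W.trace X).bijective (W.tr X (W.cy X 0 b))
    have hm : ∀ c : X.Z 0, W.cy X 0 c ∈ W.gr X (2 * X.dim) := by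
      intro c
      rw [hX]
      exact W.cycleClasses.cy_mem X 0 c
    rw [hx _ ⟨hm a, h2⟩, hx _ ⟨hm b, rfl⟩]
  · have h0 : ∀ c : X.Z j, W.cy X j c = 0 := by
      intro c
      have h1 := W.cycleClasses.cy_mem X j c
      rwa [(W.graded X).eq_bot (2 * j) (by omega), Submodule.mem_bot] at h1
    rw [h0, h0]

lemma selfProd_dim (X : SmProjVar k) (hX : X.dim = 0) (n : ℕ) : (X.selfProd n).dim = 0 := by
  induction n with
  | zero => exact hX
  | succ n ih =>
    change X.dim + (X.selfProd n).dim = 0
    rw [hX, ih]

/-- Standard conjecture D holds for the powers of a zero-dimensional variety. -/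
theorem standardD_selfProd_of_dim_eq_zero (X : SmProjVar k) (hX : X.dim = 0) (n : ℕ) :
    W.StandardD (X.selfProd n) :=
  standardD_of_dim_eq_zero W _ (selfProd_dim X hX n)

/-- Every variety is a retract of its product with the point. -/
lemma retract_pt_prod (X : SmProjVar k) : SmProjVar.Retract X ((pt k).prod X) :=
  ⟨SmProjVar.lift (toPt k X) (𝟙 _), SmProjVar.snd _ _, by rw [SmProjVar.lift_snd]⟩

end Pool.Agent.Helper11
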