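import Mathlib
import Pool.Agent.Helper10.RowDet
import Pool.Agent.Helper10.GIT.Integral

/-!
# Products of two ordered determinants
-/

open Finset

namespace Pool.Agent.Helper11.RowDetDual

open Pool.Agent.Helper10 Pool.Agent.Helper10.GIT

variable {Ω : Type*} [Field Ω] {A : Type*} [Ring A] [Algebra Ω A]

lemma anti_perm [CharZero Ω] {J : Type*} [Fintype J] [DecidableEq J] (u : J → A)
    (hu : ∀ p q, u p * u q = -(u q * u p)) {k : ℕ} (v : Fin k → J) (τ : Equiv.Perm (Fin k)) :
    (List.ofFn fun i => u (v (τ i))).prod =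
      ((Equiv.Perm.sign τ : ℤ) : Ω) • (List.ofFn fun i => u (v i)).prod := by
  let f : (J → Ω) →ₗ[Ω] A := Fintype.linearCombination Ω u
  have hf : ∀ p, f (Pi.single p 1) = u p := by
    intro p
    rw [Fintype.linearCombination_apply_single, one_smul]
  have hsq : ∀ w, f w * f w = 0 := by
    intro w
    have h1 : f w = ∑ p, w p • u p := Fintype.linearCombination_apply Ω u w
    have h2 : f w * f w = -(f w * f w) := by
      rw [h1, sum_mul_sum]
      conv_rhs => rw [sum_comm, ← sum_neg_distrib]
      refine sum_congr rfl fun p _ => ?_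
      rw [← sum_neg_distrib]
      refine sum_congr rfl fun q _ => ?_
      rw [smul_mul_smul_comm, smul_mul_smul_comm, hu p q, smul_neg, mul_comm (w p)]
    have h3 : (2 : Ω) • (f w * f w) = 0 := by
      rw [two_smul]
      nth_rewrite 1 [h2]
      exact neg_add_cancel _
    exact (smul_eq_zero.mp h3).resolve_left two_ne_zero
  let L := ExteriorAlgebra.lift Ω ⟨f, hsq⟩
  have hL : ∀ w : Fin k → J, L (ExteriorAlgebra.ιMulti Ω k fun i => Pi.single (w i) (1 : Ω)) =
      (List.ofFn fun i => u (w i)).prod := by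
    intro w
    rw [ExteriorAlgebra.ιMulti_apply, map_list_prod, List.map_ofFn]
    congr 2
    funext i
    change L (ExteriorAlgebra.ι Ω (Pi.single (w i) (1 : Ω))) = _
    rw [ExteriorAlgebra.lift_ι_apply, hf]
  rw [← hL, ← hL]
  have h4 := AlternatingMap.map_perm (ExteriorAlgebra.ιMulti Ω k)
    (fun i => (Pi.single (v i) (1 : Ω) : J → Ω)) τ
  have h5 : (fun i => Pi.single (v (τ i)) (1 : Ω)) =
      (fun i => (Pi.single (v i) (1 : Ω) : J → Ω)) ∘ τ := rfl
  rw [h5, h4, Units.smul_def, map_zsmul, Int.cast_smul_eq_zsmul]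

lemma comm_perm {J : Type*} (u : J → A)
    (hu : ∀ p q, u p * u q = u q * u p) {k : ℕ} (v : Fin k → J) (τ : Equiv.Perm (Fin k)) :
    (List.ofFn fun i => u (v (τ i))).prod = (List.ofFn fun i => u (v i)).prod := by
  have h1 : (List.ofFn fun i => u (v (τ i))).Perm (List.ofFn fun i => u (v i)) :=
    Equiv.Perm.ofFn_comp_perm τ fun i => u (v i)
  refine h1.prod_eq' ?_
  rw [List.pairwise_ofFn]
  intro i j _
  exact hu _ _

/-- both cases at once -/
lemma eps_perm [CharZero Ω] {J : Type*} [Fintype J] [DecidableEq J] (u : J → A) (ε : Ω)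
    (hε : ε = 1 ∨ ε = -1) (hu : ∀ p q, u p * u q = ε • (u q * u p)) {k : ℕ}
    (τ : Equiv.Perm (Fin k)) : ∃ s : Ω, s * s = 1 ∧ ∀ (v : Fin k → J),
    (List.ofFn fun i => u (v (τ i))).prod = s • (List.ofFn fun i => u (v i)).prod := by
  rcases hε with rfl | rfl
  · refine ⟨1, mul_one _, fun v => ?_⟩
    rw [one_smul]
    exact comm_perm u (fun p q => by rw [hu p q, one_smul]) v τ
  · refine ⟨((Equiv.Perm.sign τ : ℤ) : Ω), ?_, fun v => ?_⟩
    · rcases Int.units_eq_one_or (Equiv.Perm.sign τ) with h | h <;> rw [h] <;> norm_num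
    · exact anti_perm u (fun p q => by rw [hu p q, neg_smul, one_smul]) v τ

lemma mul_prod_eps {J : Type*} (u : J → A) (ε : Ω) (hu : ∀ p q, u p * u q = ε • (u q * u p))
    (k : ℕ) (v : Fin k → J) (q : J) :
    u q * (List.ofFn fun i => u (v i)).prod = ε ^ k • ((List.ofFn fun i => u (v i)).prod * u q) := by
  induction k with
  | zero => simp
  | succ k ih =>
    rw [List.ofFn_succ, List.prod_cons, ← mul_assoc, hu q, smul_mul_assoc, mul_assoc, ih,
      mul_smul_comm, smul_smul, pow_succ', mul_assoc]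

lemma prod_mul_prod_eps {J : Type*} (u : J → A) (ε : Ω) (hε : ε * ε = 1)
    (hu : ∀ p q, u p * u q = ε • (u q * u p)) (k : ℕ) :
    ∃ s : Ω, s * s = 1 ∧ ∀ v w : Fin k → J, (List.ofFn fun i => u (v i) * u (w i)).prod =
      s • ((List.ofFn fun i => u (v i)).prod * (List.ofFn fun i => u (w i)).prod) := by
  induction k with
  | zero => exact ⟨1, mul_one _, fun v w => by simp⟩
  | succ k ih =>
    obtain ⟨s, hs, h⟩ := ih
    refine ⟨s * ε ^ k, ?_, fun v w => ?_⟩
    · have : (ε ^ k) * (ε ^ k) = 1 := by rw [← mul_pow, hε, one_pow]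
      calc s * ε ^ k * (s * ε ^ k) = (s * s) * (ε ^ k * ε ^ k) := by ring
        _ = 1 := by rw [hs, this, one_mul]
    · rw [List.ofFn_succ, List.prod_cons, h fun i => v i.succ, List.ofFn_succ, List.prod_cons,
        List.ofFn_succ (f := fun i => u (w i)), List.prod_cons]
      have h1 := mul_prod_eps u ε hu k (fun i => v i.succ) (w 0)
      calc u (v 0) * u (w 0) * s • ((List.ofFn fun i => u (v i.succ)).prod *
            (List.ofFn fun i => u (w i.succ)).prod)
          = s • (u (v 0) * (u (w 0) * (List.ofFn fun i => u (v i.succ)).prod) *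
            (List.ofFn fun i => u (w i.succ)).prod) := by
            rw [mul_smul_comm]
            simp only [mul_assoc]
        _ = (s * ε ^ k) • (u (v 0) * (List.ofFn fun i => u (v i.succ)).prod *
            (u (w 0) * (List.ofFn fun i => u (w i.succ)).prod)) := by
            rw [h1, mul_smul_comm, smul_mul_assoc, smul_smul]
            simp only [mul_assoc]

/-- minors with repeated rows and columns -/
lemma det_submatrix_eps {n : ℕ} (B : Matrix (Fin n) (Fin n) Ω) (a b : Fin n → Fin n) :
    (B.submatrix a b).det = eps a * B.det * eps b := by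
  have h1 : B.submatrix a b = (Matrix.of fun i j => if a i = j then (1 : Ω) else 0) * B *
      (Matrix.of fun i j => if b i = j then (1 : Ω) else 0).transpose := by
    ext i j
    simp [Matrix.mul_apply]
  rw [h1, Matrix.det_mul, Matrix.det_mul, Matrix.det_transpose]
  rfl

/-- **(E1)** -/
theorem det_smul_mem [CharZero Ω] {n : ℕ} (S : Submodule Ω A) (h1 : (1 : A) ∈ S)
    (hmul : ∀ a ∈ S, ∀ b ∈ S, a * b ∈ S) (x y : Fin n → Fin n → A) (ε : Ω)
    (hε : ε = 1 ∨ ε = -1)
    (hxx : ∀ i a j b, x i a * x j b = ε • (x j b * x i a))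
    (hxy : ∀ i a j b, x i a * y j b = ε • (y j b * x i a))
    (hyy : ∀ i a j b, y i a * y j b = ε • (y j b * y i a))
    (B : Matrix (Fin n) (Fin n) Ω)
    (hB : ∀ i j, ∑ a, ∑ b, B a b • (x i a * y j b) ∈ S) :
    B.det • (rowDet x * rowDet y) ∈ S := by
  classical
  have hεε : ε * ε = 1 := by rcases hε with rfl | rfl <;> ring
  -- all entries
  let u : (Fin n × Fin n) ⊕ (Fin n × Fin n) → A := Sum.elim (fun p => x p.1 p.2) fun p => y p.1 p.2
  have hu : ∀ p q, u p * u q = ε • (u q * u p) := by
    rintro (p | p) (q | q)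
    · exact hxx _ _ _ _
    · exact hxy _ _ _ _
    · change y _ _ * x _ _ = ε • (x _ _ * y _ _)
      rw [hxy, smul_smul, hεε, one_smul]
    · exact hyy _ _ _ _
  obtain ⟨s, hs, hsp⟩ := prod_mul_prod_eps u ε hεε hu n
  have hperm := fun τ : Equiv.Perm (Fin n) => eps_perm u ε hε hu τ
  choose c hc hcp using hperm
  have hprodS : ∀ (k : ℕ) (v : Fin k → A), (∀ i, v i ∈ S) → (List.ofFn v).prod ∈ S := by
    intro k
    induction k with
    | zero => intro v _; simpa using h1
    | succ k ih =>
      intro v hv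
      rw [List.ofFn_succ, List.prod_cons]
      exact hmul _ (hv 0) _ (ih _ fun i => hv i.succ)
  -- the expansion
  have hT : ∀ τ : Equiv.Perm (Fin n),
      (List.ofFn fun i => ∑ a, ∑ b, B a b • (x i a * y (τ i) b)).prod =
        ∑ a : Fin n → Fin n, ∑ b : Fin n → Fin n, (s * c τ * ∏ i, B (a i) (b (τ i))) •
          ((List.ofFn fun i => x i (a i)).prod * (List.ofFn fun i => y i (b i)).prod) := by
    intro τ
    have h2 : (fun i => ∑ a, ∑ b, B a b • (x i a * y (τ i) b)) =
        fun i => ∑ p : Fin n × Fin n, B p.1 p.2 • (x i p.1 * y (τ i) p.2) := by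
      funext i
      rw [Fintype.sum_prod_type]
    rw [h2, ← MultilinearMap.mkPiAlgebraFin_apply (R := Ω), MultilinearMap.map_sum,
      ← (Equiv.arrowProdEquivProdArrow (Fin n) (fun _ => Fin n) (fun _ => Fin n)).symm.sum_comp,
      Fintype.sum_prod_type]
    refine sum_congr rfl fun a _ => ?_
    rw [← (Equiv.arrowCongr τ.symm (Equiv.refl (Fin n))).sum_comp]
    refine sum_congr rfl fun b _ => ?_
    change MultilinearMap.mkPiAlgebraFin Ω n A (fun i => B (a i) (b (τ i)) •
      (x i (a i) * y (τ i) (b (τ i)))) = _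
    rw [MultilinearMap.map_smul_univ, MultilinearMap.mkPiAlgebraFin_apply]
    have h3 := hsp (fun i => .inl (i, a i)) fun i => .inr (τ i, b (τ i))
    have h4 := hcp τ fun i => .inr (i, b i)
    change (List.ofFn fun i => x i (a i) * y (τ i) (b (τ i))).prod =
      s • ((List.ofFn fun i => x i (a i)).prod * (List.ofFn fun i => y (τ i) (b (τ i))).prod) at h3
    change (List.ofFn fun i => y (τ i) (b (τ i))).prod =
      c τ • (List.ofFn fun i => y i (b i)).prod at h4
    rw [h3, h4, mul_smul_comm, smul_smul, smul_smul]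
    congr 1
    ring
  have hsum : ∑ τ : Equiv.Perm (Fin n), (s * c τ * ((Equiv.Perm.sign τ : ℤ) : Ω)) •
      (List.ofFn fun i => ∑ a, ∑ b, B a b • (x i a * y (τ i) b)).prod =
      B.det • (rowDet x * rowDet y) := by
    have h5 : ∀ z : Fin n → Fin n → A, rowDet z =
        ∑ a : Fin n → Fin n, (eps a : Ω) • (List.ofFn fun i => z i (a i)).prod := by
      intro z
      rw [rowDet]
      have h6 : ∀ a : Fin n → Fin n, ¬ Function.Bijective a → (eps a : Ω) = 0 := by
        intro a ha
        have h7 : ¬ Function.Injective a := fun h => ha (Finite.injective_iff_bijective.mp h)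
        simp only [Function.Injective, not_forall] at h7
        obtain ⟨i, j, hij, hne⟩ := h7
        exact Matrix.det_zero_of_row_eq hne (by funext k; simp [hij])
      have h8 : ∀ π : Equiv.Perm (Fin n), (eps π : Ω) = ((Equiv.Perm.sign π : ℤ) : Ω) := by
        intro π
        have h9 : (Matrix.of fun i j => if π i = j then (1 : Ω) else 0) =
            (1 : Matrix (Fin n) (Fin n) Ω).submatrix π id := by
          ext i j
          simp [Matrix.one_apply]
        rw [eps, h9, Matrix.det_permute, Matrix.det_one, mul_one]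
      rw [← sum_filter_add_sum_filter_not univ
          (fun φ : Fin n → Fin n => Function.Bijective φ),
        sum_eq_zero (s := univ.filter fun φ : Fin n → Fin n => ¬ Function.Bijective φ)
          fun φ hφ => by rw [h6 φ (mem_filter.mp hφ).2, zero_smul], add_zero]
      refine sum_bij (fun (φ : Equiv.Perm (Fin n)) _ => (φ : Fin n → Fin n))
        (fun φ _ => mem_filter.mpr ⟨mem_univ _, φ.bijective⟩)
        (fun φ _ φ' _ h => DFunLike.coe_injective h)
        (fun φ hφ => ⟨Equiv.ofBijective φ (mem_filter.mp hφ).2, mem_univ _, rfl⟩) fun φ _ => ?_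
      rw [h8, Int.cast_smul_eq_zsmul]
    rw [h5 x, h5 y, sum_mul_sum, smul_sum]
    rw [sum_congr rfl fun τ _ => by rw [hT τ, smul_sum], sum_comm]
    refine sum_congr rfl fun a _ => ?_
    rw [sum_congr rfl fun τ _ => by rw [smul_sum], sum_comm, smul_sum]
    refine sum_congr rfl fun b _ => ?_
    have h10 : B.det * ((eps a : Ω) * eps b) = (B.submatrix a b).det := by
      rw [det_submatrix_eps]; ring
    rw [smul_mul_smul_comm, smul_smul, h10, ← Matrix.det_transpose, Matrix.det_apply', sum_smul]
    refine sum_congr rfl fun τ _ => ?_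
    rw [smul_smul]
    congr 1
    change _ = ((Equiv.Perm.sign τ : ℤ) : Ω) * ∏ i, B (a i) (b (τ i))
    calc s * c τ * ((Equiv.Perm.sign τ : ℤ) : Ω) * (s * c τ * ∏ i, B (a i) (b (τ i)))
        = (s * s) * (c τ * c τ) * (((Equiv.Perm.sign τ : ℤ) : Ω) * ∏ i, B (a i) (b (τ i))) := by
          ring
      _ = _ := by rw [hs, hc, one_mul, one_mul]
  rw [← hsum]
  refine S.sum_mem fun τ _ => S.smul_mem _ (hprodS _ _ fun i => hB i (τ i))

end Pool.Agent.Helper11.RowDetDual
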