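import Mathlib
import Pool.Agent.Helper10.Spectral

/-!
# Letters, words and numerically trivial classes
-/

universe u v w t

open CategoryTheory

namespace Pool.Agent.Helper11

open Pool.Agent.Helper10 SmProjVar SPre

variable {k : Type u} [Field k] {K : Type t} [Field K] {Ω : Type v} [Field Ω] [Algebra K Ω]
  (P : SPre.{u, v, w, t} k K Ω)

/-- a variety together with a cohomology class on it -/
abbrev Letter := Σ X : SmProjVar k, P.H X

/-- conjugation of letters -/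
def lconj (σ : Ω ≃ₐ[K] Ω) (a : Letter P) : Letter P := ⟨a.1, P.s σ a.1 a.2⟩

/-- a homogeneous letter pulled back to `Z` -/
structure PLetter (Z : SmProjVar k) where
  X : SmProjVar k
  x : P.homSub X
  f : Z.toOver ⟶ X.toOver

/-- external words in the letters of `L` -/
inductive EW (L : Set (Letter P)) : (Z : SmProjVar k) → P.H Z → Multiset (Letter P) → Prop
  | letter (a : Letter P) : a ∈ L → EW L a.1 a.2 {a}
  | prod {Z Z' : SmProjVar k} {w : P.H Z} {u : P.H Z'} {v v' : Multiset (Letter P)} :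
      EW L Z w v → EW L Z' u v' → EW L (Z.prod Z') (P.ext Z Z' w u) (v + v')

variable {P}

/-- the underlying letter -/
def PLetter.letter {Z : SmProjVar k} (l : PLetter P Z) : Letter P := ⟨l.X, (l.x : P.H l.X)⟩

/-- the class up to sign -/
noncomputable def PLetter.cls {Z : SmProjVar k} (l : PLetter P Z) : P.Q Z :=
  P.cls Z (P.pullHom l.f l.x)

/-- splitting a multiset along a map -/
lemma exists_split {α β : Type*} (f : α → β) (S : Multiset α) (v v' : Multiset β)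
    (h : S.map f = v + v') : ∃ S₁ S₂, S = S₁ + S₂ ∧ S₁.map f = v ∧ S₂.map f = v' := by
  classical
  induction v using Multiset.induction_on generalizing S with
  | empty => exact ⟨0, S, (zero_add S).symm, Multiset.map_zero f, by rw [h, zero_add]⟩
  | cons b v ih =>
    rw [Multiset.cons_add] at h
    obtain ⟨a, ha, hab, h'⟩ := (Multiset.map_eq_cons _ _ _ _).mpr h
    obtain ⟨S₁, S₂, h1, h2, h3⟩ := ih _ h'
    refine ⟨a ::ₘ S₁, S₂, ?_, ?_, h3⟩
    · rw [← Multiset.cons_erase ha, h1, Multiset.cons_add]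
    · rw [Multiset.map_cons, hab, h2]

namespace EW

variable {L : Set (Letter P)} {Z : SmProjVar k} {w : P.H Z} {v : Multiset (Letter P)}

lemma mem (h : EW P L Z w v) : ∀ a ∈ v, a ∈ L := by
  induction h with
  | letter b hb =>
    intro a ha
    rw [Multiset.mem_singleton] at ha
    rw [ha]; exact hb
  | prod _ _ h h' =>
    intro a ha
    rcases Multiset.mem_add.mp ha with ha | ha
    · exact h a ha
    · exact h' a ha

lemma ne_zero (h : EW P L Z w v) : v ≠ 0 := by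
  induction h with
  | letter b hb => exact Multiset.singleton_ne_zero b
  | prod _ _ h h' => exact fun h0 => h (add_eq_zero.mp h0).1

lemma hom (hL : ∀ a ∈ L, P.Hom a.1 a.2) (h : EW P L Z w v) : P.Hom Z w := by
  induction h with
  | letter b hb => exact hL b hb
  | prod _ _ h h' => exact Hom.mul P (Hom.pull P _ h) (Hom.pull P _ h')

/-- pulled back and conjugated words are products of pulled back letters -/
lemma expand (hL : ∀ a ∈ L, P.Hom a.1 a.2) (h : EW P L Z w v) {Z₂ : SmProjVar k}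
    (ρ : Ω ≃ₐ[K] Ω) (p : Z₂.toOver ⟶ Z.toOver) :
    ∃ S : Multiset (PLetter P Z₂),
      P.cls Z₂ (P.pullHom p (P.sHom ρ Z ⟨w, h.hom hL⟩)) = (S.map PLetter.cls).prod ∧
      S.map PLetter.letter = v.map (lconj P ρ) := by
  induction h with
  | letter a ha =>
    refine ⟨{⟨a.1, P.sHom ρ a.1 ⟨a.2, hL a ha⟩, p⟩}, ?_, ?_⟩
    · rw [Multiset.map_singleton, Multiset.prod_singleton]; rfl
    · rw [Multiset.map_singleton, Multiset.map_singleton]; rfl
  | @prod Z Z' w u v v' h1 h1' h h' =>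
    obtain ⟨S, hS, hS'⟩ := h (p ≫ fst Z Z')
    obtain ⟨T, hT, hT'⟩ := h' (p ≫ snd Z Z')
    refine ⟨S + T, ?_, ?_⟩
    · rw [Multiset.map_add, Multiset.prod_add, ← hS, ← hT, ← map_mul]
      congr 1
      refine Subtype.ext ?_
      change P.pull p (P.s ρ _ (P.pull (fst Z Z') w * P.pull (snd Z Z') u)) =
        P.pull (p ≫ fst Z Z') (P.s ρ Z w) * P.pull (p ≫ snd Z Z') (P.s ρ Z' u)
      rw [map_mul (P.s _ _), P.s_pull, P.s_pull, map_mul (P.pull _), pull_pull, pull_pull]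
    · rw [Multiset.map_add, Multiset.map_add, hS', hT']

/-- products of pulled back letters are pulled back from the external word -/
lemma collect (hL : ∀ a ∈ L, P.Hom a.1 a.2) (h : EW P L Z w v) {Z₂ : SmProjVar k}
    (S : Multiset (PLetter P Z₂)) (hS : S.map PLetter.letter = v) :
    ∃ p : Z₂.toOver ⟶ Z.toOver,
      (S.map PLetter.cls).prod = P.cls Z₂ (P.pullHom p ⟨w, h.hom hL⟩) := by
  induction h generalizing S with
  | letter a ha =>
    obtain ⟨s, hs, hsa⟩ := Multiset.map_eq_singleton.mp hS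
    subst hs
    subst hsa
    exact ⟨s.f, by rw [Multiset.map_singleton, Multiset.prod_singleton]; rfl⟩
  | @prod Z Z' w u v v' h1 h1' h h' =>
    obtain ⟨S₁, S₂, rfl, h2, h3⟩ := exists_split _ _ _ _ hS
    obtain ⟨p, hp⟩ := h S₁ h2
    obtain ⟨q, hq⟩ := h' S₂ h3
    refine ⟨lift p q, ?_⟩
    rw [Multiset.map_add, Multiset.prod_add, hp, hq, ← map_mul]
    congr 1
    refine Subtype.ext ?_
    change P.pull p w * P.pull q u = P.pull (lift p q) (P.pull (fst Z Z') w * P.pull (snd Z Z') u)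
    rw [map_mul (P.pull _), pull_pull, pull_pull, lift_fst, lift_snd]

lemma prod_mem (hL : ∀ a ∈ L, P.Hom a.1 a.2) (h : EW P L Z w v) (hw : w ∈ P.alg Z)
    {Z₂ : SmProjVar k} (S : Multiset (PLetter P Z₂)) (hS : S.map PLetter.letter = v) :
    (S.map PLetter.cls).prod ∈ P.algQ Z₂ := by
  obtain ⟨p, hp⟩ := h.collect hL S hS
  rw [hp, cls_mem_algQ, coe_pullHom]
  exact P.pull_mem _ _ hw

end EW

lemma lconj_mul (hm : ∀ (σ τ : Ω ≃ₐ[K] Ω) X x, P.s (σ * τ) X x = P.s σ X (P.s τ X x))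
    (σ τ : Ω ≃ₐ[K] Ω) (a : Letter P) : lconj P (σ * τ) a = lconj P σ (lconj P τ a) := by
  unfold lconj
  rw [hm]

variable (P) in
/-- every Galois invariant multiset of letters satisfying `good` has an algebraic power -/
def RelHyp (L : Set (Letter P)) (good : Multiset (Letter P) → Prop) : Prop :=
  ∀ v : Multiset (Letter P), v ≠ 0 → (∀ a ∈ v, a ∈ L) →
    (∀ σ : Ω ≃ₐ[K] Ω, v.map (lconj P σ) = v) → good v →
    ∃ m : ℕ, 1 ≤ m ∧ ∃ (Z : SmProjVar k) (w : P.H Z), EW P L Z w (m • v) ∧ w ∈ P.alg Z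

/-- **The norm trick.** -/
theorem exists_trick {L : Set (Letter P)} (hL : ∀ a ∈ L, P.Hom a.1 a.2)
    (lam : Letter P → Ω) (hlamc : ∀ σ : Ω ≃ₐ[K] Ω, ∀ a ∈ L, lam (lconj P σ a) = σ (lam a))
    (hconj : ∀ (σ : Ω ≃ₐ[K] Ω), ∀ a ∈ L, lconj P σ a ∈ L)
    (hm : ∀ (σ τ : Ω ≃ₐ[K] Ω) X x, P.s (σ * τ) X x = P.s σ X (P.s τ X x))
    (hfin : ∀ a ∈ L, ∃ N : Subgroup (Ω ≃ₐ[K] Ω), N.FiniteIndex ∧ ∀ σ ∈ N, lconj P σ a = a)
    {G : Submonoid Ω} (hG : ∀ (σ : Ω ≃ₐ[K] Ω), ∀ c ∈ G, σ c ∈ G)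
    (hR : RelHyp P L fun v => (v.map lam).prod ∈ G)
    {Z : SmProjVar k} {w : P.H Z} {v : Multiset (Letter P)}
    (h : EW P L Z w v) (hv' : (v.map lam).prod ∈ G) :
    ∃ (N : Subgroup (Ω ≃ₐ[K] Ω)) (_ : Fintype ((Ω ≃ₐ[K] Ω) ⧸ N)) (m : ℕ) (_ : 1 ≤ m),
      P.Trick (J := Fin m × ((Ω ≃ₐ[K] Ω) ⧸ N)) (fun j => Quotient.out j.2) Z
        ⟨w, h.hom hL⟩ := by
  classical
  have hv := h.mem
  -- a normal finite index subgroup fixing all the letters
  obtain ⟨N₀, hN₀, hfix₀⟩ : ∃ N : Subgroup (Ω ≃ₐ[K] Ω), N.FiniteIndex ∧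
      ∀ σ ∈ N, ∀ a ∈ v, lconj P σ a = a := by
    clear hR h hv'
    induction v using Multiset.induction_on with
    | empty => exact ⟨⊤, inferInstance, fun σ _ a ha => absurd ha (Multiset.notMem_zero a)⟩
    | cons b v ih =>
      obtain ⟨N, hN, hfix⟩ := ih fun a ha => hv a (Multiset.mem_cons_of_mem ha)
      obtain ⟨N', hN', hfix'⟩ := hfin b (hv b (Multiset.mem_cons_self b v))
      refine ⟨N ⊓ N', inferInstance, fun σ hσ a ha => ?_⟩
      rcases Multiset.mem_cons.mp ha with rfl | ha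
      · exact hfix' σ hσ.2
      · exact hfix σ hσ.1 a ha
  set N := N₀.normalCore with hN
  have hfix : ∀ σ ∈ N, ∀ a ∈ v, lconj P σ a = a := fun σ hσ => hfix₀ σ (N₀.normalCore_le hσ)
  have hfin' : Finite ((Ω ≃ₐ[K] Ω) ⧸ N) := inferInstance
  have hft : Fintype ((Ω ≃ₐ[K] Ω) ⧸ N) := Fintype.ofFinite _
  have key : ∀ (σ τ : Ω ≃ₐ[K] Ω), (σ : (Ω ≃ₐ[K] Ω) ⧸ N) = τ →
      v.map (lconj P σ) = v.map (lconj P τ) := by
    intro σ τ hστ
    refine Multiset.map_congr rfl fun a ha => ?_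
    have h1 : σ⁻¹ * τ ∈ N := QuotientGroup.eq.mp hστ
    have h2 := hfix _ h1 a ha
    have h3 : lconj P σ (lconj P (σ⁻¹ * τ) a) = lconj P τ a := by
      rw [← lconj_mul hm, mul_inv_cancel_left]
    rw [h2] at h3
    exact h3
  set vN : Multiset (Letter P) :=
    ∑ g : (Ω ≃ₐ[K] Ω) ⧸ N, v.map (lconj P (Quotient.out g)) with hvN
  have hmem : ∀ a ∈ vN, a ∈ L := by
    intro a ha
    rw [hvN, Multiset.mem_sum] at ha
    obtain ⟨g, _, hg⟩ := ha
    obtain ⟨b, hb, rfl⟩ := Multiset.mem_map.mp hg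
    exact hconj _ _ (hv b hb)
  have hne : vN ≠ 0 := by
    obtain ⟨b, hb⟩ := Multiset.exists_mem_of_ne_zero h.ne_zero
    have h1 : lconj P (Quotient.out (1 : (Ω ≃ₐ[K] Ω) ⧸ N)) b ∈ vN := by
      rw [hvN, Multiset.mem_sum]
      exact ⟨1, Finset.mem_univ _, Multiset.mem_map_of_mem _ hb⟩
    intro h0
    rw [h0] at h1
    exact Multiset.notMem_zero _ h1
  have hinv : ∀ σ : Ω ≃ₐ[K] Ω, vN.map (lconj P σ) = vN := by
    intro σ
    have h1 : vN.map (lconj P σ) =
        ∑ g : (Ω ≃ₐ[K] Ω) ⧸ N, v.map (lconj P (σ * Quotient.out g)) := by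
      rw [hvN, ← Multiset.coe_mapAddMonoidHom, map_sum]
      refine Finset.sum_congr rfl fun g _ => ?_
      rw [Multiset.coe_mapAddMonoidHom, Multiset.map_map]
      refine Multiset.map_congr rfl fun a _ => ?_
      rw [Function.comp_apply, lconj_mul hm]
    rw [h1, hvN]
    rw [← Equiv.sum_comp (Equiv.mulLeft (σ : (Ω ≃ₐ[K] Ω) ⧸ N))
      (fun g => v.map (lconj P (Quotient.out g)))]
    refine Finset.sum_congr rfl fun g _ => key _ _ ?_
    rw [QuotientGroup.mk_mul, QuotientGroup.out_eq', Equiv.coe_mulLeft, QuotientGroup.out_eq']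
  have hprod : (vN.map lam).prod ∈ G := by
    have h1 : (vN.map lam).prod =
        ∏ g : (Ω ≃ₐ[K] Ω) ⧸ N, ((v.map (lconj P (Quotient.out g))).map lam).prod := by
      rw [hvN, ← Multiset.coe_mapAddMonoidHom, map_sum, Multiset.prod_sum]
    rw [h1]
    refine G.prod_mem fun g _ => ?_
    rw [Multiset.map_map]
    have h3 : v.map (lam ∘ lconj P (Quotient.out g)) =
        (v.map lam).map (Quotient.out g : Ω ≃ₐ[K] Ω) := by
      rw [Multiset.map_map]
      exact Multiset.map_congr rfl fun a ha => hlamc _ a (hv a ha)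
    rw [h3, ← map_multiset_prod]
    exact hG _ _ hv'
  obtain ⟨m, hm1, Z', w', hw1, hw2⟩ := hR vN hne hmem hinv hprod
  refine ⟨N, hft, m, hm1, ?_⟩
  intro Z₂ p
  choose S hS hS' using fun j : Fin m × ((Ω ≃ₐ[K] Ω) ⧸ N) =>
    h.expand hL (Quotient.out j.2) (p j)
  have h1 : ∏ j, P.cls Z₂ (P.pullHom (p j) (P.sHom (Quotient.out j.2) Z ⟨w, h.hom hL⟩)) =
      ((∑ j, S j).map PLetter.cls).prod := by
    rw [← Multiset.coe_mapAddMonoidHom, map_sum, Multiset.prod_sum]
    exact Finset.prod_congr rfl fun j _ => hS j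
  rw [h1]
  refine hw1.prod_mem hL hw2 _ ?_
  rw [← Multiset.coe_mapAddMonoidHom, map_sum, Multiset.coe_mapAddMonoidHom,
    Finset.sum_congr rfl fun j _ => hS' j, Fintype.sum_prod_type]
  change ∑ _x : Fin m, vN = m • vN
  rw [Finset.sum_const, Finset.card_univ, Fintype.card_fin]

end Pool.Agent.Helper11
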