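import Mathlib
import Pool.Agent.Helper10.NormProof
import Pool.Agent.Helper11.Letters

/-!
# Conjecture D from words
-/

universe u v w t

open CategoryTheory

namespace Pool.Agent.Helper11

open Pool.Agent.Helper10 SmProjVar SPre

variable {k : Type u} [Field k] {K : Type t} [Field K] {Ω : Type v} [Field Ω] [Algebra K Ω]
  {P : SPre.{u, v, w, t} k K Ω}

/-! ### contraction and algebraic maps -/

lemma tr_mul_pushF {V Y : SmProjVar k} (g : V.toOver ⟶ Y.toOver) (e : P.H V) (b : P.H Y) :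
    P.tr Y (b * P.pushF g e) = P.tr V (P.pull g b * e) := by
  obtain ⟨e₀, he₀, e₁, he₁, rfl⟩ := P.exists_decomp V e
  obtain ⟨b₀, hb₀, b₁, hb₁, rfl⟩ := P.exists_decomp Y b
  have h0 : P.tr Y ((b₀ + b₁) * P.pushF g e₀) = P.tr V (P.pull g (b₀ + b₁) * e₀) := by
    rw [← P.ev_comm _ _ _ (pushF_ev g he₀), tr_pushF, P.ev_comm _ _ _ he₀]
  have h1 : P.tr Y ((b₀ + b₁) * P.pushF g e₁) = P.tr V (P.pull g (b₀ + b₁) * e₁) := by
    rw [map_add (P.pull g), add_mul, add_mul, map_add, map_add,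
      P.tr_od Y _ (P.ev_mul_od Y _ _ hb₀ (pushF_od g he₁)),
      P.tr_od V _ (P.ev_mul_od V _ _ (P.pull_ev g _ hb₀) he₁),
      P.od_anti _ _ _ hb₁ (pushF_od g he₁), P.od_anti _ _ _ (P.pull_od g _ hb₁) he₁, map_neg,
      map_neg, tr_pushF]
  rw [map_add, mul_add, mul_add, map_add, map_add, h0, h1]

/-- `id × g` -/
noncomputable def idProd (X : SmProjVar k) {V Y : SmProjVar k} (g : V.toOver ⟶ Y.toOver) :
    (X.prod V).toOver ⟶ (X.prod Y).toOver :=
  lift (fst X V) (snd X V ≫ g)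

lemma contr_pushF {X V Y : SmProjVar k} (g : V.toOver ⟶ Y.toOver) (e : P.H V)
    (r : P.H (X.prod Y)) :
    P.contr X Y (P.pushF g e) r = P.contr X V e (P.pull (idProd X g) r) := by
  have hr : r ∈ Submodule.span Ω
      {z : P.H (X.prod Y) | ∃ x y, z = P.pull (fst X Y) x * P.pull (snd X Y) y} := by
    rw [P.span_ext]; trivial
  induction hr using Submodule.span_induction with
  | mem r hr =>
    obtain ⟨a, b, rfl⟩ := hr
    have h1 : P.pull (idProd X g) (P.pull (fst X Y) a * P.pull (snd X Y) b) =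
        P.ext X V a (P.pull g b) := by
      rw [map_mul (P.pull _), pull_pull, pull_pull, idProd, lift_fst, lift_snd, SPre.ext,
        pull_pull]
    rw [h1, contr_ext]
    refine (contr_ext X Y _ a b).trans ?_
    rw [tr_mul_pushF]
  | zero => rw [map_zero, map_zero, map_zero]
  | add x y _ _ hx hy => rw [map_add, map_add, map_add, hx, hy]
  | smul a x _ hx => rw [map_smul, map_smul, map_smul, hx]

lemma contr_pull {X V Z : SmProjVar k} (h : V.toOver ⟶ Z.toOver) (w : P.H Z)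
    (R : P.H (X.prod V)) :
    P.contr X V (P.pull h w) R = P.contr X Z w (P.pushF (idProd X h) R) := by
  refine eq_of_tr fun x => ?_
  have h1 : P.pull (snd X V) (P.pull h w) * P.pull (fst X V) x =
      P.pull (idProd X h) (P.pull (snd X Z) w * P.pull (fst X Z) x) := by
    rw [map_mul (P.pull _), pull_pull, pull_pull, pull_pull, idProd, lift_fst, lift_snd]
  rw [contr_apply, contr_apply, tr_pushF, tr_pushF, mul_assoc, mul_assoc, h1, tr_pushF]

lemma contr_mul {X V : SmProjVar k} (e c : P.H V) (hc : c ∈ P.ev V) (R : P.H (X.prod V)) :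
    P.contr X V (e * c) R = P.contr X V e (R * P.pull (snd X V) c) := by
  rw [contr_apply, contr_apply, ← P.ev_comm V c e hc, map_mul (P.pull _), mul_assoc]

/-- relative transposition -/
lemma exists_contr_map {X V Z Y : SmProjVar k} (h : V.toOver ⟶ Z.toOver) (g : V.toOver ⟶ Y.toOver)
    {c : P.H V} (hc : c ∈ P.alg V) {r : P.H (X.prod Y)} (hr : P.rad (X.prod Y) r) :
    ∃ r' : P.H (X.prod Z), P.rad (X.prod Z) r' ∧
      ∀ w, P.contr X Y (P.pushF g (P.pull h w * c)) r = P.contr X Z w r' := by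
  refine ⟨P.pushF (idProd X h) (P.pull (idProd X g) r *
    P.pull (snd X V) c), pushF_rad _ (rad_mul (rad_pull _ hr) (P.pull_mem _ _ hc)),
    fun w => ?_⟩
  rw [contr_pushF, contr_mul _ _ (P.alg_le_ev _ hc), contr_pull]

/-- absolute transposition -/
lemma exists_transpose {V X Y : SmProjVar k} (h : V.toOver ⟶ X.toOver) (g : V.toOver ⟶ Y.toOver)
    {c : P.H V} (hc : c ∈ P.alg V) {r : P.H Y} (hr : P.rad Y r) :
    ∃ r' : P.H X, P.rad X r' ∧
      ∀ x, P.tr X (r' * x) = P.tr Y (r * P.pushF g (P.pull h x * c)) := by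
  refine ⟨P.pushF h (P.pull g r * c), pushF_rad _ (rad_mul (rad_pull _ hr) hc), fun x => ?_⟩
  rw [tr_pushF, tr_mul_pushF, mul_assoc, P.ev_comm _ _ _ (P.alg_le_ev _ hc)]

/-! ### an abstract Frobenius -/

variable (P) in
/-- an abstract version of the Frobenius -/
structure FrobLike where
  /-- the operator -/
  Φ : ∀ X, P.H X →ₐ[Ω] P.H X
  nat : ∀ {X Y : SmProjVar k} (f : X.toOver ⟶ Y.toOver) (y : P.H Y),
    Φ X (P.pull f y) = P.pull f (Φ Y y)
  s_Φ : ∀ (σ : Ω ≃ₐ[K] Ω) X x, P.s σ X (Φ X x) = Φ X (P.s σ X x)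
  /-- possible eigenvalues on algebraic classes -/
  G : Submonoid Ω
  Φ_alg : ∀ X, ∀ z ∈ P.alg X, Φ X z ∈ P.alg X
  alg_eig : ∀ X z c, z ∈ P.alg X → z ≠ 0 → Φ X z = c • z → c ∈ G
  /-- the degree -/
  dg : SmProjVar k → Ω
  tr_Φ : ∀ X x, P.tr X (Φ X x) = dg X * P.tr X x
  dg_mem : ∀ X, dg X ∈ G
  dg_ne : ∀ X, dg X ≠ 0
  div_mem : ∀ a b, a * b ∈ G → b ∈ G → a ∈ G

namespace FrobLike

variable (F : FrobLike P)

/-- generalised eigenspaces -/
noncomputable def E (X : SmProjVar k) (c : Ω) : Submodule Ω (P.H X) :=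
  Module.End.maxGenEigenspace ((F.Φ X).toLinearMap : Module.End Ω (P.H X)) c

lemma surj (X : SmProjVar k) : Function.Surjective (F.Φ X) := by
  have h : Function.Injective (F.Φ X).toLinearMap := by
    rw [injective_iff_map_eq_zero]
    intro x hx
    refine P.nondeg X x fun y => ?_
    have h1 := F.tr_Φ X (x * y)
    have h2 : F.Φ X x = 0 := hx
    rw [map_mul (F.Φ X), h2, zero_mul, map_zero] at h1
    exact (mul_eq_zero.mp h1.symm).resolve_left (F.dg_ne X)
  exact LinearMap.injective_iff_surjective.mp h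

variable {F}

lemma mem_E_of_sub {X : SmProjVar k} {c : Ω} {x : P.H X} (h : F.Φ X x - c • x ∈ F.E X c) :
    x ∈ F.E X c := mem_maxGenEigenspace_of_sub _ c h

lemma mul_mem_E {X : SmProjVar k} {a b : Ω} {x y : P.H X} (hx : x ∈ F.E X a)
    (hy : y ∈ F.E X b) : x * y ∈ F.E X (a * b) := mul_mem_maxGenEigenspace (F.Φ X) hx hy

lemma pull_mem_E {X Y : SmProjVar k} (f : X.toOver ⟶ Y.toOver) {a : Ω} {y : P.H Y}
    (hy : y ∈ F.E Y a) : P.pull f y ∈ F.E X a :=
  map_mem_maxGenEigenspace _ _ (P.pull f).toLinearMap (fun x => F.nat f x) hy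

lemma s_mem_E (σ : Ω ≃ₐ[K] Ω) {X : SmProjVar k} {a : Ω} {x : P.H X} (hx : x ∈ F.E X a) :
    P.s σ X x ∈ F.E X (σ a) := by
  unfold E at hx ⊢
  rw [Module.End.mem_maxGenEigenspace] at hx ⊢
  obtain ⟨n, hn⟩ := hx
  refine ⟨n, ?_⟩
  have key : ∀ (n : ℕ) (x : P.H X),
      ((((F.Φ X).toLinearMap : Module.End Ω (P.H X)) - σ a • 1) ^ n) (P.s σ X x) =
      P.s σ X (((((F.Φ X).toLinearMap : Module.End Ω (P.H X)) - a • 1) ^ n) x) := by
    intro n
    induction n with
    | zero => intro x; simp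
    | succ n ih =>
      intro x
      rw [pow_succ, pow_succ, Module.End.mul_apply, Module.End.mul_apply, ← ih]
      congr 1
      simp only [LinearMap.sub_apply, LinearMap.smul_apply, Module.End.one_apply,
        AlgHom.toLinearMap_apply]
      rw [map_sub, P.s_smul, F.s_Φ]
  rw [key, hn, map_zero]

lemma eq_of_mem_E {X : SmProjVar k} {a b : Ω} {x : P.H X} (hx : x ∈ F.E X a) (hx' : x ∈ F.E X b)
    (h0 : x ≠ 0) : a = b := by
  by_contra hab
  have h1 : Disjoint (F.E X a) (F.E X b) := Module.End.disjoint_genEigenspace _ hab ⊤ ⊤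
  have := h1.le_bot ⟨hx, hx'⟩
  exact h0 (by simpa using this)

lemma tr_eq_zero {X : SmProjVar k} {a : Ω} {x : P.H X} (hx : x ∈ F.E X a) (ha : a ≠ F.dg X) :
    P.tr X x = 0 := by
  unfold E at hx
  rw [Module.End.mem_maxGenEigenspace] at hx
  obtain ⟨n, hn⟩ := hx
  have key : ∀ (n : ℕ) (x : P.H X),
      P.tr X (((((F.Φ X).toLinearMap : Module.End Ω (P.H X)) - a • 1) ^ n) x) =
        (F.dg X - a) ^ n * P.tr X x := by
    intro n
    induction n with
    | zero => intro x; simp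
    | succ n ih =>
      intro x
      rw [pow_succ, Module.End.mul_apply, ih]
      simp only [LinearMap.sub_apply, LinearMap.smul_apply, Module.End.one_apply,
        AlgHom.toLinearMap_apply]
      rw [map_sub, map_smul, F.tr_Φ, smul_eq_mul]
      ring
  have h1 := key n x
  rw [hn, map_zero] at h1
  exact (mul_eq_zero.mp h1.symm).resolve_left (pow_ne_zero n (sub_ne_zero.mpr ha.symm))

lemma E_induction [IsAlgClosed Ω] {X : SmProjVar k} {p : P.H X → Prop}
    (hmem : ∀ a, ∀ x ∈ F.E X a, p x) (hzero : p 0)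
    (hadd : ∀ x y, p x → p y → p (x + y)) (x : P.H X) : p x := by
  have hx : x ∈ ⨆ a, F.E X a := by
    unfold E
    rw [Module.End.iSup_maxGenEigenspace_eq_top]; trivial
  induction hx using Submodule.iSup_induction' with
  | mem m x hxm => exact hmem m x hxm
  | zero => exact hzero
  | add x y _ _ hx hy => exact hadd x y hx hy

/-- a stable subspace containing a generalised eigenvector contains an eigenvector -/
lemma exists_eigenvector {X : SmProjVar k} {a : Ω} {A : Submodule Ω (P.H X)}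
    (hA : ∀ x ∈ A, F.Φ X x ∈ A) {x : P.H X} (hx : x ∈ F.E X a) (hxA : x ∈ A) (hx0 : x ≠ 0) :
    ∃ y ∈ A, y ≠ 0 ∧ F.Φ X y = a • y := by
  classical
  unfold E at hx
  rw [Module.End.mem_maxGenEigenspace] at hx
  obtain ⟨T, hT⟩ : ∃ T : Module.End Ω (P.H X), T = (F.Φ X).toLinearMap - a • 1 := ⟨_, rfl⟩
  rw [← hT] at hx
  have hTx : ∀ y, T y = F.Φ X y - a • y := fun y => by rw [hT]; simp
  have hn := Nat.find_spec hx
  have hmin : ∀ m < Nat.find hx, ¬ (T ^ m) x = 0 := fun m hm => Nat.find_min hx hm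
  have hst : ∀ m, (T ^ m) x ∈ A := by
    intro m
    induction m with
    | zero => exact hxA
    | succ m ih =>
      rw [pow_succ', Module.End.mul_apply, hTx]
      exact A.sub_mem (hA _ ih) (A.smul_mem a ih)
  set n := Nat.find hx
  rcases n with _ | n
  · exact absurd (by simpa using hn) hx0
  · refine ⟨_, hst n, hmin n (Nat.lt_succ_self n), ?_⟩
    rw [pow_succ', Module.End.mul_apply, hTx] at hn
    exact sub_eq_zero.mp hn

lemma alg_induction [IsAlgClosed Ω] {X : SmProjVar k} {p : P.H X → Prop}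
    (hmem : ∀ a ∈ F.G, ∀ x ∈ F.E X a, x ∈ P.alg X → p x) (hzero : p 0)
    (hadd : ∀ x y, p x → p y → p (x + y)) {x : P.H X} (hx : x ∈ P.alg X) : p x := by
  have h1 := Submodule.eq_iSup_inf_genEigenspace (p := P.alg X)
    (f := ((F.Φ X).toLinearMap : Module.End Ω (P.H X))) ⊤ (F.Φ_alg X)
    (Module.End.iSup_maxGenEigenspace_eq_top _)
  rw [h1] at hx
  induction hx using Submodule.iSup_induction' with
  | mem a x hxm =>
    by_cases h0 : x = 0
    · rw [h0]; exact hzero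
    · obtain ⟨y, hy, hy0, hy1⟩ := exists_eigenvector (F.Φ_alg X) hxm.2 hxm.1 h0
      exact hmem a (F.alg_eig X y a hy hy0 hy1) x hxm.2 hxm.1
  | zero => exact hzero
  | add x y _ _ hx hy => exact hadd x y hx hy

/-- a generalised eigenvector which pairs non-trivially with an algebraic class -/
lemma mem_of_tr_ne [IsAlgClosed Ω] {Z : SmProjVar k} {w r : P.H Z} {c : Ω} (hw : w ∈ F.E Z c)
    (hr : r ∈ P.alg Z) (h : P.tr Z (r * w) ≠ 0) : c ∈ F.G := by
  by_contra hc
  apply h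
  refine alg_induction (F := F) (p := fun r => P.tr Z (r * w) = 0) ?_ ?_ ?_ hr
  · intro a ha x hx _
    refine tr_eq_zero (mul_mem_E hx hw) fun h0 => hc ?_
    refine F.div_mem c a ?_ ha
    rw [mul_comm, h0]
    exact F.dg_mem Z
  · rw [zero_mul, map_zero]
  · intro x y hx hy
    rw [add_mul, map_add, hx, hy, add_zero]

/-- a generalised eigenvector, the contraction with which of some algebraic class is not
trivial -/
lemma mem_of_contr_ne [IsAlgClosed Ω] {X Z : SmProjVar k} {w : P.H Z} {r : P.H (X.prod Z)}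
    {c : Ω} (hX : ∀ (a : Ω) (x : P.H X), x ≠ 0 → F.Φ X x = a • x → a ∈ F.G)
    (hw : w ∈ F.E Z c) (hr : r ∈ P.alg (X.prod Z)) (h : P.contr X Z w r ≠ 0) :
    c ∈ F.G := by
  by_contra hc
  apply h
  refine P.nondeg X _ fun x => ?_
  rw [contr_apply, tr_pushF]
  refine E_induction (F := F) (p := fun x =>
    P.tr _ (r * P.pull (snd X Z) w * P.pull (fst X Z) x) = 0) ?_ ?_ ?_ x
  · intro m x hx
    by_cases hx0 : x = 0
    · rw [hx0, map_zero (P.pull _), mul_zero, map_zero]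
    have hm : m ∈ F.G := by
      obtain ⟨y, -, hy0, hy⟩ := exists_eigenvector (F := F) (A := ⊤) (fun _ _ => trivial) hx
        trivial hx0
      exact hX m y hy0 hy
    refine alg_induction (F := F) (p := fun r =>
      P.tr _ (r * P.pull (snd X Z) w * P.pull (fst X Z) x) = 0) ?_ ?_ ?_ hr
    · intro a ha z hz _
      refine tr_eq_zero (mul_mem_E (mul_mem_E hz (pull_mem_E _ hw)) (pull_mem_E _ hx))
        fun h0 => hc ?_
      refine F.div_mem c (a * m) ?_ (F.G.mul_mem ha hm)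
      have h1 : c * (a * m) = a * c * m := by ring
      rw [h1, h0]
      exact F.dg_mem _
    · rw [zero_mul, zero_mul, map_zero]
    · intro y z hy hz
      rw [add_mul, add_mul, map_add, hy, hz, add_zero]
  · rw [map_zero (P.pull _), mul_zero, map_zero]
  · intro y z hy hz
    rw [map_add (P.pull _), mul_add, map_add, hy, hz, add_zero]

end FrobLike

open FrobLike

/-! ### the main theorems -/

lemma normVec_of_trick {J : Type*} [Fintype J] [Nonempty J] {ρ : J → (Ω ≃ₐ[K] Ω)}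
    {Y : SmProjVar k} {e : P.homSub Y}
    (h : ∀ (Z : SmProjVar k) (p : J → (Z.toOver ⟶ Y.toOver)),
      ∏ j, P.cls Z (P.pullHom (p j) (P.sHom (ρ j) Y e)) ∈ P.algQ Z) :
    NormVec Y (e : P.H Y) := by
  obtain ⟨m, hm⟩ : ∃ m, Fintype.card J = m + 1 :=
    ⟨_, (Nat.succ_pred_eq_of_pos Fintype.card_pos).symm⟩
  let ε : J ≃ Fin (m + 1) := (Fintype.equivFin J).trans (finCongr hm)
  refine ⟨m, fun j => if hj : j < m + 1 then ρ (ε.symm ⟨j, hj⟩) else 1, ?_⟩
  refine (extPow_mem_iff (P := P) m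
    (fun j => P.sHom (if hj : j < m + 1 then ρ (ε.symm ⟨j, hj⟩) else 1) Y e)).mpr ?_
  intro Z p
  rw [Finset.prod_range]
  have h3 := h Z (fun j => p (ε j))
  rw [← Equiv.prod_comp ε]
  convert h3 using 2 with j
  have h4 : (if hj : ((ε j : Fin (m + 1)) : ℕ) < m + 1 then
      ρ (ε.symm ⟨ε j, hj⟩) else 1) = ρ j := by
    rw [dif_pos (ε j).2]
    congr 1
    exact ε.symm_apply_apply j
  rw [h4]

variable (P) in
/-- a set of Frobenius eigenvectors stable under conjugation -/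
structure LetterSet (F : FrobLike P) (L : Set (Letter P)) (lam : Letter P → Ω) : Prop where
  hom : ∀ a ∈ L, P.Hom a.1 a.2
  ne_zero : ∀ a ∈ L, a.2 ≠ 0
  eig : ∀ a ∈ L, a.2 ∈ F.E a.1 (lam a)
  conj : ∀ (σ : Ω ≃ₐ[K] Ω), ∀ a ∈ L, lconj P σ a ∈ L
  fin : ∀ a ∈ L, ∃ N : Subgroup (Ω ≃ₐ[K] Ω), N.FiniteIndex ∧ ∀ σ ∈ N, lconj P σ a = a

variable {F : FrobLike P} {L : Set (Letter P)} {lam : Letter P → Ω}

lemma EW.eig (hL : LetterSet P F L lam) {Z : SmProjVar k} {w : P.H Z} {v : Multiset (Letter P)}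
    (h : EW P L Z w v) : w ∈ F.E Z (v.map lam).prod := by
  induction h with
  | letter a ha =>
    rw [Multiset.map_singleton, Multiset.prod_singleton]
    exact hL.eig a ha
  | @prod Z Z' w u v v' _ _ h h' =>
    rw [Multiset.map_add, Multiset.prod_add]
    exact mul_mem_E (pull_mem_E _ h) (pull_mem_E _ h')

lemma LetterSet.lam_conj (hL : LetterSet P F L lam) (σ : Ω ≃ₐ[K] Ω) (a : Letter P) (ha : a ∈ L) :
    lam (lconj P σ a) = σ (lam a) :=
  eq_of_mem_E (F := F) (hL.eig _ (hL.conj σ a ha)) (s_mem_E σ (hL.eig a ha))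
    ((map_ne_zero_iff _ (P.s σ a.1).injective).mpr (hL.ne_zero a ha))

lemma normVec_of_word (hL : LetterSet P F L lam)
    (hm : ∀ (σ τ : Ω ≃ₐ[K] Ω) X x, P.s (σ * τ) X x = P.s σ X (P.s τ X x))
    (hG : ∀ (σ : Ω ≃ₐ[K] Ω), ∀ c ∈ F.G, σ c ∈ F.G)
    (hR : RelHyp P L fun v => (v.map lam).prod ∈ F.G)
    {Z : SmProjVar k} {w : P.H Z} {v : Multiset (Letter P)}
    (h : EW P L Z w v) (hv' : (v.map lam).prod ∈ F.G) : NormVec Z w := by
  obtain ⟨N, hft, m, hm1, ht⟩ := exists_trick hL.hom lam hL.lam_conj hL.conj hm hL.fin hG hR h hv'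
  have : Nonempty (Fin m) := ⟨⟨0, hm1⟩⟩
  exact normVec_of_trick ht

/-- the classes generated by the letters -/
def Generated (P : SPre.{u, v, w, t} k K Ω) (L : Set (Letter P)) (Y : SmProjVar k) : Prop :=
  Submodule.span Ω ({y | y ∈ P.alg Y} ∪
      {y : P.H Y | ∃ (Z V : SmProjVar k) (w : P.H Z) (v : Multiset (Letter P))
        (h : V.toOver ⟶ Z.toOver) (g : V.toOver ⟶ Y.toOver) (c : P.H V),
          EW P L Z w v ∧ c ∈ P.alg V ∧ y = P.pushF g (P.pull h w * c)}) = ⊤

/-- **D for everything generated by the letters** -/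
theorem D_of_generated [IsAlgClosed Ω] (hL : LetterSet P F L lam)
    (hm : ∀ (σ τ : Ω ≃ₐ[K] Ω) X x, P.s (σ * τ) X x = P.s σ X (P.s τ X x))
    (hG : ∀ (σ : Ω ≃ₐ[K] Ω), ∀ c ∈ F.G, σ c ∈ F.G)
    (hR : RelHyp P L fun v => (v.map lam).prod ∈ F.G) (Y : SmProjVar k)
    (hY : Generated P L Y) : P.D Y := by
  intro r hr
  refine P.nondeg Y r fun y => ?_
  have hy : y ∈ (⊤ : Submodule Ω (P.H Y)) := trivial
  unfold Generated at hY
  rw [← hY] at hy
  induction hy using Submodule.span_induction with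
  | mem y hy =>
    rcases hy with hy | ⟨Z, V, w, v, h, g, c, hw, hc, rfl⟩
    · exact hr.2 y hy
    · obtain ⟨r', hr', h1⟩ := exists_transpose h g hc hr
      rw [← h1]
      by_contra hcon
      have h2 := mem_of_tr_ne (F := F) (hw.eig hL) hr'.1 hcon
      obtain ⟨n, σ, hn⟩ := normVec_of_word hL hm hG hR hw h2
      have h1 := (extPow_rad n (fun j => P.s (σ j) Z r') (fun j => P.rad_s (σ j) hr')).2 _ hn
      rw [tr_extPow_mul n _ _ (fun j => P.s_ev (σ j) _ _ (P.alg_le_ev _ hr'.1)),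
        Finset.prod_eq_zero_iff] at h1
      obtain ⟨j, -, hj⟩ := h1
      rw [← map_mul (P.s (σ j) Z), P.tr_s] at hj
      exact hcon ((map_eq_zero_iff _ (σ j).injective).mp hj)
  | zero => rw [mul_zero, map_zero]
  | add x y _ _ hx hy => rw [mul_add, map_add, hx, hy, add_zero]
  | smul a x _ hx => rw [mul_smul_comm, map_smul, hx, smul_zero]

/-- **D for products with everything generated by the letters** -/
theorem D_prod_of_generated [IsAlgClosed Ω] (hL : LetterSet P F L lam)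
    (hm : ∀ (σ τ : Ω ≃ₐ[K] Ω) X x, P.s (σ * τ) X x = P.s σ X (P.s τ X x))
    (hG : ∀ (σ : Ω ≃ₐ[K] Ω), ∀ c ∈ F.G, σ c ∈ F.G)
    (hR : RelHyp P L fun v => (v.map lam).prod ∈ F.G) (X Y : SmProjVar k)
    (hX : ∀ n, P.D (X.selfProd n))
    (hX' : ∀ (a : Ω) (x : P.H X), x ≠ 0 → F.Φ X x = a • x → a ∈ F.G)
    (hY : Generated P L Y) : P.D (X.prod Y) := by
  intro r hr
  refine eq_zero_of_contr hY fun y hy => ?_
  rcases hy with hy | ⟨Z, V, w, v, h, g, c, hw, hc, rfl⟩
  · exact hX 0 _ (contr_rad hy hr)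
  · obtain ⟨r', hr', h1⟩ := exists_contr_map h g hc hr
    rw [h1]
    by_contra hcon
    have h2 := mem_of_contr_ne (F := F) hX' (hw.eig hL) hr'.1 hcon
    obtain ⟨n, σ, hn⟩ := normVec_of_word hL hm hG hR hw h2
    exact hcon (contr_eq_zero n σ hn (hX n) hr')

end Pool.Agent.Helper11
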