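import Mathlib
import Pool.Agent.Helper10.Weil

/-!
# The Frobenius endomorphism of a smooth projective variety over a finite field
-/

universe u

open CategoryTheory AlgebraicGeometry TopologicalSpace Opposite

namespace Pool.Agent.Helper11

/-- The ring homomorphism `x ↦ x ^ q` of a commutative ring in which `q`-th powers are additive. -/
def frobHom (q : ℕ) (R : Type u) [CommRing R] (h : q ≠ 0 ∧ ∀ a b : R, (a + b) ^ q = a ^ q + b ^ q) :
    R →+* R where
  toFun x := x ^ q
  map_one' := one_pow _
  map_mul' x y := mul_pow x y _
  map_zero' := zero_pow h.1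
  map_add' := h.2

@[simp] lemma frobHom_apply (q : ℕ) (R : Type u) [CommRing R]
    (h : q ≠ 0 ∧ ∀ a b : R, (a + b) ^ q = a ^ q + b ^ q) (x : R) : frobHom q R h x = x ^ q := rfl

section Scheme

variable (q : ℕ) (X : Scheme.{u})
  (hX : ∀ U : X.Opens, q ≠ 0 ∧ ∀ a b : Γ(X, U), (a + b) ^ q = a ^ q + b ^ q)

/-- The morphism of presheafed spaces underlying the Frobenius endomorphism: the identity on the
topological space, `s ↦ s ^ q` on functions. -/
noncomputable def frobPsh : X.toPresheafedSpace.Hom X.toPresheafedSpace where
  base := 𝟙 _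
  c :=
    { app := fun U => CommRingCat.ofHom (frobHom q (X.presheaf.obj U) (hX U.unop))
      naturality := by
        intro U V f
        ext x
        change (X.presheaf.map f x) ^ q = X.presheaf.map f (x ^ q)
        rw [map_pow] }

lemma frobPsh_stalkMap (x : X) (y : X.presheaf.stalk x) :
    (PresheafedSpace.Hom.stalkMap (frobPsh q X hX) x) y = y ^ q := by
  obtain ⟨U, hx, s, rfl⟩ := X.presheaf.exists_germ_eq y
  have h := PresheafedSpace.stalkMap_germ_apply (frobPsh q X hX) U x hx s
  rw [← map_pow]
  exact h

/-- The Frobenius endomorphism of a scheme on which `q`-th powers are additive: the identity on the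
topological space, `s ↦ s ^ q` on functions. -/
noncomputable def frobScheme : X ⟶ X where
  toLRSHom' :=
    { toHom := frobPsh q X hX
      prop := by
        intro x
        constructor
        intro a ha
        have h1 : (PresheafedSpace.Hom.stalkMap (frobPsh q X hX) x) a = a ^ q :=
          frobPsh_stalkMap q X hX x a
        have h2 : IsUnit (a ^ q) := by
          rw [← h1]; exact ha
        exact (isUnit_pow_iff (hX ⊤).1).mp h2 }

lemma frobScheme_base (x : X) : (frobScheme q X hX) x = x := rfl

lemma frobScheme_app (U : X.Opens) (s : Γ(X, U)) :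
    (frobScheme q X hX).app U s = s ^ q := rfl

lemma frobScheme_stalkMap (x : X) (y : X.presheaf.stalk x) :
    (frobScheme q X hX).stalkMap x y = y ^ q := frobPsh_stalkMap q X hX x y

lemma frobScheme_residueFieldMap (x : X) (y : X.residueField x) :
    (frobScheme q X hX).residueFieldMap x y = y ^ q := by
  obtain ⟨z, rfl⟩ := X.residue_surjective x y
  have h := congrArg (fun f => f.hom z) (Scheme.residue_residueFieldMap (frobScheme q X hX) x)
  rw [← map_pow]
  exact h.trans (congrArg (X.residue x) (frobScheme_stalkMap q X hX x z))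

end Scheme

section Over

variable {k : Type u} [Field k] [Finite k]

lemma pow_card_add_of_ringHom {R : Type*} [CommRing R] (f : k →+* R) (a b : R) :
    (a + b) ^ Nat.card k = a ^ Nat.card k + b ^ Nat.card k := by
  have := Fintype.ofFinite k
  obtain ⟨p, hp⟩ := CharP.exists k
  obtain ⟨n, hp', hn⟩ := FiniteField.card k p
  rw [Nat.card_eq_fintype_card, hn, add_pow_prime_pow_eq hp']
  have : (p : R) = 0 := by
    have := congrArg f (CharP.cast_eq_zero k p)
    rwa [map_natCast, map_zero] at this
  rw [this, zero_mul, zero_mul, zero_mul, add_zero]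

/-- the structure map `k → Γ(X, U)` of a `k`-scheme -/
noncomputable def structHom (X : Over (Spec (CommRingCat.of k))) (U : X.left.Opens) :
    k →+* Γ(X.left, U) :=
  ((Scheme.ΓSpecIso (CommRingCat.of k)).inv ≫ X.hom.appTop ≫
    X.left.presheaf.map (homOfLE (le_top : U ≤ ⊤)).op).hom

lemma pow_card_add (X : Over (Spec (CommRingCat.of k))) (U : X.left.Opens) :
    Nat.card k ≠ 0 ∧ ∀ a b : Γ(X.left, U), (a + b) ^ Nat.card k = a ^ Nat.card k + b ^ Nat.card k :=
  ⟨Nat.card_pos.ne', fun a b => pow_card_add_of_ringHom (structHom X U) a b⟩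

/-- The `q`-Frobenius endomorphism over `k` of a scheme over a finite field `k` with `q` elements:
the identity on the topological space, `s ↦ s ^ q` on functions. -/
noncomputable def frobOver (X : Over (Spec (CommRingCat.of k))) : X ⟶ X :=
  Over.homMk (frobScheme (Nat.card k) X.left (pow_card_add X)) (by
    apply ext_of_isAffine
    rw [Scheme.Hom.comp_appTop]
    ext s
    obtain ⟨c, rfl⟩ :=
      (Scheme.ΓSpecIso (CommRingCat.of k)).commRingCatIsoToRingEquiv.symm.surjective s
    change (X.hom.appTop.hom _) ^ Nat.card k = X.hom.appTop.hom _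
    have hc : c ^ Nat.card k = c := by
      have := Fintype.ofFinite k
      rw [Nat.card_eq_fintype_card]
      exact FiniteField.pow_card c
    rw [← map_pow, ← map_pow, hc])

lemma frobOver_left (X : Over (Spec (CommRingCat.of k))) :
    (frobOver X).left = frobScheme (Nat.card k) X.left (pow_card_add X) := rfl

/-- The Frobenius endomorphism is natural. -/
lemma frobOver_comp {X Y : Over (Spec (CommRingCat.of k))} (f : X ⟶ Y) :
    frobOver X ≫ f = f ≫ frobOver Y := by
  ext1
  rw [Over.comp_left, Over.comp_left, frobOver_left, frobOver_left]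
  refine Scheme.Hom.ext rfl fun U => ?_
  rw [Scheme.Hom.comp_app, Scheme.Hom.comp_app]
  have h1 : ∀ (V : X.left.Opens) (h : V = V) (t : Γ(X.left, V)),
      (X.left.presheaf.map (eqToHom h).op).hom t = t := by
    intro V h t
    rw [eqToHom_refl, op_id, CategoryTheory.Functor.map_id]
    rfl
  ext s
  refine (h1 _ rfl _).trans ?_
  change (f.left.app U s) ^ Nat.card k = f.left.app U (s ^ Nat.card k)
  rw [map_pow]

end Over

open Helper10 Helper10.SmProjVar

section Variety

variable {k : Type u} [Field k] [Finite k]

/-- The `q`-Frobenius endomorphism (over `k`) of a smooth projective variety over a finite field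
`k` with `q` elements: the identity on the topological space, `s ↦ s ^ q` on functions. -/
noncomputable def frob (X : SmProjVar k) : X.toOver ⟶ X.toOver := frobOver X.toOver

lemma frob_comp {X Y : SmProjVar k} (f : X.toOver ⟶ Y.toOver) : frob X ≫ f = f ≫ frob Y :=
  frobOver_comp f

lemma frob_base (X : SmProjVar k) (x : X.toOver.left) : (frob X).left x = x := rfl

lemma frob_residueFieldMap (X : SmProjVar k) (x : X.toOver.left) (y : X.toOver.left.residueField x) :
    ((frob X).left.residueFieldMap x) y = y ^ Nat.card k :=
  frobScheme_residueFieldMap _ _ _ x y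

/-- the structure map of the residue field at a point of a `k`-scheme -/
noncomputable def residueHom (X : SmProjVar k) (x : X.toOver.left) :
    k →+* X.toOver.left.residueField x :=
  (X.toOver.left.evaluation ⊤ x trivial).hom.comp (structHom X.toOver ⊤)

/-- The residue degrees of Frobenius are powers of `p`. -/
lemma residueDegree_frob (X : SmProjVar k) (p : ℕ) [hp : Fact p.Prime] [CharP k p]
    (x : X.toOver.left) : ∃ n : ℕ, (frob X).left.residueDegree x = p ^ n := by
  let κ := X.toOver.left.residueField x
  have : CharP κ p := charP_of_injective_ringHom (residueHom X x).injective p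
  have : ExpChar κ p := ExpChar.prime hp.out
  let φ : κ →+* κ := ((frob X).left.residueFieldMap x).hom
  have hφ : ∀ y : κ, φ y = y ^ Nat.card k := frob_residueFieldMap X x
  have hess : φ.EssFiniteType := by
    have h1 := LocallyOfFiniteType.stalkMap (frob X).left x
    exact RingHom.EssFiniteType.residueFieldMap h1
  obtain ⟨m, hm⟩ : ∃ m : ℕ, Nat.card k = p ^ m := by
    have := Fintype.ofFinite k
    obtain ⟨n, hn, h⟩ := FiniteField.card k p
    exact ⟨n, by rw [Nat.card_eq_fintype_card, h]⟩
  change ∃ n : ℕ, (@Module.finrank κ κ _ _ (φ.toAlgebra).toModule) = p ^ n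
  have key : ∀ (L : Type u) [Field L] [ExpChar L p] (ψ : L →+* κ) (_ : ψ.EssFiniteType)
      (_ : ∀ y : κ, ∃ z, ψ z = y ^ p ^ m),
      ∃ n : ℕ, (@Module.finrank L κ _ _ (ψ.toAlgebra).toModule) = p ^ n := by
    intro L _ _ ψ hψ hpow
    let _ : Algebra L κ := ψ.toAlgebra
    have h1 : IsPurelyInseparable L κ := by
      rw [isPurelyInseparable_iff_pow_mem L p]
      intro y
      obtain ⟨z, hz⟩ := hpow y
      exact ⟨m, z, hz⟩
    have h2 : Algebra.EssFiniteType L κ := hψ
    have h3 : Module.Finite L κ := Algebra.finite_of_essFiniteType_of_isAlgebraic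
    exact IsPurelyInseparable.finrank_eq_pow L κ p
  exact key κ φ hess fun y => ⟨y, by rw [hφ, hm]⟩

end Variety

end Pool.Agent.Helper11
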