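import Mathlib
import Pool.Agent.Helper10.NormTypes
import Pool.Agent.Helper11.Frobenius

/-!
# Words in Frobenius eigenforms
-/

universe u v w t

open CategoryTheory TensorProduct

namespace Pool.Agent.Helper11

open Pool.Agent.Helper10 SmProjVar

variable {k : Type u} [Field k] {K : Type v} [Field K]

/-- A smooth projective variety `X` together with a `K`-linear form `H(X) → Ω`. -/
structure CohForm (W : CohomologyData.{u, v, w} k K) (Ω : Type t) [Field Ω] [Algebra K Ω] where
  /-- the variety -/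
  X : SmProjVar k
  /-- the linear form -/
  l : W.H X →ₗ[K] Ω

variable (W : CohomologyData.{u, v, w} k K) (Ω : Type t) [Field Ω] [Algebra K Ω]

/-- The conjugate `σ ∘ l` of a form `l` by an automorphism `σ` of `Ω` over `K`. -/
def CohForm.conj {W : CohomologyData.{u, v, w} k K} {Ω : Type t} [Field Ω] [Algebra K Ω]
    (σ : Ω ≃ₐ[K] Ω) (a : CohForm W Ω) : CohForm W Ω :=
  ⟨a.X, σ.toLinearMap ∘ₗ a.l⟩

/-- The external products `l_1 ⊠ ⋯ ⊠ l_n` (`n ≥ 1`) of forms `l_i : H(X_i) → Ω` belonging to a set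
`L`: a form `w` on the cohomology of an iterated product `Z` of the varieties `X_i`, together with
the multiset of its factors `l_i`. -/
inductive ExtProductOf (L : Set (CohForm W Ω)) :
    (Z : SmProjVar k) → (W.H Z →ₗ[K] Ω) → Multiset (CohForm W Ω) → Prop
  | of (a : CohForm W Ω) : a ∈ L → ExtProductOf L a.X a.l {a}
  | prod {Z Z' : SmProjVar k} {w : W.H Z →ₗ[K] Ω} {w' : W.H Z' →ₗ[K] Ω}
      {v v' : Multiset (CohForm W Ω)} (ω : W.H (Z.prod Z') →ₗ[K] Ω) :
      ExtProductOf L Z w v → ExtProductOf L Z' w' v' →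
      (∀ x y, ω (W.pull (fst Z Z') x * W.pull (snd Z Z') y) = w x * w' y) →
      ExtProductOf L (Z.prod Z') ω (v + v')

/-- The algebraic forms on `H(Z)`: the `Ω`-linear combinations of the forms `y ↦ ∫ c ∪ y`, where
`c` is (a `K`-linear combination of) classes of algebraic cycles on `Z`. -/
def algebraicForms (Z : SmProjVar k) : Submodule Ω (W.H Z →ₗ[K] Ω) :=
  Submodule.span Ω {l | ∃ c ∈ W.algClasses Z, ∀ y, l y = algebraMap K Ω (W.pairing Z c y)}

/-- `l` is a generalised eigenvector, with eigenvalue `c`, of the operator `l ↦ l ∘ f`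
(or zero). -/
inductive IsGenEigenform {V : Type w} [AddCommGroup V] [Module K V] (f : V → V) (c : Ω) :
    (V →ₗ[K] Ω) → Prop
  | zero : IsGenEigenform f c 0
  | step (l l' : V →ₗ[K] Ω) : IsGenEigenform f c l' → (∀ x, l (f x) = c * l x + l' x) →
      IsGenEigenform f c l

/-- `L` is a set of non-zero forms, each of them vanishing on the even or on the odd part of the
cohomology and a generalised eigenvector of the Frobenius, with eigenvalue `lam`, and `L` is
stable under conjugation. -/
structure IsFrobeniusSet [Finite k] (L : Set (CohForm W Ω)) (lam : CohForm W Ω → Ωˣ) :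
    Prop where
  ne_zero : ∀ a ∈ L, a.l ≠ 0
  parity : ∀ a ∈ L, W.HasParity Ω a.X a.l
  eigen : ∀ a ∈ L, IsGenEigenform Ω (W.pull (frob a.X)) (lam a : Ω) a.l
  conj : ∀ a ∈ L, ∀ σ : Ω ≃ₐ[K] Ω, a.conj σ ∈ L

/-- Every non-empty finite family (with multiplicities) of elements of `L` which is stable under
conjugation, and the product of the eigenvalues of which is in `G`, becomes algebraic after
repeating it: for some `m ≥ 1`, the external product of `m` copies of its elements is an algebraic
form. -/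
def InvariantWordsAlgebraic (L : Set (CohForm W Ω)) (lam : CohForm W Ω → Ωˣ)
    (G : Subgroup Ωˣ) : Prop :=
  ∀ v : Multiset (CohForm W Ω), v ≠ 0 → (∀ a ∈ v, a ∈ L) →
    (∀ σ : Ω ≃ₐ[K] Ω, v.map (CohForm.conj σ) = v) → (v.map lam).prod ∈ G →
    ∃ m : ℕ, 1 ≤ m ∧ ∃ (Z : SmProjVar k) (w : W.H Z →ₗ[K] Ω),
      ExtProductOf W Ω L Z w (m • v) ∧ w ∈ algebraicForms W Ω Z

/-- The dual of the cohomology of `Y` is spanned over `Ω` by the algebraic forms and by the forms
`w ∘ f`, with `f : H(Y) → H(Z)` induced by an algebraic correspondence and `w` an external product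
of elements of `L` on `H(Z)`. -/
def GeneratedBy (L : Set (CohForm W Ω)) (Y : SmProjVar k) : Prop :=
  Submodule.span Ω ((algebraicForms W Ω Y : Set (W.H Y →ₗ[K] Ω)) ∪
    {l | ∃ (Z : SmProjVar k) (w : W.H Z →ₗ[K] Ω) (v : Multiset (CohForm W Ω))
      (f : W.H Y → W.H Z), ExtProductOf W Ω L Z w v ∧ W.IsAlgebraicMap Y Z f ∧
        ∀ y, l y = w (f y)}) = ⊤

/-- The eigenvalues of the Frobenius on `H(X)` are in `G`. -/
def FrobeniusEigenvaluesIn [Finite k] (X : SmProjVar k) (G : Subgroup Ωˣ) : Prop :=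
  ∀ (c : Ω) (l : W.H X →ₗ[K] Ω), l ≠ 0 → (∀ x, l (W.pull (frob X) x) = c * l x) →
    ∃ a ∈ G, (a : Ω) = c

/-- `V` is generated by `L`, or `V = X × Y` where `Y` is generated by `L`, all the powers of `X`
satisfy the standard conjecture D, and the eigenvalues of the Frobenius on `H(X)` are in `G`. -/
def WordType [Finite k] (L : Set (CohForm W Ω)) (G : Subgroup Ωˣ) (V : SmProjVar k) : Prop :=
  GeneratedBy W Ω L V ∨ ∃ X Y : SmProjVar k, (∀ n, W.StandardD (X.selfProd n)) ∧
    FrobeniusEigenvaluesIn W Ω X G ∧ GeneratedBy W Ω L Y ∧ V = X.prod Y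

end Pool.Agent.Helper11
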