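import Mathlib
import Pool.Agent.Helper11.FrobTypes

/-!
# Varieties of rational norm type
-/

universe u v w t

open CategoryTheory TensorProduct

namespace Pool.Agent.Helper11

open Pool.Agent.Helper10 SmProjVar

variable {k : Type u} [Field k] {K : Type v} [Field K]
  (W : CohomologyData.{u, v, w} k K) (Ω : Type t) [Field Ω] [Algebra K Ω]

/-- The subgroup of `H(X)` generated by the classes of algebraic cycles. -/
def cycleGroup (X : SmProjVar k) : AddSubgroup (W.H X) :=
  AddSubgroup.closure {z | ∃ (j : ℕ) (c : X.Z j), z = W.cy X j c}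

/-- `H(X)` has independent cycles: the classes of algebraic cycles which are linearly independent
over the integers (equivalently, over the rational numbers) are linearly independent over the
field of coefficients `K`. -/
def CyclesIndependent (X : SmProjVar k) : Prop :=
  ∀ (m : ℕ) (z : Fin m → W.H X), (∀ i, z i ∈ cycleGroup W X) →
    LinearIndependent ℤ z → LinearIndependent K z

/-- The map `u : H(X) → H(X)` is `x ↦ q_* (p^* x ∪ c)` for a class `c` of algebraic cycles with
integral coefficients on `X × X`, where `p` and `q` are the projections and `q_*` is the Poincaré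
dual of `q^*`. -/
def IsIntegralMap (X : SmProjVar k) (u : W.H X → W.H X) : Prop :=
  ∃ c ∈ cycleGroup W (X.prod X), ∀ x y : W.H X,
    W.pairing X (u x) y = W.tr (X.prod X) (W.pull (fst X X) x * c * W.pull (snd X X) y)

/-- `X` is of rational norm type for the family `σ_0, …, σ_n` of automorphisms of the field `Ω`
(which need not fix `K`): there is an integral algebraic correspondence `T` on `X` such that, for
all `c ∈ Ω` and all linear forms `l_0, …, l_n : H(X) → Ω`, each of them vanishing on the odd or on
the even part of `H(X)`, if `l_j` is a generalised eigenvector of `l ↦ l ∘ T` for the eigenvalue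
`σ_j c`, then the form `(y_0, …, y_n) ↦ l_0 (y_0) ⋯ l_n (y_n)` is algebraic. -/
def RationalNormType (n : ℕ) (σ : ℕ → (Ω ≃+* Ω)) (X : SmProjVar k) : Prop :=
  ∃ T : W.H X → W.H X, IsIntegralMap W X T ∧
    ∀ (c : Ω) (l : ℕ → (W.H X →ₗ[K] Ω)),
      (∀ j ≤ n, W.HasParity Ω X (l j) ∧ IsGenEigenform Ω T (σ j c) (l j)) →
        (fun y => ∏ j ∈ Finset.range (n + 1), l j (y j)) ∈ W.algForms Ω X n

/-- `Y` is a product of varieties of rational norm type for the family `σ_0, …, σ_n`, or the
product of such a product and a variety `V` such that `V ^ (n + 1)` satisfies the standard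
conjecture D. -/
def RationalRelativeType (n : ℕ) (σ : ℕ → (Ω ≃+* Ω)) (Y : SmProjVar k) : Prop :=
  ∃ P, ProductsOf (RationalNormType W Ω n σ) P ∧
    (Y = P ∨ ∃ V : SmProjVar k, W.StandardD (V.selfProd n) ∧ Y = V.prod P)

end Pool.Agent.Helper11
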