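import Mathlib
import Pool.Agent.Helper10.BaseChange
import Pool.Agent.Helper11.Frobenius

/-!
# Frobenius and algebraic classes
-/

universe u v w t

open CategoryTheory AlgebraicGeometry TensorProduct

namespace Pool.Agent.Helper11

open Helper10 Helper10.SmProjVar

section Cycles

variable {k : Type u} [Field k]

lemma finite_support_cycle (X : SmProjVar k) (c : X.Cyc) : {x | c.coeff x ≠ 0}.Finite := by
  have h1 : CompactSpace X.toOver.left := by
    have : CompactSpace (Spec (CommRingCat.of k)) := inferInstance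
    exact QuasiCompact.compactSpace_of_compactSpace X.toOver.hom
  have := (show AlgebraicCycle X.toOver.left ℤ from
    c).locallyFiniteSupport.finite_inter_support_of_isCompact (isCompact_univ)
  rwa [Set.univ_inter] at this

open Classical in
/-- the cycle `n [x]` -/
noncomputable def sCyc (X : SmProjVar k) (x : X.Pt) (n : ℤ) : X.Cyc :=
  Function.locallyFinsuppWithin.single (X := X.toOver.left) (Y := ℤ) x n

open Classical in
lemma sCyc_coeff (X : SmProjVar k) (x : X.Pt) (n : ℤ) (y : X.Pt) :
    (sCyc X x n).coeff y = if y = x then n else 0 :=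
  Function.locallyFinsuppWithin.single_apply (X := X.toOver.left) (Y := ℤ)

open Classical in
/-- the cycle `n [x]` -/
noncomputable def sZ (X : SmProjVar k) (j : ℕ) (x : X.Pt) (hx : X.pointDim x + j = X.dim) (n : ℤ) :
    X.Z j :=
  ⟨sCyc X x n, by
    intro y hy
    rw [sCyc_coeff] at hy
    by_cases h : y = x
    · rw [h]; exact hx
    · rw [if_neg h] at hy; exact absurd rfl hy⟩

open Classical in
lemma sZ_coeff (X : SmProjVar k) (j : ℕ) (x : X.Pt) (hx : X.pointDim x + j = X.dim) (n : ℤ)
    (y : X.Pt) : (sZ X j x hx n).toCyc.coeff y = if y = x then n else 0 :=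
  sCyc_coeff X x n y

open Classical in
/-- remove a point from a cycle -/
noncomputable def dropZ (X : SmProjVar k) (j : ℕ) (c : X.Z j) (x : X.Pt) : X.Z j :=
  ⟨(show AlgebraicCycle X.toOver.left ℤ from c.1) -
      (show AlgebraicCycle X.toOver.left ℤ from sCyc X x (c.toCyc.coeff x)), by
    intro y hy
    by_cases h : y = x
    · exfalso
      apply hy
      change c.toCyc.coeff y - (sCyc X x (c.toCyc.coeff x)).coeff y = 0
      rw [sCyc_coeff, if_pos h, h, sub_self]
    · refine c.2 y fun h0 => hy ?_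
      change c.toCyc.coeff y - (sCyc X x (c.toCyc.coeff x)).coeff y = 0
      rw [sCyc_coeff, if_neg h, sub_zero]
      exact h0⟩

open Classical in
lemma dropZ_coeff (X : SmProjVar k) (j : ℕ) (c : X.Z j) (x y : X.Pt) :
    (dropZ X j c x).toCyc.coeff y = if y = x then 0 else c.toCyc.coeff y := by
  change c.toCyc.coeff y - (sCyc X x (c.toCyc.coeff x)).coeff y = _
  rw [sCyc_coeff]
  by_cases h : y = x
  · rw [if_pos h, if_pos h, h, sub_self]
  · rw [if_neg h, if_neg h, sub_zero]

lemma cyc_ext {X : SmProjVar k} {a b : X.Cyc} (h : ∀ x, a.coeff x = b.coeff x) : a = b :=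
  DFunLike.coe_injective (F := Function.locallyFinsupp X.toOver.left ℤ) (funext h)

variable {K : Type v} [Field K] [CharZero K] (W : WeilCohomology.{u, v, w} k K)

lemma cy_eq_zero (X : SmProjVar k) (j : ℕ) (c : X.Z j) (h : ∀ x, c.toCyc.coeff x = 0) :
    W.cy X j c = 0 := by
  have h1 := W.cycleClasses.cy_add X j c c c fun x => by rw [h, add_zero]
  simpa using h1

lemma cy_nat (X : SmProjVar k) (j : ℕ) (a : X.Z j) (n : ℕ) (c : X.Z j)
    (h : ∀ x, c.toCyc.coeff x = n * a.toCyc.coeff x) : W.cy X j c = (n : K) • W.cy X j a := by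
  induction n generalizing c with
  | zero =>
    rw [Nat.cast_zero, zero_smul]
    exact cy_eq_zero W X j c fun x => by rw [h]; simp
  | succ n ih =>
    let d : X.Z j := ⟨(show AlgebraicCycle X.toOver.left ℤ from c.1) -
      (show AlgebraicCycle X.toOver.left ℤ from a.1), by
        intro y hy
        refine a.2 y fun h0 => hy ?_
        change c.toCyc.coeff y - a.toCyc.coeff y = 0
        have h1 : a.toCyc.coeff y = 0 := h0
        rw [h, h1, mul_zero, sub_zero]⟩
    have hd : ∀ x, d.toCyc.coeff x = c.toCyc.coeff x - a.toCyc.coeff x := fun x => rfl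
    rw [W.cycleClasses.cy_add X j d a c fun x => by rw [hd]; ring]
    rw [ih d fun x => by rw [hd, h]; push_cast; ring]
    push_cast
    rw [add_smul, one_smul]

/-- the class of a cycle is a sum of classes of multiples of points -/
lemma cy_induction (X : SmProjVar k) (j : ℕ) {p : W.H X → Prop} (hzero : p 0)
    (hadd : ∀ x y, p x → p y → p (x + y))
    (hpt : ∀ (x : X.Pt) (hx : X.pointDim x + j = X.dim) (n : ℤ), p (W.cy X j (sZ X j x hx n)))
    (c : X.Z j) : p (W.cy X j c) := by
  classical
  induction hn : (finite_support_cycle X c.toCyc).toFinset.card generalizing c with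
  | zero =>
    rw [Finset.card_eq_zero, Set.Finite.toFinset_eq_empty] at hn
    rw [cy_eq_zero W X j c fun x => by
      by_contra h
      have : x ∈ {x | c.toCyc.coeff x ≠ 0} := h
      rw [hn] at this
      exact this]
    exact hzero
  | succ n ih =>
    have hne : (finite_support_cycle X c.toCyc).toFinset.Nonempty := by
      rw [← Finset.card_pos]; omega
    obtain ⟨x, hx⟩ := hne
    have hx' : c.toCyc.coeff x ≠ 0 := by simpa using hx
    have hxd := c.2 x hx'
    rw [W.cycleClasses.cy_add X j (sZ X j x hxd (c.toCyc.coeff x)) (dropZ X j c x) c fun y => by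
      rw [sZ_coeff, dropZ_coeff]
      split_ifs with h
      · rw [h, add_zero]
      · rw [zero_add]]
    refine hadd _ _ (hpt _ _ _) (ih _ ?_)
    have h1 : (finite_support_cycle X (dropZ X j c x).toCyc).toFinset =
        (finite_support_cycle X c.toCyc).toFinset.erase x := by
      ext y
      rw [Set.Finite.mem_toFinset, Finset.mem_erase, Set.Finite.mem_toFinset, Set.mem_ofPred_eq,
        dropZ_coeff, Set.mem_ofPred_eq]
      split_ifs with h
      · simp [h]
      · simp [h]
    rw [h1, Finset.card_erase_of_mem hx, hn]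
    rfl

end Cycles

section Frob

variable {k : Type u} [Field k] [Finite k]

lemma map_frob_apply (X : SmProjVar k) (dm : X.toOver.left → ℕ)
    (c : AlgebraicCycle X.toOver.left ℤ) (y : X.toOver.left) :
    AlgebraicCycle.map (frob X).left dm dm c y =
      c y * ((frob X).left.residueDegree y : ℤ) := by
  unfold AlgebraicCycle.map
  rw [Function.locallyFinsupp.map_apply]
  have h1 : (⇑(frob X).left) ⁻¹' {y} = {y} := by
    ext z
    exact Iff.rfl
  rw [h1, finsum_mem_singleton]
  congr 2
  unfold AlgebraicCycle.mapCoeff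
  exact if_pos rfl

lemma pushCycle_frob_apply (X : SmProjVar k) (c : X.Cyc) (y : X.Pt) :
    (pushCycle (frob X) c).coeff y = c.coeff y * ((frob X).left.residueDegree y : ℤ) :=
  map_frob_apply X X.pointDim c y

variable {K : Type v} [Field K] [CharZero K] (W : WeilCohomology.{u, v, w} k K)

lemma tr_cy_point_frob (X : SmProjVar k) (x : X.Pt) (j : ℕ) (c : X.Z j)
    (hc : ∀ y, y ≠ x → c.toCyc.coeff y = 0) (y : W.H X) :
    ((frob X).left.residueDegree x : K) * W.trL X (W.cy X j c * y) =
      W.trL X (W.cy X j c * W.pullA (frob X) y) := by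
  let d : X.Z j := ⟨pushCycle (frob X) c.toCyc, by
    intro z hz
    refine c.2 z fun h0 => hz ?_
    have h1 : c.toCyc.coeff z = 0 := h0
    rw [pushCycle_frob_apply, h1, zero_mul]⟩
  have hd : ∀ z, d.toCyc.coeff z = ((frob X).left.residueDegree x : ℕ) * c.toCyc.coeff z := by
    intro z
    change (pushCycle (frob X) c.toCyc).coeff z = _
    rw [pushCycle_frob_apply]
    by_cases h : z = x
    · rw [h, mul_comm]
    · rw [hc z h, zero_mul, mul_zero]
  have h1 := W.cycleClasses.cy_push (frob X) j j c d rfl y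
  rw [cy_nat W X j c _ d hd, smul_mul_assoc] at h1
  have h2 : W.trL X (((frob X).left.residueDegree x : K) • (W.cy X j c * y)) =
    W.trL X (W.cy X j c * W.pullA (frob X) y) := h1
  rw [map_smul, smul_eq_mul] at h2
  exact h2

/-- the degree of the Frobenius endomorphism -/
noncomputable def frobDeg (X : SmProjVar k) : ℕ :=
  (frob X).left.residueDegree X.genericPt

lemma tr_pull_frob (X : SmProjVar k) (y : W.H X) :
    W.trL X (W.pullA (frob X) y) = (frobDeg X : K) * W.trL X y := by
  classical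
  obtain ⟨c, hc, hc1⟩ := W.cycleClasses.cy_fundamental X
  have h := tr_cy_point_frob W X X.genericPt 0 c (by
    intro y hy
    rw [hc]
    refine (sCyc_coeff X X.genericPt 1 y).trans ?_
    rw [if_neg hy]) y
  rw [hc1, one_mul, one_mul] at h
  exact h.symm

variable (Ω : Type t) [Field Ω] [Algebra K Ω]

lemma trΩ_pull_frob (X : SmProjVar k) (y : W.HΩ Ω X) :
    W.trΩ Ω X (W.pullΩ Ω (frob X) y) = (frobDeg X : Ω) * W.trΩ Ω X y := by
  refine baseChange_induction_top (p := fun y => W.trΩ Ω X (W.pullΩ Ω (frob X) y) =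
    (frobDeg X : Ω) * W.trΩ Ω X y) ?_ ?_ ?_ ?_ y
  · intro y
    rw [WeilCohomology.pullΩ_tmul, WeilCohomology.trΩ_tmul, WeilCohomology.trΩ_tmul,
      tr_pull_frob, Algebra.smul_def, Algebra.smul_def, map_mul, map_natCast, mul_assoc]
  · rw [map_zero, map_zero, mul_zero]
  · intro a b ha hb
    rw [map_add, map_add, map_add, ha, hb, mul_add]
  · intro a b hb
    rw [map_smul, map_smul, map_smul, hb, smul_eq_mul, smul_eq_mul]
    ring

/-- `z ↦ (y ↦ ∫ z ∪ y)` -/
noncomputable def pairΩ (X : SmProjVar k) : W.HΩ Ω X →ₗ[Ω] Module.Dual Ω (W.HΩ Ω X) :=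
  (LinearMap.mul Ω (W.HΩ Ω X)).compr₂ (W.trΩ Ω X)

omit [Finite k] in
lemma pairΩ_apply (X : SmProjVar k) (z y : W.HΩ Ω X) :
    pairΩ W Ω X z y = W.trΩ Ω X (z * y) := rfl

omit [Finite k] in
lemma pairΩ_injective (X : SmProjVar k) : Function.Injective (pairΩ W Ω X) := by
  rw [injective_iff_map_eq_zero]
  intro z hz
  refine W.trΩ_pull_mul Ω X z fun y => ?_
  rw [← pairΩ_apply, hz]
  rfl

lemma pairΩ_alg_mem (p : ℕ) [Fact p.Prime] [CharP k p] (X : SmProjVar k) (z : W.HΩ Ω X)
    (hz : z ∈ W.algΩ Ω X) : pairΩ W Ω X z ∈ ⨆ n : ℕ, Module.End.eigenspace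
      (Module.Dual.transpose (R := Ω) (W.pullΩ Ω (frob X)).toLinearMap :
        Module.End Ω (Module.Dual Ω (W.HΩ Ω X))) ((p : Ω) ^ n) := by
  classical
  set T : Module.End Ω (Module.Dual Ω (W.HΩ Ω X)) :=
    Module.Dual.transpose (R := Ω) (W.pullΩ Ω (frob X)).toLinearMap with hT
  refine baseChange_induction _ (p := fun z => pairΩ W Ω X z ∈
    ⨆ n : ℕ, Module.End.eigenspace T ((p : Ω) ^ n)) ?_ ?_ ?_ ?_ hz
  · intro y hy
    unfold CohomologyData.algClasses at hy
    induction hy using Submodule.span_induction with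
    | mem y hy =>
      obtain ⟨j, c, rfl⟩ := hy
      refine cy_induction W X j (p := fun y => pairΩ W Ω X (1 ⊗ₜ[K] y) ∈
        ⨆ n : ℕ, Module.End.eigenspace T ((p : Ω) ^ n)) ?_ ?_ ?_ c
      · rw [TensorProduct.tmul_zero, map_zero]; exact Submodule.zero_mem _
      · intro a b ha hb
        rw [TensorProduct.tmul_add, map_add]; exact Submodule.add_mem _ ha hb
      · intro x hx n
        obtain ⟨m, hm⟩ := residueDegree_frob X p x
        refine Submodule.mem_iSup_of_mem m ?_
        rw [Module.End.mem_eigenspace_iff]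
        refine LinearMap.ext fun y => ?_
        rw [hT, Module.Dual.transpose_apply, LinearMap.comp_apply, LinearMap.smul_apply,
          AlgHom.toLinearMap_apply, pairΩ_apply, pairΩ_apply]
        refine baseChange_induction_top (p := fun y => W.trΩ Ω X
          (1 ⊗ₜ[K] W.cy X j (sZ X j x hx n) * W.pullΩ Ω (frob X) y) =
            (p : Ω) ^ m • W.trΩ Ω X (1 ⊗ₜ[K] W.cy X j (sZ X j x hx n) * y)) ?_ ?_ ?_ ?_ y
        · intro y
          have h3 := tr_cy_point_frob W X x j (sZ X j x hx n) (by
            intro z hz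
            rw [sZ_coeff, if_neg hz]) y
          rw [WeilCohomology.pullΩ_tmul, Algebra.TensorProduct.tmul_mul_tmul,
            Algebra.TensorProduct.tmul_mul_tmul, WeilCohomology.trΩ_tmul,
            WeilCohomology.trΩ_tmul, ← h3, hm, mul_one,
            mul_smul, smul_eq_mul, Nat.cast_smul_eq_nsmul, nsmul_eq_mul]
          push_cast
          rfl
        · rw [map_zero, mul_zero, map_zero, smul_zero]
        · intro a b ha hb
          rw [map_add, mul_add, mul_add, map_add, map_add, ha, hb, smul_add]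
        · intro a b hb
          rw [map_smul, mul_smul_comm, mul_smul_comm, map_smul, map_smul, hb, smul_comm]
    | zero => rw [TensorProduct.tmul_zero, map_zero]; exact Submodule.zero_mem _
    | add a b _ _ ha hb =>
      rw [TensorProduct.tmul_add, map_add]; exact Submodule.add_mem _ ha hb
    | smul a b _ hb =>
      have : (1 : Ω) ⊗ₜ[K] (a • b) = (algebraMap K Ω a) • ((1 : Ω) ⊗ₜ[K] b) := by
        rw [TensorProduct.tmul_smul, algebraMap_smul]
      rw [this, map_smul]; exact Submodule.smul_mem _ _ hb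
  · rw [map_zero]; exact Submodule.zero_mem _
  · intro a b ha hb
    rw [map_add]; exact Submodule.add_mem _ ha hb
  · intro a b hb
    rw [map_smul]; exact Submodule.smul_mem _ _ hb

lemma frobDeg_eq (p : ℕ) [Fact p.Prime] [CharP k p] (X : SmProjVar k) :
    ∃ n : ℕ, frobDeg X = p ^ n := residueDegree_frob X p _

/-- An algebraic class which is an eigenvector of Frobenius has eigenvalue a power of `p`. -/
theorem eigenvalue_of_alg (p : ℕ) [hp : Fact p.Prime] [CharP k p] [CharZero Ω] (X : SmProjVar k)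
    (x : W.HΩ Ω X) (hx : x ∈ W.algΩ Ω X) (hx0 : x ≠ 0) (μ : Ω)
    (hμ : W.pullΩ Ω (frob X) x = μ • x) : ∃ m : ℤ, μ = (p : Ω) ^ m := by
  have hp0 : (p : Ω) ≠ 0 := Nat.cast_ne_zero.mpr hp.out.ne_zero
  obtain ⟨n0, hn0⟩ := frobDeg_eq p X
  have hd : (frobDeg X : Ω) = (p : Ω) ^ n0 := by rw [hn0]; push_cast; rfl
  set T : Module.End Ω (Module.Dual Ω (W.HΩ Ω X)) :=
    Module.Dual.transpose (R := Ω) (W.pullΩ Ω (frob X)).toLinearMap with hT
  have h1 := pairΩ_alg_mem W Ω p X x hx
  rw [← hT] at h1
  have h2 : ∀ y, μ * W.trΩ Ω X (x * W.pullΩ Ω (frob X) y) = (p : Ω) ^ n0 * W.trΩ Ω X (x * y) := by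
    intro y
    rw [← hd, ← trΩ_pull_frob, map_mul (W.pullΩ Ω (frob X)), hμ, smul_mul_assoc, map_smul,
      smul_eq_mul]
  have hμ0 : μ ≠ 0 := by
    rintro rfl
    apply hx0
    refine W.trΩ_pull_mul Ω X x fun y => ?_
    have := h2 (1 ⊗ₜ[K] y)
    rw [zero_mul] at this
    exact (mul_eq_zero.mp this.symm).resolve_left (pow_ne_zero _ hp0)
  have h3 : pairΩ W Ω X x ∈ Module.End.eigenspace T ((p : Ω) ^ n0 / μ) := by
    rw [Module.End.mem_eigenspace_iff]
    refine LinearMap.ext fun y => ?_
    rw [hT, Module.Dual.transpose_apply, LinearMap.comp_apply, LinearMap.smul_apply,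
      AlgHom.toLinearMap_apply, pairΩ_apply, pairΩ_apply, smul_eq_mul, div_mul_eq_mul_div,
      eq_div_iff hμ0, ← h2 y]
    ring
  have h4 : pairΩ W Ω X x ≠ 0 := by
    intro h
    exact hx0 (pairΩ_injective W Ω X (by rw [h, map_zero]))
  by_contra hcon
  push Not at hcon
  have h5 : ∀ n : ℕ, (p : Ω) ^ n ≠ (p : Ω) ^ n0 / μ := by
    intro n hn
    apply hcon (n0 - n)
    rw [zpow_sub₀ hp0, zpow_natCast, zpow_natCast, eq_div_iff (pow_ne_zero _ hp0), hn]
    field_simp
  have h6 := (Module.End.eigenspaces_iSupIndep T) ((p : Ω) ^ n0 / μ)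
  apply h4
  have h7 : pairΩ W Ω X x ∈ ⨆ j, ⨆ (_ : j ≠ (p : Ω) ^ n0 / μ), Module.End.eigenspace T j := by
    refine (iSup_le fun n => ?_ : (⨆ n : ℕ, Module.End.eigenspace T ((p : Ω) ^ n)) ≤ _) h1
    exact le_iSup₂_of_le ((p : Ω) ^ n) (h5 n) le_rfl
  exact (Submodule.mem_bot Ω).mp (h6.le_bot ⟨h3, h7⟩)

end Frob

end Pool.Agent.Helper11
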