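import Mathlib
import Pool.Agent.Helper11.FrobTypes
import Pool.Agent.Helper11.FrobWeil
import Pool.Agent.Helper11.LettersD

/-!
# Conjecture D over finite fields: proof of the theorem on words in Frobenius eigenforms
-/

universe u v w t

open CategoryTheory TensorProduct

namespace Pool.Agent.Helper11

open Pool.Agent.Helper10 SmProjVar SPre

variable {k : Type u} [Field k] {K : Type v} [Field K] [CharZero K]
  (W : WeilCohomology.{u, v, w} k K) (Ω : Type t) [Field Ω] [Algebra K Ω]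

/-! ### forms and vectors -/

/-- the form represented by a vector -/
noncomputable def unvec (X : SmProjVar k) (e : W.HΩ Ω X) : W.H X →ₗ[K] Ω where
  toFun y := W.trΩ Ω X (e * (1 ⊗ₜ[K] y))
  map_add' x y := by rw [TensorProduct.tmul_add, mul_add, map_add]
  map_smul' a y := by
    rw [TensorProduct.tmul_smul, RingHom.id_apply]
    have : a • ((1 : Ω) ⊗ₜ[K] y) = (algebraMap K Ω a) • ((1 : Ω) ⊗ₜ[K] y) := by
      rw [algebraMap_smul]
    rw [this, mul_smul_comm, map_smul, algebraMap_smul]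

lemma unvec_apply (X : SmProjVar k) (e : W.HΩ Ω X) (y : W.H X) :
    unvec W Ω X e y = W.trΩ Ω X (e * (1 ⊗ₜ[K] y)) := rfl

lemma unvec_vec (X : SmProjVar k) (l : W.H X →ₗ[K] Ω) : unvec W Ω X (W.vec Ω X l) = l :=
  LinearMap.ext fun y => W.trΩ_vec Ω X l y

lemma ext_vec {X : SmProjVar k} {e e' : W.HΩ Ω X}
    (h : ∀ y : W.H X, W.trΩ Ω X (e * (1 ⊗ₜ[K] y)) = W.trΩ Ω X (e' * (1 ⊗ₜ[K] y))) : e = e' := by
  rw [← sub_eq_zero]
  refine W.trΩ_pull_mul Ω X _ fun y => ?_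
  rw [sub_mul, map_sub, h, sub_self]

lemma vec_unvec (X : SmProjVar k) (e : W.HΩ Ω X) : W.vec Ω X (unvec W Ω X e) = e :=
  ext_vec W Ω fun y => W.trΩ_vec Ω X _ y

/-- the letter attached to a form -/
noncomputable def vecL (a : CohForm W.toCohomologyData Ω) : Letter (W.toSPre Ω) :=
  ⟨a.X, W.vec Ω a.X a.l⟩

/-- the form attached to a letter -/
noncomputable def unvecL (b : Letter (W.toSPre Ω)) : CohForm W.toCohomologyData Ω :=
  ⟨b.1, unvec W Ω b.1 b.2⟩

lemma unvecL_vecL (a : CohForm W.toCohomologyData Ω) : unvecL W Ω (vecL W Ω a) = a := by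
  unfold unvecL vecL
  rw [unvec_vec]

lemma vecL_unvecL (b : Letter (W.toSPre Ω)) : vecL W Ω (unvecL W Ω b) = b := by
  unfold unvecL vecL
  simp only [vec_unvec]

lemma vec_conj (σ : Ω ≃ₐ[K] Ω) (X : SmProjVar k) (l : W.H X →ₗ[K] Ω) :
    W.vec Ω X (σ.toLinearMap ∘ₗ l) = W.sΩ σ X (W.vec Ω X l) := by
  refine ext_vec W Ω fun y => ?_
  have : ((1 : Ω) ⊗ₜ[K] y : W.HΩ Ω X) = W.sΩ σ X (1 ⊗ₜ[K] y) := by
    rw [WeilCohomology.sΩ_tmul, map_one]
  rw [W.trΩ_vec, this, ← map_mul (W.sΩ σ X), W.trΩ_sΩ, W.trΩ_vec]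
  rfl

lemma vecL_conj (σ : Ω ≃ₐ[K] Ω) (a : CohForm W.toCohomologyData Ω) :
    vecL W Ω (a.conj σ) = lconj (W.toSPre Ω) σ (vecL W Ω a) := by
  unfold vecL lconj CohForm.conj
  simp only [vec_conj]
  rfl

lemma unvecL_lconj (σ : Ω ≃ₐ[K] Ω) (b : Letter (W.toSPre Ω)) :
    unvecL W Ω (lconj (W.toSPre Ω) σ b) = (unvecL W Ω b).conj σ := by
  rw [← unvecL_vecL W Ω ((unvecL W Ω b).conj σ), vecL_conj, vecL_unvecL]

lemma vec_eq_zero_iff (X : SmProjVar k) (l : W.H X →ₗ[K] Ω) : W.vec Ω X l = 0 ↔ l = 0 := by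
  constructor
  · intro h
    rw [← unvec_vec W Ω X l, h]
    refine LinearMap.ext fun y => ?_
    rw [unvec_apply, zero_mul, map_zero, LinearMap.zero_apply]
  · rintro rfl
    refine ext_vec W Ω fun y => ?_
    rw [W.trΩ_vec, zero_mul, map_zero, LinearMap.zero_apply]

lemma vec_mem_alg {X : SmProjVar k} {l : W.H X →ₗ[K] Ω}
    (h : l ∈ algebraicForms W.toCohomologyData Ω X) : W.vec Ω X l ∈ W.algΩ Ω X := by
  unfold algebraicForms at h
  induction h using Submodule.span_induction with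
  | mem l h =>
    obtain ⟨c, hc, h⟩ := h
    have : W.vec Ω X l = 1 ⊗ₜ[K] c := by
      refine ext_vec W Ω fun y => ?_
      rw [W.trΩ_vec, h, Algebra.TensorProduct.tmul_mul_tmul, WeilCohomology.trΩ_tmul, mul_one,
        Algebra.smul_def, mul_one]
      rfl
    rw [this]
    exact Submodule.tmul_mem_baseChange_of_mem 1 hc
  | zero => rw [(vec_eq_zero_iff W Ω X 0).mpr rfl]; exact Submodule.zero_mem _
  | add l l' _ _ h h' =>
    have : W.vec Ω X (l + l') = W.vec Ω X l + W.vec Ω X l' := by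
      refine ext_vec W Ω fun y => ?_
      rw [W.trΩ_vec, add_mul, map_add, W.trΩ_vec, W.trΩ_vec, LinearMap.add_apply]
    rw [this]; exact Submodule.add_mem _ h h'
  | smul a l _ h =>
    have : W.vec Ω X (a • l) = a • W.vec Ω X l := by
      refine ext_vec W Ω fun y => ?_
      rw [W.trΩ_vec, smul_mul_assoc, map_smul, W.trΩ_vec, LinearMap.smul_apply]
    rw [this]; exact Submodule.smul_mem _ _ h

/-! ### Frobenius -/

variable [Finite k]

/-- the submonoid of `Ω` given by a subgroup of the group of units -/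
def grp (G : Subgroup Ωˣ) : Submonoid Ω where
  carrier := {x | ∃ a ∈ G, (a : Ω) = x}
  one_mem' := ⟨1, G.one_mem, rfl⟩
  mul_mem' := by
    rintro _ _ ⟨a, ha, rfl⟩ ⟨b, hb, rfl⟩
    exact ⟨a * b, G.mul_mem ha hb, rfl⟩

lemma grp_div {G : Subgroup Ωˣ} (a b : Ω) (h : a * b ∈ grp Ω G) (hb : b ∈ grp Ω G) :
    a ∈ grp Ω G := by
  obtain ⟨x, hx, hx'⟩ := h
  obtain ⟨y, hy, rfl⟩ := hb
  refine ⟨x * y⁻¹, G.mul_mem hx (G.inv_mem hy), ?_⟩
  rw [Units.val_mul, hx', mul_assoc, Units.mul_inv, mul_one]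

lemma zpow_mem_grp {G : Subgroup Ωˣ} {x : Ω} (hx : x ∈ grp Ω G) (m : ℤ) : x ^ m ∈ grp Ω G := by
  obtain ⟨a, ha, rfl⟩ := hx
  exact ⟨a ^ m, G.zpow_mem ha m, by rw [Units.val_zpow_eq_zpow_val]⟩

/-- the Frobenius of the auxiliary structure -/
noncomputable def frobLike (p : ℕ) [hp : Fact p.Prime] [CharP k p] (G : Subgroup Ωˣ)
    (hG : (p : Ω) ∈ grp Ω G) : FrobLike (W.toSPre Ω) where
  Φ X := W.pullΩ Ω (frob X)
  nat {X Y} f y := by
    change (W.toSPre Ω).pull (frob X) ((W.toSPre Ω).pull f y) =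
      (W.toSPre Ω).pull f ((W.toSPre Ω).pull (frob Y) y)
    rw [pull_pull, pull_pull, frob_comp]
  s_Φ σ X x := (W.toSPre Ω).s_pull σ (frob X) x
  G := grp Ω G
  Φ_alg X z hz := (W.toSPre Ω).pull_mem (frob X) z hz
  alg_eig X z c hz hz0 h := by
    have : CharZero Ω := charZero_of_injective_algebraMap (algebraMap K Ω).injective
    obtain ⟨m, rfl⟩ := eigenvalue_of_alg W Ω p X z hz hz0 c h
    exact zpow_mem_grp Ω hG m
  dg X := (frobDeg X : Ω)
  tr_Φ X x := trΩ_pull_frob W Ω X x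
  dg_mem X := by
    obtain ⟨n, hn⟩ := frobDeg_eq p X
    rw [hn]
    push_cast
    rw [← zpow_natCast]
    exact zpow_mem_grp Ω hG n
  dg_ne X := by
    have : CharZero Ω := charZero_of_injective_algebraMap (algebraMap K Ω).injective
    obtain ⟨n, hn⟩ := frobDeg_eq p X
    rw [hn, Nat.cast_ne_zero]
    exact pow_ne_zero n hp.out.ne_zero
  div_mem a b h hb := grp_div Ω a b h hb

variable {W Ω}
variable {p : ℕ} [hp : Fact p.Prime] [CharP k p] {G : Subgroup Ωˣ} {hG : (p : Ω) ∈ grp Ω G}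

lemma vec_mem_E {X : SmProjVar k} {c : Ω} (hc : c ≠ 0) {l : W.H X →ₗ[K] Ω}
    (h : IsGenEigenform Ω (W.pull (frob X)) c l) :
    W.vec Ω X l ∈ (frobLike W Ω p G hG).E X ((frobDeg X : Ω) / c) := by
  induction h with
  | zero => rw [(vec_eq_zero_iff W Ω X 0).mpr rfl]; exact Submodule.zero_mem _
  | step l l' _ h ih =>
    refine FrobLike.mem_E_of_sub ?_
    have hd : (frobDeg X : Ω) ≠ 0 := (frobLike W Ω p G hG).dg_ne X
    have h1 : W.pullΩ Ω (frob X) (W.vec Ω X l) - ((frobDeg X : Ω) / c) • W.vec Ω X l =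
        (-c⁻¹) • W.pullΩ Ω (frob X) (W.vec Ω X l') := by
      refine SPre.eq_of_tr (P := W.toSPre Ω) fun x => ?_
      obtain ⟨x, rfl⟩ := (frobLike W Ω p G hG).surj X x
      refine baseChange_induction_top (p := fun x => W.trΩ Ω X
        ((W.pullΩ Ω (frob X) (W.vec Ω X l) - ((frobDeg X : Ω) / c) • W.vec Ω X l) *
          W.pullΩ Ω (frob X) x) =
        W.trΩ Ω X (((-c⁻¹) • W.pullΩ Ω (frob X) (W.vec Ω X l')) * W.pullΩ Ω (frob X) x))
        ?_ ?_ ?_ ?_ x
      · intro y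
        rw [sub_mul, map_sub, smul_mul_assoc, smul_mul_assoc, map_smul, map_smul,
          ← map_mul (W.pullΩ Ω (frob X)), ← map_mul (W.pullΩ Ω (frob X)), trΩ_pull_frob,
          trΩ_pull_frob, W.trΩ_vec, W.trΩ_vec, WeilCohomology.pullΩ_tmul, W.trΩ_vec,
          WeilCohomology.pullA_apply, h, smul_eq_mul, smul_eq_mul]
        field_simp
        ring
      · simp only [map_zero, mul_zero]
      · intro a b ha hb
        simp only [map_add, mul_add, ha, hb]
      · intro a b hb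
        simp only [map_smul, mul_smul_comm, hb]
    have h4 := Submodule.smul_mem _ (-c⁻¹) (FrobLike.pull_mem_E (frob X) ih)
    change (-c⁻¹) • W.pullΩ Ω (frob X) (W.vec Ω X l') ∈ _ at h4
    rw [← h1] at h4
    exact h4

/-! ### external products -/

section Ext

variable {K' : Type t} [Field K'] {Ω' : Type v} [Field Ω'] [Algebra K' Ω']
  {P : SPre.{u, v, w, t} k K' Ω'}

omit [Finite k] in
lemma ext_sign {Z Z' : SmProjVar k} {a : P.H Z} {b : P.H Z'} (ha : P.Hom Z a) (hb : P.Hom Z' b)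
    {T : P.H (Z.prod Z')}
    (h : ∀ x y, P.tr _ (T * P.ext Z Z' x y) = P.tr Z (a * x) * P.tr Z' (b * y)) :
    T = P.ext Z Z' a b ∨ T = - P.ext Z Z' a b := by
  have hom_span : ∀ V : SmProjVar k, Submodule.span Ω' {x : P.H V | P.Hom V x} = ⊤ := by
    intro V
    rw [eq_top_iff]
    intro x _
    obtain ⟨a, ha, b, hb, rfl⟩ := P.exists_decomp V x
    exact Submodule.add_mem _ (Submodule.subset_span (.inl ha)) (Submodule.subset_span (.inr hb))
  have key : ∀ η : Ω', (∀ x, P.Hom Z x → ∀ y, P.tr _ (P.ext Z Z' a b * P.ext Z Z' x y) =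
      η * (P.tr Z (a * x) * P.tr Z' (b * y))) → η * η = 1 → T = η • P.ext Z Z' a b := by
    intro η hη hη1
    refine eq_of_tr fun z => ?_
    have hz : z ∈ Submodule.span Ω' {z : P.H (Z.prod Z') | ∃ x ∈ {x : P.H Z | P.Hom Z x},
        ∃ y ∈ {y : P.H Z' | P.Hom Z' y}, z = P.ext Z Z' x y} := by
      rw [P.span_ext_sets Z Z' _ _ (hom_span Z) (hom_span Z')]; trivial
    induction hz using Submodule.span_induction with
    | mem z hz =>
      obtain ⟨x, hx, y, hy, rfl⟩ := hz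
      rw [h, smul_mul_assoc, map_smul, hη x hx y, smul_eq_mul, ← mul_assoc, hη1, one_mul]
    | zero => rw [mul_zero, mul_zero]
    | add x y _ _ hx hy => rw [mul_add, mul_add, map_add, map_add, hx, hy]
    | smul c x _ hx => rw [mul_smul_comm, mul_smul_comm, map_smul, map_smul, hx]
  rcases hb with hb | hb
  · left
    have := key 1 (fun x _ y => by rw [one_mul]; exact tr_ext_mul_ext_ev a x b y hb) (one_mul 1)
    rwa [one_smul] at this
  · rcases ha with ha | ha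
    · left
      have := key 1 (fun x hx y => by
        rw [one_mul]
        rcases hx with hx | hx
        · exact tr_ext_mul_ext_ev' a x b y hx
        · rw [tr_ext_mul_ext_od a x b y hb hx, P.tr_od Z _ (P.ev_mul_od Z _ _ ha hx), zero_mul,
            neg_zero]) (one_mul 1)
      rwa [one_smul] at this
    · right
      have := key (-1) (fun x hx y => by
        rcases hx with hx | hx
        · rw [tr_ext_mul_ext_ev' a x b y hx, P.tr_od Z _ (P.od_mul_ev Z _ _ ha hx), zero_mul,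
            mul_zero]
        · rw [tr_ext_mul_ext_od a x b y hb hx, neg_one_mul]) (by ring)
      rwa [neg_one_smul] at this

end Ext

omit [Finite k] in
lemma tr_vec_ext {Z Z' : SmProjVar k} {w : W.H Z →ₗ[K] Ω} {w' : W.H Z' →ₗ[K] Ω}
    {ω : W.H (Z.prod Z') →ₗ[K] Ω}
    (hω : ∀ x y, ω (W.pull (fst Z Z') x * W.pull (snd Z Z') y) = w x * w' y)
    (x : W.HΩ Ω Z) (y : W.HΩ Ω Z') :
    W.trΩ Ω _ (W.vec Ω _ ω * (W.pullΩ Ω (fst Z Z') x * W.pullΩ Ω (snd Z Z') y)) =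
      W.trΩ Ω Z (W.vec Ω Z w * x) * W.trΩ Ω Z' (W.vec Ω Z' w' * y) := by
  refine baseChange_induction_top (p := fun x => W.trΩ Ω _ (W.vec Ω _ ω *
    (W.pullΩ Ω (fst Z Z') x * W.pullΩ Ω (snd Z Z') y)) =
      W.trΩ Ω Z (W.vec Ω Z w * x) * W.trΩ Ω Z' (W.vec Ω Z' w' * y)) ?_ ?_ ?_ ?_ x
  · intro x
    refine baseChange_induction_top (p := fun y => W.trΩ Ω _ (W.vec Ω _ ω *
      (W.pullΩ Ω (fst Z Z') (1 ⊗ₜ[K] x) * W.pullΩ Ω (snd Z Z') y)) =
        W.trΩ Ω Z (W.vec Ω Z w * (1 ⊗ₜ[K] x)) * W.trΩ Ω Z' (W.vec Ω Z' w' * y)) ?_ ?_ ?_ ?_ y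
    · intro y
      rw [WeilCohomology.pullΩ_tmul, WeilCohomology.pullΩ_tmul,
        Algebra.TensorProduct.tmul_mul_tmul, mul_one, W.trΩ_vec, W.trΩ_vec, W.trΩ_vec, ← hω]
      rfl
    · simp only [map_zero, mul_zero]
    · intro a b ha hb
      simp only [map_add, mul_add, ha, hb]
    · intro a b hb
      simp only [map_smul, mul_smul_comm, hb, smul_eq_mul]
      ring
  · simp only [map_zero, zero_mul, mul_zero]
  · intro a b ha hb
    simp only [map_add, mul_add, add_mul, ha, hb]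
  · intro a b hb
    simp only [map_smul, mul_smul_comm, smul_mul_assoc, hb, smul_eq_mul]
    ring

omit [Finite k] in
lemma exists_EW {L : Set (CohForm W.toCohomologyData Ω)}
    (hL : ∀ a ∈ L, W.HasParity Ω a.X a.l) {Z : SmProjVar k}
    {w : W.H Z →ₗ[K] Ω} {v : Multiset (CohForm W.toCohomologyData Ω)}
    (h : ExtProductOf W.toCohomologyData Ω L Z w v) :
    ∃ e : (W.toSPre Ω).H Z, EW (W.toSPre Ω) (vecL W Ω '' L) Z e (v.map (vecL W Ω)) ∧
      ((W.vec Ω Z w : (W.toSPre Ω).H Z) = e ∨ (W.vec Ω Z w : (W.toSPre Ω).H Z) = -e) := by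
  have hL' : ∀ b ∈ vecL W Ω '' L, (W.toSPre Ω).Hom b.1 b.2 := by
    rintro _ ⟨a, ha, rfl⟩
    exact W.vec_hom Ω (hL a ha)
  induction h with
  | of a ha =>
    refine ⟨W.vec Ω a.X a.l, ?_, .inl rfl⟩
    rw [Multiset.map_singleton]
    exact EW.letter (vecL W Ω a) ⟨a, ha, rfl⟩
  | @prod Z Z' w w' v v' ω _ _ hω h h' =>
    obtain ⟨e, he, hwe⟩ := h
    obtain ⟨e', he', hwe'⟩ := h'
    refine ⟨(W.toSPre Ω).ext Z Z' e e', ?_, ?_⟩
    · rw [Multiset.map_add]
      exact EW.prod he he'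
    · have hh : (W.toSPre Ω).Hom Z (W.vec Ω Z w) := by
        rcases hwe with h | h
        · rw [h]; exact he.hom hL'
        · rw [h]
          rcases he.hom hL' with h1 | h1
          · exact .inl (Submodule.neg_mem _ h1)
          · exact .inr (Submodule.neg_mem _ h1)
      have hh' : (W.toSPre Ω).Hom Z' (W.vec Ω Z' w') := by
        rcases hwe' with h | h
        · rw [h]; exact he'.hom hL'
        · rw [h]
          rcases he'.hom hL' with h1 | h1
          · exact .inl (Submodule.neg_mem _ h1)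
          · exact .inr (Submodule.neg_mem _ h1)
      have h1 := ext_sign hh hh' (T := (W.vec Ω _ ω : (W.toSPre Ω).H (Z.prod Z')))
        (fun x y => tr_vec_ext hω x y)
      have h2 : (W.toSPre Ω).ext Z Z' (W.vec Ω Z w) (W.vec Ω Z' w') =
          (W.toSPre Ω).ext Z Z' e e' ∨ (W.toSPre Ω).ext Z Z' (W.vec Ω Z w) (W.vec Ω Z' w') =
          - (W.toSPre Ω).ext Z Z' e e' := by
        rcases hwe with h3 | h3 <;> rcases hwe' with h4 | h4
        · left; rw [h3, h4]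
        · right; rw [h3, h4, SPre.ext, SPre.ext, map_neg, mul_neg]
        · right; rw [h3, h4, SPre.ext, SPre.ext, map_neg, neg_mul]
        · left; rw [h3, h4, SPre.ext, SPre.ext, map_neg, map_neg, neg_mul_neg]
      rcases h1 with h1 | h1 <;> rcases h2 with h2 | h2
      · left; rw [h1, h2]
      · right; rw [h1, h2]
      · right; rw [h1, h2]
      · left; rw [h1, h2, neg_neg]


/-! ### generation -/

section Transpose

variable {K' : Type t} [Field K'] {Ω' : Type v} [Field Ω'] [Algebra K' Ω']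
  {P : SPre.{u, v, w, t} k K' Ω'}

omit [Finite k] in
lemma tr_od_swap {V : SmProjVar k} {o : P.H V} (ho : o ∈ P.od V) (x : P.H V) :
    P.tr V (o * x) = - P.tr V (x * o) := by
  obtain ⟨a, ha, b, hb, rfl⟩ := P.exists_decomp V x
  rw [mul_add, add_mul, map_add, map_add, P.tr_od V _ (P.od_mul_ev V _ _ ho ha),
    P.tr_od V _ (P.ev_mul_od V _ _ ha ho), P.od_anti V _ _ ho hb, map_neg, zero_add, zero_add]

omit [Finite k] in
lemma tr_transpose {Y Z : SmProjVar k} {c : P.H (Y.prod Z)} (hc : c ∈ P.ev (Y.prod Z))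
    {w : P.H Z} (hw : P.Hom Z w) {y : P.H Y} {fy : P.H Z}
    (h : ∀ z, P.tr Z (fy * z) =
      P.tr (Y.prod Z) (P.pull (fst Y Z) y * c * P.pull (snd Y Z) z)) :
    P.tr Z (w * fy) = P.tr (Y.prod Z) (P.pull (snd Y Z) w * c * P.pull (fst Y Z) y) := by
  have h1 : P.pull (fst Y Z) y * (P.pull (snd Y Z) w * c) =
      P.pull (fst Y Z) y * c * P.pull (snd Y Z) w := by
    rw [mul_assoc, P.ev_comm _ c _ hc]
  rcases hw with hw | hw
  · rw [P.ev_comm Z w fy hw, h, ← h1]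
    rw [P.ev_comm _ (P.pull (snd Y Z) w * c) _ (P.ev_mul_ev _ _ _ (P.pull_ev _ _ hw) hc)]
  · rw [tr_od_swap hw, h, ← h1]
    rw [tr_od_swap (o := P.pull (snd Y Z) w * c) (P.od_mul_ev _ _ _ (P.pull_od _ _ hw) hc)]

end Transpose

omit [Finite k] in
lemma vec_comp {Y Z : SmProjVar k} {f : W.H Y → W.H Z} {w : W.H Z →ₗ[K] Ω} {c : W.H (Y.prod Z)}
    (hc : c ∈ W.algClasses (Y.prod Z))
    (hf : ∀ (x : W.H Y) (y : W.H Z),
      W.pairing Z (f x) y = W.tr (Y.prod Z) (W.pull (fst Y Z) x * c * W.pull (snd Y Z) y))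
    (hw : (W.toSPre Ω).Hom Z (W.vec Ω Z w)) (l : W.H Y →ₗ[K] Ω) (hl : ∀ y, l y = w (f y)) :
    ∃ c' ∈ (W.toSPre Ω).alg (Y.prod Z), (W.vec Ω Y l : (W.toSPre Ω).H Y) =
      (W.toSPre Ω).pushF (fst Y Z) ((W.toSPre Ω).pull (snd Y Z) (W.vec Ω Z w) * c') := by
  -- the correspondence over `Ω`
  have h1 : ∀ (y : W.H Y) (z : W.HΩ Ω Z), W.trΩ Ω Z (((1 : Ω) ⊗ₜ[K] f y) * z) =
      W.trΩ Ω (Y.prod Z) (W.pullΩ Ω (fst Y Z) (1 ⊗ₜ[K] y) * (1 ⊗ₜ[K] c) *
        W.pullΩ Ω (snd Y Z) z) := by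
    intro y z
    refine baseChange_induction_top (p := fun z => W.trΩ Ω Z (((1 : Ω) ⊗ₜ[K] f y) * z) =
      W.trΩ Ω (Y.prod Z) (W.pullΩ Ω (fst Y Z) (1 ⊗ₜ[K] y) * (1 ⊗ₜ[K] c) *
        W.pullΩ Ω (snd Y Z) z)) ?_ ?_ ?_ ?_ z
    · intro z
      have h2 := hf y z
      rw [WeilCohomology.pullΩ_tmul, WeilCohomology.pullΩ_tmul,
        Algebra.TensorProduct.tmul_mul_tmul, Algebra.TensorProduct.tmul_mul_tmul,
        Algebra.TensorProduct.tmul_mul_tmul, WeilCohomology.trΩ_tmul, WeilCohomology.trΩ_tmul,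
        mul_one, mul_one]
      exact congrArg (fun a : K => a • (1 : Ω)) h2
    · simp only [map_zero, mul_zero]
    · intro a b ha hb
      simp only [map_add, mul_add, ha, hb]
    · intro a b hb
      simp only [map_smul, mul_smul_comm, hb]
  have hcmem : ((1 : Ω) ⊗ₜ[K] c : W.HΩ Ω (Y.prod Z)) ∈ (W.toSPre Ω).alg (Y.prod Z) :=
    Submodule.tmul_mem_baseChange_of_mem 1 hc
  refine ⟨((1 : Ω) ⊗ₜ[K] c : W.HΩ Ω (Y.prod Z)), hcmem, ?_⟩
  refine ext_vec W Ω fun y => ?_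
  have h2 := tr_transpose (P := W.toSPre Ω) ((W.toSPre Ω).alg_le_ev _ hcmem) hw
    (y := ((1 : Ω) ⊗ₜ[K] y : W.HΩ Ω Y)) (fy := ((1 : Ω) ⊗ₜ[K] f y : W.HΩ Ω Z)) (h1 y)
  refine (W.trΩ_vec Ω Y l y).trans ?_
  rw [hl]
  refine (W.trΩ_vec Ω Z w (f y)).symm.trans (h2.trans ?_)
  exact (tr_pushF (W.toSPre Ω) (fst Y Z) _ _).symm

omit [Finite k] in
lemma generated_of_generatedBy {L : Set (CohForm W.toCohomologyData Ω)}
    (hL : ∀ a ∈ L, W.HasParity Ω a.X a.l) {Y : SmProjVar k}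
    (hY : GeneratedBy W.toCohomologyData Ω L Y) :
    Generated (W.toSPre Ω) (vecL W Ω '' L) Y := by
  have hL' : ∀ b ∈ vecL W Ω '' L, (W.toSPre Ω).Hom b.1 b.2 := by
    rintro _ ⟨a, ha, rfl⟩
    exact W.vec_hom Ω (hL a ha)
  have h0 : ∀ (S : Set ((W.toSPre Ω).H Y)) (T : Set (W.H Y →ₗ[K] Ω)),
      Submodule.span Ω T = ⊤ → (∀ l ∈ T, (W.vec Ω Y l : (W.toSPre Ω).H Y) ∈
        Submodule.span Ω S) → Submodule.span Ω S = ⊤ := by
    intro S T hT h
    rw [eq_top_iff]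
    refine le_trans (le_of_eq (W.span_vec Ω Y T hT).symm) ?_
    refine Submodule.span_le.mpr ?_
    rintro _ ⟨l, hl, rfl⟩
    exact h l hl
  unfold Generated
  refine h0 _ _ hY ?_
  rintro l (hl | ⟨Z, w, v, f, hw, ⟨c, hc, hf⟩, hl⟩)
  · have h2 : (W.vec Ω Y l : (W.toSPre Ω).H Y) ∈ (W.toSPre Ω).alg Y := vec_mem_alg W Ω hl
    exact Submodule.subset_span (Or.inl h2)
  · obtain ⟨e, he, hwe⟩ := exists_EW hL hw
    have hw' : (W.toSPre Ω).Hom Z (W.vec Ω Z w) := by
      rcases hwe with h | h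
      · rw [h]; exact he.hom hL'
      · rw [h]
        rcases he.hom hL' with h1 | h1
        · exact .inl (Submodule.neg_mem _ h1)
        · exact .inr (Submodule.neg_mem _ h1)
    obtain ⟨c', hc', h2⟩ := vec_comp hc hf hw' l hl
    have h3 : (W.toSPre Ω).pushF (fst Y Z) ((W.toSPre Ω).pull (snd Y Z) e * c') ∈
        Submodule.span Ω ({y | y ∈ (W.toSPre Ω).alg Y} ∪
          {y : (W.toSPre Ω).H Y | ∃ (Z V : SmProjVar k) (w : (W.toSPre Ω).H Z)
            (v : Multiset (Letter (W.toSPre Ω)))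
            (h : V.toOver ⟶ Z.toOver) (g : V.toOver ⟶ Y.toOver) (c : (W.toSPre Ω).H V),
              EW (W.toSPre Ω) (vecL W Ω '' L) Z w v ∧ c ∈ (W.toSPre Ω).alg V ∧
                y = (W.toSPre Ω).pushF g ((W.toSPre Ω).pull h w * c)}) :=
      Submodule.subset_span (.inr ⟨Z, Y.prod Z, e, _, snd Y Z, fst Y Z, c', he, hc', rfl⟩)
    rcases hwe with h | h
    · rw [h] at h2
      change (W.vec Ω Y l : (W.toSPre Ω).H Y) ∈ _
      rw [h2]; exact h3
    · rw [h, map_neg, neg_mul, map_neg] at h2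
      change (W.vec Ω Y l : (W.toSPre Ω).H Y) ∈ _
      rw [h2]; exact Submodule.neg_mem _ h3

/-! ### the hypothesis on invariant words -/

/-- the eigenvalue of a letter -/
noncomputable def lamL (lam : CohForm W.toCohomologyData Ω → Ωˣ) (b : Letter (W.toSPre Ω)) : Ω :=
  (frobDeg b.1 : Ω) / (lam (unvecL W Ω b) : Ω)

lemma letterSet {L : Set (CohForm W.toCohomologyData Ω)} {lam : CohForm W.toCohomologyData Ω → Ωˣ}
    [Algebra.IsAlgebraic K Ω]
    (hL : IsFrobeniusSet W.toCohomologyData Ω L lam) :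
    LetterSet (W.toSPre Ω) (frobLike W Ω p G hG) (vecL W Ω '' L) (lamL lam) where
  hom := by
    rintro _ ⟨a, ha, rfl⟩
    exact W.vec_hom Ω (hL.parity a ha)
  ne_zero := by
    rintro _ ⟨a, ha, rfl⟩ h0
    exact hL.ne_zero a ha ((vec_eq_zero_iff W Ω a.X a.l).mp h0)
  eig := by
    rintro _ ⟨a, ha, rfl⟩
    unfold lamL
    rw [unvecL_vecL]
    exact vec_mem_E (Units.ne_zero _) (hL.eigen a ha)
  conj := by
    rintro σ _ ⟨a, ha, rfl⟩
    exact ⟨a.conj σ, hL.conj a ha σ, vecL_conj W Ω σ a⟩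
  fin := by
    rintro b -
    obtain ⟨N, hN, h⟩ := W.exists_stabilizer Ω (X := b.1) b.2
    refine ⟨N, hN, fun σ hσ => ?_⟩
    have h1 : W.sΩ σ b.1 b.2 = W.sΩ 1 b.1 b.2 :=
      h σ 1 (by rw [mul_one]; exact N.inv_mem hσ)
    have h2 : W.sΩ (1 : Ω ≃ₐ[K] Ω) b.1 b.2 = b.2 := by
      have h3 := W.sΩ_mul Ω 1 1 b.1 b.2
      rw [mul_one] at h3
      exact ((W.sΩ (1 : Ω ≃ₐ[K] Ω) b.1).injective h3).symm
    unfold lconj
    change (⟨b.1, W.sΩ σ b.1 b.2⟩ : Letter (W.toSPre Ω)) = b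
    rw [h1, h2]

lemma relHyp {L : Set (CohForm W.toCohomologyData Ω)} {lam : CohForm W.toCohomologyData Ω → Ωˣ}
    (hG : (p : Ω) ∈ grp Ω G)
    (hL : IsFrobeniusSet W.toCohomologyData Ω L lam)
    (hR : InvariantWordsAlgebraic W.toCohomologyData Ω L lam G) :
    RelHyp (W.toSPre Ω) (vecL W Ω '' L) fun v => (v.map (lamL lam)).prod ∈ grp Ω G := by
  intro v hv hvL hinv hprod
  have hvv : (v.map (unvecL W Ω)).map (vecL W Ω) = v := by
    rw [Multiset.map_map]
    conv_rhs => rw [← Multiset.map_id v]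
    exact Multiset.map_congr rfl fun b _ => vecL_unvecL W Ω b
  have h1 : ((v.map (unvecL W Ω)).map lam).prod ∈ G := by
    have h2 : (((v.map (unvecL W Ω)).map lam).prod : Ω) * (v.map (lamL lam)).prod =
        (v.map fun b => (frobDeg b.1 : Ω)).prod := by
      rw [← Units.coeHom_apply, map_multiset_prod, Multiset.map_map, Multiset.map_map,
        ← Multiset.prod_map_mul]
      refine congrArg Multiset.prod (Multiset.map_congr rfl fun b _ => ?_)
      rw [Function.comp_apply, Function.comp_apply, Units.coeHom_apply, lamL,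
        mul_div_cancel₀ _ (Units.ne_zero _)]
    have h3 : (((v.map (unvecL W Ω)).map lam).prod : Ω) ∈ grp Ω G := by
      refine grp_div Ω _ _ ?_ hprod
      rw [h2]
      refine Submonoid.multiset_prod_mem _ _ fun x hx => ?_
      obtain ⟨b, _, rfl⟩ := Multiset.mem_map.mp hx
      exact (frobLike W Ω p G hG).dg_mem b.1
    obtain ⟨a, ha, h4⟩ := h3
    rwa [← Units.ext h4]
  obtain ⟨m, hm, Z, w, hw, hw'⟩ := hR (v.map (unvecL W Ω))
    (fun h0 => hv (Multiset.map_eq_zero.mp h0))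
    (by
      intro a ha
      obtain ⟨b, hb, rfl⟩ := Multiset.mem_map.mp ha
      obtain ⟨a, ha, rfl⟩ := hvL b hb
      rwa [unvecL_vecL])
    (by
      intro σ
      conv_rhs => rw [← hinv σ]
      rw [Multiset.map_map, Multiset.map_map]
      exact Multiset.map_congr rfl fun b _ => (unvecL_lconj W Ω σ b).symm) h1
  obtain ⟨e, he, hwe⟩ := exists_EW hL.parity hw
  rw [Multiset.map_nsmul, hvv] at he
  refine ⟨m, hm, Z, e, he, ?_⟩
  have h5 : (W.vec Ω Z w : (W.toSPre Ω).H Z) ∈ (W.toSPre Ω).alg Z := vec_mem_alg W Ω hw'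
  rcases hwe with h | h
  · rwa [h] at h5
  · rw [h] at h5
    exact (Submodule.neg_mem_iff _).mp h5

lemma unvec_eig {X : SmProjVar k} {a : Ω} (ha : a ≠ 0) {x : W.HΩ Ω X}
    (hax : W.pullΩ Ω (frob X) x = a • x) (y : W.H X) :
    unvec W Ω X x (W.pull (frob X) y) = (frobDeg X : Ω) / a * unvec W Ω X x y := by
  have h1 := trΩ_pull_frob W Ω X (x * (1 ⊗ₜ[K] y))
  rw [map_mul, hax, WeilCohomology.pullΩ_tmul, WeilCohomology.pullA_apply, smul_mul_assoc,
    map_smul, smul_eq_mul] at h1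
  rw [unvec_apply, unvec_apply, div_mul_eq_mul_div, eq_div_iff ha, mul_comm _ a]
  exact h1

lemma eigenvalues_mem {X : SmProjVar k} (h : FrobeniusEigenvaluesIn W.toCohomologyData Ω X G)
    (a : Ω) (x : (W.toSPre Ω).H X) (hx : x ≠ 0)
    (hax : (frobLike W Ω p G hG).Φ X x = a • x) : a ∈ (frobLike W Ω p G hG).G := by
  have ha : a ≠ 0 := by
    rintro rfl
    rw [zero_smul] at hax
    have h1 : x = 0 := by
      have hinj : Function.Injective ((frobLike W Ω p G hG).Φ X).toLinearMap :=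
        LinearMap.injective_iff_surjective.mpr ((frobLike W Ω p G hG).surj X)
      exact hinj (hax.trans (map_zero _).symm)
    exact hx h1
  have hd : (frobDeg X : Ω) ≠ 0 := (frobLike W Ω p G hG).dg_ne X
  obtain ⟨b, hb, hb'⟩ := h ((frobDeg X : Ω) / a) (unvec W Ω X x) (by
    intro h0
    apply hx
    have := vec_unvec W Ω X x
    rw [h0] at this
    rw [← this]
    exact (vec_eq_zero_iff W Ω X 0).mpr rfl) (by
    intro y
    exact unvec_eig ha hax y)
  refine (frobLike W Ω p G hG).div_mem a ((frobDeg X : Ω) / a) ?_ ⟨b, hb, hb'⟩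
  rw [mul_div_cancel₀ _ ha]
  exact (frobLike W Ω p G hG).dg_mem X

/-- **The main theorem** -/
theorem standardD_of_words [IsAlgClosure K Ω]
    {L : Set (CohForm W.toCohomologyData Ω)} {lam : CohForm W.toCohomologyData Ω → Ωˣ}
    (hG : (p : Ω) ∈ grp Ω G) (hGσ : ∀ σ : Ω ≃ₐ[K] Ω, ∀ a ∈ G, Units.map (σ : Ω →* Ω) a ∈ G)
    (hL : IsFrobeniusSet W.toCohomologyData Ω L lam)
    (hR : InvariantWordsAlgebraic W.toCohomologyData Ω L lam G) (Y : SmProjVar k)
    (hY : W.SummandOf (WordType W.toCohomologyData Ω L G) Y) : W.StandardD Y := by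
  have h1 : IsAlgClosed Ω := IsAlgClosure.isAlgClosed K
  have h2 : Algebra.IsAlgebraic K Ω := IsAlgClosure.isAlgebraic
  have hGc : ∀ (σ : Ω ≃ₐ[K] Ω), ∀ c ∈ (frobLike W Ω p G hG).G,
      σ c ∈ (frobLike W Ω p G hG).G := by
    rintro σ _ ⟨a, ha, rfl⟩
    exact ⟨_, hGσ σ a ha, rfl⟩
  have hLS := letterSet (p := p) (G := G) (hG := hG) hL
  have hRH := relHyp hG hL hR
  refine W.standardD_of_summandOf_aux Ω Y (fun V hV => ?_) hY
  rcases hV with hV | ⟨X, Y, hX, hX', hY, rfl⟩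
  · exact D_of_generated hLS (fun σ τ X x => W.sΩ_mul Ω σ τ X x) hGc hRH V
      (generated_of_generatedBy hL.parity hV)
  · exact D_prod_of_generated hLS
      (fun σ τ X x => W.sΩ_mul Ω σ τ X x) hGc hRH X Y
      (fun n => W.d_of_standardD Ω (hX n)) (eigenvalues_mem hX')
      (generated_of_generatedBy hL.parity hY)

end Pool.Agent.Helper11
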