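import Mathlib
import Pool.Agent.Helper10.Weil

/-!
# Combinations of classes of algebraic cycles with coefficients in a subfield: definitions
-/

universe u v w

open CategoryTheory

namespace Pool.Agent.Helper11

open Pool.Agent.Helper10 SmProjVar

variable {k : Type u} [Field k] {K : Type v} [Field K] (W : CohomologyData.{u, v, w} k K)
  (F : Subfield K)

/-- The `F`-linear span in `H(X)` of the classes of algebraic cycles. -/
def cycleSpan (X : SmProjVar k) : Submodule F (W.H X) :=
  Submodule.span F {z | ∃ (j : ℕ) (c : X.Z j), z = W.cy X j c}

/-- For a subfield `F` of the field of coefficients `K`: the elements of the `F`-linear span in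
`H(X)` of the classes of algebraic cycles which are linearly independent over `F` are linearly
independent over `K`. (This is no condition if `F = K`.) -/
def IndependentOver (X : SmProjVar k) : Prop :=
  ∀ (m : ℕ) (z : Fin m → W.H X), (∀ i, z i ∈ cycleSpan W F X) →
    LinearIndependent F z → LinearIndependent K z

/-- The map `u : H(X) → H(X)` is `x ↦ q_* (p^* x ∪ c)` for an `F`-linear combination `c` of classes
of algebraic cycles on `X × X`, where `p` and `q` are the projections and `q_*` is the Poincaré
dual of `q^*`. -/
def IsMapOver (X : SmProjVar k) (u : W.H X → W.H X) : Prop :=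
  ∃ c ∈ cycleSpan W F (X.prod X), ∀ x y : W.H X,
    W.pairing X (u x) y = W.tr (X.prod X) (W.pull (fst X X) x * c * W.pull (snd X X) y)

end Pool.Agent.Helper11
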