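import Mathlib
import Pool.Agent.Helper10.StableTypes
import Pool.Agent.Helper11.SpanTypes

/-!
# Varieties of stable type relative to a subfield of the field of coefficients
-/

universe u v w t

open CategoryTheory TensorProduct

namespace Pool.Agent.Helper11

open Pool.Agent.Helper10 SmProjVar

/-- A finite family `(e_0, …, e_{m-1})` of elements of `E`. -/
abbrev Family (E : Type w) : Type w := Σ m : ℕ, Fin m → E

/-- A shape: a list of finite families of elements of `E`. -/
abbrev Shape (E : Type w) : Type w := List (Family E)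

/-- For a shape `l = (e_1, …, e_r)`: `y` is a word of shape `l`, i.e. the product `x_1 ⋯ x_r`, in
this order, of some member `x_i` of each family `e_i`. -/
def IsWordOf {E : Type w} [Ring E] (l : Shape E) (y : E) : Prop :=
  ∃ x : List E, List.Forall₂ (fun e a => ∃ b, a = e.2 b) l x ∧ y = x.prod

/-- The words of all the shapes in the sets `S c` span the space `E` over `Ω`. -/
def WordsSpan {Ω : Type t} [Field Ω] {E : Type w} [Ring E] [Algebra Ω E] (S : Ω → Set (Shape E)) :
    Prop :=
  Submodule.span Ω {y | ∃ c, ∃ l ∈ S c, IsWordOf l y} = ⊤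

/-- `y` is a generalised eigenvector of the operator `T` on `Ω ⊗ V`, of eigenvalue `c`, or zero. -/
def IsGenEigenvector {K : Type v} [Field K] {Ω : Type t} [Field Ω] [Algebra K Ω] {V : Type w}
    [AddCommGroup V] [Module K V] (T : Module.End K V) (c : Ω) (y : Ω ⊗[K] V) : Prop :=
  y ∈ Module.End.maxGenEigenspace (T.baseChange Ω) c

variable {k : Type u} [Field k] {K : Type v} [Field K] [CharZero K]
  (W : WeilCohomology.{u, v, w} k K) (Ω : Type t) [Field Ω] [Algebra K Ω]

/-- The families `e_0, …, e_{m-1}` and `f_0, …, f_{m-1}` in `Ω ⊗ H(V)` are dual by an algebraic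
correspondence: for some invertible matrix `B`, the class `∑ B_{ab} e_a × f_b` on `V × V` is a
linear combination of classes of algebraic cycles. -/
def DualFamilies (V : SmProjVar k) {m : ℕ} (e f : Fin m → W.HΩ Ω V) : Prop :=
  ∃ B : Matrix (Fin m) (Fin m) Ω, B.det ≠ 0 ∧
    W.IsAlg Ω (V.prod V) (bilinear B (fun a => W.pullT Ω (fst V V) (e a))
      fun b => W.pullT Ω (snd V V) (f b))

/-- The product of the determinants of the families `e_0, …, e_n` of `m` elements of `Ω ⊗ H(V)` is
algebraic: for all varieties `Z` and all morphisms `p_{ji} : Z → V` (`j ≤ n`, `i < m`), the class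
`∏_j ∑_π sgn(π) ∏_i p_{ji}^* e_{j, π i}` on `Z` is a linear combination of classes of algebraic
cycles. -/
def DetsAlgebraic (V : SmProjVar k) {n m : ℕ} (e : Fin (n + 1) → Fin m → W.HΩ Ω V) : Prop :=
  ∀ (Z : SmProjVar k) (p : Fin (n + 1) → Fin m → (Z.toOver ⟶ V.toOver)),
    W.IsAlg Ω Z (ordProd fun j => rowDet fun i b => W.pullT Ω (p j i) (e j b))

/-- The families `e_0, …, e_n` in `Ω ⊗ H(V)` are compatible: they have the same size, and the
product of their determinants is algebraic, or `n = 1` and they are dual by an algebraic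
correspondence. -/
def CompatibleFamilies (V : SmProjVar k) {n : ℕ} (e : Fin (n + 1) → Family (W.HΩ Ω V)) : Prop :=
  ∃ (m : ℕ) (x : Fin (n + 1) → Fin m → W.HΩ Ω V), (∀ j, e j = ⟨m, x j⟩) ∧
    (DetsAlgebraic W Ω V x ∨ n = 1 ∧ DualFamilies W Ω V (x 0) (x (Fin.last n)))

/-- The shapes `l_0, …, l_n` of families in `Ω ⊗ H(V)` are compatible: they have the same length
`N`, and after reordering each of them, the `i`-th families in `l_0, …, l_n` are compatible, for
all `i < N`. -/
def CompatibleShapes (V : SmProjVar k) {n : ℕ} (l : Fin (n + 1) → Shape (W.HΩ Ω V)) : Prop :=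
  ∃ (N : ℕ) (a : Fin N → Fin (n + 1) → Family (W.HΩ Ω V)),
    (∀ j, (l j).Perm (List.ofFn fun i => a i j)) ∧ ∀ i, CompatibleFamilies W Ω V (a i)

/-- The members of the shape `l` are families of at most `M` even or odd classes in `Ω ⊗ H(X)`,
which are absolutely irreducible under the set `G` of symmetries. -/
def AdmissibleShape (G : Set (∀ X : SmProjVar k, W.HΩ Ω X → W.HΩ Ω X)) (M : ℕ) (X : SmProjVar k)
    (l : Shape (W.HΩ Ω X)) : Prop :=
  ∀ e ∈ l, e.1 ≤ M ∧ W.ParityFamily Ω X e.2 ∧ W.IrreducibleFamily Ω G X e.2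

/-- For a subfield `F` of `K`, automorphisms `σ_0, …, σ_n` of the field `Ω` (which need not fix
`K`), a set `G` of symmetries, and a bound `M`, `X` is stable over `F`: there are an algebraic
correspondence `T` on `X` with coefficients in `F` and, for every `c` in `Ω`, a set `S c` of shapes
(lists of families of at most `M` even or odd classes in `Ω ⊗ H(X)`, which are absolutely
irreducible under `G`) such that
* the words of a shape in `S c` are generalised eigenvectors of `T` for the eigenvalue `c`;
* the words of all shapes in all the sets `S c` span `Ω ⊗ H(X)`;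
* shapes `l_0, …, l_n` in the sets `S (σ_0 c), …, S (σ_n c)` are compatible, for all `c`. -/
def StableOver (F : Subfield K) {n : ℕ} (σ : Fin (n + 1) → (Ω ≃+* Ω))
    (G : Set (∀ X : SmProjVar k, W.HΩ Ω X → W.HΩ Ω X)) (M : ℕ) (X : SmProjVar k) : Prop :=
  ∃ (T : Module.End K (W.H X)) (S : Ω → Set (Shape (W.HΩ Ω X))),
    IsMapOver W.toCohomologyData F X T ∧
    (∀ c, ∀ l ∈ S c, AdmissibleShape W Ω G M X l ∧ ∀ y, IsWordOf l y → IsGenEigenvector T c y) ∧
    WordsSpan S ∧
    ∀ (c : Ω) (l : Fin (n + 1) → Shape (W.HΩ Ω X)),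
      (∀ j, l j ∈ S (σ j c)) → CompatibleShapes W Ω X l

/-- `Y` is a finite product of varieties which are stable over `F` (for the same `σ_0, …, σ_n`, `G`
and `M`), or the product of such a product and a variety `V` such that `V ^ (n + 1)` and, in case
`M ≠ 1`, all powers of `V` satisfy the standard conjecture D. -/
def RelativelyStableOver (F : Subfield K) {n : ℕ} (σ : Fin (n + 1) → (Ω ≃+* Ω))
    (G : Set (∀ X : SmProjVar k, W.HΩ Ω X → W.HΩ Ω X)) (M : ℕ) (Y : SmProjVar k) : Prop :=
  ∃ P, ProductsOf (StableOver W Ω F σ G M) P ∧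
    (Y = P ∨ ∃ V : SmProjVar k, W.StandardD (V.selfProd n) ∧
      (M ≠ 1 → ∀ m, W.StandardD (V.selfProd m)) ∧ Y = V.prod P)

end Pool.Agent.Helper11
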