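import Mathlib
import Pool.Agent.Helper10.Stable
import Pool.Agent.Helper10.Shapes

/-!
# Dual families
-/

universe u v w t

open CategoryTheory

namespace Pool.Agent.Helper11

open Pool.Agent.Helper10 SmProjVar SPre

variable {k : Type u} [Field k] {K : Type t} [Field K] {Ω : Type v} [Field Ω] [Algebra K Ω]
  {P : SPre.{u, v, w, t} k K Ω}

/-- the members of an irreducible family are independent or all zero -/
lemma famR_zero {ι : Type*} {G : ι → P.Sym} {Y : SmProjVar k} {n : ℕ} {x : Fin n → P.H Y}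
    (h : P.FamR G Y n x) {c : Fin n → Ω} (hc : c ≠ 0) (h0 : ∑ b, c b • x b = 0) (b : Fin n) :
    x b = 0 := by
  classical
  obtain ⟨ρ, hρ, hs⟩ := h.irr
  have key : ∀ M : Matrix (Fin n) (Fin n) Ω, ∑ a, (M.mulVec c) a • x a = 0 := by
    intro M
    have hM : M ∈ Submodule.span Ω (Set.range ρ) := by rw [hs]; trivial
    induction hM using Submodule.span_induction with
    | mem M hM =>
      obtain ⟨i, rfl⟩ := hM
      have h1 := congrArg ((G i).g Y) h0
      rw [map_sum, map_zero] at h1
      rw [← h1]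
      have h2 : ∀ b, (G i).g Y (c b • x b) = ∑ a, (c b * ρ i a b) • x a := by
        intro b
        rw [map_smul, (hρ i).2, Finset.smul_sum]
        exact Finset.sum_congr rfl fun a _ => smul_smul _ _ _
      rw [Finset.sum_congr rfl fun b _ => h2 b, Finset.sum_comm]
      refine Finset.sum_congr rfl fun a _ => ?_
      rw [← Finset.sum_smul]
      congr 1
      rw [Matrix.mulVec, dotProduct]
      exact Finset.sum_congr rfl fun b _ => mul_comm _ _
    | zero => simp
    | add M N _ _ hM hN =>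
      have h1 : ∀ a, ((M + N).mulVec c) a • x a = (M.mulVec c) a • x a + (N.mulVec c) a • x a := by
        intro a
        rw [Matrix.add_mulVec, Pi.add_apply, add_smul]
      rw [Finset.sum_congr rfl fun a _ => h1 a, Finset.sum_add_distrib, hM, hN, add_zero]
    | smul r M _ hM =>
      have h1 : ∀ a, ((r • M).mulVec c) a • x a = r • ((M.mulVec c) a • x a) := by
        intro a
        rw [Matrix.smul_mulVec, Pi.smul_apply, smul_assoc]
      rw [Finset.sum_congr rfl fun a _ => h1 a, ← Finset.smul_sum, hM, smul_zero]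
  obtain ⟨b₀, hb₀⟩ := Function.ne_iff.mp hc
  rw [Pi.zero_apply] at hb₀
  have h1 := key (Matrix.single b b₀ (c b₀)⁻¹)
  rw [Finset.sum_eq_single b] at h1
  · rw [Matrix.single_mulVec, Function.update_self, inv_mul_cancel₀ hb₀, one_smul] at h1
    exact h1
  · intro a _ ha
    rw [Matrix.single_mulVec, Function.update_of_ne ha, Pi.zero_apply, zero_smul]
  · intro h; exact absurd (Finset.mem_univ _) h

/-- dual families have algebraic products of determinants -/
lemma dets_of_same_parity [CharZero Ω] {V : SmProjVar k} {m : ℕ} {e f : Fin m → P.H V}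
    {B : Matrix (Fin m) (Fin m) Ω} (hB : B.det ≠ 0)
    (h : ∑ a, ∑ b, B a b • (P.pull (fst V V) (e a) * P.pull (snd V V) (f b)) ∈ P.alg (V.prod V))
    (hp : ((∀ b, e b ∈ P.ev V) ∧ ∀ b, f b ∈ P.ev V) ∨ ((∀ b, e b ∈ P.od V) ∧ ∀ b, f b ∈ P.od V))
    (Z : SmProjVar k) (p q : Fin m → (Z.toOver ⟶ V.toOver)) :
    rowDet (fun i b => P.pull (p i) (e b)) * rowDet (fun i b => P.pull (q i) (f b)) ∈
      P.alg Z := by
  set x : Fin m → Fin m → P.H Z := fun i b => P.pull (p i) (e b) with hx
  set y : Fin m → Fin m → P.H Z := fun i b => P.pull (q i) (f b) with hy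
  have hpar : ∃ ε : Ω, (ε = 1 ∨ ε = -1) ∧
      (∀ i a j b, x i a * x j b = ε • (x j b * x i a)) ∧
      (∀ i a j b, x i a * y j b = ε • (y j b * x i a)) ∧
      (∀ i a j b, y i a * y j b = ε • (y j b * y i a)) := by
    rcases hp with ⟨he, hf⟩ | ⟨he, hf⟩
    · have hx' : ∀ i b, x i b ∈ P.ev Z := fun i b => P.pull_ev (p i) _ (he b)
      have hy' : ∀ i b, y i b ∈ P.ev Z := fun i b => P.pull_ev (q i) _ (hf b)
      refine ⟨1, .inl rfl, fun i a j b => ?_, fun i a j b => ?_, fun i a j b => ?_⟩
      · rw [one_smul]; exact P.ev_comm Z _ _ (hx' i a)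
      · rw [one_smul]; exact P.ev_comm Z _ _ (hx' i a)
      · rw [one_smul]; exact P.ev_comm Z _ _ (hy' i a)
    · have hx' : ∀ i b, x i b ∈ P.od Z := fun i b => P.pull_od (p i) _ (he b)
      have hy' : ∀ i b, y i b ∈ P.od Z := fun i b => P.pull_od (q i) _ (hf b)
      refine ⟨-1, .inr rfl, fun i a j b => ?_, fun i a j b => ?_, fun i a j b => ?_⟩
      · rw [neg_one_smul]; exact P.od_anti Z _ _ (hx' i a) (hx' j b)
      · rw [neg_one_smul]; exact P.od_anti Z _ _ (hx' i a) (hy' j b)
      · rw [neg_one_smul]; exact P.od_anti Z _ _ (hy' i a) (hy' j b)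
  obtain ⟨ε, hε, hxx, hxy, hyy⟩ := hpar
  have h1 := RowDetDual.det_smul_mem (P.alg Z) (P.one_mem Z)
    (fun a ha b hb => P.mul_mem Z a b ha hb) x y ε hε hxx hxy hyy B (by
      intro i j
      have h2 := P.pull_mem (lift (p i) (q j)) _ h
      have h3 : P.pull (lift (p i) (q j)) (∑ a, ∑ b, B a b •
          (P.pull (fst V V) (e a) * P.pull (snd V V) (f b))) =
          ∑ a, ∑ b, B a b • (x i a * y j b) := by
        rw [map_sum]
        refine Finset.sum_congr rfl fun a _ => ?_
        rw [map_sum]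
        refine Finset.sum_congr rfl fun b _ => ?_
        rw [map_smul, map_mul (P.pull _), pull_pull, pull_pull, lift_fst, lift_snd]
      rw [← h3]
      exact h2)
  exact (Submodule.smul_mem_iff _ hB).mp h1

lemma rowDet_zero_pos {A : Type*} [Ring A] {n : ℕ} (hn : 0 < n) :
    rowDet (fun _ _ : Fin n => (0 : A)) = 0 := by
  obtain ⟨n, rfl⟩ : ∃ n', n = n' + 1 := ⟨n - 1, by omega⟩
  unfold rowDet
  refine Finset.sum_eq_zero fun π _ => ?_
  rw [List.ofFn_succ, List.prod_cons, zero_mul, smul_zero]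

lemma dets_of_dual [CharZero Ω] {ι : Type*} {G : ι → P.Sym} {V : SmProjVar k} {m : ℕ}
    {e f : Fin m → P.H V} {B : Matrix (Fin m) (Fin m) Ω} (hB : B.det ≠ 0)
    (h : ∑ a, ∑ b, B a b • (P.pull (fst V V) (e a) * P.pull (snd V V) (f b)) ∈ P.alg (V.prod V))
    (he : P.FamR G V m e) (hf : P.FamR G V m f)
    (Z : SmProjVar k) (p q : Fin m → (Z.toOver ⟶ V.toOver)) :
    rowDet (fun i b => P.pull (p i) (e b)) * rowDet (fun i b => P.pull (q i) (f b)) ∈
      P.alg Z := by
  classical
  by_cases hp : ((∀ b, e b ∈ P.ev V) ∧ ∀ b, f b ∈ P.ev V) ∨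
    ((∀ b, e b ∈ P.od V) ∧ ∀ b, f b ∈ P.od V)
  · exact dets_of_same_parity hB h hp Z p q
  -- the parities are different: one of the families vanishes
  have hm : 0 < m := by
    rcases Nat.eq_zero_or_pos m with rfl | hm
    · exact absurd (Or.inl ⟨fun b => b.elim0, fun b => b.elim0⟩) hp
    · exact hm
  have hD : ∑ a, ∑ b, B a b • (P.pull (fst V V) (e a) * P.pull (snd V V) (f b)) = 0 := by
    have h1 := P.alg_le_ev _ h
    have h2 : ∑ a, ∑ b, B a b • (P.pull (fst V V) (e a) * P.pull (snd V V) (f b)) ∈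
        P.od (V.prod V) := by
      refine Submodule.sum_mem _ fun a _ => Submodule.sum_mem _ fun b _ =>
        Submodule.smul_mem _ _ ?_
      rcases he.parity with h3 | h3
      · rcases hf.parity with h4 | h4
        · exact absurd (.inl ⟨h3, h4⟩) hp
        · exact P.ev_mul_od _ _ _ (P.pull_ev _ _ (h3 a)) (P.pull_od _ _ (h4 b))
      · rcases hf.parity with h4 | h4
        · exact P.od_mul_ev _ _ _ (P.pull_od _ _ (h3 a)) (P.pull_ev _ _ (h4 b))
        · exact absurd (.inr ⟨h3, h4⟩) hp
    have := (P.ev_inf_od _).le_bot ⟨h1, h2⟩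
    simpa using this
  by_cases hf0 : ∀ b, f b = 0
  · have h1 : (fun (i : Fin m) b => P.pull (q i) (f b)) = fun _ _ => 0 := by
      funext i b
      rw [hf0, map_zero]
    rw [h1, rowDet_zero_pos hm, mul_zero]
    exact Submodule.zero_mem _
  · have hy : ∃ a, ∑ b, B a b • f b ≠ 0 := by
      by_contra hall
      push Not at hall hf0
      obtain ⟨b₀, hb₀⟩ := hf0
      apply hb₀
      have h1 : ∑ a, (B⁻¹ b₀ a) • ∑ b, B a b • f b = f b₀ := by
        simp only [Finset.smul_sum, smul_smul]
        rw [Finset.sum_comm]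
        simp only [← Finset.sum_smul]
        have h2 : ∀ b, ∑ a, B⁻¹ b₀ a * B a b = (1 : Matrix (Fin m) (Fin m) Ω) b₀ b := by
          intro b
          rw [← Matrix.nonsing_inv_mul B (isUnit_iff_ne_zero.mpr hB), Matrix.mul_apply]
        rw [Finset.sum_congr rfl fun b _ => by rw [h2 b], Finset.sum_eq_single b₀]
        · rw [Matrix.one_apply_eq, one_smul]
        · intro b _ hb
          rw [Matrix.one_apply_ne hb.symm, zero_smul]
        · intro h; exact absurd (Finset.mem_univ _) h
      rw [← h1]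
      exact Finset.sum_eq_zero fun a _ => by rw [hall, smul_zero]
    obtain ⟨a₀, ha₀⟩ := hy
    obtain ⟨z, hz⟩ : ∃ z, P.tr V ((∑ b, B a₀ b • f b) * z) ≠ 0 := by
      by_contra hall
      push Not at hall
      exact ha₀ (P.nondeg V _ hall)
    have h1 : ∑ a, P.tr V ((∑ b, B a b • f b) * z) • e a = 0 := by
      have h2 := congrArg (P.contr V V z) hD
      rw [map_zero, map_sum] at h2
      rw [← h2]
      refine Finset.sum_congr rfl fun a _ => ?_
      have h3 : ∑ b, B a b • (P.pull (fst V V) (e a) * P.pull (snd V V) (f b)) =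
          P.ext V V (e a) (∑ b, B a b • f b) := by
        rw [SPre.ext, map_sum (P.pull _), Finset.mul_sum]
        exact Finset.sum_congr rfl fun b _ => by rw [map_smul (P.pull _), mul_smul_comm]
      rw [h3, contr_ext]
    have he0 := famR_zero he (c := fun a => P.tr V ((∑ b, B a b • f b) * z))
      (fun h0 => hz (congrFun h0 a₀)) h1
    have h1 : (fun (i : Fin m) b => P.pull (p i) (e b)) = fun _ _ => 0 := by
      funext i b
      rw [he0, map_zero]
    rw [h1, rowDet_zero_pos hm, zero_mul]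
    exact Submodule.zero_mem _

end Pool.Agent.Helper11
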