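import Mathlib
import Pool.Agent.Helper11.LettersD
import Pool.Agent.Helper11.RatLinear

/-!
# Integral classes and varieties of rational norm type, in the auxiliary setting
-/

universe u v w t

open CategoryTheory

namespace Pool.Agent.Helper11

open Pool.Agent.Helper10 SmProjVar SPre

variable {k : Type u} [Field k] {K : Type t} [Field K] {Ω : Type v} [Field Ω] [Algebra K Ω]
  {P : SPre.{u, v, w, t} k K Ω}

variable (P) in
/-- an integral structure on the algebraic classes -/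
structure IntStr where
  /-- the integral classes -/
  A : ∀ X : SmProjVar k, AddSubgroup (P.H X)
  le : ∀ X, ∀ z ∈ A X, z ∈ P.alg X
  mul_mem : ∀ X x y, x ∈ A X → y ∈ A X → x * y ∈ A X
  pull_mem : ∀ {X Y : SmProjVar k} (f : X.toOver ⟶ Y.toOver) y, y ∈ A Y → P.pull f y ∈ A X
  push_mem : ∀ {X Y : SmProjVar k} (f : X.toOver ⟶ Y.toOver) x, x ∈ A X → P.pushF f x ∈ A Y

variable (I : IntStr P)

/-- a map given by an integral correspondence -/
def IntMap (X Y : SmProjVar k) (u : P.H X → P.H Y) : Prop :=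
  ∃ c ∈ I.A (X.prod Y), ∀ x, u x = P.pushF (snd X Y) (P.pull (fst X Y) x * c)

variable {I}

lemma IntMap.add {X Y : SmProjVar k} {u v : P.H X → P.H Y} (hu : IntMap I X Y u)
    (hv : IntMap I X Y v) : IntMap I X Y (fun x => u x + v x) := by
  obtain ⟨c, hc, h⟩ := hu
  obtain ⟨d, hd, h'⟩ := hv
  refine ⟨c + d, (I.A _).add_mem hc hd, fun x => ?_⟩
  rw [mul_add, map_add, ← h, ← h']

lemma IntMap.nsmul {X Y : SmProjVar k} {u : P.H X → P.H Y} (hu : IntMap I X Y u) (m : ℕ) :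
    IntMap I X Y (fun x => (m : Ω) • u x) := by
  obtain ⟨c, hc, h⟩ := hu
  refine ⟨m • c, (I.A _).nsmul_mem hc m, fun x => ?_⟩
  rw [← Nat.cast_smul_eq_nsmul Ω, mul_smul_comm, map_smul, ← h]

lemma IntMap.of_corr {V X Y : SmProjVar k} (h : V.toOver ⟶ X.toOver) (g : V.toOver ⟶ Y.toOver)
    {c : P.H V} (hc : c ∈ I.A V) {u : P.H X → P.H Y}
    (hu : ∀ x, u x = P.pushF g (P.pull h x * c)) : IntMap I X Y u := by
  refine ⟨P.pushF (lift h g) c, I.push_mem _ _ hc, fun x => ?_⟩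
  rw [hu]
  have hcev : c ∈ P.ev V := P.alg_le_ev _ (I.le _ _ hc)
  refine eq_of_tr fun y => ?_
  rw [tr_pushF, tr_pushF, ← P.ev_comm _ _ _ (pushF_ev (lift h g) hcev),
    ← P.ev_comm _ _ _ hcev, mul_assoc, mul_assoc, tr_pushF, map_mul (P.pull (lift h g)),
    pull_pull, pull_pull, lift_fst, lift_snd]

/-! ### push-forward and products of morphisms -/

/-- `f × id` -/
noncomputable def prodId {U X : SmProjVar k} (Y : SmProjVar k) (f : U.toOver ⟶ X.toOver) :
    (U.prod Y).toOver ⟶ (X.prod Y).toOver :=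
  lift (fst U Y ≫ f) (snd U Y)

lemma hom_span (V : SmProjVar k) : Submodule.span Ω {x : P.H V | P.Hom V x} = ⊤ := by
  rw [eq_top_iff]
  intro x _
  obtain ⟨a, ha, b, hb, rfl⟩ := P.exists_decomp V x
  exact Submodule.add_mem _ (Submodule.subset_span (.inl ha)) (Submodule.subset_span (.inr hb))

lemma ext_ext_hom {X Y : SmProjVar k} {a b : P.H (X.prod Y)}
    (h : ∀ x y, P.Hom X x → P.tr _ (a * P.ext X Y x y) = P.tr _ (b * P.ext X Y x y)) : a = b := by
  refine eq_of_tr fun z => ?_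
  have hz : z ∈ Submodule.span Ω {z : P.H (X.prod Y) | ∃ x ∈ {x : P.H X | P.Hom X x},
      ∃ y ∈ {y : P.H Y | P.Hom Y y}, z = P.ext X Y x y} := by
    rw [P.span_ext_sets X Y _ _ (hom_span X) (hom_span Y)]; trivial
  induction hz using Submodule.span_induction with
  | mem z hz =>
    obtain ⟨x, hx, y, hy, rfl⟩ := hz
    exact h x y hx
  | zero => rw [mul_zero, mul_zero]
  | add x y _ _ hx hy => rw [mul_add, mul_add, map_add, map_add, hx, hy]
  | smul c x _ hx => rw [mul_smul_comm, mul_smul_comm, map_smul, map_smul, hx]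

lemma pull_prodId_ext {U X Y : SmProjVar k} (f : U.toOver ⟶ X.toOver) (x : P.H X) (y : P.H Y) :
    P.pull (prodId Y f) (P.ext X Y x y) = P.ext U Y (P.pull f x) y := by
  rw [prodId, SPre.ext, map_mul (P.pull _), pull_pull, pull_pull, lift_fst, lift_snd, SPre.ext,
    pull_pull]

lemma pull_idProd_ext {X V Y : SmProjVar k} (f : V.toOver ⟶ Y.toOver) (x : P.H X) (y : P.H Y) :
    P.pull (idProd X f) (P.ext X Y x y) = P.ext X V x (P.pull f y) := by
  rw [idProd, SPre.ext, map_mul (P.pull _), pull_pull, pull_pull, lift_fst, lift_snd, SPre.ext,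
    pull_pull]

lemma pushF_prodId_ext {U X Y : SmProjVar k} (f : U.toOver ⟶ X.toOver) (u : P.H U) (b : P.H Y) :
    P.pushF (prodId Y f) (P.ext U Y u b) = P.ext X Y (P.pushF f u) b := by
  refine ext_ext_hom fun x y hx => ?_
  rw [tr_pushF, pull_prodId_ext]
  rcases hx with hx | hx
  · rw [tr_ext_mul_ext_ev' _ _ _ _ (P.pull_ev f _ hx), tr_ext_mul_ext_ev' _ _ _ _ hx, tr_pushF]
  · obtain ⟨b₀, hb₀, b₁, hb₁, rfl⟩ := P.exists_decomp Y b
    have h1 : ∀ (V : SmProjVar k) (z : P.H V), P.ext V Y z (b₀ + b₁) =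
        P.ext V Y z b₀ + P.ext V Y z b₁ := fun V z => by
      rw [SPre.ext, SPre.ext, SPre.ext, map_add (P.pull _), mul_add]
    rw [h1, h1, add_mul, add_mul, map_add, map_add, tr_ext_mul_ext_ev _ _ _ _ hb₀,
      tr_ext_mul_ext_ev _ _ _ _ hb₀, tr_ext_mul_ext_od _ _ _ _ hb₁ (P.pull_od f _ hx),
      tr_ext_mul_ext_od _ _ _ _ hb₁ hx, tr_pushF]

lemma pushF_idProd_ext {X V Y : SmProjVar k} (f : V.toOver ⟶ Y.toOver) (a : P.H X) (v : P.H V) :
    P.pushF (idProd X f) (P.ext X V a v) = P.ext X Y a (P.pushF f v) := by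
  refine ext_ext_hom fun x y hx => ?_
  rw [tr_pushF, pull_idProd_ext]
  rcases hx with hx | hx
  · rw [tr_ext_mul_ext_ev' _ _ _ _ hx, tr_ext_mul_ext_ev' _ _ _ _ hx, tr_pushF]
  · obtain ⟨v₀, hv₀, v₁, hv₁, rfl⟩ := P.exists_decomp V v
    have h1 : ∀ (V : SmProjVar k) (z z' : P.H V), P.ext X V a (z + z') =
        P.ext X V a z + P.ext X V a z' := fun V z z' => by
      rw [SPre.ext, SPre.ext, SPre.ext, map_add (P.pull _), mul_add]
    rw [h1, map_add (P.pushF f), h1, add_mul, add_mul, map_add, map_add,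
      tr_ext_mul_ext_ev _ _ _ _ hv₀, tr_ext_mul_ext_ev _ _ _ _ (pushF_ev f hv₀),
      tr_ext_mul_ext_od _ _ _ _ hv₁ hx, tr_ext_mul_ext_od _ _ _ _ (pushF_od f hv₁) hx,
      tr_pushF, tr_pushF]

/-! ### operators on a product -/

lemma IntMap.prodLeft {X Y : SmProjVar k} {T : P.H X → P.H X} (hT : IntMap I X X T) :
    ∃ U : Module.End Ω (P.H (X.prod Y)), IntMap I (X.prod Y) (X.prod Y) U ∧
      ∀ a b, U (P.ext X Y a b) = P.ext X Y (T a) b := by
  obtain ⟨c, hc, h⟩ := hT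
  have hcev : c ∈ P.ev _ := P.alg_le_ev _ (I.le _ _ hc)
  refine ⟨{ toFun := fun x => P.pushF (prodId Y (snd X X)) (P.pull (prodId Y (fst X X)) x *
      P.pull (fst (X.prod X) Y) c), map_add' := fun x y => ?_, map_smul' := fun r x => ?_ },
      IntMap.of_corr (prodId Y (fst X X)) (prodId Y (snd X X)) (I.pull_mem _ _ hc) fun x => rfl,
      fun a b => ?_⟩
  · rw [map_add (P.pull _), add_mul, map_add]
  · rw [map_smul (P.pull _), smul_mul_assoc, map_smul, RingHom.id_apply]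
  · change P.pushF (prodId Y (snd X X)) (P.pull (prodId Y (fst X X)) (P.ext X Y a b) *
      P.pull (fst (X.prod X) Y) c) = _
    have h1 : P.pull (prodId Y (fst X X)) (P.ext X Y a b) * P.pull (fst (X.prod X) Y) c =
        P.ext (X.prod X) Y (P.pull (fst X X) a * c) b := by
      rw [pull_prodId_ext, SPre.ext, SPre.ext, mul_assoc,
        ← P.ev_comm _ _ _ (P.pull_ev (fst (X.prod X) Y) _ hcev), ← mul_assoc,
        ← map_mul (P.pull _)]
    rw [h1, pushF_prodId_ext, h]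

lemma IntMap.prodRight {X Y : SmProjVar k} {T : P.H Y → P.H Y} (hT : IntMap I Y Y T) :
    ∃ U : Module.End Ω (P.H (X.prod Y)), IntMap I (X.prod Y) (X.prod Y) U ∧
      ∀ a b, U (P.ext X Y a b) = P.ext X Y a (T b) := by
  obtain ⟨c, hc, h⟩ := hT
  refine ⟨{ toFun := fun x => P.pushF (idProd X (snd Y Y)) (P.pull (idProd X (fst Y Y)) x *
      P.pull (snd X (Y.prod Y)) c), map_add' := fun x y => ?_, map_smul' := fun r x => ?_ },
      IntMap.of_corr (idProd X (fst Y Y)) (idProd X (snd Y Y)) (I.pull_mem _ _ hc) fun x => rfl,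
      fun a b => ?_⟩
  · rw [map_add (P.pull _), add_mul, map_add]
  · rw [map_smul (P.pull _), smul_mul_assoc, map_smul, RingHom.id_apply]
  · change P.pushF (idProd X (snd Y Y)) (P.pull (idProd X (fst Y Y)) (P.ext X Y a b) *
      P.pull (snd X (Y.prod Y)) c) = _
    have h1 : P.pull (idProd X (fst Y Y)) (P.ext X Y a b) * P.pull (snd X (Y.prod Y)) c =
        P.ext X (Y.prod Y) a (P.pull (fst Y Y) b * c) := by
      rw [pull_idProd_ext, SPre.ext, SPre.ext, mul_assoc, ← map_mul (P.pull _)]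
    rw [h1, pushF_idProd_ext, h]

/-! ### generalised eigenspaces -/

lemma mem_maxGenEigenspace_add {M : Type*} [AddCommGroup M] [Module Ω M]
    {U V : Module.End Ω M} (hc : Commute U V) {a b : Ω} {x : M}
    (h1 : x ∈ U.maxGenEigenspace a) (h2 : x ∈ V.maxGenEigenspace b) :
    x ∈ (U + V).maxGenEigenspace (a + b) := by
  rw [Module.End.mem_maxGenEigenspace] at h1 h2 ⊢
  obtain ⟨n, hn⟩ := h1
  obtain ⟨m, hm⟩ := h2
  refine ⟨n + m, ?_⟩
  have h3 : (U + V) - (a + b) • (1 : Module.End Ω M) = (U - a • 1) + (V - b • 1) := by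
    rw [add_smul]; abel
  have hc' : Commute (U - a • (1 : Module.End Ω M)) (V - b • 1) := by
    refine Commute.sub_left (Commute.sub_right hc ?_) (Commute.sub_right ?_ ?_)
    · exact (Commute.one_right U).smul_right b
    · exact ((Commute.one_left V).smul_left a)
    · exact ((Commute.one_left _).smul_left a)
  rw [h3, hc'.add_pow', LinearMap.sum_apply]
  refine Finset.sum_eq_zero fun p hp => ?_
  rw [Finset.HasAntidiagonal.mem_antidiagonal] at hp
  rw [LinearMap.smul_apply, Module.End.mul_apply]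
  by_cases hpm : m ≤ p.2
  · obtain ⟨q, hq⟩ := Nat.exists_eq_add_of_le' hpm
    rw [hq, pow_add, Module.End.mul_apply, hm, map_zero, map_zero, smul_zero]
  · have hpn : n ≤ p.1 := by omega
    obtain ⟨q, hq⟩ := Nat.exists_eq_add_of_le' hpn
    rw [← Module.End.mul_apply, (hc'.pow_pow p.1 p.2).eq, Module.End.mul_apply, hq, pow_add,
      Module.End.mul_apply, hn, map_zero, map_zero, smul_zero]

lemma mem_maxGenEigenspace_smul {M : Type*} [AddCommGroup M] [Module Ω M]
    {U : Module.End Ω M} {a c : Ω} {x : M} (h : x ∈ U.maxGenEigenspace a) :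
    x ∈ (c • U).maxGenEigenspace (c * a) := by
  rw [Module.End.mem_maxGenEigenspace] at h ⊢
  obtain ⟨n, hn⟩ := h
  refine ⟨n, ?_⟩
  have h1 : c • U - (c * a) • (1 : Module.End Ω M) = c • (U - a • 1) := by
    rw [smul_sub, smul_smul]
  rw [h1, smul_pow, LinearMap.smul_apply, hn, smul_zero]

/-! ### rational norm type -/

variable (I) in
/-- the data of rational norm type, in the auxiliary setting -/
structure RatNormData (n : ℕ) (σ : ℕ → (Ω ≃+* Ω)) (X : SmProjVar k) (T : Module.End Ω (P.H X))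
    (S : Ω → Set (P.homSub X)) : Prop where
  int : IntMap I X X T
  eig : ∀ μ, ∀ e ∈ S μ, (e : P.H X) ∈ T.maxGenEigenspace μ
  ne : ∀ μ, ∀ e ∈ S μ, (e : P.H X) ≠ 0
  span : Submodule.span Ω (Subtype.val '' (⋃ μ, S μ) : Set (P.H X)) = ⊤
  alg : ∀ μ (e : ℕ → P.homSub X), (∀ j ≤ n, e j ∈ S (σ j μ)) →
    ∀ (Z : SmProjVar k) (p : ℕ → (Z.toOver ⟶ X.toOver)),
      ∏ j ∈ Finset.range (n + 1), P.cls Z (P.pullHom (p j) (e j)) ∈ P.algQ Z

variable (I) in
/-- rational norm type, in the auxiliary setting -/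
def RatNorm (n : ℕ) (σ : ℕ → (Ω ≃+* Ω)) (X : SmProjVar k) : Prop :=
  ∃ (T : Module.End Ω (P.H X)) (S : Ω → Set (P.homSub X)), RatNormData I n σ X T S

variable {n : ℕ} {σ : ℕ → (Ω ≃+* Ω)}

lemma RatNormData.finite {X : SmProjVar k} {T : Module.End Ω (P.H X)}
    {S : Ω → Set (P.homSub X)} (h : RatNormData I n σ X T S) : {μ | (S μ).Nonempty}.Finite := by
  have h1 : {μ : Ω | T.maxGenEigenspace μ ≠ ⊥}.Finite :=
    WellFoundedGT.finite_ne_bot_of_iSupIndep (Module.End.independent_maxGenEigenspace T)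
  refine h1.subset ?_
  rintro μ ⟨e, he⟩ hbot
  have h2 := h.eig μ e he
  rw [hbot] at h2
  exact h.ne μ e he ((Submodule.mem_bot Ω).mp h2)

/-- the vectors of `S μ` detect the linear maps on the generalised eigenspace -/
lemma RatNormData.exists_mem {X : SmProjVar k} {T : Module.End Ω (P.H X)}
    {S : Ω → Set (P.homSub X)} (h : RatNormData I n σ X T S) {L : Type*} [AddCommGroup L]
    [Module Ω L] (φ : P.H X →ₗ[Ω] L) {μ : Ω} {e : P.H X} (he : e ∈ T.maxGenEigenspace μ)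
    (hne : φ e ≠ 0) : ∃ e' ∈ S μ, φ (e' : P.H X) ≠ 0 := by
  by_contra hcon
  push Not at hcon
  have h1 : e ∈ Submodule.span Ω (Subtype.val '' S μ : Set (P.H X)) ⊔
      ⨆ ν, ⨆ (_ : ν ≠ μ), T.maxGenEigenspace ν := by
    have h2 : (⊤ : Submodule Ω (P.H X)) ≤ Submodule.span Ω (Subtype.val '' S μ : Set (P.H X)) ⊔
      ⨆ ν, ⨆ (_ : ν ≠ μ), T.maxGenEigenspace ν := by
      rw [← h.span, Submodule.span_le]
      rintro _ ⟨x, hx, rfl⟩
      obtain ⟨ν, hν⟩ := Set.mem_iUnion.mp hx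
      by_cases hνμ : ν = μ
      · subst hνμ
        exact Submodule.mem_sup_left (Submodule.subset_span ⟨x, hν, rfl⟩)
      · exact Submodule.mem_sup_right
          (Submodule.mem_iSup_of_mem ν (Submodule.mem_iSup_of_mem hνμ (h.eig ν x hν)))
    exact h2 trivial
  obtain ⟨a, ha, b, hb, hab⟩ := Submodule.mem_sup.mp h1
  have hle : Submodule.span Ω (Subtype.val '' S μ : Set (P.H X)) ≤ T.maxGenEigenspace μ := by
    rw [Submodule.span_le]
    rintro _ ⟨x, hx, rfl⟩
    exact h.eig μ x hx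
  have hb' : b ∈ T.maxGenEigenspace μ := by
    have : b = e - a := by rw [← hab]; abel
    rw [this]
    exact Submodule.sub_mem _ he (hle ha)
  have hdis := Module.End.independent_maxGenEigenspace T μ
  have hb0 : b = 0 := by
    have := hdis.le_bot ⟨hb', hb⟩
    simpa using this
  rw [hb0, add_zero] at hab
  apply hne
  rw [← hab]
  have hker : Submodule.span Ω (Subtype.val '' S μ : Set (P.H X)) ≤ LinearMap.ker φ := by
    rw [Submodule.span_le]
    rintro _ ⟨x, hx, rfl⟩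
    exact hcon x hx
  exact hker ha

/-- **closure under products** -/
theorem RatNorm.prod [CharZero Ω] {X Y : SmProjVar k} (hX : RatNorm I n σ X)
    (hY : RatNorm I n σ Y) : RatNorm I n σ (X.prod Y) := by
  classical
  obtain ⟨T₁, S₁, h₁⟩ := hX
  obtain ⟨T₂, S₂, h₂⟩ := hY
  obtain ⟨U₁, hU₁, hU₁'⟩ := h₁.int.prodLeft (Y := Y)
  obtain ⟨U₂, hU₂, hU₂'⟩ := h₂.int.prodRight (X := X)
  -- a generic integer
  let F₁ := h₁.finite.toFinset
  let F₂ := h₂.finite.toFinset
  let q : (Ω × Ω) × (Ω × Ω) × ℕ → Ω := fun x =>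
    (x.1.2 - σ x.2.2 ((σ 0).symm x.1.1)) / (σ x.2.2 ((σ 0).symm x.2.1.1) - x.2.1.2)
  let bad : Finset Ω := ((F₁ ×ˢ F₁) ×ˢ ((F₂ ×ˢ F₂) ×ˢ Finset.range (n + 1))).image q
  obtain ⟨_, ⟨m, rfl⟩, hm⟩ := (Set.infinite_range_of_injective
    (Nat.cast_injective (R := Ω))).exists_notMem_finset bad
  have hgen : ∀ α ∈ F₁, ∀ α' ∈ F₁, ∀ β ∈ F₂, ∀ β' ∈ F₂, ∀ j ≤ n,
      σ j ((σ 0).symm α) + m * σ j ((σ 0).symm β) = α' + m * β' →
        σ j ((σ 0).symm α) = α' ∧ σ j ((σ 0).symm β) = β' := by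
    intro α hα α' hα' β hβ β' hβ' j hj heq
    have h2 : σ j ((σ 0).symm β) = β' := by
      by_contra hne
      apply hm
      rw [Finset.mem_image]
      refine ⟨((α, α'), (β, β'), j), ?_, ?_⟩
      · simp only [Finset.mem_product, Finset.mem_range]
        exact ⟨⟨hα, hα'⟩, ⟨hβ, hβ'⟩, by omega⟩
      · change (α' - σ j ((σ 0).symm α)) / (σ j ((σ 0).symm β) - β') = m
        rw [div_eq_iff (sub_ne_zero.mpr hne)]
        linear_combination -heq
    refine ⟨?_, h2⟩
    rw [h2] at heq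
    exact add_right_cancel heq
  have hcomm : Commute U₁ U₂ := by
    refine LinearMap.ext fun z => ?_
    have hz : z ∈ Submodule.span Ω
        {z : P.H (X.prod Y) | ∃ x y, z = P.pull (fst X Y) x * P.pull (snd X Y) y} := by
      rw [P.span_ext]; trivial
    induction hz using Submodule.span_induction with
    | mem z hz =>
      obtain ⟨x, y, rfl⟩ := hz
      change U₁ (U₂ (P.ext X Y x y)) = U₂ (U₁ (P.ext X Y x y))
      rw [hU₁', hU₂', hU₁', hU₂']
    | zero => rw [map_zero, map_zero]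
    | add x y _ _ hx hy => rw [map_add, map_add, hx, hy]
    | smul a x _ hx => rw [map_smul, map_smul, hx]
  refine ⟨U₁ + (m : Ω) • U₂, fun μ => {z | ∃ μ₁ μ₂, ∃ a ∈ S₁ μ₁, ∃ b ∈ S₂ μ₂,
    μ = μ₁ + m * μ₂ ∧ z = P.extHom X Y a b}, ?_⟩
  refine ⟨?_, ?_, ?_, ?_, ?_⟩
  · exact hU₁.add (hU₂.nsmul m)
  · rintro μ _ ⟨μ₁, μ₂, a, ha, b, hb, rfl, rfl⟩
    have e1 : P.ext X Y a b ∈ U₁.maxGenEigenspace μ₁ := by
      let φ : P.H X →ₗ[Ω] P.H (X.prod Y) :=
        { toFun := fun x => P.ext X Y x b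
          map_add' := fun x y => by rw [SPre.ext, map_add (P.pull _), add_mul]; rfl
          map_smul' := fun c x => by
            rw [SPre.ext, map_smul (P.pull _), smul_mul_assoc]; rfl }
      exact map_mem_maxGenEigenspace T₁ U₁ φ (fun x => (hU₁' x b)) (h₁.eig μ₁ a ha)
    have e2 : P.ext X Y a b ∈ U₂.maxGenEigenspace μ₂ := by
      let φ : P.H Y →ₗ[Ω] P.H (X.prod Y) :=
        { toFun := fun y => P.ext X Y a y
          map_add' := fun x y => by rw [SPre.ext, map_add (P.pull _), mul_add]; rfl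
          map_smul' := fun c x => by
            rw [SPre.ext, map_smul (P.pull _), mul_smul_comm]; rfl }
      exact map_mem_maxGenEigenspace T₂ U₂ φ (fun x => (hU₂' a x)) (h₂.eig μ₂ b hb)
    exact mem_maxGenEigenspace_add (hcomm.smul_right (m : Ω)) e1 (mem_maxGenEigenspace_smul e2)
  · rintro μ _ ⟨μ₁, μ₂, a, ha, b, hb, rfl, rfl⟩
    exact ext_ne_zero (h₁.ne μ₁ a ha) (h₂.ne μ₂ b hb)
  · rw [eq_top_iff, ← P.span_ext_sets X Y _ _ h₁.span h₂.span]
    refine Submodule.span_mono ?_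
    rintro _ ⟨_, ⟨x, hx, rfl⟩, _, ⟨y, hy, rfl⟩, rfl⟩
    obtain ⟨μ₁, hx⟩ := Set.mem_iUnion.mp hx
    obtain ⟨μ₂, hy⟩ := Set.mem_iUnion.mp hy
    exact ⟨P.extHom X Y x y, Set.mem_iUnion.mpr ⟨μ₁ + m * μ₂, μ₁, μ₂, x, hx, y, hy, rfl, rfl⟩,
      rfl⟩
  · intro μ e he Z p
    have hex : ∀ j, ∃ (a : P.homSub X) (b : P.homSub Y), j ≤ n → ∃ μ₁ μ₂, a ∈ S₁ μ₁ ∧
        b ∈ S₂ μ₂ ∧ σ j μ = μ₁ + m * μ₂ ∧ e j = P.extHom X Y a b := by
      intro j
      by_cases hj : j ≤ n
      · obtain ⟨μ₁, μ₂, a, ha, b, hb, h3, h4⟩ := he j hj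
        exact ⟨a, b, fun _ => ⟨μ₁, μ₂, ha, hb, h3, h4⟩⟩
      · exact ⟨1, 1, fun h => absurd h hj⟩
    choose a b hab using hex
    obtain ⟨α₀, β₀, hα₀, hβ₀, h0, -⟩ := hab 0 (Nat.zero_le n)
    have hμ : μ = (σ 0).symm α₀ + m * (σ 0).symm β₀ := by
      have := congrArg (σ 0).symm h0
      rwa [RingEquiv.symm_apply_apply, map_add, map_mul, map_natCast] at this
    have key : ∀ j ≤ n, a j ∈ S₁ (σ j ((σ 0).symm α₀)) ∧ b j ∈ S₂ (σ j ((σ 0).symm β₀)) := by
      intro j hj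
      obtain ⟨α, β, hα, hβ, h3, -⟩ := hab j hj
      rw [hμ, map_add, map_mul, map_natCast] at h3
      obtain ⟨h5, h6⟩ := hgen α₀ (h₁.finite.mem_toFinset.mpr ⟨_, hα₀⟩) α
        (h₁.finite.mem_toFinset.mpr ⟨_, hα⟩) β₀ (h₂.finite.mem_toFinset.mpr ⟨_, hβ₀⟩) β
        (h₂.finite.mem_toFinset.mpr ⟨_, hβ⟩) j hj h3
      rw [h5, h6]
      exact ⟨hα, hβ⟩
    have e1 := h₁.alg _ a (fun j hj => (key j hj).1) Z (fun j => p j ≫ fst X Y)
    have e2 := h₂.alg _ b (fun j hj => (key j hj).2) Z (fun j => p j ≫ snd X Y)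
    have e3 := (P.algQ Z).mul_mem e1 e2
    rw [← Finset.prod_mul_distrib] at e3
    convert e3 using 1
    refine Finset.prod_congr rfl fun j hj => ?_
    obtain ⟨_, _, _, _, _, h7⟩ := hab j (by rw [Finset.mem_range] at hj; omega)
    rw [h7, ← map_mul]
    congr 1
    refine Subtype.ext ?_
    rw [coe_pullHom, Submonoid.coe_mul, coe_pullHom, coe_pullHom, coe_extHom, SPre.ext,
      map_mul (P.pull (p j)), P.pull_comp, P.pull_comp]
    rfl

/-! ### the main theorems -/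

/-- **relative form** -/
theorem RatNorm.eq_zero_rel [IsAlgClosed Ω] [CharZero Ω] {V X : SmProjVar k}
    (hX : RatNorm I n σ X) (hV : P.D (V.selfProd n)) (hI : Indep Ω (I.A (V.prod X)))
    {r : P.H (V.prod X)} (hr : r ∈ I.A (V.prod X)) (hrad : P.rad (V.prod X) r) : r = 0 := by
  obtain ⟨T, S, h⟩ := hX
  obtain ⟨c, hc, hT⟩ := h.int
  have hcev : c ∈ P.ev _ := P.alg_le_ev _ (I.le _ _ hc)
  let B : P.H X →ₗ[Ω] P.H (V.prod X) →ₗ[Ω] P.H V :=
    LinearMap.mk₂ Ω (fun e r => P.contr V X e r)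
      (fun e e' r => by
        rw [contr_apply, contr_apply, contr_apply, map_add (P.pull _), mul_add, map_add])
      (fun a e r => by
        rw [contr_apply, contr_apply, map_smul (P.pull _), mul_smul_comm, map_smul])
      (fun e r r' => map_add _ _ _) (fun a e r => map_smul _ _ _)
  let τ : Module.End Ω (P.H (V.prod X)) :=
    { toFun := fun R => P.pushF (idProd V (fst X X)) (P.pull (idProd V (snd X X)) R *
        P.pull (snd V (X.prod X)) c)
      map_add' := fun x y => by rw [map_add (P.pull _), add_mul, map_add]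
      map_smul' := fun a x => by
        rw [map_smul (P.pull _), smul_mul_assoc, map_smul, RingHom.id_apply] }
  have hB : ∀ e r, B e r = P.contr V X e r := fun e r => rfl
  have hadj : ∀ e r, B (T e) r = B e (τ r) := by
    intro e r
    rw [hB, hB, hT, contr_pushF, contr_mul _ _ hcev, contr_pull]
    rfl
  have hnd : ∀ r, (∀ e, B e r = 0) → r = 0 := by
    intro r h0
    exact eq_zero_of_contr (S := Set.univ) Submodule.span_univ fun c _ => h0 c
  have hτ : ∀ r ∈ I.A (V.prod X), τ r ∈ I.A (V.prod X) := by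
    intro r hr
    exact I.push_mem _ _ (I.mul_mem _ _ _ (I.pull_mem _ _ hr) (I.pull_mem _ _ hc))
  refine eq_zero_of_contr h.span ?_
  rintro _ ⟨e, he, rfl⟩
  obtain ⟨μ, he⟩ := Set.mem_iUnion.mp he
  by_contra hne
  have hex : ∀ j, ∃ e' ∈ S (σ j ((σ 0).symm μ)), P.contr V X (e' : P.H X) r ≠ 0 := by
    intro j
    obtain ⟨e₁, he₁, hne₁⟩ := spectrum_stable hadj hnd hτ hI hr ((σ 0).symm.trans (σ j))
      (h.eig μ e he) hne
    exact h.exists_mem (B.flip r) he₁ hne₁
  choose e' he' hne' using hex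
  have h1 : P.extPow X n (fun j => (e' j : P.H X)) ∈ P.alg (X.selfProd n) :=
    (extPow_mem_iff (P := P) n e').mpr (h.alg _ e' (fun j _ => he' j))
  have h2 := mixPow_rad (X := V) n (fun _ => r) (fun _ => hrad)
  have h3 := hV _ (contr_rad h1 h2)
  rw [contr_mixPow n _ _ (fun _ => P.alg_le_ev _ hrad.1)] at h3
  exact extPow_ne_zero n _ hne' h3

/-- **absolute form** -/
theorem RatNorm.eq_zero [IsAlgClosed Ω] [CharZero Ω] {X : SmProjVar k}
    (hX : RatNorm I n σ X) (hI : Indep Ω (I.A X))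
    {r : P.H X} (hr : r ∈ I.A X) (hrad : P.rad X r) : r = 0 := by
  obtain ⟨T, S, h⟩ := hX
  obtain ⟨c, hc, hT⟩ := h.int
  have hcev : c ∈ P.ev _ := P.alg_le_ev _ (I.le _ _ hc)
  let B : P.H X →ₗ[Ω] P.H X →ₗ[Ω] Ω :=
    LinearMap.mk₂ Ω (fun e r => P.tr X (r * e))
      (fun e e' r => by rw [mul_add, map_add])
      (fun a e r => by rw [mul_smul_comm, map_smul])
      (fun e r r' => by rw [add_mul, map_add]) (fun a e r => by rw [smul_mul_assoc, map_smul])
  let τ : Module.End Ω (P.H X) :=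
    { toFun := fun R => P.pushF (fst X X) (P.pull (snd X X) R * c)
      map_add' := fun x y => by rw [map_add (P.pull _), add_mul, map_add]
      map_smul' := fun a x => by
        rw [map_smul (P.pull _), smul_mul_assoc, map_smul, RingHom.id_apply] }
  have hB : ∀ e r, B e r = P.tr X (r * e) := fun e r => rfl
  have hadj : ∀ e r, B (T e) r = B e (τ r) := by
    intro e r
    rw [hB, hB, hT]
    change _ = P.tr X (P.pushF (fst X X) (P.pull (snd X X) r * c) * e)
    rw [tr_pushF, tr_mul_pushF, mul_assoc, P.ev_comm _ _ _ hcev]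
  have hnd : ∀ r, (∀ e, B e r = 0) → r = 0 := fun r h0 => P.nondeg X r h0
  have hτ : ∀ r ∈ I.A X, τ r ∈ I.A X := by
    intro r hr
    exact I.push_mem _ _ (I.mul_mem _ _ _ (I.pull_mem _ _ hr) hc)
  refine P.nondeg X r fun y => ?_
  have hy : y ∈ (⊤ : Submodule Ω (P.H X)) := trivial
  rw [← h.span] at hy
  induction hy using Submodule.span_induction with
  | mem y hy =>
    obtain ⟨e, he, rfl⟩ := hy
    obtain ⟨μ, he⟩ := Set.mem_iUnion.mp he
    by_contra hne
    have hex : ∀ j, ∃ e' ∈ S (σ j ((σ 0).symm μ)), P.tr X (r * (e' : P.H X)) ≠ 0 := by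
      intro j
      obtain ⟨e₁, he₁, hne₁⟩ := spectrum_stable hadj hnd hτ hI hr ((σ 0).symm.trans (σ j))
        (h.eig μ e he) hne
      exact h.exists_mem (B.flip r) he₁ hne₁
    choose e' he' hne' using hex
    have h1 : P.extPow X n (fun j => (e' j : P.H X)) ∈ P.alg (X.selfProd n) :=
      (extPow_mem_iff (P := P) n e').mpr (h.alg _ e' (fun j _ => he' j))
    have h2 := (extPow_rad n (fun _ => r) (fun _ => hrad)).2 _ h1
    rw [tr_extPow_mul n _ _ (fun _ => P.alg_le_ev _ hrad.1), Finset.prod_eq_zero_iff] at h2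
    obtain ⟨j, -, hj⟩ := h2
    exact hne' j hj
  | zero => rw [mul_zero, map_zero]
  | add x y _ _ hx hy => rw [mul_add, map_add, hx, hy, add_zero]
  | smul a x _ hx => rw [mul_smul_comm, map_smul, hx, smul_zero]

end Pool.Agent.Helper11
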