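import Mathlib
import Pool.Agent.Helper11.RatTypes
import Pool.Agent.Helper11.RatNorm
import Pool.Agent.Helper11.FrobThm

/-!
# Conjecture D and the independence of cycles
-/

universe u v w t

open CategoryTheory TensorProduct

namespace Pool.Agent.Helper11

open Pool.Agent.Helper10 SmProjVar SPre

variable {k : Type u} [Field k] {K : Type v} [Field K] [CharZero K]
  (W : WeilCohomology.{u, v, w} k K)

/-! ### the group of cycle classes -/

lemma cy_mem_cycleGroup (X : SmProjVar k) (j : ℕ) (c : X.Z j) :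
    W.cy X j c ∈ cycleGroup W.toCohomologyData X := AddSubgroup.subset_closure ⟨j, c, rfl⟩

lemma cycleGroup_le (X : SmProjVar k) {z : W.H X} (hz : z ∈ cycleGroup W.toCohomologyData X) :
    z ∈ W.algClasses X := by
  unfold cycleGroup at hz
  induction hz using AddSubgroup.closure_induction with
  | mem z hz =>
    obtain ⟨j, c, rfl⟩ := hz
    exact W.cy_mem_algClasses X j c
  | zero => exact Submodule.zero_mem _
  | add a b _ _ ha hb => exact Submodule.add_mem _ ha hb
  | neg a _ ha => exact Submodule.neg_mem _ ha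

lemma mul_mem_cycleGroup (X : SmProjVar k) {x y : W.H X}
    (hx : x ∈ cycleGroup W.toCohomologyData X) (hy : y ∈ cycleGroup W.toCohomologyData X) :
    x * y ∈ cycleGroup W.toCohomologyData X := by
  unfold cycleGroup at hx
  induction hx using AddSubgroup.closure_induction with
  | mem x hx =>
    obtain ⟨i, c, rfl⟩ := hx
    unfold cycleGroup at hy
    induction hy using AddSubgroup.closure_induction with
    | mem y hy =>
      obtain ⟨j, c', rfl⟩ := hy
      obtain ⟨c'', h⟩ := W.cycleClasses.cy_mul X i j c c'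
      rw [← h]
      exact cy_mem_cycleGroup W X _ c''
    | zero => rw [mul_zero]; exact AddSubgroup.zero_mem _
    | add a b _ _ ha hb => rw [mul_add]; exact AddSubgroup.add_mem _ ha hb
    | neg a _ ha => rw [mul_neg]; exact AddSubgroup.neg_mem _ ha
  | zero => rw [zero_mul]; exact AddSubgroup.zero_mem _
  | add a b _ _ ha hb => rw [add_mul]; exact AddSubgroup.add_mem _ ha hb
  | neg a _ ha => rw [neg_mul]; exact AddSubgroup.neg_mem _ ha

lemma pull_mem_cycleGroup {X Y : SmProjVar k} (f : X.toOver ⟶ Y.toOver) {y : W.H Y}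
    (hy : y ∈ cycleGroup W.toCohomologyData Y) :
    W.pullA f y ∈ cycleGroup W.toCohomologyData X := by
  unfold cycleGroup at hy
  induction hy using AddSubgroup.closure_induction with
  | mem y hy =>
    obtain ⟨j, c, rfl⟩ := hy
    obtain ⟨c', h⟩ := W.cycleClasses.cy_pull f j c
    rw [WeilCohomology.pullA_apply, ← h]
    exact cy_mem_cycleGroup W X _ c'
  | zero => rw [map_zero]; exact AddSubgroup.zero_mem _
  | add a b _ _ ha hb => rw [map_add]; exact AddSubgroup.add_mem _ ha hb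
  | neg a _ ha => rw [map_neg]; exact AddSubgroup.neg_mem _ ha

lemma push_mem_cycleGroup {X Y : SmProjVar k} (f : X.toOver ⟶ Y.toOver) {x : W.H X}
    (hx : x ∈ cycleGroup W.toCohomologyData X) :
    ∃ y ∈ cycleGroup W.toCohomologyData Y, ∀ z, W.trL Y (y * z) = W.trL X (x * W.pullA f z) := by
  unfold cycleGroup at hx
  induction hx using AddSubgroup.closure_induction with
  | mem x hx =>
    obtain ⟨i, c, rfl⟩ := hx
    by_cases hi : X.dim ≤ i + Y.dim
    · obtain ⟨j, hj⟩ : ∃ j, j + X.dim = i + Y.dim := ⟨i + Y.dim - X.dim, by omega⟩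
      exact ⟨W.cy Y j ⟨_, WeilCohomology.pushCycle_mem f i j hj c⟩, cy_mem_cycleGroup W Y j _,
        W.cycleClasses.cy_push f i j c _ rfl⟩
    · refine ⟨0, AddSubgroup.zero_mem _, fun z => ?_⟩
      rw [zero_mul, map_zero]
      symm
      refine W.gr_induction Y (p := fun z => W.trL X (W.cy X i c * W.pullA f z) = 0) ?_ ?_ ?_ z
      · intro m z hz
        by_cases hm : 2 * Y.dim < m
        · have : z = 0 := by
            have h := (W.graded Y).eq_bot m hm
            rw [h] at hz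
            exact (Submodule.mem_bot K).mp hz
          rw [this, map_zero, mul_zero, map_zero]
        · refine W.tr_eq_zero_of_gr X (i := 2 * i + m) (by omega) ?_
          exact W.gr_mul X (W.cycleClasses.cy_mem X i c) ((W.pull_hom f).map_mem m z hz)
      · rw [map_zero, mul_zero, map_zero]
      · intro a b ha hb
        rw [map_add, mul_add, map_add, ha, hb, add_zero]
  | zero =>
    exact ⟨0, AddSubgroup.zero_mem _, fun z => by rw [zero_mul, zero_mul, map_zero, map_zero]⟩
  | add a b _ _ ha hb =>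
    obtain ⟨a', ha', h⟩ := ha
    obtain ⟨b', hb', h'⟩ := hb
    exact ⟨a' + b', AddSubgroup.add_mem _ ha' hb', fun z => by
      rw [add_mul, add_mul, map_add, map_add, h, h']⟩
  | neg a _ ha =>
    obtain ⟨a', ha', h⟩ := ha
    exact ⟨-a', AddSubgroup.neg_mem _ ha', fun z => by
      rw [neg_mul, neg_mul, map_neg, map_neg, h]⟩

/-- the trace of a class of a cycle is an integer -/
lemma tr_cycleGroup (X : SmProjVar k) {x y : W.H X}
    (hx : x ∈ cycleGroup W.toCohomologyData X) (hy : y ∈ cycleGroup W.toCohomologyData X) :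
    ∃ m : ℤ, W.trL X (x * y) = m := by
  unfold cycleGroup at hx
  induction hx using AddSubgroup.closure_induction with
  | mem x hx =>
    obtain ⟨i, c, rfl⟩ := hx
    unfold cycleGroup at hy
    induction hy using AddSubgroup.closure_induction with
    | mem y hy =>
      obtain ⟨j, c', rfl⟩ := hy
      by_cases hij : i + j = X.dim
      · exact ⟨_, W.cycleClasses.tr_cy_mul X i j c c' hij⟩
      · refine ⟨0, ?_⟩
        rw [Int.cast_zero]
        exact W.tr_eq_zero_of_gr X (i := 2 * i + 2 * j) (by omega)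
          (W.gr_mul X (W.cycleClasses.cy_mem X i c) (W.cycleClasses.cy_mem X j c'))
    | zero => exact ⟨0, by rw [mul_zero, map_zero, Int.cast_zero]⟩
    | add a b _ _ ha hb =>
      obtain ⟨m, hm⟩ := ha
      obtain ⟨m', hm'⟩ := hb
      exact ⟨m + m', by rw [mul_add, map_add, hm, hm', Int.cast_add]⟩
    | neg a _ ha =>
      obtain ⟨m, hm⟩ := ha
      exact ⟨-m, by rw [mul_neg, map_neg, hm, Int.cast_neg]⟩
  | zero => exact ⟨0, by rw [zero_mul, map_zero, Int.cast_zero]⟩
  | add a b _ _ ha hb =>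
    obtain ⟨m, hm⟩ := ha
    obtain ⟨m', hm'⟩ := hb
    exact ⟨m + m', by rw [add_mul, map_add, hm, hm', Int.cast_add]⟩
  | neg a _ ha =>
    obtain ⟨m, hm⟩ := ha
    exact ⟨-m, by rw [neg_mul, map_neg, hm, Int.cast_neg]⟩

/-! ### D implies independence -/

/-- the rational relations satisfied by the coefficients of a relation -/
lemma exists_int_relation {m : ℕ} (a : Fin m → K) (ha : a ≠ 0) :
    ∃ b : Fin m → ℤ, b ≠ 0 ∧ ∀ N : Fin m → ℤ, ∑ i, a i * (N i : K) = 0 → ∑ i, b i * N i = 0 := by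
  obtain ⟨i₀, hi₀⟩ := Function.ne_iff.mp ha
  rw [Pi.zero_apply] at hi₀
  -- a `ℚ`-linear form not vanishing at `a i₀`
  let β := Module.Basis.ofVectorSpace ℚ K
  obtain ⟨s, hs⟩ : ∃ s, β.repr (a i₀) s ≠ 0 := by
    by_contra hcon
    push Not at hcon
    apply hi₀
    have : β.repr (a i₀) = 0 := Finsupp.ext hcon
    rwa [map_eq_zero_iff _ β.repr.injective] at this
  let q : Fin m → ℚ := fun i => β.repr (a i) s
  obtain ⟨d, hd, hdq⟩ : ∃ d : ℤ, d ≠ 0 ∧ ∀ i, ∃ b : ℤ, (b : ℚ) = d * q i := by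
    refine ⟨∏ i, ((q i).den : ℤ), ?_, fun i => ?_⟩
    · exact Finset.prod_ne_zero_iff.mpr fun i _ => Int.natCast_ne_zero.mpr (q i).den_nz
    · refine ⟨(∏ j ∈ Finset.univ.erase i, ((q j).den : ℤ)) * (q i).num, ?_⟩
      rw [← Finset.mul_prod_erase Finset.univ (fun i => ((q i).den : ℤ)) (Finset.mem_univ i)]
      push_cast
      have h1 : ((q i).den : ℚ) * q i = (q i).num := Rat.den_mul_eq_num (q i)
      rw [mul_comm ((q i).den : ℚ) _, mul_assoc, h1]
  choose b hb using hdq
  refine ⟨b, ?_, fun N hN => ?_⟩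
  · intro h0
    have h1 := hb i₀
    rw [h0, Pi.zero_apply, Int.cast_zero] at h1
    rcases mul_eq_zero.mp h1.symm with h2 | h2
    · exact hd (Int.cast_eq_zero.mp h2)
    · exact hs h2
  · have h1 : ∑ i, q i * (N i : ℚ) = 0 := by
      have h2 := congrArg (fun x => β.repr x s) hN
      simp only [map_sum, Finsupp.coe_finsetSum, Finset.sum_apply, map_zero,
        Finsupp.coe_zero, Pi.zero_apply] at h2
      rw [← h2]
      refine Finset.sum_congr rfl fun i _ => ?_
      have h3 : a i * (N i : K) = (N i : ℚ) • a i := by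
        rw [Rat.smul_def, mul_comm, Rat.cast_intCast]
      rw [h3, map_smul, Finsupp.smul_apply, smul_eq_mul, mul_comm]
    have h2 : ((∑ i, b i * N i : ℤ) : ℚ) = 0 := by
      push_cast
      have h3 : ∑ i, (b i : ℚ) * (N i : ℚ) = d * ∑ i, q i * (N i : ℚ) := by
        rw [Finset.mul_sum]
        exact Finset.sum_congr rfl fun i _ => by rw [hb i, mul_assoc]
      rw [h3, h1, mul_zero]
    exact_mod_cast h2

lemma cyclesIndependent_of_standardD {X : SmProjVar k} (hD : W.StandardD X) :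
    CyclesIndependent W.toCohomologyData X := by
  intro m z hz hli
  rw [Fintype.linearIndependent_iff] at hli ⊢
  intro a ha
  by_contra hcon
  have ha0 : a ≠ 0 := fun h => hcon fun i => congrFun h i
  obtain ⟨b, hb0, hb⟩ := exists_int_relation a ha0
  have hb1 : ∑ i, b i • z i = 0 := by
    set y := ∑ i, b i • z i with hy
    have hymem : y ∈ cycleGroup W.toCohomologyData X :=
      AddSubgroup.sum_mem _ fun i _ => AddSubgroup.zsmul_mem _ (hz i) _
    have htr : ∀ x ∈ cycleGroup W.toCohomologyData X, W.trL X (y * x) = 0 := by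
      intro x hx
      choose N hN using fun i => tr_cycleGroup W X (hz i) hx
      have h1 : ∑ i, a i * (N i : K) = 0 := by
        have h2 : W.trL X ((∑ i, a i • z i) * x) = 0 := by rw [ha, zero_mul, map_zero]
        rw [← h2, Finset.sum_mul, map_sum]
        refine Finset.sum_congr rfl fun i _ => ?_
        rw [smul_mul_assoc, map_smul, hN, smul_eq_mul]
      have h3 := hb N h1
      have h4 : W.trL X (y * x) = ((∑ i, b i * N i : ℤ) : K) := by
        rw [hy, Finset.sum_mul, map_sum]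
        push_cast
        refine Finset.sum_congr rfl fun i _ => ?_
        rw [smul_mul_assoc, map_zsmul, hN, zsmul_eq_mul]
      rw [h4, h3, Int.cast_zero]
    have htr' : ∀ x ∈ W.algClasses X, W.trL X (y * x) = 0 := by
      intro x hx
      unfold CohomologyData.algClasses at hx
      induction hx using Submodule.span_induction with
      | mem x hx =>
        obtain ⟨j, c, rfl⟩ := hx
        exact htr _ (cy_mem_cycleGroup W X j c)
      | zero => rw [mul_zero, map_zero]
      | add u v _ _ hu hv => rw [mul_add, map_add, hu, hv, add_zero]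
      | smul r u _ hu => rw [mul_smul_comm, map_smul, hu, smul_zero]
    -- conjecture D over the extension `K / K`
    have h5 : ((1 : K) ⊗ₜ[K] y : W.HΩ K X) = 0 := by
      refine W.d_of_standardD K hD _ ⟨Submodule.tmul_mem_baseChange_of_mem 1
        (cycleGroup_le W X hymem), fun x hx => ?_⟩
      refine baseChange_induction _ (p := fun x => W.trΩ K X (1 ⊗ₜ[K] y * x) = 0) ?_ ?_ ?_ ?_ hx
      · intro x hx
        rw [Algebra.TensorProduct.tmul_mul_tmul, WeilCohomology.trΩ_tmul, htr' x hx, zero_smul]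
      · rw [mul_zero, map_zero]
      · intro u v hu hv
        rw [mul_add, map_add, hu, hv, add_zero]
      · intro r u hu
        rw [mul_smul_comm, map_smul, hu, smul_zero]
    exact (Module.Flat.tensorProduct_mk_injective (R := K) (S := K) (M := W.H X))
      (h5.trans (TensorProduct.tmul_zero _ _).symm)
  apply hb0
  funext i
  exact hli b hb1 i

/-! ### the integral structure over `Ω` -/

variable (Ω : Type t) [Field Ω] [Algebra K Ω]

/-- `x ↦ 1 ⊗ x` -/
noncomputable def incl (X : SmProjVar k) : W.H X →+ W.HΩ Ω X :=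
  (TensorProduct.mk K Ω (W.H X) 1).toAddMonoidHom

lemma incl_apply (X : SmProjVar k) (x : W.H X) : incl W Ω X x = 1 ⊗ₜ[K] x := rfl

lemma incl_injective (X : SmProjVar k) : Function.Injective (incl W Ω X) :=
  Module.Flat.tensorProduct_mk_injective (R := K) (S := Ω) (M := W.H X)

/-- the integral classes -/
noncomputable def intA (X : SmProjVar k) : AddSubgroup (W.HΩ Ω X) :=
  (cycleGroup W.toCohomologyData X).map (incl W Ω X)

lemma mem_intA {X : SmProjVar k} {z : W.HΩ Ω X} :
    z ∈ intA W Ω X ↔ ∃ x ∈ cycleGroup W.toCohomologyData X, (1 : Ω) ⊗ₜ[K] x = z :=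
  AddSubgroup.mem_map

/-- the integral structure -/
noncomputable def intStr : IntStr (W.toSPre Ω) where
  A X := intA W Ω X
  le X z hz := by
    obtain ⟨x, hx, rfl⟩ := (mem_intA W Ω).mp hz
    exact Submodule.tmul_mem_baseChange_of_mem 1 (cycleGroup_le W X hx)
  mul_mem X x y hx hy := by
    obtain ⟨x, hx', rfl⟩ := (mem_intA W Ω).mp hx
    obtain ⟨y, hy', rfl⟩ := (mem_intA W Ω).mp hy
    refine (mem_intA W Ω).mpr ⟨x * y, mul_mem_cycleGroup W X hx' hy', ?_⟩
    change (1 : Ω) ⊗ₜ[K] (x * y) = @HMul.hMul (W.HΩ Ω X) (W.HΩ Ω X) (W.HΩ Ω X) _ (1 ⊗ₜ[K] x)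
      (1 ⊗ₜ[K] y)
    rw [Algebra.TensorProduct.tmul_mul_tmul, mul_one]
  pull_mem {X Y} f y hy := by
    obtain ⟨y, hy', rfl⟩ := (mem_intA W Ω).mp hy
    refine (mem_intA W Ω).mpr ⟨W.pullA f y, pull_mem_cycleGroup W f hy', ?_⟩
    exact (W.pullΩ_tmul Ω f 1 y).symm
  push_mem {X Y} f x hx := by
    obtain ⟨x, hx', rfl⟩ := (mem_intA W Ω).mp hx
    obtain ⟨y, hy, h⟩ := push_mem_cycleGroup W f hx'
    refine (mem_intA W Ω).mpr ⟨y, hy, ?_⟩
    refine ext_vec W Ω fun z => ?_
    have h1 : W.trΩ Ω Y ((1 : Ω) ⊗ₜ[K] y * 1 ⊗ₜ[K] z) =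
        W.trΩ Ω X ((1 : Ω) ⊗ₜ[K] x * W.pullΩ Ω f (1 ⊗ₜ[K] z)) := by
      rw [WeilCohomology.pullΩ_tmul, Algebra.TensorProduct.tmul_mul_tmul,
        Algebra.TensorProduct.tmul_mul_tmul, WeilCohomology.trΩ_tmul, WeilCohomology.trΩ_tmul, h]
    exact h1.trans (tr_pushF (W.toSPre Ω) f _ _).symm

lemma indep_intA {X : SmProjVar k} (h : CyclesIndependent W.toCohomologyData X) :
    Indep Ω (intA W Ω X) := by
  intro m z hz hli
  choose x hx hxz using fun i => (mem_intA W Ω).mp (hz i)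
  obtain rfl : z = fun i => incl W Ω X (x i) := funext fun i => (hxz i).symm
  have h1 : LinearIndependent ℤ x := LinearIndependent.of_comp (incl W Ω X).toIntLinearMap hli
  exact Module.Flat.linearIndependent_one_tmul (S := Ω) (h m x hx h1)

/-! ### forms and vectors -/

variable {W Ω}

section Transpose

variable {K' : Type t} [Field K'] {Ω' : Type v} [Field Ω'] [Algebra K' Ω']
  {P : SPre.{u, v, w, t} k K' Ω'}

lemma tr_transpose' {Y Z : SmProjVar k} {c : P.H (Y.prod Z)}
    (hc : c ∈ P.ev (Y.prod Z)) (w : P.H Z) {y : P.H Y} {fy : P.H Z}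
    (h : ∀ z, P.tr Z (fy * z) =
      P.tr (Y.prod Z) (P.pull (fst Y Z) y * c * P.pull (snd Y Z) z)) :
    P.tr Z (w * fy) = P.tr (Y.prod Z) (P.pull (snd Y Z) w * c * P.pull (fst Y Z) y) := by
  obtain ⟨a, ha, b, hb, rfl⟩ := P.exists_decomp Z w
  rw [add_mul, map_add, map_add (P.pull _), add_mul, add_mul, map_add,
    tr_transpose hc (.inl ha) h, tr_transpose hc (.inr hb) h]

/-- the operator `x ↦ p_* (q^* x ∪ c)` -/
noncomputable def corrOp {X : SmProjVar k} (c : P.H (X.prod X)) : Module.End Ω' (P.H X) where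
  toFun x := P.pushF (fst X X) (P.pull (snd X X) x * c)
  map_add' x y := by rw [map_add (P.pull _), add_mul, map_add]
  map_smul' a x := by
    rw [map_smul (P.pull _), smul_mul_assoc, map_smul, RingHom.id_apply]

lemma corrOp_apply {X : SmProjVar k} (c : P.H (X.prod X)) (x : P.H X) :
    corrOp c x = P.pushF (fst X X) (P.pull (snd X X) x * c) := rfl

end Transpose

/-- the class `1 ⊗ c` -/
noncomputable def oneT {X : SmProjVar k} (c : W.H X) : (W.toSPre Ω).H X :=
  ((1 : Ω) ⊗ₜ[K] c : W.HΩ Ω X)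

lemma unvec_corrOp {X : SmProjVar k} {c : W.H (X.prod X)}
    (hc : c ∈ cycleGroup W.toCohomologyData (X.prod X)) {T : W.H X → W.H X}
    (hT : ∀ x y : W.H X,
      W.pairing X (T x) y = W.tr (X.prod X) (W.pull (fst X X) x * c * W.pull (snd X X) y))
    (e : (W.toSPre Ω).H X) (y : W.H X) :
    unvec W Ω X (corrOp (oneT c) e) y = unvec W Ω X e (T y) := by
  have h1 : ∀ (y : W.H X) (z : W.HΩ Ω X), W.trΩ Ω X (((1 : Ω) ⊗ₜ[K] T y) * z) =
      W.trΩ Ω (X.prod X) (W.pullΩ Ω (fst X X) (1 ⊗ₜ[K] y) * (1 ⊗ₜ[K] c) *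
        W.pullΩ Ω (snd X X) z) := by
    intro y z
    refine baseChange_induction_top (p := fun z => W.trΩ Ω X (((1 : Ω) ⊗ₜ[K] T y) * z) =
      W.trΩ Ω (X.prod X) (W.pullΩ Ω (fst X X) (1 ⊗ₜ[K] y) * (1 ⊗ₜ[K] c) *
        W.pullΩ Ω (snd X X) z)) ?_ ?_ ?_ ?_ z
    · intro z
      have h2 := hT y z
      rw [WeilCohomology.pullΩ_tmul, WeilCohomology.pullΩ_tmul,
        Algebra.TensorProduct.tmul_mul_tmul, Algebra.TensorProduct.tmul_mul_tmul,
        Algebra.TensorProduct.tmul_mul_tmul, WeilCohomology.trΩ_tmul, WeilCohomology.trΩ_tmul,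
        mul_one, mul_one]
      exact congrArg (fun a : K => a • (1 : Ω)) h2
    · simp only [map_zero, mul_zero]
    · intro a b ha hb
      simp only [map_add, mul_add, ha, hb]
    · intro a b hb
      simp only [map_smul, mul_smul_comm, hb]
  have hcmem : (oneT c : (W.toSPre Ω).H (X.prod X)) ∈ (W.toSPre Ω).alg (X.prod X) :=
    Submodule.tmul_mem_baseChange_of_mem 1 (cycleGroup_le W _ hc)
  have h2 := tr_transpose' (P := W.toSPre Ω) ((W.toSPre Ω).alg_le_ev _ hcmem) e
    (y := oneT y) (fy := oneT (T y)) (h1 y)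
  exact (tr_pushF (W.toSPre Ω) (fst X X) _ _).trans h2.symm

lemma unvec_eigen {X : SmProjVar k} {c : W.H (X.prod X)}
    (hc : c ∈ cycleGroup W.toCohomologyData (X.prod X)) {T : W.H X → W.H X}
    (hT : ∀ x y : W.H X,
      W.pairing X (T x) y = W.tr (X.prod X) (W.pull (fst X X) x * c * W.pull (snd X X) y))
    (μ : Ω) (e : (W.toSPre Ω).H X) (y : W.H X) :
    unvec W Ω X e (T y) = μ * unvec W Ω X e y +
      unvec W Ω X ((corrOp (oneT c) - μ • 1 : Module.End Ω ((W.toSPre Ω).H X)) e) y := by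
  rw [← unvec_corrOp hc hT]
  have h2 : ∀ e : (W.toSPre Ω).H X, unvec W Ω X e y = (W.toSPre Ω).tr X (e * oneT y) :=
    fun _ => rfl
  rw [h2, h2, h2, LinearMap.sub_apply, sub_mul, map_sub, LinearMap.smul_apply,
    Module.End.one_apply, smul_mul_assoc, map_smul, smul_eq_mul]
  ring

lemma unvec_zero (X : SmProjVar k) : unvec W Ω X 0 = 0 := by
  refine LinearMap.ext fun y => ?_
  rw [unvec_apply, zero_mul, map_zero, LinearMap.zero_apply]

lemma isGenEigenform_unvec {X : SmProjVar k} {c : W.H (X.prod X)}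
    (hc : c ∈ cycleGroup W.toCohomologyData (X.prod X)) {T : W.H X → W.H X}
    (hT : ∀ x y : W.H X,
      W.pairing X (T x) y = W.tr (X.prod X) (W.pull (fst X X) x * c * W.pull (snd X X) y))
    {μ : Ω} {e : (W.toSPre Ω).H X}
    (he : e ∈ (corrOp (oneT c) : Module.End Ω ((W.toSPre Ω).H X)).maxGenEigenspace μ) :
    IsGenEigenform Ω T μ (unvec W Ω X e) := by
  rw [Module.End.mem_maxGenEigenspace] at he
  obtain ⟨n, hn⟩ := he
  induction n generalizing e with
  | zero =>
    have h0 : e = 0 := by simpa using hn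
    rw [h0]
    have h1 : unvec W Ω X (0 : (W.toSPre Ω).H X) = 0 := unvec_zero X
    rw [h1]
    exact .zero
  | succ n ih =>
    rw [pow_succ, Module.End.mul_apply] at hn
    exact .step _ _ (ih hn) fun y => unvec_eigen hc hT μ e y

lemma hasParity_unvec {X : SmProjVar k} {e : (W.toSPre Ω).H X} (he : (W.toSPre Ω).Hom X e) :
    W.HasParity Ω X (unvec W Ω X e) := by
  rcases he with he | he
  · refine ⟨0, fun j x hx hj => ?_⟩
    rw [zero_add] at hj
    have h1 : ((1 : Ω) ⊗ₜ[K] x : W.HΩ Ω X) ∈ (W.toSPre Ω).od X :=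
      Submodule.tmul_mem_baseChange_of_mem 1
        (W.gr_le_odK X (Nat.not_even_iff_odd.mpr hj) hx)
    exact (W.toSPre Ω).tr_od X _ ((W.toSPre Ω).ev_mul_od X _ _ he h1)
  · refine ⟨1, fun j x hx hj => ?_⟩
    have hj' : Even j := by
      rw [Nat.odd_add, iff_true_left (by decide)] at hj
      exact hj
    have h1 : ((1 : Ω) ⊗ₜ[K] x : W.HΩ Ω X) ∈ (W.toSPre Ω).ev X :=
      Submodule.tmul_mem_baseChange_of_mem 1 (W.gr_le_evK X hj' hx)
    exact (W.toSPre Ω).tr_od X _ ((W.toSPre Ω).od_mul_ev X _ _ he h1)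

/-! ### algebraicity -/

section Sign

variable {K' : Type t} [Field K'] {Ω' : Type v} [Field Ω'] [Algebra K' Ω']
  {P : SPre.{u, v, w, t} k K' Ω'}

lemma tr_ext_sign {A Y : SmProjVar k} {a : P.H A} {b : P.H Y} (ha : P.Hom A a)
    (hb : P.Hom Y b) : ∃ η : Ω', (η = 1 ∨ η = -1) ∧ ∀ a' b', P.Hom A a' →
      P.tr _ (P.ext A Y a b * P.ext A Y a' b') = η * (P.tr A (a * a') * P.tr Y (b * b')) := by
  rcases hb with hb | hb
  · refine ⟨1, .inl rfl, fun a' b' _ => ?_⟩
    rw [one_mul]
    exact tr_ext_mul_ext_ev a a' b b' hb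
  · rcases ha with ha | ha
    · refine ⟨1, .inl rfl, fun a' b' ha' => ?_⟩
      rw [one_mul]
      rcases ha' with ha' | ha'
      · exact tr_ext_mul_ext_ev' a a' b b' ha'
      · rw [tr_ext_mul_ext_od a a' b b' hb ha', P.tr_od A _ (P.ev_mul_od A _ _ ha ha'), zero_mul,
          neg_zero]
    · refine ⟨-1, .inr rfl, fun a' b' ha' => ?_⟩
      rcases ha' with ha' | ha'
      · rw [tr_ext_mul_ext_ev' a a' b b' ha', P.tr_od A _ (P.od_mul_ev A _ _ ha ha'), zero_mul,
          mul_zero]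
      · rw [tr_ext_mul_ext_od a a' b b' hb ha', neg_one_mul]

lemma exists_sign' {Y : SmProjVar k} (n : ℕ) (e : ℕ → P.H Y) (he : ∀ j, P.Hom Y (e j)) :
    ∃ η : Ω', (η = 1 ∨ η = -1) ∧ ∀ y : ℕ → P.H Y, (∀ j, P.Hom Y (y j)) →
      P.tr _ (P.extPow Y n e * P.extPow Y n y) =
        η * ∏ j ∈ Finset.range (n + 1), P.tr Y (e j * y j) := by
  induction n with
  | zero =>
    refine ⟨1, .inl rfl, fun y _ => ?_⟩
    rw [Finset.prod_range_one, one_mul]
    rfl
  | succ n ih =>
    obtain ⟨η, hη, h⟩ := ih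
    obtain ⟨η', hη', h'⟩ := tr_ext_sign (A := Y.selfProd n) (hom_extPow n e he) (he (n + 1))
    refine ⟨η' * η, ?_, fun y hy => ?_⟩
    · rcases hη with rfl | rfl <;> rcases hη' with rfl | rfl <;> simp
    · rw [Finset.prod_range_succ]
      refine (h' (P.extPow Y n y) (y (n + 1)) (hom_extPow n y hy)).trans ?_
      rw [h y hy]
      ring

end Sign

lemma ext_extProd {X : SmProjVar k} {n : ℕ} {a b : W.HΩ Ω (X.selfProd n)}
    (h : ∀ y : ℕ → W.H X, (∀ j, y j ∈ W.evK X ∨ y j ∈ W.odK X) →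
      W.trΩ Ω _ (a * (1 ⊗ₜ[K] W.extProd X n y)) = W.trΩ Ω _ (b * (1 ⊗ₜ[K] W.extProd X n y))) :
    a = b := by
  have main : ∀ x : W.HΩ Ω (X.selfProd n), W.trΩ Ω _ (a * x) = W.trΩ Ω _ (b * x) := by
    intro x
    have hx : x ∈ Submodule.span Ω {z : W.HΩ Ω (X.selfProd n) |
        ∃ y : ℕ → W.H X, (∀ j, y j ∈ W.evK X ∨ y j ∈ W.odK X) ∧
          z = 1 ⊗ₜ[K] W.extProd X n y} := by
      rw [W.span_extProd Ω X n]; trivial
    induction hx using Submodule.span_induction with
    | mem x hx =>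
      obtain ⟨y, hy, rfl⟩ := hx
      exact h y hy
    | zero => rw [mul_zero, mul_zero]
    | add x y _ _ hx hy => rw [mul_add, mul_add, map_add, map_add, hx, hy]
    | smul a x _ hx => rw [mul_smul_comm, mul_smul_comm, map_smul, map_smul, hx]
  exact ext_vec W Ω fun y => main _

lemma extPow_mem_of_algForms {X : SmProjVar k} {n : ℕ} (e : ℕ → (W.toSPre Ω).H X)
    (he : ∀ j, (W.toSPre Ω).Hom X (e j))
    (h : (fun y => ∏ j ∈ Finset.range (n + 1), unvec W Ω X (e j) (y j)) ∈ W.algForms Ω X n) :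
    (W.toSPre Ω).extPow X n e ∈ (W.toSPre Ω).alg (X.selfProd n) := by
  obtain ⟨c, hc, hF⟩ := W.exists_of_mem_algForms Ω h
  obtain ⟨η, hη, key⟩ := exists_sign' (P := W.toSPre Ω) n e he
  obtain ⟨E, hE⟩ : ∃ E : W.HΩ Ω (X.selfProd n), E = (W.toSPre Ω).extPow X n e := ⟨_, rfl⟩
  have heq : E = η • c := by
    refine ext_extProd fun y hy => ?_
    have h1 := key (fun j => oneT (y j)) (fun j => by
      rcases hy j with h3 | h3
      · exact .inl (Submodule.tmul_mem_baseChange_of_mem 1 h3)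
      · exact .inr (Submodule.tmul_mem_baseChange_of_mem 1 h3))
    have h2 : (W.toSPre Ω).extPow X n (fun j => oneT (y j)) =
      ((1 : Ω) ⊗ₜ[K] W.extProd X n y : W.HΩ Ω (X.selfProd n)) := W.extPow_tmul Ω X n y
    rw [h2] at h1
    rw [smul_mul_assoc, map_smul, smul_eq_mul, ← hF y, hE]
    exact h1
  rw [← hE]
  exact (congrArg (· ∈ (W.toSPre Ω).alg (X.selfProd n)) heq).mpr (Submodule.smul_mem _ _ hc)

section Parity

variable {K' : Type t} [Field K'] {Ω' : Type v} [Field Ω'] [Algebra K' Ω']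
  {P : SPre.{u, v, w, t} k K' Ω'}

/-- an operator preserving the parity has generalised eigenspaces spanned by homogeneous
vectors -/
lemma eigenspace_parity {X : SmProjVar k} {T : Module.End Ω' (P.H X)}
    (hev : ∀ x ∈ P.ev X, T x ∈ P.ev X) (hod : ∀ x ∈ P.od X, T x ∈ P.od X) {μ : Ω'} {a b : P.H X}
    (ha : a ∈ P.ev X) (hb : b ∈ P.od X) (h : a + b ∈ T.maxGenEigenspace μ) :
    a ∈ T.maxGenEigenspace μ ∧ b ∈ T.maxGenEigenspace μ := by
  rw [Module.End.mem_maxGenEigenspace] at h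
  obtain ⟨n, hn⟩ := h
  have h1 : ∀ (n : ℕ) (x : P.H X), x ∈ P.ev X → ((T - μ • 1) ^ n) x ∈ P.ev X := by
    intro n
    induction n with
    | zero => intro x hx; simpa using hx
    | succ n ih =>
      intro x hx
      rw [pow_succ, Module.End.mul_apply]
      exact ih _ ((P.ev X).sub_mem (hev x hx) ((P.ev X).smul_mem μ hx))
  have h2 : ∀ (n : ℕ) (x : P.H X), x ∈ P.od X → ((T - μ • 1) ^ n) x ∈ P.od X := by
    intro n
    induction n with
    | zero => intro x hx; simpa using hx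
    | succ n ih =>
      intro x hx
      rw [pow_succ, Module.End.mul_apply]
      exact ih _ ((P.od X).sub_mem (hod x hx) ((P.od X).smul_mem μ hx))
  rw [map_add] at hn
  have h3 : ((T - μ • 1) ^ n) a = 0 := by
    have h4 : ((T - μ • 1) ^ n) a ∈ P.od X := by
      rw [eq_neg_of_add_eq_zero_left hn]
      exact (P.od X).neg_mem (h2 n b hb)
    have := (P.ev_inf_od X).le_bot ⟨h1 n a ha, h4⟩
    simpa using this
  rw [h3, zero_add] at hn
  rw [Module.End.mem_maxGenEigenspace, Module.End.mem_maxGenEigenspace]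
  exact ⟨⟨n, h3⟩, ⟨n, hn⟩⟩

lemma corrOp_span [IsAlgClosed Ω'] {X : SmProjVar k} {c : P.H (X.prod X)}
    (hc : c ∈ P.ev (X.prod X)) :
    Submodule.span Ω' (Subtype.val '' (⋃ μ, {e : P.homSub X | (e : P.H X) ≠ 0 ∧
      (e : P.H X) ∈ (corrOp c).maxGenEigenspace μ}) : Set (P.H X)) = ⊤ := by
  rw [eq_top_iff]
  intro x _
  have hx : x ∈ ⨆ μ, (corrOp c).maxGenEigenspace μ := by
    rw [Module.End.iSup_maxGenEigenspace_eq_top]; trivial
  have hmem : ∀ (μ : Ω') (e : P.homSub X), (e : P.H X) ∈ (corrOp c).maxGenEigenspace μ →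
      (e : P.H X) ∈ Submodule.span Ω' (Subtype.val '' (⋃ μ, {e : P.homSub X | (e : P.H X) ≠ 0 ∧
      (e : P.H X) ∈ (corrOp c).maxGenEigenspace μ}) : Set (P.H X)) := by
    intro μ e he
    by_cases h0 : (e : P.H X) = 0
    · rw [h0]; exact Submodule.zero_mem _
    · exact Submodule.subset_span ⟨e, Set.mem_iUnion.mpr ⟨μ, h0, he⟩, rfl⟩
  have hev : ∀ x ∈ P.ev X, corrOp c x ∈ P.ev X := fun x hx =>
    pushF_ev _ (P.ev_mul_ev _ _ _ (P.pull_ev _ _ hx) hc)
  have hod : ∀ x ∈ P.od X, corrOp c x ∈ P.od X := fun x hx =>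
    pushF_od _ (P.od_mul_ev _ _ _ (P.pull_od _ _ hx) hc)
  induction hx using Submodule.iSup_induction' with
  | mem μ x hx =>
    obtain ⟨a, ha, b, hb, rfl⟩ := P.exists_decomp X x
    obtain ⟨h1, h2⟩ := eigenspace_parity hev hod ha hb hx
    exact Submodule.add_mem _ (hmem μ ⟨a, .inl ha⟩ h1) (hmem μ ⟨b, .inr hb⟩ h2)
  | zero => exact Submodule.zero_mem _
  | add x y _ _ hx hy => exact Submodule.add_mem _ (hx trivial) (hy trivial)

end Parity

lemma ratNorm_of_rationalNormType [IsAlgClosed Ω] {n : ℕ} {σ : ℕ → (Ω ≃+* Ω)} {X : SmProjVar k}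
    (h : RationalNormType W.toCohomologyData Ω n σ X) : RatNorm (intStr W Ω) n σ X := by
  obtain ⟨T, ⟨c, hc, hT⟩, hn⟩ := h
  have hcA : (oneT c : (W.toSPre Ω).H (X.prod X)) ∈ (intStr W Ω).A (X.prod X) :=
    (mem_intA W Ω).mpr ⟨c, hc, rfl⟩
  have hcev : (oneT c : (W.toSPre Ω).H (X.prod X)) ∈ (W.toSPre Ω).ev (X.prod X) :=
    (W.toSPre Ω).alg_le_ev _ ((intStr W Ω).le _ _ hcA)
  refine ⟨corrOp (oneT c), fun μ => {e | (e : (W.toSPre Ω).H X) ≠ 0 ∧ (e : (W.toSPre Ω).H X) ∈
    (corrOp (oneT c) : Module.End Ω ((W.toSPre Ω).H X)).maxGenEigenspace μ}, ?_⟩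
  refine ⟨?_, ?_, ?_, ?_, ?_⟩
  · exact IntMap.of_corr (snd X X) (fst X X) hcA fun x => corrOp_apply _ x
  · exact fun μ e he => he.2
  · exact fun μ e he => he.1
  · exact corrOp_span hcev
  · intro μ e he
    refine (extPow_mem_iff (P := W.toSPre Ω) n e).mp ?_
    exact extPow_mem_of_algForms (fun j => (e j : (W.toSPre Ω).H X)) (fun j => (e j).2)
      (hn μ (fun j => unvec W Ω X (e j : (W.toSPre Ω).H X)) fun j hj =>
        ⟨hasParity_unvec (e j).2, isGenEigenform_unvec hc hT (he j hj).2⟩)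

lemma ratNorm_of_productsOf [IsAlgClosed Ω] {n : ℕ} {σ : ℕ → (Ω ≃+* Ω)} {X : SmProjVar k}
    (h : ProductsOf (RationalNormType W.toCohomologyData Ω n σ) X) :
    RatNorm (intStr W Ω) n σ X := by
  have : CharZero Ω := charZero_of_injective_algebraMap (algebraMap K Ω).injective
  induction h with
  | of h => exact ratNorm_of_rationalNormType h
  | prod _ _ h h' => exact h.prod h'

lemma standardD_of_eq_zero {X : SmProjVar k}
    (h : ∀ r ∈ (intStr W Ω).A X, (W.toSPre Ω).rad X r → r = 0) : W.StandardD X := by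
  intro j a b hab
  unfold CohomologyData.HomEquiv
  rw [← sub_eq_zero]
  set z := W.cy X j a - W.cy X j b with hz
  have hzmem : z ∈ cycleGroup W.toCohomologyData X :=
    AddSubgroup.sub_mem _ (cy_mem_cycleGroup W X j a) (cy_mem_cycleGroup W X j b)
  have hzgr : z ∈ W.gr X (2 * j) :=
    Submodule.sub_mem _ (W.cycleClasses.cy_mem X j a) (W.cycleClasses.cy_mem X j b)
  have key : ∀ y ∈ W.algClasses X, W.trL X (z * y) = 0 := by
    intro y hy
    unfold CohomologyData.algClasses at hy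
    induction hy using Submodule.span_induction with
    | mem y hy =>
      obtain ⟨i, c, rfl⟩ := hy
      by_cases hi : j + i = X.dim
      · rw [hz, sub_mul, map_sub, WeilCohomology.trL_apply, WeilCohomology.trL_apply,
          W.cycleClasses.tr_cy_mul X j i a c hi, W.cycleClasses.tr_cy_mul X j i b c hi,
          hab i hi c, sub_self]
      · exact W.tr_eq_zero_of_gr X (i := 2 * j + 2 * i) (by omega)
          (W.gr_mul X hzgr (W.cycleClasses.cy_mem X i c))
    | zero => rw [mul_zero, map_zero]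
    | add a b _ _ ha hb => rw [mul_add, map_add, ha, hb, add_zero]
    | smul a b _ hb => rw [mul_smul_comm, map_smul, hb, smul_zero]
  have h1 : ((1 : Ω) ⊗ₜ[K] z : W.HΩ Ω X) = 0 := by
    refine h _ ((mem_intA W Ω).mpr ⟨z, hzmem, rfl⟩)
      ⟨Submodule.tmul_mem_baseChange_of_mem 1 (cycleGroup_le W X hzmem), fun a ha => ?_⟩
    refine baseChange_induction _ (p := fun a => W.trΩ Ω X (1 ⊗ₜ[K] z * a) = 0) ?_ ?_ ?_ ?_ ha
    · intro y hy
      rw [Algebra.TensorProduct.tmul_mul_tmul, WeilCohomology.trΩ_tmul, key y hy, zero_smul]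
    · rw [mul_zero, map_zero]
    · intro a b ha hb
      rw [mul_add, map_add, ha, hb, add_zero]
    · intro a b hb
      rw [mul_smul_comm, map_smul, hb, smul_zero]
  exact (Module.Flat.tensorProduct_mk_injective (R := K) (S := Ω) (M := W.H X))
    (h1.trans (TensorProduct.tmul_zero _ _).symm)

/-- **D is equivalent to the independence of cycles** -/
theorem standardD_iff [IsAlgClosed Ω] {n : ℕ} {σ : ℕ → (Ω ≃+* Ω)} {Y : SmProjVar k}
    (h : RationalRelativeType W.toCohomologyData Ω n σ Y) :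
    W.StandardD Y ↔ CyclesIndependent W.toCohomologyData Y := by
  have : CharZero Ω := charZero_of_injective_algebraMap (algebraMap K Ω).injective
  refine ⟨cyclesIndependent_of_standardD W, fun hI => ?_⟩
  obtain ⟨P, hP, rfl | ⟨V, hV, rfl⟩⟩ := h
  · exact standardD_of_eq_zero (Ω := Ω) fun r hr hrad =>
      (ratNorm_of_productsOf hP).eq_zero (indep_intA W Ω hI) hr hrad
  · exact standardD_of_eq_zero (Ω := Ω) fun r hr hrad =>
      (ratNorm_of_productsOf hP).eq_zero_rel (W.d_of_standardD Ω hV) (indep_intA W Ω hI) hr hrad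

end Pool.Agent.Helper11
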