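import Mathlib
import Pool.Agent.Helper11.RatLinear

/-!
# Linear algebra over a subfield of the field of coefficients
-/

namespace Pool.Agent.Helper11

section Indep

variable {F : Type*} [Field F] {Ω : Type*} [Field Ω] [Algebra F Ω]

/-- finite families of elements of `A` which are independent over `F` are independent over the
field `Ω` -/
def IndepOver (F Ω : Type*) [Field F] [Field Ω] [Algebra F Ω] {N : Type*} [AddCommGroup N]
    [Module Ω N] (A : AddSubgroup N) : Prop :=
  ∀ (m : ℕ) (z : Fin m → N), (∀ i, z i ∈ A) →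
    (∀ a : Fin m → F, ∑ i, algebraMap F Ω (a i) • z i = 0 → a = 0) → LinearIndependent Ω z

variable {N : Type*} [AddCommGroup N] [Module Ω N]

lemma IndepOver.set [Module F N] (hsm : ∀ (q : F) (x : N), q • x = algebraMap F Ω q • x)
    {A : AddSubgroup N} (hA : IndepOver F Ω A) (b : Set N) (hb : b.Finite)
    (hbA : ∀ z ∈ b, z ∈ A) (h : LinearIndependent F (fun z : b => (z : N))) :
    LinearIndependent Ω (fun z : b => (z : N)) := by
  have : Fintype b := hb.fintype
  let e := Fintype.equivFin b
  have h1 : LinearIndependent F (fun i => ((e.symm i : b) : N)) :=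
    h.comp e.symm e.symm.injective
  have h2 := hA _ _ (fun i => hbA _ (e.symm i).2) (fun a ha => by
    rw [Fintype.linearIndependent_iff] at h1
    refine funext fun i => h1 a ?_ i
    rw [← ha]
    exact Finset.sum_congr rfl fun i _ => hsm _ _)
  have h3 := h2.comp e e.injective
  convert h3 using 2 with z
  simp

/-- relations with coefficients in `Ω` between elements of `A` come from relations with
coefficients in `F` -/
lemma IndepOver.relation {A : AddSubgroup N} (hA : IndepOver F Ω A) {ι : Type*}
    (β : Module.Basis ι F Ω) {J : Type*} [Fintype J] (v : J → N) (hv : ∀ i, v i ∈ A)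
    (g : J → Ω) (h : ∑ i, g i • v i = 0) (b : ι) :
    ∑ i, algebraMap F Ω (β.repr (g i) b) • v i = 0 := by
  let _ : Module F N := Module.compHom N (algebraMap F Ω)
  have hsm : ∀ (q : F) (x : N), q • x = algebraMap F Ω q • x := fun q x => rfl
  obtain ⟨s, hs, hspan, hli⟩ := exists_linearIndependent F (Set.range v)
  have hsfin : s.Finite := (Set.finite_range v).subset hs
  have : Fintype s := hsfin.fintype
  have hliΩ := hA.set hsm s hsfin (fun z hz => by
    obtain ⟨i, rfl⟩ := hs hz
    exact hv i) hli
  have hc : ∀ i, ∃ c : s → F, ∑ u, c u • (u : N) = v i := by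
    intro i
    have h1 : v i ∈ Submodule.span F (Set.range (fun u : s => (u : N))) := by
      rw [Subtype.range_coe, hspan]
      exact Submodule.subset_span ⟨i, rfl⟩
    exact (Submodule.mem_span_range_iff_exists_fun F).mp h1
  choose c hc using hc
  have h1 : ∑ u : s, (∑ i, g i * algebraMap F Ω (c i u)) • (u : N) = 0 := by
    rw [← h]
    simp only [Finset.sum_smul]
    rw [Finset.sum_comm]
    refine Finset.sum_congr rfl fun i _ => ?_
    rw [← hc i, Finset.smul_sum]
    refine Finset.sum_congr rfl fun u _ => ?_
    rw [hsm, smul_smul]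
  have h2 := (Fintype.linearIndependent_iff.mp hliΩ) _ h1
  have h3 : ∀ u : s, ∑ i, β.repr (g i) b * c i u = 0 := by
    intro u
    have h4 := congrArg (fun x => β.repr x b) (h2 u)
    simp only [map_sum, Finsupp.coe_finsetSum, Finset.sum_apply, map_zero,
      Finsupp.coe_zero, Pi.zero_apply] at h4
    rw [← h4]
    refine Finset.sum_congr rfl fun i _ => ?_
    have : g i * algebraMap F Ω (c i u) = (c i u) • g i := by
      rw [Algebra.smul_def, mul_comm]
    rw [this, map_smul, Finsupp.smul_apply, smul_eq_mul, mul_comm]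
  calc ∑ i, algebraMap F Ω (β.repr (g i) b) • v i
      = ∑ i, ∑ u : s, algebraMap F Ω (β.repr (g i) b * c i u) • (u : N) := by
        refine Finset.sum_congr rfl fun i _ => ?_
        rw [← hc i, Finset.smul_sum]
        refine Finset.sum_congr rfl fun u _ => ?_
        rw [hsm, smul_smul, map_mul]
    _ = ∑ u : s, algebraMap F Ω (∑ i, β.repr (g i) b * c i u) • (u : N) := by
        rw [Finset.sum_comm]
        refine Finset.sum_congr rfl fun u _ => ?_
        rw [map_sum, Finset.sum_smul]
    _ = 0 := by
        refine Finset.sum_eq_zero fun u _ => ?_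
        rw [h3, map_zero, zero_smul]

end Indep

section Stable

variable {F : Type*} [Field F] {Ω : Type*} [Field Ω] [Algebra F Ω] [IsAlgClosed Ω]
  {M N L : Type*} [AddCommGroup M] [Module Ω M] [Module.Finite Ω M]
  [AddCommGroup N] [Module Ω N] [AddCommGroup L] [Module Ω L]

open Polynomial

/-- **Stability of the spectrum of a vector defined over `F` under all automorphisms of the big
field which fix `F`** -/
theorem spectrum_stable_over {T : Module.End Ω M} {τ : Module.End Ω N} {B : M →ₗ[Ω] N →ₗ[Ω] L}
    (hadj : ∀ e r, B (T e) r = B e (τ r)) (hnd : ∀ r, (∀ e, B e r = 0) → r = 0)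
    {A : AddSubgroup N} (hτ : ∀ r ∈ A, τ r ∈ A) (hA : IndepOver F Ω A) {r : N} (hr : r ∈ A)
    (σ : Ω ≃+* Ω) (hσ : ∀ a : F, σ (algebraMap F Ω a) = algebraMap F Ω a)
    {μ : Ω} {e : M} (he : e ∈ T.maxGenEigenspace μ) (hne : B e r ≠ 0) :
    ∃ e' ∈ T.maxGenEigenspace (σ μ), B e' r ≠ 0 := by
  classical
  by_contra hcon
  push Not at hcon
  obtain ⟨g, hg1, hg2⟩ := exists_separating T (σ μ)
  -- `g(τ) r = 0`
  have h1 : ∀ y, B (aeval T g y) r = 0 := by
    intro y
    have hy : y ∈ ⨆ ν, T.maxGenEigenspace ν := by
      rw [Module.End.iSup_maxGenEigenspace_eq_top]; trivial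
    induction hy using Submodule.iSup_induction' with
    | mem ν y hyν =>
      by_cases hν : ν = σ μ
      · subst hν
        refine hcon _ (Module.End.mapsTo_maxGenEigenspace_of_comm ?_ _ hyν)
        have := (Commute.all (X : Polynomial Ω) g).map (aeval T)
        rwa [aeval_X] at this
      · rw [hg2 ν hν y hyν, map_zero, LinearMap.zero_apply]
    | zero => rw [map_zero, map_zero, LinearMap.zero_apply]
    | add x y _ _ hx hy => rw [map_add, map_add, LinearMap.add_apply, hx, hy, add_zero]
  have h2 : aeval τ g r = 0 := hnd _ fun y => by rw [← aeval_adjoint hadj, h1]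
  -- relations over `F`
  let β := Module.Basis.ofVectorSpace F Ω
  have hpow : ∀ n : ℕ, (τ ^ n) r ∈ A := by
    intro n
    induction n with
    | zero => simpa using hr
    | succ n ih => rw [pow_succ', Module.End.mul_apply]; exact hτ _ ih
  have h3 : ∑ i : Fin (g.natDegree + 1), g.coeff i • (τ ^ (i : ℕ)) r = 0 := by
    rw [Fin.sum_univ_eq_sum_range (fun i => g.coeff i • (τ ^ i) r), ← h2, aeval_eq_sum_range]
    rw [LinearMap.sum_apply]
    exact Finset.sum_congr rfl fun i _ => rfl
  have h4 := fun b => hA.relation β (fun i : Fin (g.natDegree + 1) => (τ ^ (i : ℕ)) r)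
    (fun i => hpow i) (fun i => g.coeff i) h3 b
  -- one of them does not vanish at `σ μ`
  obtain ⟨b, hb⟩ : ∃ b, ∑ i : Fin (g.natDegree + 1), algebraMap F Ω (β.repr (g.coeff i) b) *
      (σ μ) ^ (i : ℕ) ≠ 0 := by
    by_contra hall
    push Not at hall
    have h5 : g.eval (σ μ) = 0 := by
      rw [eval_eq_sum_range, ← Fin.sum_univ_eq_sum_range
        (fun i => g.coeff i * (σ μ) ^ i)]
      set B' : Finset _ := Finset.univ.biUnion fun i : Fin (g.natDegree + 1) =>
        (β.repr (g.coeff i)).support with hB'
      have h6 : ∀ i : Fin (g.natDegree + 1), g.coeff i =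
          ∑ b ∈ B', algebraMap F Ω (β.repr (g.coeff i) b) * β b := by
        intro i
        conv_lhs => rw [← β.linearCombination_repr (g.coeff i)]
        rw [Finsupp.linearCombination_apply, Finsupp.sum_of_support_subset (s := B')]
        · refine Finset.sum_congr rfl fun b _ => ?_
          rw [Algebra.smul_def]
        · exact Finset.subset_biUnion_of_mem
            (fun i : Fin (g.natDegree + 1) => (β.repr (g.coeff i)).support) (Finset.mem_univ i)
        · exact fun b _ => zero_smul _ _
      have h7 : ∑ i : Fin (g.natDegree + 1), g.coeff i * (σ μ) ^ (i : ℕ) =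
          ∑ b ∈ B', β b * ∑ i : Fin (g.natDegree + 1), algebraMap F Ω (β.repr (g.coeff i) b) *
            (σ μ) ^ (i : ℕ) := by
        simp only [Finset.mul_sum]
        rw [Finset.sum_comm]
        refine Finset.sum_congr rfl fun i _ => ?_
        conv_lhs => rw [h6 i]
        rw [Finset.sum_mul]
        exact Finset.sum_congr rfl fun b _ => by ring
      rw [h7]
      exact Finset.sum_eq_zero fun b _ => by rw [hall b, mul_zero]
    rw [hg1] at h5
    exact one_ne_zero h5
  set f : Polynomial Ω := ∑ i : Fin (g.natDegree + 1),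
    C (algebraMap F Ω (β.repr (g.coeff i) b)) * X ^ (i : ℕ) with hf
  have hfr : aeval τ f r = 0 := by
    rw [← h4 b, hf, map_sum, LinearMap.sum_apply]
    refine Finset.sum_congr rfl fun i _ => ?_
    rw [map_mul, aeval_C, map_pow, aeval_X, Module.End.mul_apply, Module.algebraMap_end_apply]
  have hfμ : f.eval μ ≠ 0 := by
    intro h0
    apply hb
    have h8 : σ (f.eval μ) = ∑ i : Fin (g.natDegree + 1), algebraMap F Ω (β.repr (g.coeff i) b) *
      (σ μ) ^ (i : ℕ) := by
      rw [hf, eval_finsetSum, map_sum]
      refine Finset.sum_congr rfl fun i _ => ?_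
      rw [eval_mul, eval_C, eval_pow, eval_X, map_mul, map_pow, hσ]
    rw [← h8, h0, map_zero]
  -- conclusion
  apply hne
  rw [Module.End.mem_maxGenEigenspace] at he
  obtain ⟨n, hn⟩ := he
  have hcop : IsCoprime ((X - C μ) ^ n) f := by
    refine IsCoprime.pow_left ?_
    rw [(irreducible_X_sub_C μ).coprime_iff_not_dvd, dvd_iff_isRoot]
    exact hfμ
  obtain ⟨a, c, hac⟩ := hcop
  have h9 : e = aeval T f (aeval T c e) := by
    have h10 := congrArg (fun p : Polynomial Ω => aeval T p e) hac
    simp only [map_add, map_mul, LinearMap.add_apply, Module.End.mul_apply, map_pow, map_sub,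
      aeval_X, aeval_C, map_one, Module.End.one_apply] at h10
    rw [Algebra.algebraMap_eq_smul_one, hn, map_zero, zero_add] at h10
    have h11 : Commute (aeval T c) (aeval T f) := (Commute.all c f).map (aeval T)
    calc e = aeval T c (aeval T f e) := h10.symm
      _ = (aeval T c * aeval T f) e := rfl
      _ = (aeval T f * aeval T c) e := by rw [h11.eq]
      _ = aeval T f (aeval T c e) := rfl
  rw [h9, aeval_adjoint hadj, hfr, map_zero]

end Stable

end Pool.Agent.Helper11
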