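import Mathlib
import Pool.Agent.Helper10.RatStable
import Pool.Agent.Helper11.RelLinear

/-!
# Varieties of rational stable type and subfields of the field of coefficients
-/

universe u v w t

open CategoryTheory

namespace Pool.Agent.Helper11

open Pool.Agent.Helper10 SmProjVar SPre

variable {k : Type u} [Field k] {K : Type t} [Field K] {Ω : Type v} [Field Ω] [Algebra K Ω]
  {P : SPre.{u, v, w, t} k K Ω}

variable {I : IntStr P} {ι : Type*} {G : ι → P.Sym} {n : ℕ} {σ : ℕ → (Ω ≃+* Ω)} {M : ℕ}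

/-- rational stable type, without the condition that there are non-zero words -/
lemma ratStable_of_data {X : SmProjVar k} (T : Module.End Ω (P.H X))
    (S : Ω → Set (List (P.Letter X))) (int : IntMap I X X T)
    (adm : ∀ μ, ∀ l ∈ S μ, ∀ a ∈ l, P.Adm G X a) (size : ∀ μ, ∀ l ∈ S μ, ∀ a ∈ l, a.1 ≤ M)
    (eig : ∀ μ, ∀ l ∈ S μ, ∀ y, IsWord l y → y ∈ T.maxGenEigenspace μ)
    (span : Submodule.span Ω {y : P.H X | ∃ μ, ∃ l ∈ S μ, IsWord l y} = ⊤)
    (matched : ∀ μ (l : Fin (n + 1) → List (P.Letter X)),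
      (∀ j : Fin (n + 1), l j ∈ S (σ j μ)) → Matched l) :
    RatStable I G n σ M X := by
  refine ⟨T, fun c => {l | l ∈ S c ∧ ∃ y, IsWord l y ∧ y ≠ 0}, int,
    fun c l hl a ha => adm c l hl.1 a ha, fun c l hl a ha => size c l hl.1 a ha,
    fun c l hl y hy => eig c l hl.1 y hy,
    fun c l hl => hl.2, ?_, fun c l hl => matched c l fun j => (hl j).1⟩
  rw [eq_top_iff, ← span, Submodule.span_le]
  rintro y ⟨c, l, hl, hy⟩
  by_cases h0 : y = 0
  · rw [h0]; exact Submodule.zero_mem _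
  · exact Submodule.subset_span ⟨c, l, ⟨hl, y, hy, h0⟩, hy⟩

variable {F : Type*} [Field F] [Algebra F Ω]

lemma symm_trans_fix (hσ : ∀ (j) (a : F), σ j (algebraMap F Ω a) = algebraMap F Ω a)
    (j : ℕ) (a : F) :
    ((σ 0).symm.trans (σ j)) (algebraMap F Ω a) = algebraMap F Ω a := by
  rw [RingEquiv.trans_apply]
  have h1 : (σ 0).symm (algebraMap F Ω a) = algebraMap F Ω a := by
    rw [RingEquiv.symm_apply_eq, hσ]
  rw [h1, hσ]

/-- **relative form** -/
theorem ratStable_eq_zero_rel [IsAlgClosed Ω] [CharZero Ω]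
    (hσ : ∀ (j) (a : F), σ j (algebraMap F Ω a) = algebraMap F Ω a) {V X : SmProjVar k}
    (hX : RatStable I G n σ M X) (hV : P.DP V) (hI : IndepOver F Ω (I.A (V.prod X)))
    {r : P.H (V.prod X)} (hr : r ∈ I.A (V.prod X)) (hrad : P.rad (V.prod X) r) : r = 0 := by
  obtain ⟨T, S, h⟩ := hX
  obtain ⟨c, hc, hT⟩ := h.int
  have hcev : c ∈ P.ev _ := P.alg_le_ev _ (I.le _ _ hc)
  let B : P.H X →ₗ[Ω] P.H (V.prod X) →ₗ[Ω] P.H V :=
    LinearMap.mk₂ Ω (fun e r => P.contr V X e r)
      (fun e e' r => by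
        rw [contr_apply, contr_apply, contr_apply, map_add (P.pull _), mul_add, map_add])
      (fun a e r => by
        rw [contr_apply, contr_apply, map_smul (P.pull _), mul_smul_comm, map_smul])
      (fun e r r' => map_add _ _ _) (fun a e r => map_smul _ _ _)
  let τ : Module.End Ω (P.H (V.prod X)) :=
    { toFun := fun R => P.pushF (idProd V (fst X X)) (P.pull (idProd V (snd X X)) R *
        P.pull (snd V (X.prod X)) c)
      map_add' := fun x y => by rw [map_add (P.pull _), add_mul, map_add]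
      map_smul' := fun a x => by
        rw [map_smul (P.pull _), smul_mul_assoc, map_smul, RingHom.id_apply] }
  have hB : ∀ e r, B e r = P.contr V X e r := fun e r => rfl
  have hadj : ∀ e r, B (T e) r = B e (τ r) := by
    intro e r
    rw [hB, hB, hT, contr_pushF, contr_mul _ _ hcev, contr_pull]
    rfl
  have hnd : ∀ r, (∀ e, B e r = 0) → r = 0 := by
    intro r h0
    exact eq_zero_of_contr (S := Set.univ) Submodule.span_univ fun c _ => h0 c
  have hτ : ∀ r ∈ I.A (V.prod X), τ r ∈ I.A (V.prod X) := by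
    intro r hr
    exact I.push_mem _ _ (I.mul_mem _ _ _ (I.pull_mem _ _ hr) (I.pull_mem _ _ hc))
  refine eq_zero_of_contr h.span ?_
  rintro y ⟨μ, l, hl, hy⟩
  by_contra hne
  have hex : ∀ j : Fin (n + 1), ∃ l' ∈ S (σ j ((σ 0).symm μ)), ∃ y, IsWord l' y ∧ P.contr V X y r ≠ 0 := by
    intro j
    obtain ⟨e₁, he₁, hne₁⟩ := spectrum_stable_over hadj hnd hτ hI hr
        ((σ 0).symm.trans (σ j)) (symm_trans_fix hσ j)
      (h.eig μ l hl y hy) hne
    exact h.exists_mem (B.flip r) he₁ hne₁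
  choose l' hl' y' hy' hne' using hex
  obtain ⟨j, hj⟩ := (h.alg _ l' hl').exists_contr_eq_zero hV
    (fun j => h.adm _ _ (hl' j))
  exact hne' j (hj _ (hy' j) r hrad)

/-- **absolute form** -/
theorem ratStable_eq_zero [IsAlgClosed Ω] [CharZero Ω]
    (hσ : ∀ (j) (a : F), σ j (algebraMap F Ω a) = algebraMap F Ω a) {U X : SmProjVar k}
    (hX : RatStable I G n σ M X) (hU : P.DP U) (h1 : (1 : P.H U) ≠ 0)
    (hI : IndepOver F Ω (I.A X))
    {r : P.H X} (hr : r ∈ I.A X) (hrad : P.rad X r) : r = 0 := by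
  obtain ⟨T, S, h⟩ := hX
  obtain ⟨c, hc, hT⟩ := h.int
  have hcev : c ∈ P.ev _ := P.alg_le_ev _ (I.le _ _ hc)
  let B : P.H X →ₗ[Ω] P.H X →ₗ[Ω] Ω :=
    LinearMap.mk₂ Ω (fun e r => P.tr X (r * e))
      (fun e e' r => by rw [mul_add, map_add])
      (fun a e r => by rw [mul_smul_comm, map_smul])
      (fun e r r' => by rw [add_mul, map_add]) (fun a e r => by rw [smul_mul_assoc, map_smul])
  let τ : Module.End Ω (P.H X) :=
    { toFun := fun R => P.pushF (fst X X) (P.pull (snd X X) R * c)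
      map_add' := fun x y => by rw [map_add (P.pull _), add_mul, map_add]
      map_smul' := fun a x => by
        rw [map_smul (P.pull _), smul_mul_assoc, map_smul, RingHom.id_apply] }
  have hB : ∀ e r, B e r = P.tr X (r * e) := fun e r => rfl
  have hadj : ∀ e r, B (T e) r = B e (τ r) := by
    intro e r
    rw [hB, hB, hT]
    change _ = P.tr X (P.pushF (fst X X) (P.pull (snd X X) r * c) * e)
    rw [tr_pushF, tr_mul_pushF, mul_assoc, P.ev_comm _ _ _ hcev]
  have hnd : ∀ r, (∀ e, B e r = 0) → r = 0 := fun r h0 => P.nondeg X r h0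
  have hτ : ∀ r ∈ I.A X, τ r ∈ I.A X := by
    intro r hr
    exact I.push_mem _ _ (I.mul_mem _ _ _ (I.pull_mem _ _ hr) hc)
  refine P.nondeg X r fun y => ?_
  have hy : y ∈ (⊤ : Submodule Ω (P.H X)) := trivial
  rw [← h.span] at hy
  induction hy using Submodule.span_induction with
  | mem y hy =>
    obtain ⟨μ, l, hl, hy⟩ := hy
    by_contra hne
    have hex : ∀ j : Fin (n + 1), ∃ l' ∈ S (σ j ((σ 0).symm μ)), ∃ y, IsWord l' y ∧ P.tr X (r * y) ≠ 0 := by
      intro j
      obtain ⟨e₁, he₁, hne₁⟩ := spectrum_stable_over hadj hnd hτ hI hr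
        ((σ 0).symm.trans (σ j)) (symm_trans_fix hσ j)
        (h.eig μ l hl y hy) hne
      exact h.exists_mem (B.flip r) he₁ hne₁
    choose l' hl' y' hy' hne' using hex
    obtain ⟨j, hj⟩ := (h.alg _ l' hl').exists_contr_eq_zero hU
      (fun j => h.adm _ _ (hl' j))
    have h2 := hj _ (hy' j) _ (rad_pull (snd U X) hrad)
    have h3 : P.pull (snd U X) r = P.ext U X 1 r := by
      rw [SPre.ext, map_one, one_mul]
    rw [h3, contr_ext, smul_eq_zero] at h2
    exact h2.elim (hne' j) h1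
  | zero => rw [mul_zero, map_zero]
  | add x y _ _ hx hy => rw [mul_add, map_add, hx, hy, add_zero]
  | smul a x _ hx => rw [mul_smul_comm, map_smul, hx, smul_zero]

/-- **relative form**, for families with one member -/
theorem ratNorm_eq_zero_rel [IsAlgClosed Ω]
    (hσ : ∀ (j) (a : F), σ j (algebraMap F Ω a) = algebraMap F Ω a) {V X : SmProjVar k}
    (hX : RatNorm I n σ X) (hV : P.D (V.selfProd n)) (hI : IndepOver F Ω (I.A (V.prod X)))
    {r : P.H (V.prod X)} (hr : r ∈ I.A (V.prod X)) (hrad : P.rad (V.prod X) r) : r = 0 := by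
  obtain ⟨T, S, h⟩ := hX
  obtain ⟨c, hc, hT⟩ := h.int
  have hcev : c ∈ P.ev _ := P.alg_le_ev _ (I.le _ _ hc)
  let B : P.H X →ₗ[Ω] P.H (V.prod X) →ₗ[Ω] P.H V :=
    LinearMap.mk₂ Ω (fun e r => P.contr V X e r)
      (fun e e' r => by
        rw [contr_apply, contr_apply, contr_apply, map_add (P.pull _), mul_add, map_add])
      (fun a e r => by
        rw [contr_apply, contr_apply, map_smul (P.pull _), mul_smul_comm, map_smul])
      (fun e r r' => map_add _ _ _) (fun a e r => map_smul _ _ _)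
  let τ : Module.End Ω (P.H (V.prod X)) :=
    { toFun := fun R => P.pushF (idProd V (fst X X)) (P.pull (idProd V (snd X X)) R *
        P.pull (snd V (X.prod X)) c)
      map_add' := fun x y => by rw [map_add (P.pull _), add_mul, map_add]
      map_smul' := fun a x => by
        rw [map_smul (P.pull _), smul_mul_assoc, map_smul, RingHom.id_apply] }
  have hB : ∀ e r, B e r = P.contr V X e r := fun e r => rfl
  have hadj : ∀ e r, B (T e) r = B e (τ r) := by
    intro e r
    rw [hB, hB, hT, contr_pushF, contr_mul _ _ hcev, contr_pull]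
    rfl
  have hnd : ∀ r, (∀ e, B e r = 0) → r = 0 := by
    intro r h0
    exact eq_zero_of_contr (S := Set.univ) Submodule.span_univ fun c _ => h0 c
  have hτ : ∀ r ∈ I.A (V.prod X), τ r ∈ I.A (V.prod X) := by
    intro r hr
    exact I.push_mem _ _ (I.mul_mem _ _ _ (I.pull_mem _ _ hr) (I.pull_mem _ _ hc))
  refine eq_zero_of_contr h.span ?_
  rintro _ ⟨e, he, rfl⟩
  obtain ⟨μ, he⟩ := Set.mem_iUnion.mp he
  by_contra hne
  have hex : ∀ j, ∃ e' ∈ S (σ j ((σ 0).symm μ)), P.contr V X (e' : P.H X) r ≠ 0 := by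
    intro j
    obtain ⟨e₁, he₁, hne₁⟩ := spectrum_stable_over hadj hnd hτ hI hr
      ((σ 0).symm.trans (σ j)) (symm_trans_fix hσ j)
      (h.eig μ e he) hne
    exact h.exists_mem (B.flip r) he₁ hne₁
  choose e' he' hne' using hex
  have h1 : P.extPow X n (fun j => (e' j : P.H X)) ∈ P.alg (X.selfProd n) :=
    (extPow_mem_iff (P := P) n e').mpr (h.alg _ e' (fun j _ => he' j))
  have h2 := mixPow_rad (X := V) n (fun _ => r) (fun _ => hrad)
  have h3 := hV _ (contr_rad h1 h2)
  rw [contr_mixPow n _ _ (fun _ => P.alg_le_ev _ hrad.1)] at h3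
  exact extPow_ne_zero n _ hne' h3

end Pool.Agent.Helper11
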