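import Mathlib
import Pool.Agent.Helper11.RelStableTypes
import Pool.Agent.Helper11.RelStable
import Pool.Agent.Helper11.RatThm
import Pool.Agent.Helper10.Stable
import Pool.Agent.Helper11.DualFam

/-!
# Conjecture D and the independence of cycles, relative to a subfield
-/

universe u v w t

open CategoryTheory TensorProduct

namespace Pool.Agent.Helper11

open Pool.Agent.Helper10 SmProjVar SPre

variable {k : Type u} [Field k] {K : Type v} [Field K] [CharZero K]
  (W : WeilCohomology.{u, v, w} k K) (F : Subfield K)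

/-! ### the span of the cycle classes -/

lemma cy_mem_cycleSpan (X : SmProjVar k) (j : ℕ) (c : X.Z j) :
    W.cy X j c ∈ cycleSpan W.toCohomologyData F X := Submodule.subset_span ⟨j, c, rfl⟩

lemma cycleGroup_le_cycleSpan (X : SmProjVar k) {z : W.H X}
    (hz : z ∈ cycleGroup W.toCohomologyData X) : z ∈ cycleSpan W.toCohomologyData F X := by
  unfold cycleGroup at hz
  induction hz using AddSubgroup.closure_induction with
  | mem z hz =>
    obtain ⟨j, c, rfl⟩ := hz
    exact cy_mem_cycleSpan W F X j c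
  | zero => exact Submodule.zero_mem _
  | add a b _ _ ha hb => exact Submodule.add_mem _ ha hb
  | neg a _ ha => exact Submodule.neg_mem _ ha

variable {F}

/-- induction for the span of the cycle classes -/
lemma cycleSpan_induction {X : SmProjVar k} {p : W.H X → Prop}
    (mem : ∀ z ∈ cycleGroup W.toCohomologyData X, p z) (add : ∀ x y, p x → p y → p (x + y))
    (smul : ∀ (a : F) (x : W.H X), p x → p ((a : K) • x)) {z : W.H X}
    (hz : z ∈ cycleSpan W.toCohomologyData F X) : p z := by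
  unfold cycleSpan at hz
  induction hz using Submodule.span_induction with
  | mem z hz =>
    obtain ⟨j, c, rfl⟩ := hz
    exact mem _ (cy_mem_cycleGroup W X j c)
  | zero => exact mem 0 (AddSubgroup.zero_mem _)
  | add a b _ _ ha hb => exact add _ _ ha hb
  | smul a x _ hx => exact smul a x hx

lemma smul_mem_cycleSpan {X : SmProjVar k} (a : F) {x : W.H X}
    (hx : x ∈ cycleSpan W.toCohomologyData F X) :
    (a : K) • x ∈ cycleSpan W.toCohomologyData F X :=
  Submodule.smul_mem _ a hx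

lemma cycleSpan_le (X : SmProjVar k) {z : W.H X} (hz : z ∈ cycleSpan W.toCohomologyData F X) :
    z ∈ W.algClasses X :=
  cycleSpan_induction W (p := fun z => z ∈ W.algClasses X) (fun _ hz => cycleGroup_le W X hz)
    (fun _ _ hx hy => Submodule.add_mem _ hx hy) (fun _ _ hx => Submodule.smul_mem _ _ hx) hz

lemma mul_mem_cycleSpan (X : SmProjVar k) {x y : W.H X}
    (hx : x ∈ cycleSpan W.toCohomologyData F X) (hy : y ∈ cycleSpan W.toCohomologyData F X) :
    x * y ∈ cycleSpan W.toCohomologyData F X := by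
  refine cycleSpan_induction W (p := fun x => x * y ∈ cycleSpan W.toCohomologyData F X)
    (fun x hx => ?_) (fun a b ha hb => ?_) (fun a b hb => ?_) hx
  · refine cycleSpan_induction W (p := fun y => x * y ∈ cycleSpan W.toCohomologyData F X)
      (fun y hy => ?_) (fun a b ha hb => ?_) (fun a b hb => ?_) hy
    · exact cycleGroup_le_cycleSpan W F X (mul_mem_cycleGroup W X hx hy)
    · rw [mul_add]; exact Submodule.add_mem _ ha hb
    · rw [mul_smul_comm]; exact smul_mem_cycleSpan W a hb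
  · rw [add_mul]; exact Submodule.add_mem _ ha hb
  · rw [smul_mul_assoc]; exact smul_mem_cycleSpan W a hb

lemma pull_mem_cycleSpan {X Y : SmProjVar k} (f : X.toOver ⟶ Y.toOver) {y : W.H Y}
    (hy : y ∈ cycleSpan W.toCohomologyData F Y) :
    W.pullA f y ∈ cycleSpan W.toCohomologyData F X := by
  refine cycleSpan_induction W (p := fun y => W.pullA f y ∈ cycleSpan W.toCohomologyData F X)
    (fun y hy => ?_) (fun a b ha hb => ?_) (fun a b hb => ?_) hy
  · exact cycleGroup_le_cycleSpan W F X (pull_mem_cycleGroup W f hy)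
  · rw [map_add]; exact Submodule.add_mem _ ha hb
  · rw [map_smul]; exact smul_mem_cycleSpan W a hb

lemma push_mem_cycleSpan {X Y : SmProjVar k} (f : X.toOver ⟶ Y.toOver) {x : W.H X}
    (hx : x ∈ cycleSpan W.toCohomologyData F X) :
    ∃ y ∈ cycleSpan W.toCohomologyData F Y,
      ∀ z, W.trL Y (y * z) = W.trL X (x * W.pullA f z) := by
  refine cycleSpan_induction W (p := fun x => ∃ y ∈ cycleSpan W.toCohomologyData F Y,
      ∀ z, W.trL Y (y * z) = W.trL X (x * W.pullA f z))
    (fun x hx => ?_) (fun a b ha hb => ?_) (fun a b hb => ?_) hx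
  · obtain ⟨y, hy, h⟩ := push_mem_cycleGroup W f hx
    exact ⟨y, cycleGroup_le_cycleSpan W F Y hy, h⟩
  · obtain ⟨a', ha', h⟩ := ha
    obtain ⟨b', hb', h'⟩ := hb
    exact ⟨a' + b', Submodule.add_mem _ ha' hb', fun z => by
      rw [add_mul, add_mul, map_add, map_add, h, h']⟩
  · obtain ⟨b', hb', h'⟩ := hb
    exact ⟨(a : K) • b', smul_mem_cycleSpan W a hb', fun z => by
      rw [smul_mul_assoc, smul_mul_assoc, map_smul, map_smul, h']⟩

/-- the intersection numbers are in `F` -/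
lemma tr_cycleSpan (X : SmProjVar k) {x y : W.H X}
    (hx : x ∈ cycleSpan W.toCohomologyData F X) (hy : y ∈ cycleGroup W.toCohomologyData X) :
    ∃ a : F, W.trL X (x * y) = a := by
  refine cycleSpan_induction W (p := fun x => ∃ a : F, W.trL X (x * y) = a)
    (fun x hx => ?_) (fun a b ha hb => ?_) (fun a b hb => ?_) hx
  · obtain ⟨m, hm⟩ := tr_cycleGroup W X hx hy
    exact ⟨m, by rw [hm]; norm_cast⟩
  · obtain ⟨m, hm⟩ := ha
    obtain ⟨m', hm'⟩ := hb
    exact ⟨m + m', by rw [add_mul, map_add, hm, hm']; norm_cast⟩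
  · obtain ⟨m', hm'⟩ := hb
    exact ⟨a * m', by rw [smul_mul_assoc, map_smul, hm', smul_eq_mul]; norm_cast⟩

/-! ### D implies independence -/

lemma independentOver_of_standardD {X : SmProjVar k} (hD : W.StandardD X) :
    IndependentOver W.toCohomologyData F X := by
  intro m z hz hli
  rw [Fintype.linearIndependent_iff] at hli ⊢
  intro a ha
  by_contra hcon
  push Not at hcon
  obtain ⟨i₀, hi₀⟩ := hcon
  -- an `F`-linear form on `K` which does not vanish at `a i₀`
  obtain ⟨φ, hφ⟩ : ∃ φ : K →ₗ[F] F, φ (a i₀) ≠ 0 := by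
    by_contra hall
    push Not at hall
    let β := Module.Basis.ofVectorSpace F K
    apply hi₀
    have : β.repr (a i₀) = 0 := Finsupp.ext fun s => hall (β.coord s)
    rwa [map_eq_zero_iff _ β.repr.injective] at this
  have hb1 : ∑ i, φ (a i) • z i = 0 := by
    set y := ∑ i, φ (a i) • z i with hy
    have hymem : y ∈ cycleSpan W.toCohomologyData F X :=
      Submodule.sum_mem _ fun i _ => Submodule.smul_mem _ _ (hz i)
    have htr : ∀ x ∈ cycleGroup W.toCohomologyData X, W.trL X (y * x) = 0 := by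
      intro x hx
      choose N hN using fun i => tr_cycleSpan W X (hz i) hx
      have h1 : ∑ i, a i * (N i : K) = 0 := by
        have h2 : W.trL X ((∑ i, a i • z i) * x) = 0 := by rw [ha, zero_mul, map_zero]
        rw [← h2, Finset.sum_mul, map_sum]
        refine Finset.sum_congr rfl fun i _ => ?_
        rw [smul_mul_assoc, map_smul, hN, smul_eq_mul]
      have h3 : ∑ i, φ (a i) * N i = 0 := by
        rw [← map_zero φ, ← h1, map_sum]
        refine Finset.sum_congr rfl fun i _ => ?_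
        have h4 : a i * (N i : K) = N i • a i := by
          rw [Subfield.smul_def, smul_eq_mul, mul_comm]
        rw [h4, map_smul, smul_eq_mul, mul_comm]
      have h4 : W.trL X (y * x) = ((∑ i, φ (a i) * N i : F) : K) := by
        rw [hy, Finset.sum_mul, map_sum]
        push_cast
        refine Finset.sum_congr rfl fun i _ => ?_
        rw [Subfield.smul_def, smul_mul_assoc, map_smul, hN, smul_eq_mul]
      rw [h4, h3]
      norm_cast
    have htr' : ∀ x ∈ W.algClasses X, W.trL X (y * x) = 0 := by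
      intro x hx
      unfold CohomologyData.algClasses at hx
      induction hx using Submodule.span_induction with
      | mem x hx =>
        obtain ⟨j, c, rfl⟩ := hx
        exact htr _ (cy_mem_cycleGroup W X j c)
      | zero => rw [mul_zero, map_zero]
      | add u v _ _ hu hv => rw [mul_add, map_add, hu, hv, add_zero]
      | smul r u _ hu => rw [mul_smul_comm, map_smul, hu, smul_zero]
    -- conjecture D over the extension `K / K`
    have h5 : ((1 : K) ⊗ₜ[K] y : W.HΩ K X) = 0 := by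
      refine W.d_of_standardD K hD _ ⟨Submodule.tmul_mem_baseChange_of_mem 1
        (cycleSpan_le W X hymem), fun x hx => ?_⟩
      refine baseChange_induction _ (p := fun x => W.trΩ K X (1 ⊗ₜ[K] y * x) = 0) ?_ ?_ ?_ ?_ hx
      · intro x hx
        rw [Algebra.TensorProduct.tmul_mul_tmul, WeilCohomology.trΩ_tmul, htr' x hx, zero_smul]
      · rw [mul_zero, map_zero]
      · intro u v hu hv
        rw [mul_add, map_add, hu, hv, add_zero]
      · intro r u hu
        rw [mul_smul_comm, map_smul, hu, smul_zero]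
    exact (Module.Flat.tensorProduct_mk_injective (R := K) (S := K) (M := W.H X))
      (h5.trans (TensorProduct.tmul_zero _ _).symm)
  exact hφ (hli (fun i => φ (a i)) hb1 i₀)

/-! ### the structure over `F` of the cohomology over `Ω` -/

variable (F) (Ω : Type t) [Field Ω] [Algebra K Ω]

/-- the classes over `F` -/
noncomputable def relA (X : SmProjVar k) : AddSubgroup (W.HΩ Ω X) :=
  (cycleSpan W.toCohomologyData F X).toAddSubgroup.map (incl W Ω X)

lemma mem_relA {X : SmProjVar k} {z : W.HΩ Ω X} :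
    z ∈ relA W F Ω X ↔ ∃ x ∈ cycleSpan W.toCohomologyData F X, (1 : Ω) ⊗ₜ[K] x = z :=
  AddSubgroup.mem_map

/-- the structure over `F` -/
noncomputable def relStr : IntStr (W.toSPre Ω) where
  A X := relA W F Ω X
  le X z hz := by
    obtain ⟨x, hx, rfl⟩ := (mem_relA W F Ω).mp hz
    exact Submodule.tmul_mem_baseChange_of_mem 1 (cycleSpan_le W X hx)
  mul_mem X x y hx hy := by
    obtain ⟨x, hx', rfl⟩ := (mem_relA W F Ω).mp hx
    obtain ⟨y, hy', rfl⟩ := (mem_relA W F Ω).mp hy
    refine (mem_relA W F Ω).mpr ⟨x * y, mul_mem_cycleSpan W X hx' hy', ?_⟩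
    change (1 : Ω) ⊗ₜ[K] (x * y) = @HMul.hMul (W.HΩ Ω X) (W.HΩ Ω X) (W.HΩ Ω X) _ (1 ⊗ₜ[K] x)
      (1 ⊗ₜ[K] y)
    rw [Algebra.TensorProduct.tmul_mul_tmul, mul_one]
  pull_mem {X Y} f y hy := by
    obtain ⟨y, hy', rfl⟩ := (mem_relA W F Ω).mp hy
    refine (mem_relA W F Ω).mpr ⟨W.pullA f y, pull_mem_cycleSpan W f hy', ?_⟩
    exact (W.pullΩ_tmul Ω f 1 y).symm
  push_mem {X Y} f x hx := by
    obtain ⟨x, hx', rfl⟩ := (mem_relA W F Ω).mp hx
    obtain ⟨y, hy, h⟩ := push_mem_cycleSpan W f hx'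
    refine (mem_relA W F Ω).mpr ⟨y, hy, ?_⟩
    refine ext_vec W Ω fun z => ?_
    have h1 : W.trΩ Ω Y ((1 : Ω) ⊗ₜ[K] y * 1 ⊗ₜ[K] z) =
        W.trΩ Ω X ((1 : Ω) ⊗ₜ[K] x * W.pullΩ Ω f (1 ⊗ₜ[K] z)) := by
      rw [WeilCohomology.pullΩ_tmul, Algebra.TensorProduct.tmul_mul_tmul,
        Algebra.TensorProduct.tmul_mul_tmul, WeilCohomology.trΩ_tmul, WeilCohomology.trΩ_tmul, h]
    exact h1.trans (tr_pushF (W.toSPre Ω) f _ _).symm

variable {F} in
lemma indepOver_relA {X : SmProjVar k} (h : IndependentOver W.toCohomologyData F X) :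
    @IndepOver F Ω _ _ ((algebraMap K Ω).comp F.subtype).toAlgebra _ _ _ (relA W F Ω X) := by
  intro m z hz hli
  choose x hx hxz using fun i => (mem_relA W F Ω).mp (hz i)
  obtain rfl : z = fun i => incl W Ω X (x i) := funext fun i => (hxz i).symm
  have h1 : LinearIndependent F x := by
    rw [Fintype.linearIndependent_iff]
    intro a ha i
    have h2 := hli a (by
      have h3 : ∀ i, @algebraMap F Ω _ _ ((algebraMap K Ω).comp F.subtype).toAlgebra (a i) •
          incl W Ω X (x i) = incl W Ω X (a i • x i) := by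
        intro i
        rw [incl_apply, incl_apply, Subfield.smul_def]
        change algebraMap K Ω (a i : K) • (1 : Ω) ⊗ₜ[K] x i = _
        rw [algebraMap_smul, TensorProduct.tmul_smul]
      rw [Finset.sum_congr rfl fun i _ => h3 i, ← map_sum, ha, map_zero])
    rw [h2]
    rfl
  exact Module.Flat.linearIndependent_one_tmul (S := Ω) (h m x hx h1)

/-! ### words -/

lemma isWordOf_nil {E : Type w} [Ring E] {y : E} :
    IsWordOf ([] : List (Σ m : ℕ, Fin m → E)) y ↔ y = 1 := by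
  constructor
  · rintro ⟨x, hx, rfl⟩
    rw [List.forall₂_nil_left_iff.mp hx, List.prod_nil]
  · rintro rfl
    exact ⟨[], .nil, List.prod_nil.symm⟩

lemma isWordOf_cons {E : Type w} [Ring E] {a : Σ m : ℕ, Fin m → E}
    {l : List (Σ m : ℕ, Fin m → E)} {y : E} :
    IsWordOf (a :: l) y ↔ ∃ (b : Fin a.1) (y' : E), IsWordOf l y' ∧ y = a.2 b * y' := by
  constructor
  · rintro ⟨x, hx, rfl⟩
    obtain ⟨c, x', ⟨b, rfl⟩, hx', rfl⟩ := List.forall₂_cons_left_iff.mp hx
    exact ⟨b, _, ⟨x', hx', rfl⟩, List.prod_cons⟩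
  · rintro ⟨b, _, ⟨x', hx', rfl⟩, rfl⟩
    exact ⟨a.2 b :: x', .cons ⟨b, rfl⟩ hx', List.prod_cons.symm⟩

variable {W F Ω}

lemma isWordOf_iff {X : SmProjVar k} (l : List ((W.toSPre Ω).Letter X)) (y : W.HΩ Ω X) :
    IsWordOf (E := W.HΩ Ω X) l y ↔ IsWord (P := W.toSPre Ω) l y := by
  induction l generalizing y with
  | nil => exact isWordOf_nil
  | cons a l ih =>
    refine isWordOf_cons.trans ?_
    constructor
    · rintro ⟨b, y', hy', rfl⟩
      exact ⟨b, y', (ih y').mp hy', rfl⟩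
    · rintro ⟨b, y', hy', rfl⟩
      exact ⟨b, y', (ih y').mpr hy', rfl⟩

/-- admissible families -/
lemma famR_of {G : Set (∀ X : SmProjVar k, W.HΩ Ω X → W.HΩ Ω X)} (hG : G ⊆ W.symmetries Ω)
    {V : SmProjVar k} {n : ℕ} {e : Fin n → W.HΩ Ω V} (hp : W.ParityFamily Ω V e)
    (hi : W.IrreducibleFamily Ω G V e) :
    (W.toSPre Ω).FamR (fun g : G => W.symSPre Ω (hG g.2).choose_spec) V n e where
  parity := W.parity_of_parityFamily Ω hp
  irr := by
    obtain ⟨ρ, hρ, hs⟩ := hi
    refine ⟨fun g => ρ g, fun g => ⟨(hρ g g.2).1, (hρ g g.2).2⟩, ?_⟩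
    rw [← hs]
    congr 1
    rw [Set.image_eq_range]

lemma goodTuple_of [CharZero Ω] {ι : Type*} {G : ι → (W.toSPre Ω).Sym} {V : SmProjVar k} {n : ℕ}
    {a : Fin (n + 1) → (W.toSPre Ω).Letter V} (ha : ∀ j, (W.toSPre Ω).Adm G V (a j))
    (h : CompatibleFamilies W Ω V a) : GoodTuple (P := W.toSPre Ω) a := by
  obtain ⟨m, x, hx, h⟩ := h
  refine ⟨m, x, hx, fun Z p => ?_⟩
  rcases h with h | ⟨rfl, B, hB, h⟩
  · exact h Z p
  · have hf : ∀ j, (W.toSPre Ω).FamR G V m (x j) := by
      intro j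
      have h1 := ha j
      rw [hx j] at h1
      exact h1
    have h1 := dets_of_dual (P := W.toSPre Ω) hB h (hf 0) (hf (Fin.last 1)) Z (p 0)
      (p (Fin.last 1))
    rw [List.ofFn_succ, List.ofFn_succ, List.ofFn_zero, List.prod_cons, List.prod_cons,
      List.prod_nil, mul_one]
    exact h1

lemma trΩ_baseChange {X : SmProjVar k} {T : Module.End K (W.H X)} {c : W.H (X.prod X)}
    (hT : ∀ x y : W.H X,
      W.pairing X (T x) y = W.tr (X.prod X) (W.pull (fst X X) x * c * W.pull (snd X X) y))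
    (x : W.HΩ Ω X) (z : W.H X) : W.trΩ Ω X (T.baseChange Ω x * 1 ⊗ₜ[K] z) =
      W.trΩ Ω (X.prod X) (W.pullΩ Ω (fst X X) x * (1 ⊗ₜ[K] c) *
        W.pullΩ Ω (snd X X) (1 ⊗ₜ[K] z)) := by
  refine baseChange_induction_top (p := fun x => W.trΩ Ω X (T.baseChange Ω x * 1 ⊗ₜ[K] z) =
      W.trΩ Ω (X.prod X) (W.pullΩ Ω (fst X X) x * (1 ⊗ₜ[K] c) *
        W.pullΩ Ω (snd X X) (1 ⊗ₜ[K] z))) ?_ ?_ ?_ ?_ x
  · intro y
    have h2 := hT y z
    rw [WeilCohomology.pullΩ_tmul, WeilCohomology.pullΩ_tmul, LinearMap.baseChange_tmul,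
      Algebra.TensorProduct.tmul_mul_tmul, Algebra.TensorProduct.tmul_mul_tmul,
      Algebra.TensorProduct.tmul_mul_tmul, WeilCohomology.trΩ_tmul, WeilCohomology.trΩ_tmul,
      mul_one, mul_one]
    exact congrArg (fun a : K => a • (1 : Ω)) h2
  · simp only [map_zero, zero_mul]
  · intro a b ha hb
    simp only [map_add, add_mul, ha, hb]
  · intro a b hb
    simp only [map_smul, smul_mul_assoc, hb]

lemma intMap_baseChange {X : SmProjVar k} {T : Module.End K (W.H X)}
    (hT : IsMapOver W.toCohomologyData F X T) :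
    IntMap (relStr W F Ω) X X (T.baseChange Ω : W.HΩ Ω X → W.HΩ Ω X) := by
  obtain ⟨c, hc, hT⟩ := hT
  refine ⟨oneT c, (mem_relA W F Ω).mpr ⟨c, hc, rfl⟩, fun x => ?_⟩
  refine ext_vec W Ω fun z => ?_
  exact (trΩ_baseChange hT x z).trans (tr_pushF (W.toSPre Ω) (snd X X) _ _).symm

lemma ratStable_of_stableOver {G : Set (∀ X : SmProjVar k, W.HΩ Ω X → W.HΩ Ω X)}
    (hG : G ⊆ W.symmetries Ω) {n : ℕ} {σ : Fin (n + 1) → (Ω ≃+* Ω)} {σ' : ℕ → (Ω ≃+* Ω)}
    (hσ : ∀ j : Fin (n + 1), σ' j = σ j) {M : ℕ} {X : SmProjVar k}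
    (h : StableOver W Ω F σ G M X) :
    RatStable (relStr W F Ω) (fun g : G => W.symSPre Ω (hG g.2).choose_spec) n σ' M X := by
  have hchar : CharZero Ω := charZero_of_injective_algebraMap (algebraMap K Ω).injective
  obtain ⟨T, S, hT, hS, hspan, hmat⟩ := h
  have hadm' : ∀ c, ∀ l ∈ S c, ∀ a ∈ l,
      (W.toSPre Ω).Adm (fun g : G => W.symSPre Ω (hG g.2).choose_spec) X a :=
    fun c l hl a ha => famR_of hG ((hS c l hl).1 a ha).2.1 ((hS c l hl).1 a ha).2.2
  refine ratStable_of_data (P := W.toSPre Ω) (T.baseChange Ω : Module.End Ω (W.HΩ Ω X)) S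
    (intMap_baseChange hT) hadm' (fun c l hl a ha => ((hS c l hl).1 a ha).1)
    (fun c l hl y hy => (hS c l hl).2 y ((isWordOf_iff l y).mpr hy))
    ?_ fun c l hl => ?_
  · refine Eq.trans ?_ hspan
    congr 1
    ext y
    exact ⟨fun ⟨c, l, hl, hy⟩ => ⟨c, l, hl, (isWordOf_iff l y).mpr hy⟩,
      fun ⟨c, l, hl, hy⟩ => ⟨c, l, hl, (isWordOf_iff l y).mp hy⟩⟩
  · obtain ⟨N, a, ha, hc⟩ := hmat c l (fun j => by rw [← hσ]; exact hl j)
    exact ⟨N, a, ha, fun i => goodTuple_of (fun j => hadm' _ _ (hl j) _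
      ((ha j).mem_iff.mpr (List.mem_ofFn.mpr ⟨i, rfl⟩))) (hc i)⟩

lemma ratStable_of_productsOf {G : Set (∀ X : SmProjVar k, W.HΩ Ω X → W.HΩ Ω X)}
    (hG : G ⊆ W.symmetries Ω) {n : ℕ} {σ : Fin (n + 1) → (Ω ≃+* Ω)} {σ' : ℕ → (Ω ≃+* Ω)}
    (hσ : ∀ j : Fin (n + 1), σ' j = σ j) {M : ℕ} {X : SmProjVar k}
    (h : ProductsOf (StableOver W Ω F σ G M) X) :
    RatStable (relStr W F Ω) (fun g : G => W.symSPre Ω (hG g.2).choose_spec) n σ' M X := by
  have : CharZero Ω := charZero_of_injective_algebraMap (algebraMap K Ω).injective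
  induction h with
  | of h => exact ratStable_of_stableOver hG hσ h
  | prod _ _ h h' => exact h.prod h'

lemma standardD_of_eq_zero_rel {X : SmProjVar k}
    (h : ∀ r ∈ (relStr W F Ω).A X, (W.toSPre Ω).rad X r → r = 0) : W.StandardD X := by
  refine standardD_of_eq_zero (Ω := Ω) fun r hr hrad => h r ?_ hrad
  obtain ⟨x, hx, rfl⟩ := (mem_intA W Ω).mp hr
  exact (mem_relA W F Ω).mpr ⟨x, cycleGroup_le_cycleSpan W F X hx, rfl⟩

variable (W Ω) in
lemma one_ne_zero_HΩ (X : SmProjVar k) : (1 : W.HΩ Ω X) ≠ 0 := by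
  intro h
  have h1 : (1 : W.H X) = 0 := by
    refine incl_injective W Ω X ?_
    rw [map_zero]
    exact h
  obtain ⟨x, ⟨-, hx⟩, -⟩ := (W.trace X).bijective 1
  have h2 : x = 0 := by rw [← one_mul x, h1, zero_mul]
  rw [h2] at hx
  have h3 : W.trL X 0 = 1 := hx
  rw [map_zero] at h3
  exact zero_ne_one h3

/-- **D is equivalent to the independence of cycles over `F`** -/
theorem standardD_iff_independentOver [IsAlgClosed Ω] {n : ℕ} {σ : Fin (n + 1) → (Ω ≃+* Ω)}
    (hσ : ∀ j, ∀ a ∈ F, σ j (algebraMap K Ω a) = algebraMap K Ω a)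
    {G : Set (∀ X : SmProjVar k, W.HΩ Ω X → W.HΩ Ω X)} (hG : G ⊆ W.symmetries Ω) {M : ℕ}
    {Y : SmProjVar k} (hY : RelativelyStableOver W Ω F σ G M Y) :
    W.StandardD Y ↔ IndependentOver W.toCohomologyData F Y := by
  have : CharZero Ω := charZero_of_injective_algebraMap (algebraMap K Ω).injective
  refine ⟨independentOver_of_standardD W, fun hI => ?_⟩
  let _ : Algebra F Ω := ((algebraMap K Ω).comp F.subtype).toAlgebra
  let σ' : ℕ → (Ω ≃+* Ω) := fun j => σ (Fin.ofNat (n + 1) j)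
  have hσ1 : ∀ j : Fin (n + 1), σ' j = σ j := fun j => by
    change σ (Fin.ofNat (n + 1) j) = σ j
    congr 1
    exact Fin.ext (Nat.mod_eq_of_lt j.2)
  have hσ' : ∀ (j) (a : F), σ' j (algebraMap F Ω a) = algebraMap F Ω a := fun j a => hσ _ a a.2
  obtain ⟨P, hP, h⟩ := hY
  have h0 := ratStable_of_productsOf hG hσ1 hP
  rcases h with rfl | ⟨V, hV, hV', rfl⟩
  · have hpt : (W.toSPre Ω).DP (pt k) := fun n => W.d_of_standardD Ω
      (standardD_selfProd_of_dim_eq_zero W (pt k) rfl n)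
    exact standardD_of_eq_zero_rel (F := F) (Ω := Ω) fun r hr hrad =>
      ratStable_eq_zero hσ' h0 hpt (one_ne_zero_HΩ W Ω (pt k)) (indepOver_relA W Ω hI) hr hrad
  · refine standardD_of_eq_zero_rel (F := F) (Ω := Ω) fun r hr hrad => ?_
    by_cases hM : M = 1
    · subst hM
      exact ratNorm_eq_zero_rel hσ' h0.ratNorm (W.d_of_standardD Ω hV)
        (indepOver_relA W Ω hI) hr hrad
    · exact ratStable_eq_zero_rel hσ' h0 (fun m => W.d_of_standardD Ω (hV' hM m))
        (indepOver_relA W Ω hI) hr hrad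

end Pool.Agent.Helper11
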