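import Mathlib
import Pool.Agent.Helper10.Weil

/-!
# Isotropic subspaces of cohomology which are stable under symmetries and correspondences
-/

universe u v w t

open CategoryTheory TensorProduct

namespace Pool.Agent.Helper11.Obs

open Pool.Agent.Helper10

section Algebra

variable {K : Type v} [Field K] (Ω : Type t) [Field Ω] [Algebra K Ω]

/-- The elements of `Ω` which are fixed by all automorphisms of `Ω` over `K` are in `K`. (This
holds for instance if `Ω = K`, and if `Ω` is an algebraically closed extension of `K`.) -/
def FixedFieldEq (K : Type v) [Field K] (Ω : Type t) [Field Ω] [Algebra K Ω] : Prop :=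
  ∀ a : Ω, (∀ σ : Ω ≃ₐ[K] Ω, σ a = a) → ∃ b : K, algebraMap K Ω b = a

/-- `g` is an automorphism of the `Ω`-algebra `E`. -/
structure IsAlgAut {E : Type w} [Ring E] [Algebra Ω E] (g : E → E) : Prop where
  bijective : Function.Bijective g
  map_add : ∀ x y, g (x + y) = g x + g y
  map_smul : ∀ (a : Ω) x, g (a • x) = a • g x
  map_one : g 1 = 1
  map_mul : ∀ x y, g (x * y) = g x * g y

/-- `φ : Ω ⊗ A → Ω ⊗ B` is the extension of scalars of the linear map `f : A → B`. -/
structure IsExtension {A B : Type w} [Ring A] [Algebra K A] [Ring B] [Algebra K B] (f : A → B)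
    (φ : Ω ⊗[K] A → Ω ⊗[K] B) : Prop where
  map_add : ∀ x y, φ (x + y) = φ x + φ y
  map_tmul : ∀ (a : Ω) (x : A), φ (a ⊗ₜ[K] x) = a ⊗ₜ[K] f x

/-- `τ : Ω ⊗ A → Ω` is the extension of scalars of the linear map `f : A → K`. -/
structure IsExtensionForm {A : Type w} [Ring A] [Algebra K A] (f : A → K)
    (τ : Ω ⊗[K] A → Ω) : Prop where
  map_add : ∀ x y, τ (x + y) = τ x + τ y
  map_tmul : ∀ (a : Ω) (x : A), τ (a ⊗ₜ[K] x) = a * algebraMap K Ω (f x)

end Algebra

/-- `power X n` is the product `X ^ (n + 1)` of `n + 1` copies of `X`. -/
noncomputable def power {k : Type u} [Field k] (X : SmProjVar k) : ℕ → SmProjVar k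
  | 0 => X
  | n + 1 => (power X n).prod X

section Data

variable {k : Type u} [Field k] {K : Type v} [Field K] (W : CohomologyData.{u, v, w} k K)

/-- The classes of even degree in `H(V)` (for `p` even), or the classes of odd degree (for `p`
odd). -/
def parityPart (V : SmProjVar k) (p : ℕ) : Submodule K (W.H V) := ⨆ i ∈ {i | Even (i + p)}, W.gr V i

/-- The `K`-linear span in `H(V)` of the images of the cohomology of the powers of `X` under maps
`H(X ^ m) → H(V)` induced by algebraic correspondences. -/
def imageOfPowers (X V : SmProjVar k) : Submodule K (W.H V) :=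
  Submodule.span K {y | ∃ (n : ℕ) (u : W.H (power X n) → W.H V) (x : W.H (power X n)),
    W.IsAlgebraicMap (power X n) V u ∧ y = u x}

/-- The class `y` in `H(V)` is residual with respect to `X`: it is orthogonal, for the Poincaré
duality pairing, to the images of the cohomology of the powers of `X` under algebraic
correspondences. (If `X` is a point: orthogonal to the classes of algebraic cycles.) -/
def IsResidual (X V : SmProjVar k) (y : W.H V) : Prop :=
  ∀ x ∈ imageOfPowers W X V, W.pairing V x y = 0

/-- Some algebraic correspondence acts on the residual classes in `H(V)` as the projector to the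
even part: it maps every residual class `y₀ + y₁`, `y₀` of even and `y₁` of odd degree, to `y₀`.
(This is no condition if all residual classes have even degree, or if all have odd degree.) -/
def ParityIsAlgebraic (X V : SmProjVar k) : Prop :=
  ∃ u : W.H V → W.H V, W.IsAlgebraicMap V V u ∧
    ∀ y₀ ∈ parityPart W V 0, ∀ y₁ ∈ parityPart W V 1, IsResidual W X V (y₀ + y₁) → u (y₀ + y₁) = y₀

/-- Some algebraic correspondence acts on the residual classes in `H(V)` as the orthogonal
projector to the subspace `E`. -/
def ProjectorIsAlgebraic (X V : SmProjVar k) (E : Submodule K (W.H V)) : Prop :=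
  ∃ u : W.H V → W.H V, W.IsAlgebraicMap V V u ∧
    ∀ y, IsResidual W X V y → u y ∈ E ∧ ∀ x ∈ E, W.pairing V x (u y) = W.pairing V x y

/-- The subspace `F` of `H(V)` is totally isotropic for the Poincaré duality pairing. -/
def IsTotallyIsotropic (V : SmProjVar k) (F : Submodule K (W.H V)) : Prop :=
  ∀ x ∈ F, ∀ y ∈ F, W.pairing V x y = 0

variable (Ω : Type t) [Field Ω] [Algebra K Ω]

/-- A symmetry with multiplier `χ` of the cohomology theory `H`, with coefficients extended to `Ω`:
a family of automorphisms `g_X` of the `Ω`-algebras `Ω ⊗ H(X)`, compatible with pull-backs, such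
that `g_X` multiplies the classes of algebraic cycles of codimension `j` by `χ ^ j`, and the trace
by `χ ^ dim X`. (Example: the action of an automorphism of a separable closure of `k` over `k` on
`ℓ`-adic cohomology, with `χ` given by the cyclotomic character.) -/
structure IsSymmetry (g : ∀ X : SmProjVar k, Ω ⊗[K] W.H X → Ω ⊗[K] W.H X) (χ : Ω) : Prop where
  aut : ∀ X, IsAlgAut Ω (g X)
  pull : ∀ {X Y : SmProjVar k} (f : X.toOver ⟶ Y.toOver) (φ : Ω ⊗[K] W.H Y → Ω ⊗[K] W.H X),
    IsExtension Ω (W.pull f) φ → ∀ z, g X (φ z) = φ (g Y z)
  ne_zero : χ ≠ 0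
  cycle : ∀ (X : SmProjVar k) (j : ℕ) (c : X.Z j),
    g X (1 ⊗ₜ[K] W.cy X j c) = (χ ^ j) ⊗ₜ[K] W.cy X j c
  trace : ∀ (X : SmProjVar k) (τ : Ω ⊗[K] W.H X → Ω), IsExtensionForm Ω (W.tr X) τ →
    ∀ z, τ (g X z) = χ ^ X.dim * τ z

/-- The `K`-subspace `E` of `H(V)` is a stable residual subspace relative to `X`: it consists of
residual classes of even degree, or of residual classes of odd degree, and `Ω ⊗ E` is stable under
all symmetries of `H` over `Ω`. -/
structure IsStableResidual (X V : SmProjVar k) (E : Submodule K (W.H V)) : Prop where
  residual : ∀ y ∈ E, IsResidual W X V y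
  parity : ∃ p, E ≤ parityPart W V p
  symmetry : ∀ g χ, IsSymmetry W Ω g χ → ∀ y ∈ E, g V (1 ⊗ₜ[K] y) ∈ E.baseChange Ω

/-- `V` is anisotropic relative to `X`: an algebraic correspondence separates the residual classes
of even and odd degree, and `0` is the only totally isotropic stable residual subspace of `H(V)`
which is stable under all maps `H(V) → H(V)` induced by algebraic correspondences. -/
structure AnisotropicOver (X V : SmProjVar k) : Prop where
  parity : ParityIsAlgebraic W X V
  anisotropic : ∀ F, IsStableResidual W Ω X V F →
    (∀ u : W.H V → W.H V, W.IsAlgebraicMap V V u → ∀ y ∈ F, u y ∈ F) →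
    IsTotallyIsotropic W V F → F = ⊥

/-- `E` is an anisotropic piece of `H(V)` relative to `X`: a stable residual subspace such that an
algebraic correspondence acts on the residual classes as the orthogonal projector to `E`, and `0`
is the only totally isotropic stable residual subspace of `E` which is stable under all maps
induced by algebraic correspondences which map `E` to `E`. -/
structure IsAnisotropicPiece (X V : SmProjVar k) (E : Submodule K (W.H V)) : Prop where
  stable : IsStableResidual W Ω X V E
  projector : ProjectorIsAlgebraic W X V E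
  anisotropic : ∀ F ≤ E, IsStableResidual W Ω X V F →
    (∀ u : W.H V → W.H V, W.IsAlgebraicMap V V u → (∀ y ∈ E, u y ∈ E) → ∀ y ∈ F, u y ∈ F) →
    IsTotallyIsotropic W V F → F = ⊥

/-- `a` is the pull-back to `T` of an element of an anisotropic piece of the cohomology of some
variety, relative to some variety `X` all of whose powers satisfy the standard conjecture D. -/
def IsLetter (T : SmProjVar k) (a : W.H T) : Prop :=
  ∃ (X V : SmProjVar k) (E : Submodule K (W.H V)) (f : T.toOver ⟶ V.toOver) (y : W.H V),
    (∀ n, W.StandardD (power X n)) ∧ IsAnisotropicPiece W Ω X V E ∧ y ∈ E ∧ a = W.pull f y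

/-- `Y` is spanned by words relative to `X`: `H(Y)` is spanned by the images, under maps
`H(T) → H(Y)` induced by algebraic correspondences, of products of letters on `T` and of the
pull-back of a class on a power of `X` under a morphism from `T`. -/
def SpannedByWords (X Y : SmProjVar k) : Prop :=
  Submodule.span K {y | ∃ (T : SmProjVar k) (n : ℕ) (u : W.H T → W.H Y) (l : List (W.H T))
    (p : T.toOver ⟶ (power X n).toOver) (x : W.H (power X n)), W.IsAlgebraicMap T Y u ∧
      (∀ a ∈ l, IsLetter W Ω T a) ∧ y = u (l.prod * W.pull p x)} = ⊤

/-- The smallest class of varieties which contains all varieties all of whose powers satisfy the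
standard conjecture D, and which, if it contains `X`, contains `X × V` for all `V` which are
anisotropic relative to `X`, contains `X × Y` for all `Y` which are spanned by words relative to
`X`, and contains all `Y` such that `H(Y)` is spanned by the images of the cohomology of the powers
of `X` under algebraic correspondences. -/
inductive Tower : SmProjVar k → Prop
  | base {X : SmProjVar k} : (∀ n, W.StandardD (power X n)) → Tower X
  | anisotropic {X V : SmProjVar k} : Tower X → AnisotropicOver W Ω X V → Tower (X.prod V)
  | words {X Y : SmProjVar k} : Tower X → SpannedByWords W Ω X Y → Tower (X.prod Y)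
  | dominated {X Y : SmProjVar k} : Tower X → imageOfPowers W X Y = ⊤ → Tower Y

end Data

end Pool.Agent.Helper11.Obs
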