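import Mathlib
import Pool.Agent.Helper11.ObsTypes
import Pool.Agent.Helper11.Can.NormDef

/-!
# Canonical filtrations of cohomology: definitions
-/

universe u v w t

open CategoryTheory TensorProduct

namespace Pool.Agent.Helper11.Obs

open Pool.Agent.Helper10 SmProjVar

variable {k : Type u} [Field k]

/-- the product `A × V 0 × … × V (b - 1)` -/
noncomputable def prodVar (A : SmProjVar k) : ∀ {b : ℕ}, (Fin b → SmProjVar k) → SmProjVar k
  | 0, _ => A
  | _ + 1, V => (prodVar A fun i => V i.castSucc).prod (V (Fin.last _))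

/-- the projection `A × V 0 × … × V (b - 1) → A` -/
noncomputable def prodFst (A : SmProjVar k) :
    ∀ {b : ℕ} (V : Fin b → SmProjVar k), (prodVar A V).toOver ⟶ A.toOver
  | 0, _ => 𝟙 A.toOver
  | _ + 1, V => fst _ _ ≫ prodFst A fun i => V i.castSucc

/-- the projection `A × V 0 × … × V (b - 1) → V i` -/
noncomputable def prodProj (A : SmProjVar k) :
    ∀ {b : ℕ} (V : Fin b → SmProjVar k) (i : Fin b), (prodVar A V).toOver ⟶ (V i).toOver
  | 0, _ => fun i => i.elim0
  | _ + 1, V => Fin.lastCases (motive := fun i => (prodVar A V).toOver ⟶ (V i).toOver)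
      (snd _ _) fun i => fst _ _ ≫ prodProj A (fun i => V i.castSucc) i

variable {K : Type v} [Field K] (W : CohomologyData.{u, v, w} k K)

/-- the product of the pull-backs to `T` of a class `x` on `A` and of classes `v i` on `V i` -/
noncomputable def wordClass {T A : SmProjVar k} {b : ℕ} {V : Fin b → SmProjVar k}
    (p : T.toOver ⟶ A.toOver) (f : ∀ i, T.toOver ⟶ (V i).toOver) (x : W.H A)
    (v : ∀ i, W.H (V i)) : W.H T :=
  W.pull p x * (List.ofFn fun i => W.pull (f i) (v i)).prod

/-- the class `x × v 0 × … × v (b - 1)` -/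
noncomputable def extProd {A : SmProjVar k} {b : ℕ} {V : Fin b → SmProjVar k} (x : W.H A)
    (v : ∀ i, W.H (V i)) : W.H (prodVar A V) :=
  wordClass W (prodFst A V) (prodProj A V) x v

/-- The subspace `E` of `H(V)` is a piece of the cohomology of `V`: all its elements have even
degree, or all have odd degree, and some algebraic correspondence acts on `H(V)` as the orthogonal
projector to `E` (for the Poincaré duality pairing). -/
structure IsPiece (V : SmProjVar k) (E : Submodule K (W.H V)) : Prop where
  parity : ∃ p, E ≤ parityPart W V p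
  projector : ∃ u : W.H V → W.H V, W.IsAlgebraicMap V V u ∧
    ∀ y, u y ∈ E ∧ ∀ x ∈ E, W.pairing V x (u y) = W.pairing V x y

/-- `z` is a `K`-linear combination of classes of algebraic cycles on `T` which is orthogonal to
the classes of all algebraic cycles on `T`. -/
def IsNumTrivial (T : SmProjVar k) (z : W.H T) : Prop :=
  z ∈ W.algClasses T ∧ ∀ a ∈ W.algClasses T, W.pairing T z a = 0

/-- a family of subspaces `E c` of the `H(V c)` -/
abbrev Subspaces {P : ℕ} (V : Fin P → SmProjVar k) : Type w := ∀ c, Submodule K (W.H (V c))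

/-- a family of subspaces `F c a` of the `H(V c)`, where `a` runs through the real numbers -/
abbrev Filtrations {P : ℕ} (V : Fin P → SmProjVar k) : Type w :=
  ∀ c, ℝ → Submodule K (W.H (V c))

section Words

variable (X : SmProjVar k) {P : ℕ} (V : Fin P → SmProjVar k) (n : ℕ)
  (F : Filtrations W V)

/-- the map `g` stabilises `Ω ⊗ E` -/
def Stabilises (Ω : Type t) [Field Ω] [Algebra K Ω] {M : Type w} [AddCommGroup M] [Module K M]
    (g : Ω ⊗[K] M → Ω ⊗[K] M) (E : Submodule K M) : Prop :=
  ∀ y ∈ E, g (1 ⊗ₜ[K] y) ∈ E.baseChange Ω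

/-- `y` is a word of weight `s` on `T`, of length at most `n`: the product of the pull-back of a
class `x` on a power of `X`, under a morphism from `T`, and of pull-backs of classes
`v i ∈ F (c i) (a i)`, for at most `n` indices `i`, under morphisms from `T`, with
`∑ i, a i = s`. -/
def IsWord (T : SmProjVar k) (s : ℝ) (y : W.H T) : Prop :=
  ∃ (m b : ℕ) (p : T.toOver ⟶ (power X m).toOver) (x : W.H (power X m)) (c : Fin b → Fin P)
    (f : ∀ i, T.toOver ⟶ (V (c i)).toOver) (a : Fin b → ℝ) (v : ∀ i, W.H (V (c i))),
    b ≤ n ∧ (∀ i, v i ∈ F (c i) (a i)) ∧ ∑ i, a i = s ∧ y = wordClass W p f x v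

/-- the variety `X ^ (m + 1) × V (c 0) × … × V (c (b - 1))` -/
noncomputable abbrev wordVar (m : ℕ) {b : ℕ} (c : Fin b → Fin P) : SmProjVar k :=
  prodVar (power X m) fun i => V (c i)

/-- the classes `x × v 0 × … × v (b - 1)` of weight `s` on the variety
`X ^ (m + 1) × V (c 0) × … × V (c (b - 1))`, where `v i ∈ F (c i) (a i)` and `∑ i, a i = s` -/
def extWords (m : ℕ) {b : ℕ} (c : Fin b → Fin P) (s : ℝ) : Set (W.H (wordVar X V m c)) :=
  {y | ∃ (x : W.H (power X m)) (a : Fin b → ℝ) (v : ∀ i, W.H (V (c i))),
    (∀ i, v i ∈ F (c i) (a i)) ∧ ∑ i, a i = s ∧ y = extProd W x v}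

end Words

section Filtrations

variable (X : SmProjVar k) {P : ℕ} (V : Fin P → SmProjVar k) (E : Subspaces W V) (n : ℕ)
  (F : Filtrations W V)

/-- The filtrations `F c`, indexed by the real numbers, of the subspaces `E c ⊆ H(V c)` are
admissible (of level `n`, relative to `X`): they are bounded and self-dual, classes of algebraic
cycles are orthogonal to the words of length at most `n` and of positive weight, and numerically
trivial classes are orthogonal to the words of length at most `n` and of weight larger
than `- 1`. -/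
structure IsAdmissible : Prop where
  le : ∀ c a, F c a ≤ E c
  bounded : ∃ M, ∀ c, F c M = ⊥
  dual : ∀ c a, ∀ y ∈ E c,
    y ∈ F c a ↔ ∀ a', -a < a' → ∀ x ∈ F c a', W.pairing (V c) x y = 0
  alg : ∀ (T : SmProjVar k) (s : ℝ) (z y : W.H T), z ∈ W.algClasses T → 0 < s →
    IsWord W X V n F T s y → W.pairing T z y = 0
  num : ∀ (T : SmProjVar k) (s : ℝ) (z y : W.H T), IsNumTrivial W T z → -1 < s →
    IsWord W X V n F T s y → W.pairing T z y = 0

/-- The filtrations `F c` of the subspaces `E c` are stable under all symmetries of the cohomology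
theory, with coefficients in any extension of `K`, which stabilise the `E c`. -/
def IsStableUnderSymmetries : Prop :=
  ∀ (Ω : Type t) [Field Ω] [Algebra K Ω]
    (g : ∀ X : SmProjVar k, Ω ⊗[K] W.H X → Ω ⊗[K] W.H X) (χ : Ω), IsSymmetry W Ω g χ →
    (∀ c, Stabilises Ω (g (V c)) (E c)) → ∀ c a, Stabilises Ω (g (V c)) (F c a)

/-- The filtrations detect the algebraic classes modulo the numerically trivial ones: a
`K`-combination of classes of algebraic cycles on `X ^ (m + 1) × V (c 0) × … × V (c (b - 1))`,
`b ≤ n`, which is orthogonal to the classes `x × v 0 × … × v (b - 1)` of weight `0` is orthogonal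
to all classes of algebraic cycles in `H(X ^ (m + 1)) ⊗ E (c 0) ⊗ … ⊗ E (c (b - 1))`. -/
def Detects : Prop :=
  ∀ (m b : ℕ) (c : Fin b → Fin P), b ≤ n →
    ∀ z ∈ W.algClasses (wordVar X V m c), (∀ y ∈ extWords W X V F m c 0, W.pairing _ z y = 0) →
    ∀ y ∈ W.algClasses (wordVar X V m c),
    y ∈ Submodule.span K (extWords W X V (fun c _ => E c) m c 0) → W.pairing _ z y = 0

/-- `F` is the canonical family of filtrations of the `E c` (of level `n`, relative to `X`): the
unique admissible family whose norm is minimal. It is stable under symmetries and detects the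
algebraic classes modulo the numerically trivial ones. -/
structure IsCanonical : Prop where
  admissible : IsAdmissible W X V E n F
  minimal : ∀ F', IsAdmissible W X V E n F' → ∑ c, filNorm (F c) ≤ ∑ c, filNorm (F' c)
  unique : ∀ F', IsAdmissible W X V E n F' → ∑ c, filNorm (F' c) = ∑ c, filNorm (F c) → F' = F
  stable : IsStableUnderSymmetries.{u, v, w, t} W V E F
  detects : Detects W X V E n F

/-- The filtrations `F c` are trivial: `F c a = 0` for `a > 0` (and then `F c a = E c` for `a ≤ 0`
if they are admissible). -/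
def IsTrivial {P : ℕ} {V : Fin P → SmProjVar k} (F : Filtrations W V) : Prop :=
  ∀ c a, 0 < a → F c a = ⊥

/-- Numerically trivial classes are orthogonal to all words of length at most `n` in the `E c`. -/
def NumTrivialOrthogonal : Prop :=
  ∀ (T : SmProjVar k) (z y : W.H T), IsNumTrivial W T z → IsWord W X V n (fun c _ => E c) T 0 y →
    W.pairing T z y = 0

/-- `H(Y)` is spanned by the images, under maps `H(T) → H(Y)` induced by algebraic
correspondences, of words on `T` of length at most `n` in the `E c`. -/
def SpannedBy (Y : SmProjVar k) : Prop :=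
  Submodule.span K {y | ∃ (T : SmProjVar k) (u : W.H T → W.H Y) (x : W.H T),
    W.IsAlgebraicMap T Y u ∧ IsWord W X V n (fun c _ => E c) T 0 x ∧ y = u x} = ⊤

end Filtrations

end Pool.Agent.Helper11.Obs
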