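import Mathlib
import Pool.Agent.Helper11.ObsTypes
import Pool.Agent.Helper11.Iso.RelPiece
import Pool.Agent.Helper11.Iso.Galois
import Pool.Agent.Helper10.Stable

/-!
# The standard conjecture D and isotropic subspaces of cohomology
-/

universe u v w t

open CategoryTheory TensorProduct

namespace Pool.Agent.Helper11.Obs

open Pool.Agent.Helper10 hiding parityPart IsAlgAut
open SmProjVar SPre Iso

variable {k : Type u} [Field k] {K : Type v} [Field K] [CharZero K]
  (W : WeilCohomology.{u, v, w} k K) (Ω : Type t) [Field Ω] [Algebra K Ω]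

/-- the class `1 ⊗ x` -/
def one {X : SmProjVar k} (x : W.H X) : (W.toSPre Ω).H X := (1 : Ω) ⊗ₜ[K] x

/-- the extension of scalars of a subspace -/
def bc {X : SmProjVar k} (S : Submodule K (W.H X)) : Submodule Ω ((W.toSPre Ω).H X) :=
  S.baseChange Ω

lemma one_mem_bc {X : SmProjVar k} {S : Submodule K (W.H X)} {y : W.H X} (hy : y ∈ S) :
    one W Ω y ∈ bc W Ω S := Submodule.tmul_mem_baseChange_of_mem 1 hy

lemma bc_induction {X : SmProjVar k} {S : Submodule K (W.H X)} {p : (W.toSPre Ω).H X → Prop}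
    (hmem : ∀ y ∈ S, p (one W Ω y)) (hzero : p 0) (hadd : ∀ x y, p x → p y → p (x + y))
    (hsmul : ∀ (a : Ω) x, p x → p (a • x)) {x : (W.toSPre Ω).H X} (hx : x ∈ bc W Ω S) : p x :=
  baseChange_induction (K := K) (V := W.H X) S (p := p) hmem hzero hadd hsmul hx

lemma top_induction {X : SmProjVar k} {p : (W.toSPre Ω).H X → Prop}
    (hmem : ∀ y, p (one W Ω y)) (hzero : p 0) (hadd : ∀ x y, p x → p y → p (x + y))
    (hsmul : ∀ (a : Ω) x, p x → p (a • x)) (x : (W.toSPre Ω).H X) : p x :=
  baseChange_induction_top (K := K) (V := W.H X) (p := p) hmem hzero hadd hsmul x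

lemma tr_one_mul {X : SmProjVar k} (x y : W.H X) :
    (W.toSPre Ω).tr X (one W Ω x * one W Ω y) = algebraMap K Ω (W.pairing X x y) := by
  have h1 : W.trΩ Ω X (((1 : Ω) ⊗ₜ[K] x) * ((1 : Ω) ⊗ₜ[K] y)) =
      algebraMap K Ω (W.tr X (x * y)) := by
    rw [Algebra.TensorProduct.tmul_mul_tmul, WeilCohomology.trΩ_tmul, mul_one,
      WeilCohomology.trL_apply, Algebra.algebraMap_eq_smul_one]
  exact h1

lemma eq_of_tr_one {X : SmProjVar k} {a b : (W.toSPre Ω).H X}
    (h : ∀ y : W.H X, (W.toSPre Ω).tr X (a * one W Ω y) = (W.toSPre Ω).tr X (b * one W Ω y)) :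
    a = b := by
  rw [← sub_eq_zero]
  refine W.trΩ_pull_mul Ω X (a - b) fun y => ?_
  have h1 := h y
  rw [← sub_eq_zero, ← map_sub, ← sub_mul] at h1
  exact h1

/-- the operator of an algebraic correspondence, over `Ω` -/
lemma op_one {A V : SmProjVar k} {u : W.H A → W.H V} {c : W.H (A.prod V)}
    (hc : ∀ (x : W.H A) (y : W.H V), W.pairing V (u x) y =
      W.tr (A.prod V) (W.pull (fst A V) x * c * W.pull (snd A V) y)) (x : W.H A) :
    op (one W Ω c) (one W Ω x) = one W Ω (u x) := by
  refine eq_of_tr_one W Ω fun y => ?_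
  rw [tr_one_mul, op_apply, tr_pushF, hc]
  have h1 : W.trΩ Ω (A.prod V) (W.pullΩ Ω (fst A V) ((1 : Ω) ⊗ₜ[K] x) * ((1 : Ω) ⊗ₜ[K] c) *
      W.pullΩ Ω (snd A V) ((1 : Ω) ⊗ₜ[K] y)) =
      algebraMap K Ω (W.tr (A.prod V) (W.pull (fst A V) x * c * W.pull (snd A V) y)) := by
    rw [WeilCohomology.pullΩ_tmul, WeilCohomology.pullΩ_tmul,
      Algebra.TensorProduct.tmul_mul_tmul, Algebra.TensorProduct.tmul_mul_tmul,
      WeilCohomology.trΩ_tmul, mul_one, mul_one, WeilCohomology.trL_apply,
      Algebra.algebraMap_eq_smul_one]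
    rfl
  exact h1

lemma one_mem_alg {X : SmProjVar k} {c : W.H X} (hc : c ∈ W.algClasses X) :
    one W Ω c ∈ (W.toSPre Ω).alg X :=
  Submodule.tmul_mem_baseChange_of_mem 1 hc

/-- every class `1 ⊗ c` in the span of the algebraic classes, `c` an algebraic class, defines an
algebraic map -/
lemma exists_map {A V : SmProjVar k} {c : W.H (A.prod V)} (hc : c ∈ W.algClasses (A.prod V)) :
    ∃ u : W.H A → W.H V, W.IsAlgebraicMap A V u ∧
      ∀ x, op (one W Ω c) (one W Ω x) = one W Ω (u x) := by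
  -- Poincaré duality
  have hfin : Module.Finite K (W.H V) := (W.graded V).finite
  let φ : W.H V →ₗ[K] Module.Dual K (W.H V) :=
    LinearMap.mk₂ K (fun x y => W.trL V (x * y))
      (fun a b c => by rw [add_mul, map_add]) (fun a b c => by rw [smul_mul_assoc, map_smul])
      (fun a b c => by rw [mul_add, map_add]) (fun a b c => by rw [mul_smul_comm, map_smul])
  have hinj : Function.Injective φ := by
    rw [injective_iff_map_eq_zero]
    intro x hx
    exact (W.trace V).nondegenerate x fun y => LinearMap.congr_fun hx y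
  have hsurj : Function.Surjective φ := by
    have h1 : Module.finrank K (W.H V) = Module.finrank K (Module.Dual K (W.H V)) :=
      (Subspace.dual_finrank_eq).symm
    exact (LinearMap.injective_iff_surjective_of_finrank_eq_finrank h1).mp hinj
  have h1 : ∀ x : W.H A, ∃ z : W.H V, ∀ y, W.trL V (z * y) =
      W.trL (A.prod V) (W.pullA (fst A V) x * c * W.pullA (snd A V) y) := by
    intro x
    obtain ⟨z, hz⟩ := hsurj (W.trL (A.prod V) ∘ₗ
      LinearMap.mulLeft K (W.pullA (fst A V) x * c) ∘ₗ (W.pullA (snd A V)).toLinearMap)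
    exact ⟨z, fun y => LinearMap.congr_fun hz y⟩
  choose u hu using h1
  exact ⟨u, ⟨c, hc, hu⟩, op_one W Ω hu⟩

/-- the image of the powers of `X`, over `Ω` -/
lemma one_mem_image {X V : SmProjVar k} {y : W.H V}
    (hy : y ∈ imageOfPowers W.toCohomologyData X V) :
    one W Ω y ∈ image (W.toSPre Ω) (power X) V := by
  unfold imageOfPowers at hy
  induction hy using Submodule.span_induction with
  | mem y hy =>
    obtain ⟨n, u, x, ⟨c, hc, hu⟩, rfl⟩ := hy
    rw [← op_one W Ω hu x]
    exact op_mem (power X) n (one_mem_alg W Ω hc) _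
  | zero =>
    have : one W Ω (0 : W.H V) = 0 := TensorProduct.tmul_zero _ _
    rw [this]; exact Submodule.zero_mem _
  | add x y _ _ hx hy =>
    have : one W Ω (x + y) = one W Ω x + one W Ω y := TensorProduct.tmul_add _ _ _
    rw [this]; exact Submodule.add_mem _ hx hy
  | smul a x _ hx =>
    have : one W Ω (a • x) = algebraMap K Ω a • one W Ω x := by
      have h1 : (1 : Ω) ⊗ₜ[K] (a • x) = algebraMap K Ω a • ((1 : Ω) ⊗ₜ[K] x) := by
        rw [TensorProduct.tmul_smul, algebraMap_smul]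
      exact h1
    rw [this]; exact Submodule.smul_mem _ _ hx

/-- rational residual classes -/
lemma isResidual_of_mem_orth {X V : SmProjVar k} {y : W.H V}
    (hy : one W Ω y ∈ orth (W.toSPre Ω) (image (W.toSPre Ω) (power X) V)) :
    IsResidual W.toCohomologyData X V y := by
  intro x hx
  have h1 := hy _ (one_mem_image W Ω hx)
  rw [tr_one_mul] at h1
  exact (algebraMap K Ω).injective (by rw [h1, map_zero])

omit [CharZero K] in
lemma mem_of_one_mem_baseChange {A : Type w} [AddCommGroup A] [Module K A] {S : Submodule K A}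
    {x : A} (hx : (1 : Ω) ⊗ₜ[K] x ∈ S.baseChange Ω) : x ∈ S := by
  have h1 : ∀ z : Ω ⊗[K] A, z ∈ S.baseChange Ω → S.mkQ.baseChange Ω z = 0 := by
    intro z hz
    refine baseChange_induction _ (p := fun z => S.mkQ.baseChange Ω z = 0) (fun y hy => ?_)
      (map_zero _) (fun a b ha hb => by rw [map_add, ha, hb, add_zero])
      (fun a b hb => by rw [map_smul, hb, smul_zero]) hz
    rw [LinearMap.baseChange_tmul, Submodule.mkQ_apply, (Submodule.Quotient.mk_eq_zero S).mpr hy,
      TensorProduct.tmul_zero]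
  have h2 := h1 _ hx
  rw [LinearMap.baseChange_tmul] at h2
  have h3 : S.mkQ x = 0 :=
    (Module.Flat.tensorProduct_mk_injective (R := K) (S := Ω) (M := A ⧸ S))
      (h2.trans (TensorProduct.tmul_zero _ _).symm)
  exact (Submodule.Quotient.mk_eq_zero S).mp h3

lemma evK_eq (V : SmProjVar k) : parityPart W.toCohomologyData V 0 = W.evK V := rfl

lemma odK_eq (V : SmProjVar k) : parityPart W.toCohomologyData V 1 = W.odK V := by
  have h : {i : ℕ | Even (i + 1)} = {i : ℕ | Even i}ᶜ := by
    ext i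
    exact Nat.even_add_one
  unfold parityPart WeilCohomology.odK
  rw [h]

lemma one_add {X : SmProjVar k} (x y : W.H X) : one W Ω (x + y) = one W Ω x + one W Ω y :=
  TensorProduct.tmul_add _ _ _

lemma one_ev {X : SmProjVar k} {x : W.H X} (hx : x ∈ W.evK X) : one W Ω x ∈ (W.toSPre Ω).ev X :=
  Submodule.tmul_mem_baseChange_of_mem 1 hx

lemma one_od {X : SmProjVar k} {x : W.H X} (hx : x ∈ W.odK X) : one W Ω x ∈ (W.toSPre Ω).od X :=
  Submodule.tmul_mem_baseChange_of_mem 1 hx

/-- the rational part of a stable subspace -/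
lemma baseChange_ratPart' (hΩ : FixedFieldEq K Ω) {V : SmProjVar k}
    {F : Submodule Ω ((W.toSPre Ω).H V)}
    (hF : ∀ σ, ∀ x ∈ F, (W.toSPre Ω).s σ V x ∈ F) :
    (ratPart (K := K) (Ω := Ω) (V := W.H V) F).baseChange Ω = F := by
  have hfin : Module.Finite K (W.H V) := (W.graded V).finite
  exact baseChange_ratPart (K := K) (Ω := Ω) (V := W.H V) hΩ (s := fun σ => W.sΩ σ V)
    (fun σ x y => map_add _ _ _) (fun σ a x => WeilCohomology.sΩ_tmul W Ω σ V a x) hF

/-- the residual classes over `Ω` -/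
lemma orth_induction (hΩ : FixedFieldEq K Ω) {X V : SmProjVar k} {p : (W.toSPre Ω).H V → Prop}
    (hmem : ∀ y : W.H V, IsResidual W.toCohomologyData X V y → p (one W Ω y)) (hzero : p 0)
    (hadd : ∀ x y, p x → p y → p (x + y)) (hsmul : ∀ (a : Ω) x, p x → p (a • x))
    {y : (W.toSPre Ω).H V}
    (hy : y ∈ orth (W.toSPre Ω) (image (W.toSPre Ω) (power X) V)) : p y := by
  have h1 := baseChange_ratPart' W Ω hΩ (F := orth (W.toSPre Ω)
    (image (W.toSPre Ω) (power X) V))
    (fun σ y hy => orth_s (fun y hy => image_s_symm _ σ hy) hy)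
  have h2 : y ∈ (ratPart (K := K) (Ω := Ω) (V := W.H V) (orth (W.toSPre Ω)
    (image (W.toSPre Ω) (power X) V))).baseChange Ω := by
    rw [h1]; exact hy
  exact baseChange_induction (K := K) (V := W.H V) _ (p := p)
    (fun z hz => hmem z (isResidual_of_mem_orth W Ω hz)) hzero hadd hsmul h2

/-- parity of the residual classes over `Ω` -/
lemma residualParity (hΩ : FixedFieldEq K Ω) {X V : SmProjVar k}
    (h : ParityIsAlgebraic W.toCohomologyData X V) :
    ∃ u ∈ (W.toSPre Ω).alg (V.prod V),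
      ∀ y ∈ orth (W.toSPre Ω) (image (W.toSPre Ω) (power X) V),
        (y ∈ (W.toSPre Ω).ev V → op u y = y) ∧ (y ∈ (W.toSPre Ω).od V → op u y = 0) := by
  have hchar : CharZero Ω := charZero_of_injective_algebraMap (algebraMap K Ω).injective
  obtain ⟨u, ⟨c, hc, hu⟩, hpar⟩ := h
  refine ⟨one W Ω c, one_mem_alg W Ω hc, fun y hy => ?_⟩
  have key : (2 : Ω) • op (one W Ω c) y = y + par (W.toSPre Ω) V y := by
    refine orth_induction W Ω hΩ (p := fun y => (2 : Ω) • op (one W Ω c) y =
      y + par (W.toSPre Ω) V y) (fun y hy => ?_) (by simp) (fun a b ha hb => ?_)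
      (fun a b hb => ?_) hy
    · have hy' : y ∈ W.evK V ⊔ W.odK V := by rw [(W.isCompl V).sup_eq_top]; trivial
      obtain ⟨y₀, hy₀, y₁, hy₁, rfl⟩ := Submodule.mem_sup.mp hy'
      rw [op_one W Ω hu, hpar y₀ (by rw [evK_eq]; exact hy₀) y₁ (by rw [odK_eq]; exact hy₁) hy,
        one_add, map_add, par_ev (one_ev W Ω hy₀), par_od (one_od W Ω hy₁), two_smul]
      abel
    · rw [map_add, smul_add, ha, hb, map_add]; abel
    · rw [map_smul, smul_comm, hb, map_smul, smul_add]
  refine ⟨fun h => ?_, fun h => ?_⟩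
  · rw [par_ev h, ← two_smul Ω] at key
    exact smul_right_injective _ (two_ne_zero (α := Ω)) key
  · rw [par_od h, add_neg_cancel] at key
    exact (smul_eq_zero.mp key).resolve_left two_ne_zero

/-- symmetries -/
lemma isSymmetry {g : ∀ X : SmProjVar k, Ω ⊗[K] W.H X → Ω ⊗[K] W.H X} {χ : Ω}
    (hg : IsSymmetry W.toCohomologyData Ω g χ) : W.IsSymmetry Ω g χ where
  aut X := ⟨(hg.aut X).bijective, (hg.aut X).map_add, (hg.aut X).map_smul, (hg.aut X).map_one,
    (hg.aut X).map_mul⟩
  pull {X Y} f y := hg.pull f (W.pullΩ Ω f) ⟨map_add _, W.pullΩ_tmul Ω f⟩ y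
  ne_zero := hg.ne_zero
  cycle := hg.cycle
  trace X x := hg.trace X (W.trΩ Ω X) ⟨map_add _, fun a x => by
    rw [WeilCohomology.trΩ_tmul, WeilCohomology.trL_apply, Algebra.smul_def, mul_comm]⟩ x

/-- all symmetries -/
noncomputable def allSym (g : {g : ∀ X : SmProjVar k, Ω ⊗[K] W.H X → Ω ⊗[K] W.H X //
    ∃ χ, IsSymmetry W.toCohomologyData Ω g χ}) : (W.toSPre Ω).Sym :=
  W.symSPre Ω (isSymmetry W Ω g.2.choose_spec)

lemma power_eq (X : SmProjVar k) : power X = fun n => X.selfProd n := by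
  funext n
  induction n with
  | zero => rfl
  | succ n ih => rw [power, ih]; rfl

lemma dp_of_power {X : SmProjVar k} (h : ∀ n, W.StandardD (power X n)) : (W.toSPre Ω).DP X := by
  rw [power_eq] at h
  exact fun n => W.d_of_standardD Ω (h n)

omit [CharZero K] in
lemma d_power {P : SPre.{u, t, max t w, v} k K Ω} {X : SmProjVar k} (h : P.DP X) (i j : ℕ) :
    P.D ((power X i).prod (power X j)) := by
  rw [power_eq]
  exact (h (i + j + 1)).retract (Retract.pow_prod_pow X i j)

lemma powLike_power (X : SmProjVar k) (n : ℕ) : PowLike X (power X n) := by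
  rw [power_eq]
  exact PowLike.pow X n

lemma parityPart_le_evK {V : SmProjVar k} {p : ℕ} (hp : Even p) :
    parityPart W.toCohomologyData V p ≤ W.evK V :=
  iSup₂_le fun i hi => W.gr_le_evK V (by
    have h1 : Even (i + p) := hi
    exact (Nat.even_add.mp h1).mpr hp)

lemma parityPart_le_odK {V : SmProjVar k} {p : ℕ} (hp : ¬ Even p) :
    parityPart W.toCohomologyData V p ≤ W.odK V :=
  iSup₂_le fun i hi => W.gr_le_odK V fun h2 => hp (by
    have h1 : Even (i + p) := hi
    exact (Nat.even_add.mp h1).mp h2)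

lemma ratPart_eq_bot (hΩ : FixedFieldEq K Ω) {V : SmProjVar k}
    {F : Submodule Ω ((W.toSPre Ω).H V)}
    (hF : ∀ σ, ∀ x ∈ F, (W.toSPre Ω).s σ V x ∈ F)
    (h : ratPart (K := K) (Ω := Ω) (V := W.H V) F = ⊥) : F = ⊥ := by
  rw [← baseChange_ratPart' W Ω hΩ hF, h]
  exact Submodule.baseChange_bot Ω

lemma noIsotropic (hΩ : FixedFieldEq K Ω) {X V : SmProjVar k}
    (h : ∀ F, IsStableResidual W.toCohomologyData Ω X V F →
      (∀ u : W.H V → W.H V, W.IsAlgebraicMap V V u → ∀ y ∈ F, u y ∈ F) →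
      IsTotallyIsotropic W.toCohomologyData V F → F = ⊥) :
    NoIsotropic (allSym W Ω)
      (orth (W.toSPre Ω) (image (W.toSPre Ω) (power X) V)) := by
  intro F hF hpar hsym hs halg hiso
  have h1 := baseChange_ratPart' W Ω hΩ hs
  refine ratPart_eq_bot W Ω hΩ hs ?_
  refine h _ ⟨fun y hy => isResidual_of_mem_orth W Ω (hF hy), ?_, ?_⟩ ?_ ?_
  · rcases hpar with hp | hp
    · refine ⟨0, fun y hy => ?_⟩
      rw [evK_eq]
      exact mem_of_one_mem_baseChange Ω (hp hy)
    · refine ⟨1, fun y hy => ?_⟩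
      rw [odK_eq]
      exact mem_of_one_mem_baseChange Ω (hp hy)
  · intro g χ hg y hy
    rw [h1]
    exact hsym ⟨g, χ, hg⟩ _ hy
  · rintro u ⟨c, hc, hu⟩ y hy
    have h3 := halg _ (one_mem_alg W Ω hc) _ hy
    have h4 := op_one W Ω hu y
    change op (one W Ω c) (one W Ω y) ∈ F at h3
    rw [h4] at h3
    exact h3
  · intro x hx y hy
    have h3 := hiso _ hx _ hy
    change (W.toSPre Ω).tr V (one W Ω x * one W Ω y) = 0 at h3
    rw [tr_one_mul] at h3
    exact (algebraMap K Ω).injective (by rw [h3, map_zero])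

/-! ### anisotropic pieces -/

lemma image_le_bc {X V : SmProjVar k} {y : (W.toSPre Ω).H V}
    (hy : y ∈ image (W.toSPre Ω) (power X) V) :
    y ∈ bc W Ω (imageOfPowers W.toCohomologyData X V) := by
  set S := bc W Ω (imageOfPowers W.toCohomologyData X V) with hS
  refine image_induction (p := fun y => y ∈ S) (fun n κ hκ x => ?_)
    S.zero_mem (fun _ _ => S.add_mem) (fun a _ => S.smul_mem a) hy
  refine bc_induction W Ω (S := W.algClasses ((power X n).prod V))
    (p := fun κ => op κ x ∈ S) (fun c hc => ?_) ?_ (fun a b ha hb => ?_) (fun a b hb => ?_) hκ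
  · obtain ⟨u, hu, hux⟩ := exists_map W Ω hc
    refine top_induction W Ω (p := fun x => op (one W Ω c) x ∈ S) (fun x => ?_)
      ?_ (fun a b ha hb => ?_) (fun a b hb => ?_) x
    · rw [hux x]
      exact one_mem_bc W Ω (Submodule.subset_span ⟨n, u, x, hu, rfl⟩)
    · rw [map_zero]; exact S.zero_mem
    · rw [map_add]; exact S.add_mem ha hb
    · rw [map_smul]; exact S.smul_mem a hb
  · rw [op_zero, LinearMap.zero_apply]; exact S.zero_mem
  · rw [Iso.op_add, LinearMap.add_apply]; exact S.add_mem ha hb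
  · rw [op_smul, LinearMap.smul_apply]; exact S.smul_mem a hb

lemma one_mem_orth {X V : SmProjVar k} {y : W.H V}
    (hy : IsResidual W.toCohomologyData X V y) :
    one W Ω y ∈ orth (W.toSPre Ω) (image (W.toSPre Ω) (power X) V) := by
  intro m hm
  refine bc_induction W Ω (p := fun m => (W.toSPre Ω).tr V (m * one W Ω y) = 0) (fun x hx => ?_)
    ?_ (fun a b ha hb => ?_) (fun a b hb => ?_) (image_le_bc W Ω hm)
  · rw [tr_one_mul, hy x hx, map_zero]
  · rw [zero_mul, map_zero]
  · rw [add_mul, map_add, ha, hb, add_zero]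
  · rw [smul_mul_assoc, map_smul, hb, smul_zero]

/-- anisotropic pieces, over `Ω` -/
theorem exists_piece_of_isAnisotropicPiece (hΩ : FixedFieldEq K Ω) {X V : SmProjVar k}
    (hX : ∀ n, W.StandardD (power X n)) {E : Submodule K (W.H V)}
    (hE : IsAnisotropicPiece W.toCohomologyData Ω X V E) :
    ∃ (n : ℕ) (e : Fin n → (W.toSPre Ω).H V) (B : Matrix (Fin n) (Fin n) Ω),
      Piece (W.toSPre Ω) V n e B ∧ Aniso (allSym W Ω) V e ∧
        ∀ y ∈ E, one W Ω y ∈ Submodule.span Ω (Set.range e) := by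
  set P := W.toSPre Ω with hP
  set EΩ := bc W Ω E with hEΩ
  have hone : ∀ y ∈ E, one W Ω y ∈ EΩ := fun y hy => one_mem_bc W Ω hy
  have hind : ∀ {p : P.H V → Prop}, (∀ y ∈ E, p (one W Ω y)) → p 0 →
      (∀ x y, p x → p y → p (x + y)) → (∀ (a : Ω) x, p x → p (a • x)) → ∀ x ∈ EΩ, p x :=
    fun {p} h1 h2 h3 h4 x hx => bc_induction W Ω h1 h2 h3 h4 hx
  have hDP : P.DP X := dp_of_power W Ω hX
  obtain ⟨u, ⟨c, hc, hu⟩, huE⟩ := hE.projector
  have hpar : EΩ ≤ P.ev V ∨ EΩ ≤ P.od V := by
    obtain ⟨p, hp⟩ := hE.stable.parity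
    by_cases h : Even p
    · exact .inl fun x hx => hind (p := fun x => x ∈ P.ev V)
        (fun y hy => one_ev W Ω (parityPart_le_evK W h (hp hy))) (Submodule.zero_mem _)
        (fun _ _ => Submodule.add_mem _) (fun a _ => Submodule.smul_mem _ a) x hx
    · exact .inr fun x hx => hind (p := fun x => x ∈ P.od V)
        (fun y hy => one_od W Ω (parityPart_le_odK W h (hp hy))) (Submodule.zero_mem _)
        (fun _ _ => Submodule.add_mem _) (fun a _ => Submodule.smul_mem _ a) x hx
  obtain ⟨n, e, B, he, ha, hs⟩ := exists_piece_rel (P := P) (allSym W Ω) (power X)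
    (d_power Ω hDP) EΩ
    (fun x hx => hind (p := fun x => x ∈ orth P (image P (power X) V))
      (fun y hy => one_mem_orth W Ω (hE.stable.residual y hy)) (Submodule.zero_mem _)
      (fun _ _ => Submodule.add_mem _) (fun a _ => Submodule.smul_mem _ a) x hx)
    hpar
    (fun g x hx => hind (p := fun x => (allSym W Ω g).g V x ∈ EΩ)
      (fun y hy => hE.stable.symmetry g _ g.2.choose_spec y hy) (by rw [map_zero]; exact EΩ.zero_mem)
      (fun _ _ h h' => by rw [map_add]; exact EΩ.add_mem h h')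
      (fun a _ h => by rw [map_smul]; exact EΩ.smul_mem a h) x hx)
    (fun σ x hx => W.sΩ_baseChange Ω σ V E x hx) (one_mem_alg W Ω hc)
    (fun y hy => orth_induction W Ω hΩ (p := fun y => op (one W Ω c) y ∈ EΩ)
      (fun y hy => by rw [op_one W Ω hu]; exact hone _ (huE y hy).1)
      (by rw [map_zero]; exact EΩ.zero_mem)
      (fun _ _ h h' => by rw [map_add]; exact EΩ.add_mem h h')
      (fun a _ h => by rw [map_smul]; exact EΩ.smul_mem a h) hy)
    (fun y hy => orth_induction W Ω hΩ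
      (p := fun y => ∀ x ∈ EΩ, P.tr V (x * op (one W Ω c) y) = P.tr V (x * y))
      (fun y hy x hx => hind (p := fun x => P.tr V (x * op (one W Ω c) (one W Ω y)) =
        P.tr V (x * one W Ω y)) (fun x hx => by
          rw [op_one W Ω hu, tr_one_mul, tr_one_mul, (huE y hy).2 x hx])
        (by rw [zero_mul, zero_mul])
        (fun _ _ h h' => by rw [add_mul, map_add, h, h', ← map_add, ← add_mul])
        (fun a _ h => by rw [smul_mul_assoc, map_smul, h, ← map_smul, ← smul_mul_assoc]) x hx)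
      (fun x _ => by rw [map_zero])
      (fun _ _ h h' x hx => by rw [map_add, mul_add, map_add, h x hx, h' x hx, ← map_add, ← mul_add])
      (fun a _ h x hx => by
        rw [map_smul, mul_smul_comm, map_smul, h x hx, ← map_smul, ← mul_smul_comm]) hy)
    (by
      intro F hF hsym hsF halg hiso
      have h1 := baseChange_ratPart' W Ω hΩ hsF
      refine ratPart_eq_bot W Ω hΩ hsF ?_
      have hle : ratPart (K := K) (Ω := Ω) (V := W.H V) F ≤ E := fun y hy =>
        mem_of_one_mem_baseChange Ω (hF hy)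
      refine hE.anisotropic _ hle ⟨fun y hy => hE.stable.residual y (hle hy), ?_, ?_⟩ ?_ ?_
      · obtain ⟨p, hp⟩ := hE.stable.parity
        exact ⟨p, hle.trans hp⟩
      · intro g χ hg y hy
        rw [h1]
        exact hsym ⟨g, χ, hg⟩ _ hy
      · rintro v ⟨d, hd, hv⟩ hvE y hy
        have h3 := halg _ (one_mem_alg W Ω hd) (fun x hx => hind
          (p := fun x => op (one W Ω d) x ∈ EΩ)
          (fun y hy => by rw [op_one W Ω hv]; exact hone _ (hvE y hy))
          (by rw [map_zero]; exact EΩ.zero_mem)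
          (fun _ _ h h' => by rw [map_add]; exact EΩ.add_mem h h')
          (fun a _ h => by rw [map_smul]; exact EΩ.smul_mem a h) x hx) _ hy
        have h4 := op_one W Ω hv y
        change op (one W Ω d) (one W Ω y) ∈ F at h3
        rw [h4] at h3
        exact h3
      · intro x hx y hy
        have h3 := hiso _ hx _ hy
        change P.tr V (one W Ω x * one W Ω y) = 0 at h3
        rw [tr_one_mul] at h3
        exact (algebraMap K Ω).injective (by rw [h3, map_zero]))
  refine ⟨n, e, B, he, ha, fun y hy => ?_⟩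
  rw [hs]
  exact hone y hy

lemma exists_tr_one (X : SmProjVar k) :
    ∃ x : (W.toSPre Ω).H X, (W.toSPre Ω).Hom X x ∧ (W.toSPre Ω).tr X x = 1 := by
  obtain ⟨x, ⟨hx, hx1⟩, -⟩ := (W.trace X).bijective 1
  refine ⟨one W Ω x, .inl (one_ev W Ω (W.gr_le_evK X (even_two_mul _) hx)), ?_⟩
  have h1 : W.trΩ Ω X ((1 : Ω) ⊗ₜ[K] x) = 1 := by
    rw [WeilCohomology.trΩ_tmul, WeilCohomology.trL_apply, hx1, one_smul]
  exact h1

/-! ### words -/

lemma one_mul {X : SmProjVar k} (x y : W.H X) : one W Ω (x * y) = one W Ω x * one W Ω y := by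
  have h1 : ((1 : Ω) ⊗ₜ[K] (x * y) : W.HΩ Ω X) = ((1 : Ω) ⊗ₜ[K] x) * ((1 : Ω) ⊗ₜ[K] y) := by
    rw [Algebra.TensorProduct.tmul_mul_tmul, _root_.mul_one]
  exact h1

lemma pull_one {X Y : SmProjVar k} (f : X.toOver ⟶ Y.toOver) (y : W.H Y) :
    (W.toSPre Ω).pull f (one W Ω y) = one W Ω (W.pull f y) :=
  WeilCohomology.pullΩ_tmul W Ω f 1 y

omit [CharZero K] in
/-- products of letters and classes on powers of `X` -/
lemma op_mul_mem_rgen {P : SPre.{u, t, max t w, v} k K Ω} {L : ∀ T : SmProjVar k, Set (P.H T)}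
    (hL : IsLetters P L) {X T Y Z : SmProjVar k} (hZ : PowLike X Z) {κ : P.H (T.prod Y)}
    (hκ : κ ∈ P.alg _) (p : T.toOver ⟶ Z.toOver) {a : P.H T}
    (ha : a ∈ Submodule.span Ω (Submonoid.closure (L T) : Set (P.H T))) (x : P.H Z) :
    op κ (a * P.pull p x) ∈ Submodule.span Ω (rgen P L X Y) := by
  induction ha using Submodule.span_induction with
  | mem a ha =>
    have key : ∀ x, P.Hom Z x → op κ (a * P.pull p x) ∈ Submodule.span Ω (rgen P L X Y) := by
      intro x hx
      refine Submodule.subset_span ⟨Z, T.prod Y, fst T Y ≫ p, snd T Y, κ, P.pull (fst T Y) a, x,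
        hZ, hκ, closure_pull hL _ ha, hx, ?_⟩
      rw [op_apply, map_mul (P.pull _), pull_pull, ← P.ev_comm _ κ _ (P.alg_le_ev _ hκ),
        mul_assoc]
    obtain ⟨b, hb, c, hc, rfl⟩ := P.exists_decomp Z x
    rw [map_add (P.pull _), mul_add, map_add]
    exact Submodule.add_mem _ (key b (.inl hb)) (key c (.inr hc))
  | zero => rw [zero_mul, map_zero]; exact Submodule.zero_mem _
  | add a b _ _ ha hb => rw [add_mul, map_add]; exact Submodule.add_mem _ ha hb
  | smul r a _ ha => rw [smul_mul_assoc, map_smul]; exact Submodule.smul_mem _ _ ha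

/-- anisotropic letters, over `Ω` -/
lemma one_mem_adjoin (hΩ : FixedFieldEq K Ω) {T : SmProjVar k} {a : W.H T}
    (ha : IsLetter W.toCohomologyData Ω T a) :
    one W Ω a ∈ Algebra.adjoin Ω (anisoLetters (W.toSPre Ω) (allSym W Ω) T) := by
  obtain ⟨X, V, E, f, y, hX, hE, hy, rfl⟩ := ha
  obtain ⟨n, e, B, he, han, hspan⟩ := exists_piece_of_isAnisotropicPiece W Ω hΩ hX hE
  have h1 := hspan y hy
  rw [← pull_one]
  obtain ⟨v, hv⟩ := (Submodule.mem_span_range_iff_exists_fun Ω).mp h1
  rw [← hv, map_sum]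
  refine Subalgebra.sum_mem _ fun b _ => ?_
  rw [map_smul]
  have h2 : (W.toSPre Ω).pull f (e b) ∈ anisoLetters (W.toSPre Ω) (allSym W Ω) T :=
    ⟨V, n, e, B, f, b, he, han, rfl⟩
  exact Subalgebra.smul_mem _ (Algebra.subset_adjoin h2) _

theorem span_rgen_of_words (hΩ : FixedFieldEq K Ω) {X Y : SmProjVar k}
    (h : SpannedByWords W.toCohomologyData Ω X Y) :
    Submodule.span Ω (rgen (W.toSPre Ω) (anisoLetters (W.toSPre Ω) (allSym W Ω)) X Y) = ⊤ := by
  have hchar : CharZero Ω := charZero_of_injective_algebraMap (algebraMap K Ω).injective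
  set S := Submodule.span Ω
    (rgen (W.toSPre Ω) (anisoLetters (W.toSPre Ω) (allSym W Ω)) X Y) with hS
  rw [eq_top_iff]
  intro z _
  refine top_induction W Ω (p := fun z => z ∈ S) (fun y => ?_)
    S.zero_mem (fun _ _ => S.add_mem) (fun a _ => S.smul_mem a) z
  have hy : y ∈ (⊤ : Submodule K (W.H Y)) := trivial
  rw [← h] at hy
  induction hy using Submodule.span_induction with
  | mem y hy =>
    obtain ⟨T, n, u, l, p, x, ⟨c, hc, hu⟩, hl, rfl⟩ := hy
    rw [← op_one W Ω hu, one_mul, ← pull_one]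
    refine op_mul_mem_rgen Ω (isLetters_aniso _) (powLike_power X n) (one_mem_alg W Ω hc) p ?_ _
    have h1 : one W Ω l.prod ∈ Algebra.adjoin Ω
        (anisoLetters (W.toSPre Ω) (allSym W Ω) T) := by
      clear hu hc
      induction l with
      | nil => exact Subalgebra.one_mem _
      | cons a l ih =>
        rw [List.prod_cons, one_mul]
        exact Subalgebra.mul_mem _ (one_mem_adjoin W Ω hΩ (hl a List.mem_cons_self))
          (ih fun b hb => hl b (List.mem_cons_of_mem a hb))
    rw [← Subalgebra.mem_toSubmodule, Algebra.adjoin_eq_span] at h1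
    exact h1
  | zero =>
    have : one W Ω (0 : W.H Y) = 0 := TensorProduct.tmul_zero _ _
    rw [this]; exact S.zero_mem
  | add x y _ _ hx hy => rw [one_add]; exact S.add_mem hx hy
  | smul a x _ hx =>
    have : one W Ω (a • x) = algebraMap K Ω a • one W Ω x := by
      have h1 : (1 : Ω) ⊗ₜ[K] (a • x) = algebraMap K Ω a • ((1 : Ω) ⊗ₜ[K] x) := by
        rw [TensorProduct.tmul_smul, algebraMap_smul]
      exact h1
    rw [this]; exact S.smul_mem _ hx

theorem dp_of_anisotropicOver (hΩ : FixedFieldEq K Ω) {X V : SmProjVar k}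
    (hX : (W.toSPre Ω).DP X) (h : AnisotropicOver W.toCohomologyData Ω X V) :
    (W.toSPre Ω).DP (X.prod V) := by
  have hchar : CharZero Ω := charZero_of_injective_algebraMap (algebraMap K Ω).injective
  have h1 := residualParity W Ω hΩ h.parity
  have h2 := noIsotropic W Ω hΩ h.anisotropic
  rw [power_eq] at h1 h2
  exact DP_prod_of_noIsotropic (allSym W Ω) hX (exists_tr_one W Ω _) h1 h2

theorem dp_of_imageOfPowers {X Y : SmProjVar k}
    (hX : (W.toSPre Ω).DP X) (h : imageOfPowers W.toCohomologyData X Y = ⊤) :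
    (W.toSPre Ω).DP Y := by
  have hchar : CharZero Ω := charZero_of_injective_algebraMap (algebraMap K Ω).injective
  refine DP_of_image_eq_top hX ?_
  rw [← power_eq, eq_top_iff]
  intro z _
  refine top_induction W Ω (p := fun z => z ∈ image (W.toSPre Ω) (power X) Y) (fun y => ?_)
    (Submodule.zero_mem _) (fun _ _ => Submodule.add_mem _) (fun _ _ => Submodule.smul_mem _ _) z
  refine one_mem_image W Ω ?_
  rw [h]
  trivial

/-- the tower -/
theorem dp_of_tower (hΩ : FixedFieldEq K Ω) {Y : SmProjVar k}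
    (h : Tower W.toCohomologyData Ω Y) : (W.toSPre Ω).DP Y := by
  have hchar : CharZero Ω := charZero_of_injective_algebraMap (algebraMap K Ω).injective
  induction h with
  | base h => exact dp_of_power W Ω h
  | words _ hY ih => exact DP_of_span (isLetters_aniso _) ih (span_rgen_of_words W Ω hΩ hY)
  | anisotropic _ hV ih => exact dp_of_anisotropicOver W Ω hΩ ih hV
  | dominated _ hY ih => exact dp_of_imageOfPowers W Ω ih hY

/-- **The standard conjecture D and isotropic subspaces** -/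
theorem standardD_of_tower (hΩ : FixedFieldEq K Ω) {Y : SmProjVar k}
    (h : Tower W.toCohomologyData Ω Y) (n : ℕ) : W.StandardD (power Y n) := by
  rw [power_eq]
  exact W.standardD_of_D Ω _ (dp_of_tower W Ω hΩ h n)

end Pool.Agent.Helper11.Obs
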