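import Mathlib
import Pool.Agent.Helper11.CanTypes
import Pool.Agent.Helper11.Can.Lin
import Pool.Agent.Helper11.Can.Coh
import Pool.Agent.Helper85.CAN.C1
import Pool.Agent.Helper67.CAN.C2
import Pool.Agent.Helper28.CAN.C3
import Pool.Agent.Helper2.CAN.C4
import Pool.Agent.Helper39.CAN.C5
import Pool.Agent.Helper41.CAN.C6
import Pool.Agent.Helper82.CAN.C8
import Pool.Agent.Helper83.CAN.C9
import Pool.Agent.Helper83.CAN.C10
import Pool.Agent.Helper41.CAN.C11
import Pool.Agent.Helper11.Can.C7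

/-!
# Canonical filtrations of cohomology
-/

universe u v w t

open CategoryTheory TensorProduct Finset Matrix

namespace Pool.Agent.Helper11.Can

open Pool.Agent.Helper10 hiding IsAlgAut parityPart
open SmProjVar SPre Pool.Agent.Helper10.GIT Pool.Agent.Helper11.Iso
open Pool.Agent.Helper11.Obs (power wordClass extProd IsPiece IsNumTrivial IsAdmissible
  IsCanonical IsTrivial NumTrivialOrthogonal SpannedBy prodVar prodFst prodProj filNorm)

variable {k : Type u} [Field k] {K : Type v} [Field K] [CharZero K]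
  (W : WeilCohomology.{u, v, w} k K)

/-! ### coordinates -/

section coords

variable {V : SmProjVar k} {m : ℕ} (e : Fin m → W.H V) (B : Matrix (Fin m) (Fin m) K)

/-- the Gram matrix -/
def gr : Matrix (Fin m) (Fin m) K := Matrix.of fun a b => W.pairing V (e a) (e b)

/-- the coordinates of a class with respect to the dual of the family -/
noncomputable def coorK : W.H V →ₗ[K] (Fin m → K) :=
  LinearMap.pi fun j => (W.trL V) ∘ₗ (LinearMap.mulRight K (e j))

lemma coorK_apply (y : W.H V) (j : Fin m) : coorK W e y j = W.pairing V y (e j) := rfl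

/-- the class with given coordinates -/
noncomputable def clsK : (Fin m → K) →ₗ[K] W.H V :=
  (Fintype.linearCombination K e) ∘ₗ (Matrix.vecMulLinear B)

lemma clsK_apply (x : Fin m → K) : clsK W e B x = ∑ a, (x ᵥ* B) a • e a := by
  simp [clsK, Fintype.linearCombination_apply]

lemma coorK_sum (u : Fin m → K) : coorK W e (∑ a, u a • e a) = u ᵥ* gr W e := by
  funext j
  rw [map_sum, Finset.sum_apply, Matrix.vecMul, dotProduct]
  refine sum_congr rfl fun a _ => ?_
  rw [map_smul, Pi.smul_apply, smul_eq_mul, coorK_apply]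
  rfl

variable {B}

lemma coorK_clsK (hB : gr W e * B = 1) (x : Fin m → K) : coorK W e (clsK W e B x) = x := by
  rw [clsK_apply, coorK_sum, Matrix.vecMul_vecMul, mul_eq_one_comm.mp hB, Matrix.vecMul_one]

lemma clsK_coorK (hB : gr W e * B = 1) {y : W.H V} (hy : y ∈ Submodule.span K (Set.range e)) :
    clsK W e B (coorK W e y) = y := by
  obtain ⟨u, rfl⟩ := (Submodule.mem_span_range_iff_exists_fun K).mp hy
  rw [coorK_sum, clsK_apply, Matrix.vecMul_vecMul, hB, Matrix.vecMul_one]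

variable (B)

lemma clsK_mem (x : Fin m → K) : clsK W e B x ∈ Submodule.span K (Set.range e) := by
  rw [clsK_apply]
  exact Submodule.sum_mem _ fun a _ => Submodule.smul_mem _ _ (Submodule.subset_span ⟨a, rfl⟩)

lemma pairing_clsK (y : W.H V) (x : Fin m → K) :
    W.pairing V y (clsK W e B x) = x ⬝ᵥ B.mulVec (coorK W e y) := by
  have h1 : W.pairing V y (clsK W e B x) = W.trL V (y * clsK W e B x) := rfl
  rw [h1, clsK_apply, Finset.mul_sum, map_sum, Matrix.dotProduct_mulVec, dotProduct]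
  refine sum_congr rfl fun a _ => ?_
  rw [mul_smul_comm, map_smul, smul_eq_mul]
  rfl

end coords

/-! ### words -/

lemma wordClass_expand {T A : SmProjVar k} {b : ℕ} {V : Fin b → SmProjVar k} {δ : Fin b → ℕ}
    (e : ∀ i, Fin (δ i) → W.H (V i)) (p : T.toOver ⟶ A.toOver)
    (f : ∀ i, T.toOver ⟶ (V i).toOver) (x : W.H A) (y : ∀ i, Fin (δ i) → K) :
    wordClass W.toCohomologyData p f x (fun i => ∑ j, y i j • e i j) =
      ∑ w : (∀ i, Fin (δ i)), (∏ i, y i (w i)) •
        wordClass W.toCohomologyData p f x (fun i => e i (w i)) := by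
  have h1 : ∀ i, W.pull (f i) (∑ j, y i j • e i j) = ∑ j, y i j • W.pull (f i) (e i j) := by
    intro i
    rw [← W.pullA_apply, map_sum]
    exact sum_congr rfl fun j _ => map_smul _ _ _
  unfold wordClass
  simp only [h1]
  rw [ofFn_prod_sum (α := fun i => Fin (δ i)) (fun i j => y i j)
    (fun i j => W.pull (f i) (e i j)), Finset.mul_sum]
  exact sum_congr rfl fun w _ => mul_smul_comm _ _ _

lemma pairing_sum {T : SmProjVar k} {ι : Type*} (s : Finset ι) (z : W.H T) (g : ι → W.H T) :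
    W.pairing T z (∑ i ∈ s, g i) = ∑ i ∈ s, W.pairing T z (g i) := by
  have h1 : ∀ y, W.pairing T z y = W.trL T (z * y) := fun _ => rfl
  simp only [h1, Finset.mul_sum, map_sum]

lemma pairing_smul {T : SmProjVar k} (z : W.H T) (a : K) (y : W.H T) :
    W.pairing T z (a • y) = a * W.pairing T z y := by
  have h1 : ∀ y, W.pairing T z y = W.trL T (z * y) := fun _ => rfl
  rw [h1, h1, mul_smul_comm, map_smul, smul_eq_mul]

section fam

variable {P : ℕ} {d : Fin P → ℕ} {V : Fin P → SmProjVar k} (e : ∀ c, Fin (d c) → W.H (V c))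

lemma kten_apply {χ : Shape P} {T X : SmProjVar k} (p : T.toOver ⟶ X.toOver)
    (f : ∀ i : Fin χ.1, T.toOver ⟶ (V (χ.2 i)).toOver) (r : W.H T) (x : W.H X)
    (w : Word d χ) : kten W e p f r x w =
      W.pairing T r (wordClass W.toCohomologyData p f x fun i => e (χ.2 i) (w i)) := by
  unfold kten kwd wordClass CohomologyData.pairing
  rw [mul_assoc]

/-- the sum which expresses the evaluation of a tensor -/
lemma sum_kten (B : ∀ c, Matrix (Fin (d c)) (Fin (d c)) K) {χ : Shape P} {T X : SmProjVar k}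
    (p : T.toOver ⟶ X.toOver) (f : ∀ i : Fin χ.1, T.toOver ⟶ (V (χ.2 i)).toOver) (r : W.H T)
    (x : W.H X) (y : ∀ i, Fin (d (χ.2 i)) → K) :
    ∑ w : Word d χ, kten W e p f r x w * ∏ i, (y i ᵥ* B (χ.2 i)) (w i) =
      W.pairing T r (wordClass W.toCohomologyData p f x
        fun i => clsK W (e (χ.2 i)) (B (χ.2 i)) (y i)) := by
  simp only [clsK_apply]
  rw [wordClass_expand, pairing_sum]
  refine sum_congr rfl fun w _ => ?_
  rw [pairing_smul, kten_apply, mul_comm]

lemma kN_subset_kA (𝒳 : SmProjVar k → Prop) (χ : Shape P) : kN W e 𝒳 χ ⊆ kA W e 𝒳 χ := by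
  rintro z ⟨T, X, p, f, r, x, hX, hr, -, hz⟩
  exact ⟨T, X, p, f, r, x, hX, hr, hz⟩

lemma trunc_le {R : Type*} {n : ℕ} {A N : Family d R} {χ : Shape P} (h : N χ ⊆ A χ) :
    trunc n N χ ⊆ trunc n A χ := fun _ hz => ⟨h hz.1, hz.2⟩

/-- the Gram matrix is a tensor of the family -/
lemma gram_mem {𝒳 : SmProjVar k → Prop} {X : SmProjVar k} (hX : 𝒳 X) (c : Fin P) :
    mten c (gr W (e c)) ∈ kA W e 𝒳 (two c) := by
  obtain ⟨x, ⟨-, hx⟩, -⟩ := (W.trace X).bijective 1
  have h1 : (1 : W.H (X.prod (V c))) ∈ W.algClasses (X.prod (V c)) := by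
    obtain ⟨y, -, hy⟩ := W.cycleClasses.cy_fundamental (X.prod (V c))
    exact Submodule.subset_span ⟨0, y, hy.symm⟩
  refine ⟨X.prod (V c), X, fst _ _, fun _ => snd _ _, 1, x, hX, h1, ?_⟩
  funext w
  unfold kten kwd
  have h2 : (List.ofFn fun i : Fin 2 => W.pull (snd X (V c)) (e c (w i))).prod =
      W.pull (snd X (V c)) (e c (w (0 : Fin 2)) * e c (w (1 : Fin 2))) := by
    rw [(W.pull_hom _).map_mul]
    simp [List.ofFn_succ]
  have h3 : W.tr (X.prod (V c)) (1 * W.pull (fst X (V c)) x *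
      W.pull (snd X (V c)) (e c (w (0 : Fin 2)) * e c (w (1 : Fin 2)))) =
      W.pairing (V c) (e c (w (0 : Fin 2))) (e c (w (1 : Fin 2))) := by
    rw [one_mul, W.tr_prod, hx, one_mul]
    rfl
  rw [← h2] at h3
  exact h3.symm

end fam

/-! ### extension of scalars -/

section bc

variable (Ω : Type t) [Field Ω] [Algebra K Ω] {V : SmProjVar k} {m : ℕ} (e : Fin m → W.H V)
  (B : Matrix (Fin m) (Fin m) K)

lemma one_smul' {X : SmProjVar k} (a : K) (x : W.H X) :
    Obs.one W Ω (a • x) = algebraMap K Ω a • Obs.one W Ω x := by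
  have h1 : (1 : Ω) ⊗ₜ[K] (a • x) = algebraMap K Ω a • ((1 : Ω) ⊗ₜ[K] x) := by
    rw [TensorProduct.tmul_smul, algebraMap_smul]
  exact h1

lemma one_sum {X : SmProjVar k} {ι : Type*} (s : Finset ι) (g : ι → W.H X) :
    Obs.one W Ω (∑ i ∈ s, g i) = ∑ i ∈ s, Obs.one W Ω (g i) :=
  TensorProduct.tmul_sum _ _ _

/-- the class over `Ω` with given coordinates -/
lemma cls_embV (x : Fin m → K) :
    Iso.cls (P := W.toSPre Ω) (fun b => Obs.one W Ω (e b)) (B.map (algebraMap K Ω)) (embV Ω x) =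
      Obs.one W Ω (clsK W e B x) := by
  unfold Iso.cls
  rw [← embV_vecMul, clsK_apply, one_sum]
  exact sum_congr rfl fun a _ => (one_smul' W Ω _ _).symm

lemma cls_add' {P : SPre.{u, t, max t w, v} k K Ω} {e : Fin m → P.H V}
    {B : Matrix (Fin m) (Fin m) Ω} (x y : Fin m → Ω) :
    Iso.cls e B (x + y) = Iso.cls e B x + Iso.cls e B y := by
  unfold Iso.cls
  rw [Matrix.add_vecMul, ← sum_add_distrib]
  exact sum_congr rfl fun a _ => add_smul _ _ _

lemma cls_smul' {P : SPre.{u, t, max t w, v} k K Ω} {e : Fin m → P.H V}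
    {B : Matrix (Fin m) (Fin m) Ω} (r : Ω) (x : Fin m → Ω) :
    Iso.cls e B (r • x) = r • Iso.cls e B x := by
  unfold Iso.cls
  rw [Matrix.smul_vecMul, smul_sum]
  exact sum_congr rfl fun a _ => by rw [Pi.smul_apply, smul_assoc]

lemma cls_zero' {P : SPre.{u, t, max t w, v} k K Ω} {e : Fin m → P.H V}
    {B : Matrix (Fin m) (Fin m) Ω} : cls e B (0 : Fin m → Ω) = 0 := by
  unfold Iso.cls
  rw [Matrix.zero_vecMul]
  exact sum_eq_zero fun a _ => by rw [Pi.zero_apply, zero_smul]

end bc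

end Pool.Agent.Helper11.Can

namespace Pool.Agent.Helper11.Can

open Pool.Agent.Helper10 hiding IsAlgAut parityPart
open SmProjVar SPre Pool.Agent.Helper10.GIT Pool.Agent.Helper11.Iso
open Pool.Agent.Helper11.Obs (power wordClass extProd IsPiece IsNumTrivial IsAdmissible
  IsCanonical IsTrivial NumTrivialOrthogonal SpannedBy prodVar prodFst prodProj filNorm)


/-! ### symmetries and coordinates -/

section symm

variable {k : Type u} [Field k] {K : Type t} [Field K] {Ω : Type v} [Field Ω] [Algebra K Ω]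
  {P : SPre.{u, v, w, t} k K Ω} {V : SmProjVar k} {m : ℕ} {e : Fin m → P.H V}
  {B : Matrix (Fin m) (Fin m) Ω}

lemma coor_cls' (hB : gmat P e * B = 1) (x : Fin m → Ω) : coor P e (Iso.cls e B x) = x := by
  rw [Iso.cls, coor_sum, Matrix.vecMul_vecMul, mul_eq_one_comm.mp hB, Matrix.vecMul_one]

lemma cls_coor' (hB : gmat P e * B = 1) {y : P.H V} (hy : y ∈ Submodule.span Ω (Set.range e)) :
    Iso.cls e B (coor P e y) = y := by
  obtain ⟨v, rfl⟩ := (Submodule.mem_span_range_iff_exists_fun Ω).mp hy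
  rw [coor_sum, Iso.cls, Matrix.vecMul_vecMul, hB, Matrix.vecMul_one]

lemma sym_det (hB : gmat P e * B = 1) (γ : P.Sym) {ρ : Matrix (Fin m) (Fin m) Ω}
    (hρ : ∀ b, γ.g V (e b) = ∑ a, ρ a b • e a) : ρ.det ≠ 0 := by
  obtain ⟨l, hl0, hl⟩ := γ.tr V
  have h1 : ρᵀ * gmat P e * ρ = l • gmat P e := by
    ext i j
    have h2 := hl (e i * e j)
    rw [map_mul, hρ, hρ, Finset.sum_mul, map_sum] at h2
    rw [Matrix.smul_apply, smul_eq_mul, gmat_apply, ← h2, Matrix.mul_apply]
    simp only [Matrix.mul_apply, Finset.sum_mul, Finset.mul_sum, map_sum, smul_mul_assoc,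
      mul_smul_comm, map_smul, smul_eq_mul, Matrix.transpose_apply, gmat_apply]
    rw [Finset.sum_comm]
    exact sum_congr rfl fun a _ => sum_congr rfl fun b _ => by ring
  intro h0
  have hG : (gmat P e).det ≠ 0 := by
    intro h0
    have h2 := congrArg Matrix.det hB
    rw [Matrix.det_mul, h0, zero_mul, Matrix.det_one] at h2
    exact zero_ne_one h2
  have h2 := congrArg Matrix.det h1
  rw [Matrix.det_mul, h0, mul_zero, Matrix.det_smul] at h2
  exact (mul_ne_zero (pow_ne_zero _ hl0) hG) h2.symm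

lemma sym_coor (γ : P.Sym) {ρ : Matrix (Fin m) (Fin m) Ω} (hdet : ρ.det ≠ 0)
    (hρ : ∀ b, γ.g V (e b) = ∑ a, ρ a b • e a) :
    ∃ l : Ω, ∀ y, coor P e (γ.g V y) = l • ((ρ⁻¹)ᵀ *ᵥ coor P e y) := by
  obtain ⟨l, -, hl⟩ := γ.tr V
  have hu : IsUnit ρ.det := isUnit_iff_ne_zero.mpr hdet
  have h5 : ∀ b, e b = ∑ a, ρ⁻¹ a b • γ.g V (e a) := by
    intro b
    simp only [hρ, Finset.smul_sum, smul_smul]
    rw [Finset.sum_comm]
    have h6 : ∀ c, ∑ a, (ρ⁻¹ a b * ρ c a) • e c = (ρ * ρ⁻¹) c b • e c := by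
      intro c
      rw [← Finset.sum_smul, Matrix.mul_apply]
      congr 1
      exact sum_congr rfl fun a _ => mul_comm _ _
    rw [sum_congr rfl fun c _ => h6 c, Matrix.mul_nonsing_inv _ hu]
    simp [Matrix.one_apply, ite_smul]
  refine ⟨l, fun y => ?_⟩
  funext b
  rw [coor_apply, h5 b, Finset.mul_sum, map_sum, Pi.smul_apply, Matrix.mulVec, dotProduct,
    smul_eq_mul, Finset.mul_sum]
  refine sum_congr rfl fun a _ => ?_
  rw [mul_smul_comm, map_smul, ← map_mul (γ.g V), hl, smul_eq_mul,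
    Matrix.transpose_apply, coor_apply]
  ring

/-- a subspace which is stable under an invertible matrix is stable under the inverse -/
lemma stable_inv {F : Submodule Ω (Fin m → Ω)} {ρ : Matrix (Fin m) (Fin m) Ω} (hdet : ρ.det ≠ 0)
    (h : ∀ z ∈ F, ρᵀ *ᵥ z ∈ F) : ∀ z ∈ F, (ρ⁻¹)ᵀ *ᵥ z ∈ F := by
  have hu : IsUnit ρ.det := isUnit_iff_ne_zero.mpr hdet
  let φ : F →ₗ[Ω] F := (Matrix.mulVecLin ρᵀ).restrict fun z hz => h z hz
  have hinj : Function.Injective φ := by
    intro a b hab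
    have h5 : ρᵀ *ᵥ (a : Fin m → Ω) = ρᵀ *ᵥ b := congrArg Subtype.val hab
    have h6 := congrArg (fun z => (ρ⁻¹)ᵀ *ᵥ z) h5
    simp only [Matrix.mulVec_mulVec, ← Matrix.transpose_mul,
      Matrix.mul_nonsing_inv _ hu, Matrix.transpose_one, Matrix.one_mulVec] at h6
    exact Subtype.ext h6
  intro z hz
  obtain ⟨⟨z', hz'⟩, h5⟩ := (LinearMap.injective_iff_surjective.mp hinj) ⟨z, hz⟩
  have h6 : ρᵀ *ᵥ z' = z := congrArg Subtype.val h5
  rw [← h6, Matrix.mulVec_mulVec, ← Matrix.transpose_mul, Matrix.mul_nonsing_inv _ hu,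
    Matrix.transpose_one, Matrix.one_mulVec]
  exact hz'

end symm

section norm

variable {κ : Type*} [Field κ] {M N : Type*} [AddCommGroup M] [Module κ M] [AddCommGroup N]
  [Module κ N]

lemma finrank_map_inj {φ : M →ₗ[κ] N} (hφ : Function.Injective φ) (S : Submodule κ M) :
    Module.finrank κ (S.map φ) = Module.finrank κ S :=
  (LinearEquiv.finrank_eq (Submodule.equivMapOfInjective φ hφ S)).symm

lemma filNorm_map {φ : M →ₗ[κ] N} (hφ : Function.Injective φ) (F : ℝ → Submodule κ M) :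
    filNorm (fun a => (F a).map φ) = filNorm F := by
  unfold filNorm
  refine finsum_congr fun a => ?_
  have h1 : (⨆ a' > a, (F a').map φ) = (⨆ a' > a, F a').map φ := by
    simp only [Submodule.map_iSup]
  rw [h1, finrank_map_inj hφ, finrank_map_inj hφ]

end norm

section retract

variable {k : Type u} [Field k] {K : Type v} [Field K] [CharZero K]
  (W : WeilCohomology.{u, v, w} k K)

/-- words with a class on a retract of a power -/
lemma wordClass_retract {X A T : SmProjVar k} (hA : PowLike X A) {b : ℕ} {V : Fin b → SmProjVar k}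
    (p : T.toOver ⟶ A.toOver) (f : ∀ i, T.toOver ⟶ (V i).toOver) (x : W.H A) :
    ∃ (m : ℕ) (q : T.toOver ⟶ (power X m).toOver) (x' : W.H (power X m)),
      ∀ v : ∀ i, W.H (V i), wordClass W.toCohomologyData p f x v =
        wordClass W.toCohomologyData q f x' v := by
  obtain ⟨m, hret⟩ := hA
  rw [← congrFun (Obs.power_eq X) m] at hret
  obtain ⟨i, r, hir⟩ := hret
  refine ⟨m, p ≫ i, W.pull r x, fun v => ?_⟩
  unfold wordClass
  congr 1
  rw [W.pull_comp, ← W.pull_comp i r, hir, W.pull_id]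

end retract

variable {k : Type u} [Field k] {K : Type v} [Field K] [CharZero K]
  (W : WeilCohomology.{u, v, w} k K)

/-- **Canonical filtrations** -/
theorem exists_canonical {X : SmProjVar k} (hX : ∀ n, W.StandardD (power X n)) {P : ℕ}
    (V : Fin P → SmProjVar k) (E : ∀ c, Submodule K (W.H (V c)))
    (hE : ∀ c, IsPiece W.toCohomologyData (V c) (E c)) {n : ℕ} (hn : 2 ≤ n) :
    ∃ F : ∀ c, ℝ → Submodule K (W.H (V c)),
      IsCanonical.{u, v, w, t} W.toCohomologyData X V E n F ∧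
        (NumTrivialOrthogonal W.toCohomologyData X V E n → IsTrivial W.toCohomologyData F) := by
  classical
  choose d e B hli hspan hgram hpiece using fun c => exists_kpiece W (hE c)
  let 𝒳 : SmProjVar k → Prop := PowLike X
  have hGB : ∀ c, gr W (e c) * B c = 1 := hgram
  have hBG : ∀ c, B c * gr W (e c) = 1 := fun c => mul_eq_one_comm.mp (hGB c)
  have hDP : (W.toSPre K).DP X := Obs.dp_of_power W K hX
  have h𝒳 : DClass (W.toSPre K) 𝒳 := ⟨fun A hA => (hA.dp hDP) 0, fun A B hA hB => hA.prod hB⟩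
  have hpow : ∀ m, 𝒳 (power X m) := Obs.powLike_power X
  -- contractions vanish
  have hpz : PZero B (trunc n (kA W e 𝒳)) (trunc n (kN W e 𝒳)) := by
    refine pZero_of_ext (Ω := K) ?_
    have h1 : (fun c => (B c).map (algebraMap K K)) = B := by
      funext c
      ext i j
      rfl
    rw [h1]
    have h2 := pZero_fam h𝒳 (e := oneF W e K) hpiece
      (fun T X hX p => exists_prodT h𝒳.prod T X hX p) (fun T {I} _ {s} ε {b m} σ sg hsg =>
        exists_reorder _ ε σ sg hsg)
    intro I _ χ S _ cl σ z hz hzN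
    refine h2 I χ S cl σ z (fun r => ?_) ?_
    · obtain ⟨z', hz', hz''⟩ := hz r
      exact ext_kA_subset W e 𝒳 K (χ r) ⟨z', hz'.1, hz''⟩
    · obtain ⟨r, z', hz', hz''⟩ := hzN
      exact ⟨r, ext_kN_subset W e 𝒳 K (χ r) ⟨z', hz'.1, hz''⟩⟩
  obtain ⟨F₀, ⟨⟨M, hM⟩, hdual, hvan⟩, hmin, hcon, hsym, htriv⟩ := exists_filtration.{v, t}
    (A := trunc n (kA W e 𝒳)) (N := trunc n (kN W e 𝒳))
    (fun χ => trunc_le (kN_subset_kA W e 𝒳 χ)) (n := n) (fun χ hχ => by
      rw [Set.eq_empty_iff_forall_notMem]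
      exact fun z hz => absurd hz.2 (not_le.mpr hχ)) (fun c => gr W (e c)) B hGB
    (fun c => ⟨gram_mem W e (PowLike.refl X) c, hn⟩) hpz
  -- the filtrations
  let F : ∀ c, ℝ → Submodule K (W.H (V c)) := fun c a =>
    (F₀ c a).comap (coorK W (e c)) ⊓ E c
  have hFmem : ∀ c a y, y ∈ F c a ↔ coorK W (e c) y ∈ F₀ c a ∧ y ∈ E c := fun c a y => Iff.rfl
  have hcls : ∀ c y, y ∈ E c → clsK W (e c) (B c) (coorK W (e c) y) = y := fun c y hy =>
    clsK_coorK W (e c) (hGB c) (by rw [hspan c]; exact hy)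
  have hclsE : ∀ c x, clsK W (e c) (B c) x ∈ E c := fun c x => by
    have := clsK_mem W (e c) (B c) x
    rwa [hspan c] at this
  have hcc : ∀ c x, coorK W (e c) (clsK W (e c) (B c) x) = x := fun c x =>
    coorK_clsK W (e c) (hGB c) x
  have hclsF : ∀ c a x, x ∈ F₀ c a → clsK W (e c) (B c) x ∈ F c a := fun c a x hx =>
    ⟨by change coorK W (e c) (clsK W (e c) (B c) x) ∈ F₀ c a; rw [hcc]; exact hx, hclsE c x⟩
  have hinj : ∀ c, Function.Injective (clsK W (e c) (B c)) := fun c x y hxy => by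
    rw [← hcc c x, hxy, hcc]
  have hFmap : ∀ c a, F c a = (F₀ c a).map (clsK W (e c) (B c)) := by
    intro c a
    refine le_antisymm (fun y hy => ⟨coorK W (e c) y, hy.1, hcls c y hy.2⟩) ?_
    rintro _ ⟨x, hx, rfl⟩
    exact hclsF c a x hx
  -- minimality
  have hmin' : ∀ F', IsAdmissible W.toCohomologyData X V E n F' →
      ∑ c, filNorm (F c) ≤ ∑ c, filNorm (F' c) ∧
        (∑ c, filNorm (F' c) = ∑ c, filNorm (F c) → F' = F) := by
    intro F' hF'
    let F₁ : ∀ c, ℝ → Submodule K (Fin (d c) → K) := fun c a =>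
      (F' c a).comap (clsK W (e c) (B c))
    have hF₁map : ∀ c a, F' c a = (F₁ c a).map (clsK W (e c) (B c)) := by
      intro c a
      have h1 : ∀ y ∈ F' c a, clsK W (e c) (B c) (coorK W (e c) y) ∈ F' c a := fun y hy => by
        rw [hcls c y (hF'.le c a hy)]
        exact hy
      refine le_antisymm
        (fun y hy => ⟨coorK W (e c) y, h1 y hy, hcls c y (hF'.le c a hy)⟩) ?_
      rintro _ ⟨x, hx, rfl⟩
      exact hx
    have hadm : Adm B (trunc n (kA W e 𝒳)) (trunc n (kN W e 𝒳)) F₁ := by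
      refine ⟨?_, fun c a x => ?_, ?_⟩
      · obtain ⟨M, hM⟩ := hF'.bounded
        refine ⟨M, fun c => ?_⟩
        rw [eq_bot_iff]
        intro x hx
        have h1 : clsK W (e c) (B c) x ∈ F' c M := hx
        rw [hM c, Submodule.mem_bot] at h1
        rw [Submodule.mem_bot]
        exact hinj c (by rw [h1, map_zero])
      · change clsK W (e c) (B c) x ∈ F' c a ↔ _
        rw [hF'.dual c a _ (hclsE c x)]
        constructor
        · intro h a' ha' y hy
          have h1 := h a' ha' _ hy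
          rwa [pairing_clsK, hcc] at h1
        · intro h a' ha' y hy
          rw [hF₁map] at hy
          obtain ⟨y, hy, rfl⟩ := hy
          rw [pairing_clsK, hcc]
          exact h a' ha' y hy
      · rintro χ z a x hx (⟨⟨⟨T, A, p, f, r, y, hA, hr, rfl⟩, hb⟩, ha⟩ |
          ⟨⟨⟨T, A, p, f, r, y, hA, hr, hr0, rfl⟩, hb⟩, ha⟩)
        · obtain ⟨m, q, y', hy'⟩ := wordClass_retract W hA p f y
          rw [sum_kten, hy']
          exact hF'.alg T _ r _ hr ha ⟨m, χ.1, q, y', χ.2, f, a, _, hb, hx, rfl, rfl⟩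
        · obtain ⟨m, q, y', hy'⟩ := wordClass_retract W hA p f y
          rw [sum_kten, hy']
          exact hF'.num T _ r _ ⟨hr, hr0⟩ ha ⟨m, χ.1, q, y', χ.2, f, a, _, hb, hx, rfl, rfl⟩
    have h1 : ∀ c, filNorm (F c) = filNorm (F₀ c) := fun c => by
      rw [← filNorm_map (hinj c) (F₀ c)]
      congr 1
      funext a
      exact hFmap c a
    have h2 : ∀ c, filNorm (F' c) = filNorm (F₁ c) := fun c => by
      rw [← filNorm_map (hinj c) (F₁ c)]
      congr 1
      funext a
      exact hF₁map c a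
    simp only [h1, h2]
    refine ⟨(hmin F₁ hadm).1, fun heq => ?_⟩
    have h3 := (hmin F₁ hadm).2 heq
    funext c a
    rw [hF₁map, hFmap, h3]
  refine ⟨F, ⟨⟨?_, ⟨M, ?_⟩, ?_, ?_, ?_⟩, fun F' hF' => (hmin' F' hF').1,
    fun F' hF' => (hmin' F' hF').2, ?_, ?_⟩, ?_⟩
  · exact fun c a => inf_le_right
  · intro c
    rw [eq_bot_iff]
    rintro y ⟨hy, hyE⟩
    have h1 : coorK W (e c) y ∈ F₀ c M := hy
    rw [hM c, Submodule.mem_bot] at h1
    rw [Submodule.mem_bot, ← hcls c y hyE, h1, map_zero]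
  · -- duality
    intro c a y hy
    rw [hFmem, and_iff_left hy, hdual]
    constructor
    · intro h a' ha' x hx
      rw [← hcls c y hy, pairing_clsK]
      exact h a' ha' _ hx.1
    · intro h a' ha' x hx
      have h1 := h a' ha' _ (hclsF c a' x hx)
      rw [← hcls c y hy, pairing_clsK, hcc] at h1
      exact h1
  · -- algebraic classes
    rintro T _ z _ hz ha ⟨m, b, p, x, c, f, a, v, hb, hv, rfl, rfl⟩
    have h1 := hvan ⟨b, c⟩ (kten W e p f z x) a (fun i => coorK W (e (c i)) (v i))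
      (fun i => (hv i).1) (.inl ⟨⟨⟨T, _, p, f, z, x, hpow m, hz, rfl⟩, hb⟩, ha⟩)
    rw [sum_kten] at h1
    have h2 : (fun i => clsK W (e (c i)) (B (c i)) (coorK W (e (c i)) (v i))) = v := by
      funext i
      exact hcls (c i) (v i) (hv i).2
    rw [← h1]
    congr 1
    congr 1
    exact h2.symm
  · -- numerically trivial classes
    rintro T _ z _ hz ha ⟨m, b, p, x, c, f, a, v, hb, hv, rfl, rfl⟩
    have h1 := hvan ⟨b, c⟩ (kten W e p f z x) a (fun i => coorK W (e (c i)) (v i))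
      (fun i => (hv i).1) (.inr ⟨⟨⟨T, _, p, f, z, x, hpow m, hz.1, hz.2, rfl⟩, hb⟩, ha⟩)
    rw [sum_kten] at h1
    have h2 : (fun i => clsK W (e (c i)) (B (c i)) (coorK W (e (c i)) (v i))) = v := by
      funext i
      exact hcls (c i) (v i) (hv i).2
    rw [← h1]
    congr 1
    congr 1
    exact h2.symm
  · -- symmetries
    intro Ω _ _ g χ hg hgE c a y hy
    let γ : (W.toSPre Ω).Sym := W.symSPre Ω (Obs.isSymmetry W Ω hg)
    have hspanΩ : ∀ c, ∀ y ∈ Obs.bc W Ω (E c),
        y ∈ Submodule.span Ω (Set.range (oneF W e Ω c)) := by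
      intro c y hy
      refine Obs.bc_induction W Ω (p := fun y => y ∈ Submodule.span Ω (Set.range (oneF W e Ω c)))
        (fun y hy => ?_) (Submodule.zero_mem _) (fun _ _ => Submodule.add_mem _)
        (fun a _ => Submodule.smul_mem _ a) hy
      rw [← hspan c] at hy
      obtain ⟨v, rfl⟩ := (Submodule.mem_span_range_iff_exists_fun K).mp hy
      rw [one_sum]
      refine Submodule.sum_mem _ fun b _ => ?_
      rw [one_smul']
      exact Submodule.smul_mem _ _ (Submodule.subset_span ⟨b, rfl⟩)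
    have hmemE : ∀ c b, e c b ∈ E c := fun c b => by
      rw [← hspan c]; exact Submodule.subset_span ⟨b, rfl⟩
    have hρ : ∀ c, ∃ ρ : Matrix (Fin (d c)) (Fin (d c)) Ω, ∀ b,
        γ.g (V c) (oneF W e Ω c b) = ∑ a, ρ a b • oneF W e Ω c a := fun c =>
      exists_matrix_of_span fun b => hspanΩ c _ (hgE c _ (hmemE c b))
    choose ρ hρ using hρ
    have hGΩ : ∀ c, gmat (W.toSPre Ω) (oneF W e Ω c) = (gr W (e c)).map (algebraMap K Ω) := by
      intro c
      ext i j
      rw [gmat_apply]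
      exact Obs.tr_one_mul W Ω _ _
    have hGBΩ : ∀ c, gmat (W.toSPre Ω) (oneF W e Ω c) * (B c).map (algebraMap K Ω) = 1 := by
      intro c
      rw [hGΩ, ← Matrix.map_mul, hGB, Matrix.map_one _ (map_zero _) (map_one _)]
    have hdet : ∀ c, (ρ c).det ≠ 0 := fun c => sym_det (hGBΩ c) γ (hρ c)
    have hext : ∀ {C : Family d K} {χ : Shape P}, χ.1 ≤ n → ext Ω C χ ⊆ ext Ω (trunc n C) χ := by
      rintro C χ hχ _ ⟨z, hz, rfl⟩
      exact ⟨z, ⟨hz, hχ⟩, rfl⟩
    have hmain := hsym Ω (fun c => (ρ c).transpose)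
      (fun c => by rw [Matrix.det_transpose]; exact hdet c)
      (fun χ z hz => Submodule.span_mono (hext hz.2) (famA_subset_span W e 𝒳 Ω χ
        (sym_famA γ ρ hρ (ext_kA_subset W e 𝒳 Ω χ ⟨z, hz.1, rfl⟩))))
      (fun χ z hz => Submodule.span_mono (hext hz.2) (famN_subset_span W e 𝒳 Ω χ
        (sym_famN γ ρ hρ (ext_kN_subset W e 𝒳 Ω χ ⟨z, hz.1, rfl⟩))))
    set S : Submodule Ω (Fin (d c) → Ω) :=
      Submodule.span Ω (embV Ω '' (F₀ c a : Set (Fin (d c) → K))) with hS
    have hstab : ∀ z ∈ S, (ρ c)ᵀ *ᵥ z ∈ S := by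
      intro z hz
      induction hz using Submodule.span_induction with
      | mem z hz =>
        obtain ⟨x, hx, rfl⟩ := hz
        exact hmain c a x hx
      | zero => rw [Matrix.mulVec_zero]; exact S.zero_mem
      | add x y _ _ hx hy => rw [Matrix.mulVec_add]; exact S.add_mem hx hy
      | smul r x _ hx => rw [Matrix.mulVec_smul]; exact S.smul_mem r hx
    obtain ⟨l, hl⟩ := sym_coor γ (hdet c) (hρ c)
    have h1 : coor (W.toSPre Ω) (oneF W e Ω c) (γ.g (V c) (Obs.one W Ω y)) ∈ S := by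
      rw [hl]
      refine S.smul_mem _ (stable_inv (hdet c) hstab _ (Submodule.subset_span ⟨_, hy.1, ?_⟩))
      funext b
      rw [coor_apply]
      exact (Obs.tr_one_mul W Ω _ _).symm
    have h2 : γ.g (V c) (Obs.one W Ω y) ∈ Submodule.span Ω (Set.range (oneF W e Ω c)) :=
      hspanΩ c _ (hgE c y hy.2)
    have h3 := cls_coor' (hGBΩ c) h2
    change γ.g (V c) (Obs.one W Ω y) ∈ Obs.bc W Ω (F c a)
    rw [← h3]
    generalize coor (W.toSPre Ω) (oneF W e Ω c) (γ.g (V c) (Obs.one W Ω y)) = z at h1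
    induction h1 using Submodule.span_induction with
    | mem z hz =>
      obtain ⟨x, hx, rfl⟩ := hz
      have h4 := cls_embV W Ω (e c) (B c) x
      unfold oneF
      rw [h4]
      exact Obs.one_mem_bc W Ω (hclsF c a x hx)
    | zero => rw [cls_zero']; exact Submodule.zero_mem _
    | add x y _ _ hx hy => rw [cls_add']; exact Submodule.add_mem _ hx hy
    | smul r x _ hx => rw [cls_smul']; exact Submodule.smul_mem _ r hx
  · -- detection
    intro m b c hb z hz hz0 y hy hyE
    have hpar : ∀ i : Fin b, (∀ j, e (c i) j ∈ W.evK (V (c i))) ∨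
        ∀ j, e (c i) j ∈ W.odK (V (c i)) := by
      intro i
      obtain ⟨q, hq⟩ := (hE (c i)).parity
      have hmem : ∀ j, e (c i) j ∈ E (c i) := fun j => by
        rw [← hspan (c i)]; exact Submodule.subset_span ⟨j, rfl⟩
      by_cases hq2 : Even q
      · exact .inl fun j => Obs.parityPart_le_evK W hq2 (hq (hmem j))
      · exact .inr fun j => Obs.parityPart_le_odK W hq2 (hq (hmem j))
    have hyE' : y ∈ Submodule.span K {y | ∃ (x : W.H (power X m))
        (w : ∀ i, Fin (d (c i))), y = extProd W.toCohomologyData x fun i => e (c i) (w i)} := by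
      refine Submodule.span_le.mpr ?_ hyE
      rintro _ ⟨x, a, v, hv, -, rfl⟩
      have h1 : v = fun i => ∑ j, (coorK W (e (c i)) (v i) ᵥ* B (c i)) j • e (c i) j := by
        funext i
        rw [← clsK_apply, hcls _ _ (hv i)]
      rw [h1]
      change wordClass W.toCohomologyData _ _ _ _ ∈ _
      rw [wordClass_expand]
      exact Submodule.sum_mem _ fun w _ => Submodule.smul_mem _ _
        (Submodule.subset_span ⟨x, w, rfl⟩)
    obtain ⟨N, x, x', hexp⟩ := exists_expansion W (fun x v => tr_extProd W x v)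
      (fun i => e (c i)) (fun i => B (c i)) hpar (fun i => hGB (c i)) y hyE'
    rw [hexp z]
    refine sum_eq_zero fun j _ => ?_
    have h1 := hcon ⟨b, c⟩ (kten W e (prodFst _ _) (prodProj _ _) z (x j))
      (kten W e (prodFst _ _) (prodProj _ _) y (x' j))
      ⟨⟨_, _, _, _, z, x j, hpow m, hz, rfl⟩, hb⟩ ⟨⟨_, _, _, _, y, x' j, hpow m, hy, rfl⟩, hb⟩
      (fun a u hu ha => by
        rw [sum_kten]
        exact hz0 _ ⟨x j, a, _, fun i => hclsF _ _ _ (hu i), ha, rfl⟩)
    rw [← h1]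
    refine sum_congr rfl fun w _ => sum_congr rfl fun w' _ => ?_
    rw [kten_apply, kten_apply]
    rfl
  · -- the trivial case
    intro h0 c a ha
    have h1 : F₀ c a = ⊥ := by
      refine htriv ?_ c a ha
      rintro χ _ ⟨⟨T, A, p, f, r, x, hA, hr, hr0, rfl⟩, hb⟩
      funext w
      obtain ⟨m, q, x', hx'⟩ := wordClass_retract W hA p f x
      rw [kten_apply, Pi.zero_apply, hx']
      refine h0 T r _ ⟨hr, hr0⟩ ⟨m, χ.1, q, x', χ.2, f, fun _ => 0, _, hb, fun i => ?_,
        sum_const_zero, rfl⟩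
      change e (χ.2 i) (w i) ∈ E (χ.2 i)
      rw [← hspan (χ.2 i)]
      exact Submodule.subset_span ⟨w i, rfl⟩
    rw [eq_bot_iff]
    rintro y ⟨hy, hyE⟩
    have h2 : coorK W (e c) y ∈ F₀ c a := hy
    rw [h1, Submodule.mem_bot] at h2
    rw [Submodule.mem_bot, ← hcls c y hyE, h2, map_zero]

section descent

variable {k : Type u} [Field k] {K : Type v} [Field K] [CharZero K]
  (W : WeilCohomology.{u, v, w} k K)

lemma eq_one (X : SmProjVar k) (z : (W.toSPre K).H X) : ∃ y, z = Obs.one W K y := by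
  refine Obs.top_induction W K (p := fun z => ∃ y, z = Obs.one W K y) (fun y => ⟨y, rfl⟩)
    ⟨0, (TensorProduct.tmul_zero _ _).symm⟩ ?_ ?_ z
  · rintro _ _ ⟨x, rfl⟩ ⟨y, rfl⟩
    exact ⟨x + y, (Obs.one_add W K x y).symm⟩
  · rintro a _ ⟨x, rfl⟩
    exact ⟨a • x, (one_smul' W K a x).symm⟩

lemma isNumTrivial_iff {X : SmProjVar k} {z : W.H X} :
    IsNumTrivial W.toCohomologyData X z ↔ (W.toSPre K).rad X (Obs.one W K z) := by
  constructor
  · rintro ⟨hz, hz0⟩
    refine ⟨Obs.one_mem_alg W K hz, fun a ha => ?_⟩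
    refine Obs.bc_induction W K (S := W.algClasses X)
      (p := fun a => (W.toSPre K).tr X (Obs.one W K z * a) = 0) (fun a ha => ?_) ?_
      (fun x y hx hy => ?_) (fun a x hx => ?_) ha
    · rw [Obs.tr_one_mul, hz0 a ha, map_zero]
    · rw [mul_zero, map_zero]
    · rw [mul_add, map_add, hx, hy, add_zero]
    · rw [mul_smul_comm, map_smul, hx, smul_zero]
  · rintro ⟨hz, hz0⟩
    refine ⟨Obs.mem_of_one_mem_baseChange K hz, fun a ha => ?_⟩
    have h1 := hz0 _ (Obs.one_mem_alg W K ha)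
    rw [Obs.tr_one_mul] at h1
    exact (algebraMap K K).injective (by rw [h1, map_zero])

/-- the standard conjecture D for the varieties spanned by words -/
theorem standardD_of_numTrivialOrthogonal {X : SmProjVar k} {P : ℕ} {V : Fin P → SmProjVar k}
    {E : ∀ c, Submodule K (W.H (V c))} {n : ℕ}
    (h0 : NumTrivialOrthogonal W.toCohomologyData X V E n) {Y : SmProjVar k}
    (hY : SpannedBy W.toCohomologyData X V E n Y) : W.StandardD Y := by
  refine W.standardD_of_D K Y fun r hr => ?_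
  obtain ⟨r, rfl⟩ := eq_one W Y r
  have hev : ∀ {T : SmProjVar k} {z : (W.toSPre K).H T} (w : (W.toSPre K).H T),
      (W.toSPre K).rad T z → z * w = w * z := fun {T z} w hz =>
    (W.toSPre K).ev_comm T z w ((W.toSPre K).alg_le_ev T hz.1)
  have key : ∀ y : W.H Y, (W.toSPre K).tr Y (Obs.one W K y * Obs.one W K r) = 0 := by
    intro y
    have hy : y ∈ (⊤ : Submodule K (W.H Y)) := trivial
    rw [← hY] at hy
    induction hy using Submodule.span_induction with
    | mem y hy =>
      obtain ⟨T, u, _, ⟨κ, hκ, hu⟩, ⟨m, b, p, x, c, f, a, v, hb, hv, ha, rfl⟩, rfl⟩ := hy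
      rw [Obs.tr_one_mul, hu]
      have h1 : (W.toSPre K).rad (T.prod Y) (Obs.one W K (κ * W.pull (snd T Y) r)) := by
        rw [Obs.one_mul, ← Obs.pull_one, hev _ (rad_pull (snd T Y) hr) |>.symm]
        exact rad_mul (rad_pull (snd T Y) hr) (Obs.one_mem_alg W K hκ)
      have h2 := h0 (T.prod Y) _ _ ((isNumTrivial_iff W).mpr h1)
        ⟨m, b, fst T Y ≫ p, x, c, fun i => fst T Y ≫ f i, a, v, hb, hv, ha, rfl⟩
      rw [C11.wordClass_comp W (fst T Y) p f x v] at h2
      have h3 : (W.toSPre K).tr (T.prod Y) (Obs.one W K (κ * W.pull (snd T Y) r) *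
          Obs.one W K (W.pull (fst T Y) (wordClass W.toCohomologyData p f x v))) = 0 := by
        rw [Obs.tr_one_mul, h2, map_zero]
      rw [hev _ h1, Obs.tr_one_mul] at h3
      rw [← h3]
      congr 1
      unfold CohomologyData.pairing
      rw [mul_assoc]
    | zero =>
      have h1 : Obs.one W K (0 : W.H Y) = 0 := TensorProduct.tmul_zero _ _
      rw [h1, zero_mul, map_zero]
    | add x y _ _ hx hy => rw [Obs.one_add, add_mul, map_add, hx, hy, add_zero]
    | smul a x _ hx => rw [one_smul' W K, smul_mul_assoc, map_smul, hx, smul_zero]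
  refine Obs.eq_of_tr_one W K fun y => ?_
  rw [zero_mul, map_zero, hev _ hr]
  exact key y

/-- trivial admissible filtrations -/
theorem numTrivialOrthogonal_of_trivial {X : SmProjVar k} {P : ℕ} {V : Fin P → SmProjVar k}
    {E : ∀ c, Submodule K (W.H (V c))} {n : ℕ} {F : ∀ c, ℝ → Submodule K (W.H (V c))}
    (hF : IsAdmissible W.toCohomologyData X V E n F) (h0 : IsTrivial W.toCohomologyData F) :
    NumTrivialOrthogonal W.toCohomologyData X V E n := by
  have h1 : ∀ c, ∀ y ∈ E c, y ∈ F c 0 := by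
    intro c y hy
    refine (hF.dual c 0 y hy).mpr fun a' ha' x hx => ?_
    rw [neg_zero] at ha'
    rw [h0 c a' ha', Submodule.mem_bot] at hx
    have h2 : W.pairing (V c) x y = W.trL (V c) (x * y) := rfl
    rw [h2, hx, zero_mul, map_zero]
  rintro T z _ hz ⟨m, b, p, x, c, f, a, v, hb, hv, ha, rfl⟩
  exact hF.num T 0 z _ hz (by norm_num)
    ⟨m, b, p, x, c, f, fun _ => 0, v, hb, fun i => h1 _ _ (hv i), sum_const_zero, rfl⟩

end descent

end Pool.Agent.Helper11.Can
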