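import Mathlib
import Pool.Agent.Helper11.RelStableThm
import Pool.Agent.Helper10.DegenThm

/-!
# The trivial degeneration, and the three equivalent conditions
-/

universe u v w t

open Pool.Agent.Helper10

namespace Pool.Agent.Helper11

open SmProjVar

/-- a variety which satisfies the standard conjecture D degenerates to itself -/
lemma degenerates_self {k : Type u} [Field k] {K : Type v} [Field K] [CharZero K]
    (W : WeilCohomology.{u, v, w} k K) {Y : SmProjVar k} (hD : W.StandardD Y) :
    DegeneratesToStandardD W.toCohomologyData W.toCohomologyData Y := by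
  refine ⟨1, 0, fun _ => Y, fun j => j.elim0, ⟨fun z _ => z, fun j => j.elim0⟩, ?_,
    fun _ => hD, fun j => j.elim0⟩
  intro N a z
  constructor
  · intro h
    refine ⟨fun j => j.elim0, fun i y => ?_⟩
    have h' : ∑ t, a t • W.toCohomologyData.cycleClass (z t) = 0 := h
    change W.trL Y ((∑ t, a t • W.toCohomologyData.cycleClass (z t)) * y) = _
    rw [h', zero_mul, map_zero]
    exact (Fin.sum_univ_zero _).symm
  · rintro ⟨x, hx⟩
    refine Degen.ext_tr W fun y => ?_
    have h1 := hx 0 y
    have h2 : W.trL Y ((∑ t, a t • W.toCohomologyData.cycleClass (z t)) * y) = 0 :=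
      h1.trans (Fin.sum_univ_zero _)
    rw [zero_mul, map_zero]
    exact h2

theorem stable_tfae
    {k : Type u} [Field k] {K : Type v} [Field K] [CharZero K] {W : WeilCohomology.{u, v, w} k K}
    {Ω : Type t} [Field Ω] [Algebra K Ω] [IsAlgClosed Ω] {F : Subfield K} {n : ℕ}
    {σ : Fin (n + 1) → (Ω ≃+* Ω)}
    (hσ : ∀ j, ∀ a ∈ F, σ j (algebraMap K Ω a) = algebraMap K Ω a)
    {G : Set (∀ X : SmProjVar k, W.HΩ Ω X → W.HΩ Ω X)} (hG : G ⊆ W.symmetries Ω) {M : ℕ}
    {Y : SmProjVar k} (hY : RelativelyStableOver W Ω F σ G M Y) :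
    [W.StandardD Y, IndependentOver W.toCohomologyData F Y,
      ∃ (k' : Type u) (_ : Field k') (W' : WeilCohomology.{u, v, w} k' K),
        DegeneratesToStandardD W.toCohomologyData W'.toCohomologyData Y].TFAE := by
  tfae_have 1 ↔ 2 := standardD_iff_independentOver hσ hG hY
  tfae_have 1 → 3 := fun h => ⟨k, inferInstance, W, degenerates_self W h⟩
  tfae_have 3 → 1 := by
    rintro ⟨k', hk', W', h⟩
    exact Degen.standardD_of_degeneration hσ hG h hY
  tfae_finish

end Pool.Agent.Helper11
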