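import Mathlib

/-!
Closed points of a smooth projective curve, given by its function field, and the degree of a
principal divisor.
-/

open Module IsDedekindDomain

namespace Pool.Agent.Helper11

universe u

/-- `F` is a function field in one variable over `k`: a finitely generated field extension of
transcendence degree one. -/
structure IsCurveField (k F : Type u) [Field k] [Field F] [Algebra k F] : Prop where
  fg : (⊤ : IntermediateField k F).FG
  trdeg_eq_one : Algebra.trdeg k F = 1

/-- A closed point of the smooth projective curve with function field `F` over `k`: a discrete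
valuation ring of `F` containing `k`. -/
structure CurvePt (k F : Type u) [Field k] [Field F] [Algebra k F] where
  /-- the local ring of the curve at the point -/
  ring : ValuationSubring F
  const_mem : ∀ c : k, algebraMap k F c ∈ ring
  isDVR : IsDiscreteValuationRing ring

attribute [instance] CurvePt.isDVR

variable {k F : Type u} [Field k] [Field F] [Algebra k F]

/-- The order of vanishing of the rational function `f` at the point `P` (and `0` if `f = 0`). -/
noncomputable def CurvePt.ord (P : CurvePt k F) (f : F) : ℤ :=
  - WithZero.log ((IsDiscreteValuationRing.maximalIdeal P.ring).valuation F f)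

namespace CurvePt

variable (P : CurvePt k F)

/-- the underlying valuation -/
noncomputable abbrev val : Valuation F (WithZero (Multiplicative ℤ)) :=
  (IsDiscreteValuationRing.maximalIdeal P.ring).valuation F

lemma ord_def (f : F) : P.ord f = - WithZero.log (P.val f) := rfl

@[simp] lemma ord_zero : P.ord 0 = 0 := by simp [ord_def]

@[simp] lemma ord_one : P.ord 1 = 0 := by simp [ord_def]

lemma val_ne_zero {f : F} (hf : f ≠ 0) : P.val f ≠ 0 := by
  simpa using hf

lemma ord_mul {f g : F} (hf : f ≠ 0) (hg : g ≠ 0) : P.ord (f * g) = P.ord f + P.ord g := by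
  rw [ord_def, ord_def, ord_def, map_mul, WithZero.log_mul (P.val_ne_zero hf) (P.val_ne_zero hg)]
  ring

lemma ord_inv (f : F) : P.ord f⁻¹ = - P.ord f := by
  rcases eq_or_ne f 0 with rfl | hf
  · simp
  · have := P.ord_mul hf (inv_ne_zero hf)
    rw [mul_inv_cancel₀ hf, ord_one] at this
    omega

lemma ord_pow {f : F} (hf : f ≠ 0) (n : ℕ) : P.ord (f ^ n) = n * P.ord f := by
  induction n with
  | zero => simp
  | succ n ih => rw [pow_succ, P.ord_mul (pow_ne_zero n hf) hf, ih]; push_cast; ring

lemma mem_ring_iff_val {f : F} : f ∈ P.ring ↔ P.val f ≤ 1 := by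
  constructor
  · intro h
    exact (IsDiscreteValuationRing.maximalIdeal P.ring).valuation_le_one (⟨f, h⟩ : P.ring)
  · intro h
    obtain ⟨a, ha⟩ := IsDiscreteValuationRing.exists_lift_of_le_one (A := P.ring) (K := F) h
    rw [← ha]
    exact a.2

lemma mem_ring_iff {f : F} (hf : f ≠ 0) : f ∈ P.ring ↔ 0 ≤ P.ord f := by
  rw [mem_ring_iff_val, ord_def, ← WithZero.log_one,
    ← WithZero.log_le_log (P.val_ne_zero hf) one_ne_zero]
  simp

lemma exists_ord_eq_one : ∃ t : F, t ≠ 0 ∧ P.ord t = 1 := by
  obtain ⟨t, ht⟩ := (IsDiscreteValuationRing.maximalIdeal P.ring).valuation_exists_uniformizer F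
  refine ⟨t, ?_, ?_⟩
  · rintro rfl
    rw [map_zero] at ht
    exact WithZero.coe_ne_zero ht.symm
  · rw [ord_def, val, ht]
    simp

lemma ord_add_ge {f g : F} (hfg : f + g ≠ 0) {n : ℤ} (hf : f = 0 ∨ n ≤ P.ord f)
    (hg : g = 0 ∨ n ≤ P.ord g) : n ≤ P.ord (f + g) := by
  have key : ∀ h : F, h = 0 ∨ n ≤ P.ord h → P.val h ≤ WithZero.exp (-n) := by
    intro h hh
    rcases eq_or_ne h 0 with rfl | h0
    · simp
    · have : n ≤ P.ord h := by tauto
      rw [ord_def] at this
      rw [← WithZero.exp_log (P.val_ne_zero h0), WithZero.exp_le_exp]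
      omega
  have h1 := (P.val).map_add_le (key f hf) (key g hg)
  rw [ord_def]
  rw [← WithZero.exp_log (P.val_ne_zero hfg), WithZero.exp_le_exp] at h1
  omega

end CurvePt

end Pool.Agent.Helper11
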