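import Mathlib
import Pool.Agent.Helper11.CurveBasic

open Module IsDedekindDomain IntermediateField
open scoped IntermediateField.algebraAdjoinAdjoin

namespace Pool.Agent.Helper11

universe u

variable {k F : Type u} [Field k] [Field F] [Algebra k F]

lemma transcendental_of_not_mem [IsAlgClosed k] {x : F}
    (hx : x ∉ Set.range (algebraMap k F)) : Transcendental k x := by
  intro hal
  apply hx
  have hint : IsIntegral k x := hal.isIntegral
  have h1 := IsAlgClosed.degree_eq_one_of_irreducible k (minpoly.irreducible hint)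
  have h2 := minpoly.mem_range_of_degree_eq_one k x h1
  exact h2

lemma finiteDimensional_adjoin (hF : IsCurveField k F) {x : F} (hx : Transcendental k x) :
    FiniteDimensional k⟮x⟯ F := by
  have hind : AlgebraicIndependent k (fun _ : Unit => x) := by
    rw [algebraicIndependent_unique_type_iff]
    exact hx
  have htb : IsTranscendenceBasis k (fun _ : Unit => x) := by
    apply AlgebraicIndependent.isTranscendenceBasis_of_lift_trdeg_le_of_finite hind
    rw [hF.trdeg_eq_one]
    simp
  have halg : Algebra.IsAlgebraic (Algebra.adjoin k (Set.range (fun _ : Unit => x))) F :=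
    htb.isAlgebraic
  have halg2 : Algebra.IsAlgebraic k⟮x⟯ F := by
    have hr : Set.range (fun _ : Unit => x) = {x} := by ext; simp
    rw [hr] at halg
    constructor
    intro y
    obtain ⟨p, hp0, hp⟩ := halg.isAlgebraic y
    refine ⟨p.map (algebraMap (Algebra.adjoin k {x}) k⟮x⟯), ?_, ?_⟩
    · rwa [Ne, Polynomial.map_eq_zero_iff]
      exact (FaithfulSMul.algebraMap_injective _ _)
    · rw [Polynomial.aeval_map_algebraMap]
      exact hp
  obtain ⟨t, ht⟩ := hF.fg
  have h1 : (IntermediateField.adjoin k⟮x⟯ (t : Set F)) = ⊤ := by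
    rw [eq_top_iff]
    intro y _
    have hy : y ∈ IntermediateField.adjoin k (t : Set F) := by rw [ht]; trivial
    have : IntermediateField.adjoin k (t : Set F) ≤
        (IntermediateField.adjoin k⟮x⟯ (t : Set F)).restrictScalars k := by
      rw [IntermediateField.adjoin_le_iff]
      intro z hz
      exact IntermediateField.subset_adjoin k⟮x⟯ (t : Set F) hz
    exact this hy
  have h2 : FiniteDimensional k⟮x⟯ (IntermediateField.adjoin k⟮x⟯ (t : Set F)) := by
    apply IntermediateField.finiteDimensional_adjoin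
    intro z _
    exact (halg2.isAlgebraic z).isIntegral
  rw [h1] at h2
  exact (IntermediateField.topEquiv (F := k⟮x⟯) (E := F)).toLinearEquiv.finiteDimensional

section Dedekind

variable {S : Type u} [CommRing S] [IsDedekindDomain S] [Algebra S F] [IsFractionRing S F]

/-- If the local ring of `P` is the valuation ring of the prime `v`, the normalised valuations
agree. -/
lemma val_eq_of_ring_eq (P : CurvePt k F) (v : HeightOneSpectrum S)
    (h : P.ring = (v.valuation F).valuationSubring) (f : F) : P.val f = v.valuation F f := by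
  have hmem : ∀ g : F, P.val g ≤ 1 ↔ v.valuation F g ≤ 1 := by
    intro g
    rw [← P.mem_ring_iff_val, h, Valuation.mem_valuationSubring_iff]
  have hle : ∀ a b : F, P.val a ≤ P.val b ↔ v.valuation F a ≤ v.valuation F b := by
    intro a b
    rcases eq_or_ne b 0 with rfl | hb
    · simp
    · have h1 := hmem (a / b)
      rw [map_div₀, map_div₀, div_le_one₀ (zero_lt_iff.mpr (P.val_ne_zero hb)),
        div_le_one₀ (zero_lt_iff.mpr (by simpa using hb))] at h1
      exact h1
  obtain ⟨t, ht⟩ := (IsDiscreteValuationRing.maximalIdeal P.ring).valuation_exists_uniformizer F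
  obtain ⟨s, hs⟩ := v.valuation_exists_uniformizer F
  have hlt1 : ∀ y : WithZero (Multiplicative ℤ), y < 1 → y ≤ WithZero.exp (-1 : ℤ) := by
    intro y hy
    rcases eq_or_ne y 0 with rfl | hy0
    · simp
    · rw [← WithZero.exp_log hy0, ← WithZero.exp_zero, WithZero.exp_lt_exp] at hy
      rw [← WithZero.exp_log hy0, WithZero.exp_le_exp]
      omega
  have e1 : (WithZero.exp (-1 : ℤ)) < (1 : WithZero (Multiplicative ℤ)) := by
    rw [← WithZero.exp_zero, WithZero.exp_lt_exp]
    norm_num
  have ht' : v.valuation F t = WithZero.exp (-1 : ℤ) := by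
    have ha : v.valuation F t < 1 := by
      rw [← not_le, ← map_one (v.valuation F), ← hle, not_le, map_one]
      change (IsDiscreteValuationRing.maximalIdeal P.ring).valuation F t < 1
      rw [ht]; exact e1
    have hb : P.val s < 1 := by
      rw [← not_le, ← map_one P.val, hle, not_le, map_one, hs]
      exact e1
    apply le_antisymm (hlt1 _ ha)
    rw [← hs, ← hle]
    refine (hlt1 _ hb).trans (le_of_eq ht.symm)
  rcases eq_or_ne f 0 with rfl | hf
  · simp
  · have key : P.val f = P.val (t ^ (-(WithZero.log (P.val f)))) := by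
      rw [map_zpow₀]
      change P.val f = ((IsDiscreteValuationRing.maximalIdeal P.ring).valuation F t) ^ _
      rw [ht, ← WithZero.exp_zsmul]
      simp [WithZero.exp_log (P.val_ne_zero hf)]
    have key2 : v.valuation F f = v.valuation F (t ^ (-(WithZero.log (P.val f)))) := by
      apply le_antisymm
      · rw [← hle]; exact key.le
      · rw [← hle]; exact key.ge
    rw [key2, key, map_zpow₀, map_zpow₀, ht']
    change ((IsDiscreteValuationRing.maximalIdeal P.ring).valuation F t) ^ _ = _
    rw [ht]
    simp

/-- The closed point attached to a prime of a Dedekind domain inside `F` containing `k`. -/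
noncomputable def ptOfPrime [Algebra k S] [IsScalarTower k S F] (v : HeightOneSpectrum S) :
    CurvePt k F where
  ring := (v.valuation F).valuationSubring
  const_mem c := by
    rw [Valuation.mem_valuationSubring_iff, IsScalarTower.algebraMap_apply k S F]
    exact v.valuation_le_one _
  isDVR := (v.valuation F).valuationSubring_isDiscreteValuationRing

lemma CurvePt.ring_ne_top (P : CurvePt k F) : P.ring ≠ ⊤ := by
  intro h
  obtain ⟨t, ht0, ht⟩ := P.exists_ord_eq_one
  have h1 : t⁻¹ ∈ P.ring := by rw [h]; trivial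
  rw [P.mem_ring_iff (inv_ne_zero ht0), P.ord_inv, ht] at h1
  omega

/-- valuation rings of discrete valuations are maximal -/
lemma CurvePt.eq_of_le (P : CurvePt k F) {R : ValuationSubring F} (h : P.ring ≤ R) (hR : R ≠ ⊤) :
    R = P.ring := by
  apply le_antisymm _ h
  intro y hy
  by_contra hyP
  apply hR
  have hy0 : y ≠ 0 := by
    rintro rfl
    exact hyP (zero_mem _)
  rw [P.mem_ring_iff hy0, not_le] at hyP
  rw [eq_top_iff]
  intro z _
  rcases eq_or_ne z 0 with rfl | hz
  · exact zero_mem _
  -- choose `n` large so that `z * y ^ (-n)` lies in `P.ring`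
  obtain ⟨n, hn⟩ : ∃ n : ℕ, 0 ≤ P.ord z - n * P.ord y := by
    refine ⟨(P.ord z).natAbs, ?_⟩
    have h1 : P.ord y ≤ -1 := by omega
    have h2 : -((P.ord z).natAbs : ℤ) ≤ P.ord z := by omega
    nlinarith [Int.natCast_nonneg (P.ord z).natAbs]
  have h3 : z * (y ^ n)⁻¹ ∈ P.ring := by
    rw [P.mem_ring_iff (mul_ne_zero hz (inv_ne_zero (pow_ne_zero n hy0))),
      P.ord_mul hz (inv_ne_zero (pow_ne_zero n hy0)), P.ord_inv, P.ord_pow hy0]
    omega
  have h4 : z = z * (y ^ n)⁻¹ * y ^ n := by
    field_simp
  rw [h4]
  exact mul_mem (h h3) (pow_mem hy n)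

lemma CurvePt.ext' {P Q : CurvePt k F} (h : P.ring = Q.ring) : P = Q := by
  cases P; cases Q; congr

variable [Algebra k S] [IsScalarTower k S F]

/-- A closed point whose local ring contains `S` comes from a prime of `S`. -/
lemma exists_prime_of_le (P : CurvePt k F) (h : ∀ s : S, algebraMap S F s ∈ P.ring) :
    ∃ v : HeightOneSpectrum S, ptOfPrime (k := k) v = P := by
  let φ : S →+* P.ring := (algebraMap S F).codRestrict P.ring.toSubring h
  let q : Ideal S := (IsLocalRing.maximalIdeal P.ring).comap φ
  have hmem : ∀ s : S, s ∈ q ↔ P.val (algebraMap S F s) < 1 := by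
    intro s
    have : s ∈ q ↔ φ s ∈ IsLocalRing.maximalIdeal P.ring := Iff.rfl
    rw [this]
    exact ((IsDiscreteValuationRing.maximalIdeal P.ring).valuation_lt_one_iff_mem (K := F)
      (φ s)).symm
  have hqp : q.IsPrime := inferInstance
  have hq0 : q ≠ ⊥ := by
    intro hq
    apply P.ring_ne_top
    rw [eq_top_iff]
    intro z _
    obtain ⟨a, b, hb, rfl⟩ := IsFractionRing.div_surjective S z
    have hb0 : b ≠ 0 := nonZeroDivisors.ne_zero hb
    have hb1 : b ∉ q := by rw [hq]; simpa using hb0
    rw [hmem, not_lt] at hb1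
    rw [P.mem_ring_iff_val, map_div₀]
    have ha1 : P.val (algebraMap S F a) ≤ 1 := P.mem_ring_iff_val.mp (h a)
    exact div_le_one_of_le₀ (ha1.trans hb1) zero_le
  let v : HeightOneSpectrum S := ⟨q, hqp, hq0⟩
  refine ⟨v, ?_⟩
  apply CurvePt.ext'
  symm
  apply CurvePt.eq_of_le (ptOfPrime (k := k) v) _ P.ring_ne_top
  intro z hz
  have hz' : v.valuation F z ≤ 1 := hz
  obtain ⟨n, d, hnd⟩ := v.exists_primeCompl_mul_eq_of_integer z hz'
  have hd : ¬ P.val (algebraMap S F d) < 1 := fun hlt => d.2 ((hmem d).mpr hlt)
  have hd1 : P.val (algebraMap S F d) = 1 :=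
    le_antisymm (P.mem_ring_iff_val.mp (h d)) (not_lt.mp hd)
  rw [P.mem_ring_iff_val]
  have := congrArg P.val hnd
  rw [map_mul, hd1, mul_one] at this
  rw [this]
  exact P.mem_ring_iff_val.mp (h n)

lemma ptOfPrime_injective : Function.Injective (ptOfPrime (k := k) (F := F) (S := S)) := by
  intro v w hvw
  have h1 : (v.valuation F).IsEquiv (w.valuation F) := by
    rw [Valuation.isEquiv_iff_valuationSubring]
    exact congrArg CurvePt.ring hvw
  exact HeightOneSpectrum.eq_of_valuation_isEquiv_valuation h1

lemma ord_ptOfPrime (v : HeightOneSpectrum S) (f : F) :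
    (ptOfPrime (k := k) v).ord f = - WithZero.log (v.valuation F f) := by
  rw [CurvePt.ord_def, val_eq_of_ring_eq (ptOfPrime (k := k) v) v rfl]

lemma ord_ptOfPrime_algebraMap (v : HeightOneSpectrum S) {s : S} (hs : s ≠ 0) :
    (ptOfPrime (k := k) (F := F) v).ord (algebraMap S F s) =
      multiplicity v.asIdeal (Ideal.span {s}) := by
  rw [ord_ptOfPrime, v.valuation_of_algebraMap, v.intValuation_eq_exp_neg_multiplicity hs]
  simp

end Dedekind

section SumZerosAux

variable {R S : Type u} [CommRing R] [CommRing S] [IsDomain R] [IsDedekindDomain S]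
  [Algebra R S] [Module.Finite R S] [Module.Free R S] [FaithfulSMul R S]
  [Algebra k R] [Algebra k S] [IsScalarTower k R S]
  [Algebra R F] [Algebra S F] [IsScalarTower R S F] [IsScalarTower k S F] [IsFractionRing S F]

omit [IsDomain R] [IsDedekindDomain S] [Module.Free R S] [FaithfulSMul R S] in
lemma inertiaDeg_eq_one_aux [IsAlgClosed k] (p : Ideal R) [p.IsMaximal]
    (hs : Function.Surjective (algebraMap k (R ⧸ p))) (q : Ideal S) [q.IsPrime] [q.LiesOver p] :
    q.inertiaDeg R = 1 := by
  have hqm : q.IsMaximal := Ideal.IsMaximal.of_liesOver_isMaximal q p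
  rw [Ideal.inertiaDeg_eq_of_isMaximal p q]
  let _ : Field (R ⧸ p) := Ideal.Quotient.field p
  have hfin : Module.Finite (R ⧸ p) (S ⧸ q) := inferInstance
  -- every element of `S ⧸ q` comes from `k`
  have hint : ∀ z : S ⧸ q, IsIntegral k z := by
    intro z
    have h1 : IsIntegral (R ⧸ p) z := Algebra.IsIntegral.isIntegral z
    obtain ⟨f, hf, hz⟩ := h1
    obtain ⟨g, hg, -, hgm⟩ := Polynomial.lifts_and_degree_eq_and_monic
      (f := algebraMap k (R ⧸ p)) (p := f)
      ((Polynomial.mem_lifts f).mpr ((Polynomial.map_surjective _ hs) f)) hf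
    refine ⟨g, hgm, ?_⟩
    rw [← hg, Polynomial.eval₂_map] at hz
    rwa [IsScalarTower.algebraMap_eq k (R ⧸ p) (S ⧸ q)]
  have hdom : IsDomain (S ⧸ q) := inferInstance
  have hAI : Algebra.IsIntegral k (S ⧸ q) := ⟨hint⟩
  have hbij := IsAlgClosed.algebraMap_bijective_of_isIntegral (k := k) (K := S ⧸ q)
  rw [finrank_eq_one_iff']
  refine ⟨1, one_ne_zero, fun w => ?_⟩
  obtain ⟨c, rfl⟩ := hbij.2 w
  refine ⟨algebraMap k (R ⧸ p) c, ?_⟩
  rw [Algebra.smul_def, mul_one, ← IsScalarTower.algebraMap_apply]

lemma sum_zeros_aux [IsAlgClosed k] (x' : R) (hx' : x' ≠ 0) (hmax : (Ideal.span {x'}).IsMaximal)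
    (hs : Function.Surjective (algebraMap k (R ⧸ Ideal.span {x'})))
    (hR : ∀ P : CurvePt k F, algebraMap R F x' ∈ P.ring → ∀ r : R, algebraMap R F r ∈ P.ring) :
    {P : CurvePt k F | 0 < P.ord (algebraMap R F x')}.Finite ∧
      ∑ᶠ (P : CurvePt k F) (_ : P ∈ {P : CurvePt k F | 0 < P.ord (algebraMap R F x')}),
        P.ord (algebraMap R F x') = (finrank R S : ℤ) := by
  classical
  set p : Ideal R := Ideal.span {x'} with hp
  have hpb : p ≠ ⊥ := by simpa [p] using hx'
  have hmap : p.map (algebraMap R S) = Ideal.span {algebraMap R S x'} := by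
    rw [Ideal.map_span, Set.image_singleton]
  have hinj : Function.Injective (algebraMap R S) := FaithfulSMul.algebraMap_injective R S
  have hxS : algebraMap R S x' ≠ 0 := fun h => hx' (hinj (by rw [h, map_zero]))
  have hmap0 : p.map (algebraMap R S) ≠ ⊥ := by rw [hmap]; simpa using hxS
  have hfin : (p.primesOver S).Finite := IsDedekindDomain.primesOver_finite p S
  let _ : Fintype (p.primesOver S) := hfin.fintype
  have hsum := Ideal.sum_ramification_inertia_eq_finrank (S := S) p
  have hinert : ∀ q : p.primesOver S, q.1.inertiaDeg R = 1 := fun q =>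
    inertiaDeg_eq_one_aux p hs q.1
  have hram : ∀ q : p.primesOver S, q.1.ramificationIdx R =
      multiplicity q.1 (Ideal.span {algebraMap R S x'}) := by
    intro q
    rw [← hmap]
    exact Ideal.IsDedekindDomain.ramificationIdx_eq_multiplicity p q.1 hmap0
  have hnb : ∀ q : p.primesOver S, q.1 ≠ ⊥ := fun q => Ideal.ne_bot_of_mem_primesOver hpb q.2
  let e : p.primesOver S → CurvePt k F := fun q => ptOfPrime ⟨q.1, inferInstance, hnb q⟩
  have he : Function.Injective e := by
    intro q r hqr
    have := ptOfPrime_injective (k := k) hqr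
    exact Subtype.ext (congrArg HeightOneSpectrum.asIdeal this)
  have hxF : algebraMap R F x' = algebraMap S F (algebraMap R S x') :=
    IsScalarTower.algebraMap_apply R S F x'
  have hord : ∀ q : p.primesOver S, (e q).ord (algebraMap R F x') =
      (q.1.ramificationIdx R : ℤ) := by
    intro q
    rw [hram q, hxF]
    exact ord_ptOfPrime_algebraMap (k := k) (F := F) ⟨q.1, inferInstance, hnb q⟩ hxS
  have hxF0 : algebraMap R F x' ≠ 0 := by
    rw [hxF]
    intro h
    exact hxS ((IsFractionRing.injective S F) (by rw [h, map_zero]))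
  have hrange : Set.range e = {P : CurvePt k F | 0 < P.ord (algebraMap R F x')} := by
    ext P
    constructor
    · rintro ⟨q, rfl⟩
      rw [Set.mem_ofPred_eq, hord q]
      exact_mod_cast Ideal.ramificationIdx_pos q.1 R
    · intro hP
      rw [Set.mem_ofPred_eq] at hP
      have hxP : algebraMap R F x' ∈ P.ring := (P.mem_ring_iff hxF0).mpr hP.le
      have hRP := hR P hxP
      have hSP : ∀ s : S, algebraMap S F s ∈ P.ring := by
        intro s
        have h1 : IsIntegral R (algebraMap S F s) :=
          (Algebra.IsIntegral.isIntegral (R := R) s).map (IsScalarTower.toAlgHom R S F)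
        let ψ : R →+* P.ring := (algebraMap R F).codRestrict P.ring.toSubring hRP
        let _ : Algebra R P.ring := ψ.toAlgebra
        have : IsScalarTower R P.ring F := IsScalarTower.of_algebraMap_eq fun r => rfl
        have h2 : IsIntegral P.ring (algebraMap S F s) := h1.tower_top
        obtain ⟨y, hy⟩ := IsIntegrallyClosed.algebraMap_eq_of_integral h2
        rw [← hy]
        exact y.2
      obtain ⟨v, rfl⟩ := exists_prime_of_le P hSP
      have hvx : algebraMap R S x' ∈ v.asIdeal := by
        rw [hxF, ord_ptOfPrime_algebraMap v hxS] at hP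
        have h3 : multiplicity v.asIdeal (Ideal.span {algebraMap R S x'}) ≠ 0 := by
          intro h0; rw [h0] at hP; simp at hP
        have h4 : v.asIdeal ∣ Ideal.span {algebraMap R S x'} := by
          by_contra hnd
          exact h3 (multiplicity_eq_zero.mpr hnd)
        exact Ideal.dvd_span_singleton.mp h4
      have hover : v.asIdeal.LiesOver p := by
        constructor
        apply hmax.eq_of_le
        · exact Ideal.IsPrime.ne_top inferInstance
        · rw [hp, Ideal.span_singleton_le_iff_mem]
          exact hvx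
      exact ⟨⟨v.asIdeal, v.isPrime, hover⟩, rfl⟩
  rw [← hrange]
  refine ⟨Set.finite_range e, ?_⟩
  rw [finsum_mem_range he, finsum_eq_sum_of_fintype, ← hsum]
  push_cast
  refine Finset.sum_congr rfl fun q _ => ?_
  rw [hord q, hinert q]
  simp

end SumZerosAux

section SumZeros

lemma isMaximal_span_of_transcendental {x : F} (hx : Transcendental k x) :
    (Ideal.span {(⟨x, Algebra.self_mem_adjoin_singleton k x⟩ : Algebra.adjoin k {x})}).IsMaximal := by
  set e := Polynomial.algEquivOfTranscendental k x hx with he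
  have h1 : (Ideal.span {(Polynomial.X : Polynomial k)}).IsMaximal :=
    PrincipalIdealRing.isMaximal_of_irreducible Polynomial.irreducible_X
  have h2 := Ideal.map_isMaximal_of_equiv e.toRingEquiv (p := Ideal.span {(Polynomial.X : Polynomial k)})
  rw [Ideal.map_span] at h2
  have h3 : (e.toRingEquiv) '' {(Polynomial.X : Polynomial k)} =
      {(⟨x, Algebra.self_mem_adjoin_singleton k x⟩ : Algebra.adjoin k {x})} := by
    rw [Set.image_singleton]
    congr 1
    exact Polynomial.algEquivOfTranscendental_apply_X k x hx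
  rwa [h3] at h2

lemma surjective_quotient_adjoin {x : F} :
    Function.Surjective (algebraMap k (Algebra.adjoin k {x} ⧸
      Ideal.span {(⟨x, Algebra.self_mem_adjoin_singleton k x⟩ : Algebra.adjoin k {x})})) := by
  intro y
  obtain ⟨⟨y, hy⟩, rfl⟩ := Ideal.Quotient.mk_surjective y
  have hy2 : y ∈ (Polynomial.aeval (R := k) x).range := by
    rwa [← Algebra.adjoin_singleton_eq_range_aeval]
  obtain ⟨g, hg⟩ := hy2
  refine ⟨g.coeff 0, ?_⟩
  rw [eq_comm, IsScalarTower.algebraMap_apply k (Algebra.adjoin k {x}) _, Ideal.Quotient.algebraMap_eq,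
    Ideal.Quotient.eq, Ideal.mem_span_singleton]
  refine ⟨Polynomial.aeval (⟨x, Algebra.self_mem_adjoin_singleton k x⟩ : Algebra.adjoin k {x}) g.divX, ?_⟩
  apply Subtype.ext
  have h5 : ((Polynomial.aeval (⟨x, Algebra.self_mem_adjoin_singleton k x⟩ : Algebra.adjoin k {x})
      g.divX : Algebra.adjoin k {x}) : F) = Polynomial.aeval x g.divX := by
    exact (Polynomial.aeval_algHom_apply (Subalgebra.val (Algebra.adjoin k {x}))
      (⟨x, Algebra.self_mem_adjoin_singleton k x⟩ : Algebra.adjoin k {x}) g.divX).symm
  have h6 : g = Polynomial.X * g.divX + Polynomial.C (g.coeff 0) := (Polynomial.X_mul_divX_add g).symm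
  change y - algebraMap k F (g.coeff 0) = x * _
  rw [h5, ← hg]
  change Polynomial.aeval x g - algebraMap k F (g.coeff 0) = x * Polynomial.aeval x g.divX
  have h7 := congrArg (Polynomial.aeval x) h6
  rw [map_add, map_mul, Polynomial.aeval_X, Polynomial.aeval_C] at h7
  rw [h7]
  ring

variable [IsAlgClosed k] [CharZero k]

/-- The degree of the divisor of zeros of a nonconstant function `x` is `[F : k(x)]`. -/
theorem sum_zeros (hF : IsCurveField k F) {x : F} (hx : x ∉ Set.range (algebraMap k F)) :
    {P : CurvePt k F | 0 < P.ord x}.Finite ∧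
      ∑ᶠ (P : CurvePt k F) (_ : P ∈ {P : CurvePt k F | 0 < P.ord x}), P.ord x =
        (finrank k⟮x⟯ F : ℤ) := by
  classical
  have htr := transcendental_of_not_mem hx
  have := finiteDimensional_adjoin hF htr
  have : CharZero k⟮x⟯ := charZero_of_injective_algebraMap (algebraMap k k⟮x⟯).injective
  let R := Algebra.adjoin k {x}
  let x' : R := ⟨x, Algebra.self_mem_adjoin_singleton k x⟩
  have : IsPrincipalIdealRing R :=
    IsPrincipalIdealRing.of_surjective (Polynomial.algEquivOfTranscendental k x htr).toRingEquiv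
      (Polynomial.algEquivOfTranscendental k x htr).surjective
  have : IsDedekindDomain R := inferInstance
  have : Algebra.IsSeparable k⟮x⟯ F := inferInstance
  let S := integralClosure R F
  have : IsFractionRing S F := integralClosure.isFractionRing_of_finite_extension k⟮x⟯ F
  have : IsDedekindDomain S := integralClosure.isDedekindDomain R k⟮x⟯ F
  have : Module.Finite R S := IsIntegralClosure.finite R k⟮x⟯ F S
  have : Module.Free R S := inferInstance
  have hx0 : x ≠ 0 := by
    rintro rfl
    exact hx ⟨0, map_zero _⟩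
  have hx'0 : x' ≠ 0 := fun h => hx0 (congrArg Subtype.val h)
  have hfaith : FaithfulSMul R S := by
    rw [faithfulSMul_iff_algebraMap_injective]
    intro a b hab
    have h1 := congrArg (algebraMap S F) hab
    rw [← IsScalarTower.algebraMap_apply R S F, ← IsScalarTower.algebraMap_apply R S F] at h1
    exact Subtype.ext h1
  have htow : IsScalarTower k S F := inferInstance
  have htow2 : IsScalarTower k R S := inferInstance
  have hmain := sum_zeros_aux (k := k) (F := F) (S := S) x' hx'0
    (isMaximal_span_of_transcendental htr) surjective_quotient_adjoin (by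
      intro P hP r
      have hle : Algebra.adjoin k {x} ≤
          ({ P.ring.toSubring with algebraMap_mem' := P.const_mem } : Subalgebra k F) := by
        rw [Algebra.adjoin_le_iff, Set.singleton_subset_iff]
        exact hP
      exact hle r.2)
  have hfr : finrank R S = finrank k⟮x⟯ F := (IsFractionRing.finrank_eq R k⟮x⟯ S F).symm
  rw [hfr] at hmain
  exact hmain

omit [IsAlgClosed k] [CharZero k] in
lemma adjoin_inv_eq (x : F) : k⟮x⁻¹⟯ = k⟮x⟯ := by
  apply le_antisymm
  · rw [IntermediateField.adjoin_simple_le_iff]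
    exact inv_mem (IntermediateField.mem_adjoin_simple_self k x)
  · rw [IntermediateField.adjoin_simple_le_iff]
    have := inv_mem (IntermediateField.mem_adjoin_simple_self k x⁻¹)
    rwa [inv_inv] at this

omit [IsAlgClosed k] [CharZero k] in
lemma CurvePt.ord_algebraMap (P : CurvePt k F) (c : k) : P.ord (algebraMap k F c) = 0 := by
  rcases eq_or_ne c 0 with rfl | hc
  · simp
  · have h0 : algebraMap k F c ≠ 0 := by simpa using hc
    have h1 := (P.mem_ring_iff h0).mp (P.const_mem c)
    have h2 : algebraMap k F c⁻¹ ≠ 0 := by simpa using hc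
    have h3 := (P.mem_ring_iff h2).mp (P.const_mem c⁻¹)
    rw [map_inv₀, P.ord_inv] at h3
    omega

/-- A nonzero rational function has finitely many zeros and poles. -/
theorem finite_support_ord (hF : IsCurveField k F) (f : F) :
    {P : CurvePt k F | P.ord f ≠ 0}.Finite := by
  by_cases hf : f ∈ Set.range (algebraMap k F)
  · obtain ⟨c, rfl⟩ := hf
    simp [CurvePt.ord_algebraMap]
  · have hf' : f⁻¹ ∉ Set.range (algebraMap k F) := by
      rintro ⟨c, hc⟩
      exact hf ⟨c⁻¹, by rw [map_inv₀, hc, inv_inv]⟩
    refine ((sum_zeros hF hf).1.union (sum_zeros hF hf').1).subset ?_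
    intro P hP
    rw [Set.mem_ofPred_eq] at hP
    rcases lt_or_gt_of_ne hP with h | h
    · right
      rw [Set.mem_ofPred_eq, P.ord_inv]
      omega
    · left
      exact h

/-- The divisor of a nonzero rational function has degree zero. -/
theorem sum_ord_eq_zero (hF : IsCurveField k F) (f : F) :
    ∑ᶠ P : CurvePt k F, P.ord f = 0 := by
  classical
  by_cases hf : f ∈ Set.range (algebraMap k F)
  · obtain ⟨c, rfl⟩ := hf
    simp [CurvePt.ord_algebraMap]
  · have hf' : f⁻¹ ∉ Set.range (algebraMap k F) := by
      rintro ⟨c, hc⟩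
      exact hf ⟨c⁻¹, by rw [map_inv₀, hc, inv_inv]⟩
    obtain ⟨h1, h2⟩ := sum_zeros hF hf
    obtain ⟨h3, h4⟩ := sum_zeros hF hf'
    have hdisj : Disjoint {P : CurvePt k F | 0 < P.ord f} {P : CurvePt k F | 0 < P.ord f⁻¹} := by
      rw [Set.disjoint_left]
      intro P hP hP'
      rw [Set.mem_ofPred_eq] at hP hP'
      rw [P.ord_inv] at hP'
      omega
    have h5 := finsum_mem_union (f := fun P : CurvePt k F => P.ord f) hdisj h1 h3
    have h6 : ∑ᶠ P : CurvePt k F, P.ord f =
        ∑ᶠ (P : CurvePt k F) (_ : P ∈ {P : CurvePt k F | 0 < P.ord f} ∪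
          {P : CurvePt k F | 0 < P.ord f⁻¹}), P.ord f := by
      rw [← finsum_mem_univ]
      apply finsum_mem_inter_support_eq
      ext P
      simp only [Set.univ_inter, Function.mem_support, Set.mem_inter_iff, Set.mem_union,
        Set.mem_ofPred_eq, P.ord_inv]
      omega
    have h7 : ∑ᶠ (P : CurvePt k F) (_ : P ∈ {P : CurvePt k F | 0 < P.ord f⁻¹}), P.ord f =
        - ∑ᶠ (P : CurvePt k F) (_ : P ∈ {P : CurvePt k F | 0 < P.ord f⁻¹}), P.ord f⁻¹ := by
      rw [← finsum_mem_neg_distrib _ h3]
      exact finsum_mem_congr rfl fun P _ => by rw [P.ord_inv]; ring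
    rw [h6, h5, h2, h7, h4, adjoin_inv_eq]
    ring

end SumZeros

end Pool.Agent.Helper11
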