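import Mathlib

/-!
# Operators on `ℓ²(ℕ)` by matrix entries
-/

namespace Pool.Agent.Helper75.KT

open scoped ComplexOrder InnerProductSpace

/-- the Hilbert space `ℓ²(ℕ)` -/
abbrev H2 : Type := lp (fun _ : ℕ => ℂ) 2

/-- the standard basis -/
noncomputable def eb (t : ℕ) : H2 := lp.single 2 t (1 : ℂ)

/-- matrix entries -/
noncomputable def ent (T : H2 →L[ℂ] H2) (s t : ℕ) : ℂ := T (eb t) s

lemma eb_apply (t s : ℕ) : eb t s = if s = t then 1 else 0 := by
  rw [eb, lp.single_apply, Pi.single_apply]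

lemma norm_eb (t : ℕ) : ‖eb t‖ = 1 := by
  rw [eb, lp.norm_single (by norm_num), norm_one]

lemma inner_eb (t : ℕ) (f : H2) : ⟪eb t, f⟫_ℂ = f t := by
  rw [eb, lp.inner_single_left]
  simp

lemma smul_eb (t : ℕ) (c : ℂ) : lp.single 2 t c = c • eb t := by
  rw [eb, ← lp.single_smul, smul_eq_mul, mul_one]

lemma hasSum_eb (f : H2) : HasSum (fun t => f t • eb t) f := by
  have := lp.hasSum_single (p := 2) (by norm_num) f
  simpa only [smul_eb] using this

lemma coe_sum (F : Finset ℕ) (c : ℕ → ℂ) (v : ℕ → H2) (s : ℕ) :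
    (∑ t ∈ F, c t • v t : H2) s = ∑ t ∈ F, c t * v t s := by
  classical
  induction F using Finset.induction_on with
  | empty => simp
  | insert a F ha ih =>
    rw [Finset.sum_insert ha, Finset.sum_insert ha, lp.coeFn_add, Pi.add_apply, ih,
      lp.coeFn_smul, Pi.smul_apply, smul_eq_mul]

lemma sum_range_blocks {M : Type*} [AddCommMonoid M] (f : ℕ → M) (B n : ℕ) :
    ∑ s ∈ Finset.range (n * B), f s = ∑ q ∈ Finset.range n, ∑ j ∈ Finset.range B, f (q * B + j) := by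
  induction n with
  | zero => simp
  | succ n ih =>
    rw [Nat.succ_mul, Finset.sum_range_add, ih, Finset.sum_range_succ]

lemma norm_sq_H2 (f : H2) (F : Finset ℕ) : ∑ t ∈ F, ‖f t‖ ^ 2 ≤ ‖f‖ ^ 2 := by
  have h1 := lp.sum_rpow_le_norm_rpow (p := 2) (by norm_num) f F
  simpa using h1

theorem exists_blockOp (B : ℕ) (hB : 0 < B) (M : ℕ → ℕ → ℂ) (C : ℝ) (hM : ∀ s t, ‖M s t‖ ≤ C)
    (hband : ∀ s t, s / B ≠ t / B → M s t = 0) : ∃ T : H2 →L[ℂ] H2, ∀ s t, ent T s t = M s t := by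
  classical
  have hC : 0 ≤ C := (norm_nonneg _).trans (hM 0 0)
  let φ : H2 → ℕ → ℂ := fun ξ s => ∑ r ∈ Finset.range B, M s (s / B * B + r) * ξ (s / B * B + r)
  have hφ1 : ∀ ξ s, ‖φ ξ s‖ ^ 2 ≤ C ^ 2 * B * ∑ r ∈ Finset.range B, ‖ξ (s / B * B + r)‖ ^ 2 := by
    intro ξ s
    have h1 : ‖φ ξ s‖ ≤ ∑ r ∈ Finset.range B, C * ‖ξ (s / B * B + r)‖ := by
      refine (norm_sum_le _ _).trans (Finset.sum_le_sum fun r _ => ?_)
      rw [norm_mul]
      exact mul_le_mul_of_nonneg_right (hM _ _) (norm_nonneg _)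
    rw [← Finset.mul_sum] at h1
    have h2 : (∑ r ∈ Finset.range B, ‖ξ (s / B * B + r)‖) ^ 2 ≤
        B * ∑ r ∈ Finset.range B, ‖ξ (s / B * B + r)‖ ^ 2 := by
      have := sq_sum_le_card_mul_sum_sq (s := Finset.range B)
        (f := fun r => ‖ξ (s / B * B + r)‖)
      simpa using this
    calc ‖φ ξ s‖ ^ 2 ≤ (C * ∑ r ∈ Finset.range B, ‖ξ (s / B * B + r)‖) ^ 2 := by
          gcongr
      _ = C ^ 2 * (∑ r ∈ Finset.range B, ‖ξ (s / B * B + r)‖) ^ 2 := by ring
      _ ≤ C ^ 2 * (B * ∑ r ∈ Finset.range B, ‖ξ (s / B * B + r)‖ ^ 2) := by gcongr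
      _ = _ := by ring
  have hφ2 : ∀ ξ : H2, ∀ F : Finset ℕ, ∑ s ∈ F, ‖φ ξ s‖ ^ 2 ≤ (C * B * ‖ξ‖) ^ 2 := by
    intro ξ F
    obtain ⟨n, hn⟩ : ∃ n, F ⊆ Finset.range (n * B) := by
      refine ⟨F.sup id + 1, fun s hs => ?_⟩
      rw [Finset.mem_range]
      have h1 : s ≤ F.sup id := Finset.le_sup (f := id) hs
      nlinarith
    calc ∑ s ∈ F, ‖φ ξ s‖ ^ 2 ≤ ∑ s ∈ Finset.range (n * B), ‖φ ξ s‖ ^ 2 :=
          Finset.sum_le_sum_of_subset_of_nonneg hn fun _ _ _ => by positivity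
      _ ≤ ∑ s ∈ Finset.range (n * B),
            C ^ 2 * B * ∑ r ∈ Finset.range B, ‖ξ (s / B * B + r)‖ ^ 2 :=
          Finset.sum_le_sum fun s _ => hφ1 ξ s
      _ = C ^ 2 * B * ∑ q ∈ Finset.range n, ∑ j ∈ Finset.range B,
            ∑ r ∈ Finset.range B, ‖ξ (q * B + r)‖ ^ 2 := by
          rw [sum_range_blocks, Finset.mul_sum]
          refine Finset.sum_congr rfl fun q _ => ?_
          rw [Finset.mul_sum]
          refine Finset.sum_congr rfl fun j hj => ?_
          have : (q * B + j) / B = q := by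
            rw [mul_comm, Nat.mul_add_div hB, Nat.div_eq_of_lt (Finset.mem_range.mp hj), add_zero]
          rw [this]
      _ = C ^ 2 * B ^ 2 * ∑ q ∈ Finset.range n, ∑ r ∈ Finset.range B, ‖ξ (q * B + r)‖ ^ 2 := by
          simp only [Finset.sum_const, Finset.card_range, nsmul_eq_mul]
          rw [← Finset.mul_sum]
          ring
      _ = C ^ 2 * B ^ 2 * ∑ t ∈ Finset.range (n * B), ‖ξ t‖ ^ 2 := by
          rw [sum_range_blocks (fun t => ‖ξ t‖ ^ 2)]
      _ ≤ C ^ 2 * B ^ 2 * ‖ξ‖ ^ 2 := by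
          gcongr
          exact norm_sq_H2 ξ _
      _ = _ := by ring
  have hmem : ∀ ξ : H2, Memℓp (φ ξ) 2 := by
    intro ξ
    refine memℓp_gen' (C := (C * B * ‖ξ‖) ^ 2) fun F => ?_
    simpa using hφ2 ξ F
  let L : H2 →ₗ[ℂ] H2 :=
    { toFun := fun ξ => ⟨φ ξ, hmem ξ⟩
      map_add' := by
        intro ξ η
        ext s
        change φ (ξ + η) s = φ ξ s + φ η s
        simp only [φ, lp.coeFn_add, Pi.add_apply, mul_add, Finset.sum_add_distrib]
      map_smul' := by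
        intro c ξ
        ext s
        change φ (c • ξ) s = c • φ ξ s
        simp only [φ, lp.coeFn_smul, Pi.smul_apply, smul_eq_mul, Finset.mul_sum]
        exact Finset.sum_congr rfl fun r _ => by ring }
  let T : H2 →L[ℂ] H2 := L.mkContinuous (C * B) fun ξ => by
    refine lp.norm_le_of_forall_sum_le (p := 2) (by norm_num) (by positivity) fun F => ?_
    simp only [ENNReal.toReal_ofNat, Real.rpow_ofNat]
    exact hφ2 ξ F
  refine ⟨T, fun s t => ?_⟩
  change φ (eb t) s = M s t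
  simp only [φ, eb_apply]
  by_cases hst : s / B = t / B
  · have ht : t = s / B * B + t % B := by
      rw [hst]; exact (Nat.div_add_mod' t B).symm
    rw [Finset.sum_eq_single (t % B)]
    · rw [← ht, if_pos rfl, mul_one]
    · intro r _ hr
      rw [if_neg, mul_zero]
      intro h
      apply hr
      omega
    · intro h
      exact absurd (Finset.mem_range.mpr (Nat.mod_lt t hB)) h
  · rw [hband s t hst]
    refine Finset.sum_eq_zero fun r hr => ?_
    rw [if_neg, mul_zero]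
    intro h
    apply hst
    rw [← h, mul_comm, Nat.mul_add_div hB, Nat.div_eq_of_lt (Finset.mem_range.mp hr), add_zero]

theorem ent_ext {S T : H2 →L[ℂ] H2} (h : ∀ s t, ent S s t = ent T s t) : S = T := by
  have h1 : ∀ t, S (eb t) = T (eb t) := fun t => by
    ext s
    exact h s t
  ext1 f
  have hS := (hasSum_eb f).mapL S
  have hT := (hasSum_eb f).mapL T
  refine hS.unique ?_
  convert hT using 1
  funext t
  rw [map_smul, map_smul, h1]

theorem ent_one (s t : ℕ) : ent 1 s t = if s = t then 1 else 0 := eb_apply t s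

theorem ent_add (S T : H2 →L[ℂ] H2) (s t : ℕ) : ent (S + T) s t = ent S s t + ent T s t := rfl

theorem ent_smul (c : ℂ) (T : H2 →L[ℂ] H2) (s t : ℕ) : ent (c • T) s t = c * ent T s t := rfl

lemma ent_eq_inner (T : H2 →L[ℂ] H2) (s t : ℕ) : ent T s t = ⟪eb s, T (eb t)⟫_ℂ :=
  (inner_eb s _).symm

theorem ent_star (T : H2 →L[ℂ] H2) (s t : ℕ) : ent (star T) s t = star (ent T t s) := by
  rw [ent_eq_inner, ent_eq_inner, ContinuousLinearMap.star_eq_adjoint,
    ContinuousLinearMap.adjoint_inner_right]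
  exact (inner_conj_symm _ _).symm

/-- product when the right factor has finitely supported columns -/
theorem ent_mul (S T : H2 →L[ℂ] H2) (s t : ℕ) (F : Finset ℕ) (hF : ∀ r, r ∉ F → ent T r t = 0) :
    ent (S * T) s t = ∑ r ∈ F, ent S s r * ent T r t := by
  classical
  have h1 : T (eb t) = ∑ r ∈ F, ent T r t • eb r := by
    ext s
    rw [coe_sum]
    simp only [eb_apply, mul_ite, mul_one, mul_zero, Finset.sum_ite_eq]
    split_ifs with hs
    · rfl
    · exact hF s hs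
  change S (T (eb t)) s = _
  rw [h1, map_sum]
  simp only [map_smul]
  rw [coe_sum]
  exact Finset.sum_congr rfl fun r _ => mul_comm _ _

theorem norm_ent_le (T : H2 →L[ℂ] H2) (s t : ℕ) : ‖ent T s t‖ ≤ ‖T‖ := by
  have h1 := lp.norm_apply_le_norm (p := 2) (by norm_num) (T (eb t)) s
  have h2 := T.le_opNorm (eb t)
  rw [norm_eb, mul_one] at h2
  exact h1.trans h2

/-- finitely supported vectors -/
noncomputable def fv {N : ℕ} (u : Fin N → ℂ) : H2 := ∑ s : Fin N, u s • eb s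

lemma fv_apply {N : ℕ} (u : Fin N → ℂ) (s : Fin N) : fv u s = u s := by
  have h1 : ⟪eb s, fv u⟫_ℂ = u s := by
    rw [fv, inner_sum, Finset.sum_eq_single s]
    · rw [inner_smul_right, inner_eb, eb_apply, if_pos rfl, mul_one]
    · intro b _ hb
      rw [inner_smul_right, inner_eb, eb_apply, if_neg, mul_zero]
      exact fun h => hb (Fin.ext h.symm)
    · intro h; exact absurd (Finset.mem_univ s) h
  rwa [inner_eb] at h1

lemma inner_fv_left {N : ℕ} (u : Fin N → ℂ) (f : H2) : ⟪fv u, f⟫_ℂ = ∑ s, star (u s) * f s := by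
  rw [fv, sum_inner]
  refine Finset.sum_congr rfl fun s _ => ?_
  rw [inner_smul_left, inner_eb]
  rfl

lemma norm_fv {N : ℕ} (u : Fin N → ℂ) : ((‖fv u‖ ^ 2 : ℝ) : ℂ) = ∑ s, u s * star (u s) := by
  have h1 := inner_self_eq_norm_sq_to_K (𝕜 := ℂ) (fv u)
  have h2 : ((‖fv u‖ ^ 2 : ℝ) : ℂ) = ⟪fv u, fv u⟫_ℂ := by
    rw [h1]; push_cast; rfl
  rw [h2, inner_fv_left]
  refine Finset.sum_congr rfl fun s _ => ?_
  rw [fv_apply, mul_comm]

lemma form_fv {N : ℕ} (T : H2 →L[ℂ] H2) (u : Fin N → ℂ) :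
    ∑ s : Fin N, ∑ t : Fin N, star (u s) * ent T s t * u t = ⟪fv u, T (fv u)⟫_ℂ := by
  rw [inner_fv_left]
  refine Finset.sum_congr rfl fun s _ => ?_
  have h1 : (T (fv u)) s = ∑ t : Fin N, u t * ent T s t := by
    have h2 : T (fv u) = ∑ t : Fin N, u t • T (eb t) := by
      rw [fv, map_sum]
      exact Finset.sum_congr rfl fun t _ => map_smul _ _ _
    rw [← inner_eb, h2, inner_sum]
    refine Finset.sum_congr rfl fun t _ => ?_
    rw [inner_smul_right, ← ent_eq_inner]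
  rw [h1, Finset.mul_sum]
  exact Finset.sum_congr rfl fun t _ => by ring

/-- numerical range on finitely supported vectors -/
theorem norm_form_le (T : H2 →L[ℂ] H2) (N : ℕ) (u : Fin N → ℂ)
    (hu : ∑ s, u s * star (u s) = 1) :
    ‖∑ s : Fin N, ∑ t : Fin N, star (u s) * ent T s t * u t‖ ≤ ‖T‖ := by
  have h1 : ‖fv u‖ = 1 := by
    have h2 := norm_fv u
    rw [hu] at h2
    have h3 : ‖fv u‖ ^ 2 = 1 := by exact_mod_cast h2
    nlinarith [norm_nonneg (fv u)]
  rw [form_fv]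
  refine (norm_inner_le_norm _ _).trans ?_
  rw [h1, one_mul]
  have h4 := T.le_opNorm (fv u)
  rwa [h1, mul_one] at h4

/-- an operator `c` of norm one almost attains its norm on finitely supported unit vectors,
supported in `[0, 2^l)` for all large `l`. -/
theorem exists_fin_vec (c : H2 →L[ℂ] H2) (hc : ‖c‖ = 1) : ∃ l₀ : ℕ, ∀ l ≥ l₀,
    ∃ u : Fin (2 ^ l) → ℂ, ∑ s, u s * star (u s) = 1 ∧
      3 / 4 < (∑ s : Fin (2 ^ l), ∑ t : Fin (2 ^ l), star (u s) * ent (star c * c) s t * u t).re := by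
  obtain ⟨x, hx1, hx2⟩ := c.exists_lt_apply_of_lt_opNorm (r := 9 / 10) (by rw [hc]; norm_num)
  -- truncations
  let xN : ℕ → H2 := fun N => ∑ t ∈ Finset.range N, x t • eb t
  have hlim : Filter.Tendsto xN Filter.atTop (nhds x) := (hasSum_eb x).tendsto_sum_nat
  have h1 : ∀ᶠ N in Filter.atTop, ‖xN N‖ < 1 := hlim.norm.eventually (gt_mem_nhds hx1)
  have h2 : ∀ᶠ N in Filter.atTop, 9 / 10 < ‖c (xN N)‖ :=
    ((c.continuous.tendsto x).comp hlim).norm.eventually (lt_mem_nhds hx2)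
  obtain ⟨N₀, hN₀⟩ := Filter.eventually_atTop.mp (h1.and h2)
  refine ⟨N₀, fun l hl => ?_⟩
  have hl2 : N₀ ≤ 2 ^ l := hl.trans (Nat.lt_two_pow_self).le
  obtain ⟨h3, h4⟩ := hN₀ (2 ^ l) hl2
  set y := xN (2 ^ l) with hy
  have hy0 : 0 < ‖y‖ := by
    rw [norm_pos_iff]
    intro h
    rw [h, map_zero, norm_zero] at h4
    linarith
  let u : Fin (2 ^ l) → ℂ := fun s => ((‖y‖⁻¹ : ℝ) : ℂ) * x s
  have hfv : fv u = ((‖y‖⁻¹ : ℝ) : ℂ) • y := by
    rw [fv, hy]
    change ∑ s : Fin (2 ^ l), (((‖y‖⁻¹ : ℝ) : ℂ) * x s) • eb s = _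
    rw [Finset.smul_sum, Finset.sum_range]
    exact Finset.sum_congr rfl fun s _ => by rw [mul_smul]
  have hn : ‖fv u‖ = 1 := by
    rw [hfv, norm_smul, Complex.norm_real, Real.norm_of_nonneg (by positivity)]
    exact inv_mul_cancel₀ hy0.ne'
  refine ⟨u, ?_, ?_⟩
  · rw [← norm_fv, hn]; norm_num
  · rw [form_fv]
    have h5 : ⟪fv u, (star c * c) (fv u)⟫_ℂ = ((‖c (fv u)‖ ^ 2 : ℝ) : ℂ) := by
      change ⟪fv u, star c (c (fv u))⟫_ℂ = _
      rw [ContinuousLinearMap.star_eq_adjoint, ContinuousLinearMap.adjoint_inner_right,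
        inner_self_eq_norm_sq_to_K]
      push_cast
      rfl
    rw [h5, Complex.ofReal_re]
    have h6 : 9 / 10 < ‖c (fv u)‖ := by
      rw [hfv, map_smul, norm_smul, Complex.norm_real, Real.norm_of_nonneg (by positivity)]
      have h7 : 1 ≤ ‖y‖⁻¹ := (one_le_inv₀ hy0).mpr h3.le
      nlinarith [norm_nonneg (c y)]
    nlinarith

end Pool.Agent.Helper75.KT
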